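import Mathlib

/-!
# Riemannian geometry in coordinates: Christoffel symbols, curvature, Hessian, Ricci solitons

The formulas make sense over a commutative `ℝ`-algebra `A` with maps `d i : A → A`, `i ∈ ι`. In the
geometric case `A` is the ring of functions on `ℝ^ι`, `ι` the finite set of the coordinates, and
`d i = pd i` is the partial derivative.
-/

open Finset
open scoped ContDiff

namespace RS61

noncomputable section

variable {ι A : Type} [Fintype ι] [CommRing A] [Algebra ℝ A]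

/-- The Christoffel symbols `Γ^c_{ab} = 1/2 ∑_e g^{ce} (∂_a g_{be} + ∂_b g_{ae} - ∂_e g_{ab})`; `gi` is the
inverse matrix of `g`. -/
def chr (d : ι → A → A) (g gi : ι → ι → A) (c a b : ι) : A :=
  (1 / 2 : ℝ) • ∑ e, gi c e * (d a (g b e) + d b (g a e) - d e (g a b))

/-- The Ricci curvature
`R_{ab} = ∑_c (∂_c Γ^c_{ab} - ∂_b Γ^c_{ac}) + ∑_{c,e} (Γ^c_{ce} Γ^e_{ab} - Γ^c_{be} Γ^e_{ac})`. -/
def ric (d : ι → A → A) (Γ : ι → ι → ι → A) (a b : ι) : A :=
  (∑ c, (d c (Γ c a b) - d b (Γ c a c))) + ∑ c, ∑ e, (Γ c c e * Γ e a b - Γ c b e * Γ e a c)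

/-- The Hessian `∇_a ∇_b f = ∂_a ∂_b f - ∑_c Γ^c_{ab} ∂_c f`. -/
def hess (d : ι → A → A) (Γ : ι → ι → ι → A) (f : A) (a b : ι) : A :=
  d a (d b f) - ∑ c, Γ c a b * d c f

/-- The component `R^l_{kij}` of the curvature tensor, that is the coefficient of `∂_l` in
`R(∂_i, ∂_j) ∂_k = ∇_i ∇_j ∂_k - ∇_j ∇_i ∂_k`. -/
def rm (d : ι → A → A) (Γ : ι → ι → ι → A) (l k i j : ι) : A :=
  d i (Γ l j k) - d j (Γ l i k) + ∑ m, (Γ l i m * Γ m j k - Γ l j m * Γ m i k)

/-- Functions on `ℝ^ι`. -/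
abbrev Raw (ι : Type) : Type := (ι → ℝ) → ℝ

variable [DecidableEq ι]

/-- The partial derivative with respect to the `i`-th coordinate. -/
def pd (i : ι) (F : Raw ι) : Raw ι := fun z => fderiv ℝ F z (Pi.single i 1)

/-- The inverse matrix of `g`, pointwise. -/
def minv (g : ι → ι → Raw ι) (a b : ι) : Raw ι :=
  fun z => (Matrix.of (fun a b => g a b z))⁻¹ a b

/-- `g` is a smooth Riemannian metric on the open set `U ⊆ ℝ^ι`. -/
structure IsRiem (U : Set (ι → ℝ)) (g : ι → ι → Raw ι) : Prop where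
  /-- `U` is open -/
  isOpen : IsOpen U
  /-- the components are smooth on `U` -/
  smooth : ∀ i j, ContDiffOn ℝ ∞ (g i j) U
  /-- the matrix of `g` is symmetric and positive definite -/
  posDef : ∀ z ∈ U, (Matrix.of fun i j => g i j z).PosDef

/-- The soliton equation `Ric_g + ∇² f = lam g` holds at all points of `U`. -/
def IsSoliton (U : Set (ι → ℝ)) (g : ι → ι → Raw ι) (f : Raw ι) (lam : ℝ) : Prop :=
  ∀ z ∈ U, ∀ a b, ric pd (chr pd g (minv g)) a b z + hess pd (chr pd g (minv g)) f a b z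
    = lam * g a b z

/-- `g(R(u, v) v, u)` at the point `z`; for linearly independent `u`, `v` this is the sectional curvature of
the plane spanned by `u` and `v` times `g(u, u) g(v, v) - g(u, v)²`. -/
def secNum (g : ι → ι → Raw ι) (z u v : ι → ℝ) : ℝ :=
  ∑ l, ∑ m, ∑ k, ∑ i, ∑ j,
    g l m z * u m * rm pd (chr pd g (minv g)) l k i j z * u i * v j * v k

end

end RS61
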