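import Mathlib
import Pool.Agent.RS61.Defs

/-!
# The contracted Bianchi identity over a commutative ring with commuting derivations
-/

open Finset

set_option linter.unusedSectionVars false

namespace RS61

noncomputable section

variable {ι : Type} [Fintype ι] [DecidableEq ι] {A : Type} [CommRing A] [Algebra ℝ A]

/-- entrywise derivation of a matrix -/
def DM (D : Derivation ℝ A A) (M : Matrix ι ι A) : Matrix ι ι A :=
  Matrix.of fun i j => D (M i j)

lemma DM_apply (D : Derivation ℝ A A) (M : Matrix ι ι A) (i j : ι) :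
    DM D M i j = D (M i j) := rfl

lemma DM_add (D : Derivation ℝ A A) (M N : Matrix ι ι A) :
    DM D (M + N) = DM D M + DM D N := by
  ext i j; simp [DM]

lemma DM_sub (D : Derivation ℝ A A) (M N : Matrix ι ι A) :
    DM D (M - N) = DM D M - DM D N := by
  ext i j; simp [DM]

lemma DM_mul (D : Derivation ℝ A A) (M N : Matrix ι ι A) :
    DM D (M * N) = DM D M * N + M * DM D N := by
  ext i j
  simp only [DM, Matrix.mul_apply, Matrix.of_apply, Matrix.add_apply, map_sum, Derivation.leibniz,
    smul_eq_mul, ← Finset.sum_add_distrib]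
  exact Finset.sum_congr rfl fun k _ => by ring

lemma DM_transpose (D : Derivation ℝ A A) (M : Matrix ι ι A) :
    DM D M.transpose = (DM D M).transpose := rfl

lemma DM_one (D : Derivation ℝ A A) : DM D (1 : Matrix ι ι A) = 0 := by
  ext i j
  simp only [DM, Matrix.of_apply, Matrix.one_apply, Matrix.zero_apply]
  split_ifs
  · exact D.map_one_eq_zero
  · exact map_zero _

lemma DM_comm (D E : Derivation ℝ A A) (h : ∀ x, D (E x) = E (D x))
    (M : Matrix ι ι A) : DM D (DM E M) = DM E (DM D M) := by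
  ext i j; simp [DM, h]

section bianchi

variable (D : ι → Derivation ℝ A A) (Γ : ι → ι → ι → A)

/-- the connection matrices -/
def Gam (a : ι) : Matrix ι ι A := Matrix.of fun c b => Γ c a b

/-- the curvature matrices -/
def Rm (a b : ι) : Matrix ι ι A :=
  DM (D a) (Gam Γ b) - DM (D b) (Gam Γ a) + Gam Γ a * Gam Γ b - Gam Γ b * Gam Γ a

lemma Rm_anti (a b : ι) : Rm D Γ a b = - Rm D Γ b a := by
  unfold Rm; abel

variable (hD : ∀ i j x, D i (D j x) = D j (D i x))

include hD in
/-- the second Bianchi identity -/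
lemma bianchi2 (a b c : ι) :
    (DM (D a) (Rm D Γ b c) + Gam Γ a * Rm D Γ b c - Rm D Γ b c * Gam Γ a)
    + (DM (D b) (Rm D Γ c a) + Gam Γ b * Rm D Γ c a - Rm D Γ c a * Gam Γ b)
    + (DM (D c) (Rm D Γ a b) + Gam Γ c * Rm D Γ a b - Rm D Γ a b * Gam Γ c) = 0 := by
  unfold Rm
  simp only [DM_add, DM_sub, DM_mul]
  rw [DM_comm (D b) (D a) (hD b a), DM_comm (D c) (D a) (hD c a), DM_comm (D c) (D b) (hD c b)]
  noncomm_ring

lemma ric_eq (hΓ : ∀ c a b, Γ c a b = Γ c b a) (a b : ι) :
    ric (fun i => D i) Γ a b = ∑ c, Rm D Γ c b c a := by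
  unfold ric Rm
  rw [← Finset.sum_add_distrib]
  refine Finset.sum_congr rfl fun c _ => ?_
  simp only [Matrix.sub_apply, Matrix.add_apply, DM_apply, Gam, Matrix.of_apply,
    Matrix.mul_apply, Finset.sum_sub_distrib]
  rw [hΓ c a b, hΓ c a c]
  have h1 : ∑ e, Γ c c e * Γ e a b = ∑ e, Γ c c e * Γ e b a :=
    Finset.sum_congr rfl fun e _ => by rw [hΓ e a b]
  have h2 : ∑ e, Γ c b e * Γ e a c = ∑ e, Γ c b e * Γ e c a :=
    Finset.sum_congr rfl fun e _ => by rw [hΓ e a c]
  rw [h1, h2]
  ring

end bianchi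

section metric

variable (D : ι → Derivation ℝ A A) (g gi : ι → ι → A)
  (hD : ∀ i j x, D i (D j x) = D j (D i x))
  (hg : ∀ a b, g a b = g b a) (hgi : ∀ a b, ∑ c, gi a c * g b c = if a = b then 1 else 0)

lemma chr_symmD (hg : ∀ a b, g a b = g b a) (c a b : ι) :
    chr (fun i => D i) g gi c a b = chr (fun i => D i) g gi c b a := by
  unfold chr
  congr 1
  refine Finset.sum_congr rfl fun e _ => ?_
  rw [hg a b]; ring

include hg hgi in
lemma gi_mul_g : (Matrix.of gi : Matrix ι ι A) * Matrix.of g = 1 := by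
  ext a b
  rw [Matrix.mul_apply, Matrix.one_apply, ← hgi a b]
  exact Finset.sum_congr rfl fun c _ => by simp [hg c b]

include hg hgi in
lemma g_mul_gi : (Matrix.of g : Matrix ι ι A) * Matrix.of gi = 1 :=
  mul_eq_one_comm.1 (gi_mul_g g gi hg hgi)

include hg in
lemma g_transpose : (Matrix.of g : Matrix ι ι A).transpose = Matrix.of g := by
  ext a b; simp [hg b a]

include hg hgi in
lemma gi_transpose : (Matrix.of gi : Matrix ι ι A).transpose = Matrix.of gi := by
  have h1 := congrArg Matrix.transpose (gi_mul_g g gi hg hgi)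
  rw [Matrix.transpose_mul, g_transpose g hg, Matrix.transpose_one] at h1
  have h2 := gi_mul_g g gi hg hgi
  calc (Matrix.of gi).transpose = 1 * (Matrix.of gi).transpose := (one_mul _).symm
    _ = (Matrix.of gi * Matrix.of g) * (Matrix.of gi).transpose := by rw [h2]
    _ = Matrix.of gi := by rw [mul_assoc, h1, mul_one]

include hg hgi in
lemma gi_symm (a b : ι) : gi a b = gi b a := by
  have := congrFun (congrFun (gi_transpose g gi hg hgi) b) a
  simpa using this

/-- lower Christoffel symbols -/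
def chl (c a b : ι) : A := (1 / 2 : ℝ) • (D a (g b c) + D b (g a c) - D c (g a b))

include hg hgi in
lemma g_mul_Gam (a : ι) : Matrix.of g * Gam (chr (fun i => D i) g gi) a =
    Matrix.of fun c b => chl D g c a b := by
  have h : Gam (chr (fun i => D i) g gi) a = Matrix.of gi * Matrix.of fun c b => chl D g c a b := by
    ext c b
    simp only [Gam, chr, chl, Matrix.of_apply, Matrix.mul_apply, mul_smul_comm, Finset.smul_sum]
  rw [h, ← mul_assoc, g_mul_gi g gi hg hgi, one_mul]

include hg hgi in
/-- metric compatibility -/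
lemma DM_g (a : ι) : DM (D a) (Matrix.of g) =
    Matrix.of g * Gam (chr (fun i => D i) g gi) a
      + (Gam (chr (fun i => D i) g gi) a).transpose * Matrix.of g := by
  have h1 : (Gam (chr (fun i => D i) g gi) a).transpose * Matrix.of g =
      (Matrix.of g * Gam (chr (fun i => D i) g gi) a).transpose := by
    rw [Matrix.transpose_mul, g_transpose g hg]
  rw [h1, g_mul_Gam D g gi hg hgi]
  ext c b
  simp only [DM_apply, Matrix.of_apply, Matrix.add_apply, Matrix.transpose_apply, chl]
  rw [hg b c]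
  rw [← smul_add]
  have : (D a) (g c b) + (D b) (g a c) - (D c) (g a b) + ((D a) (g c b) + (D c) (g a b) - (D b) (g a c))
      = (2 : ℝ) • (D a) (g c b) := by
    rw [two_smul]; ring
  rw [this, smul_smul]
  norm_num

include hg hgi in
lemma DM_gi (a : ι) : DM (D a) (Matrix.of gi) =
    - (Gam (chr (fun i => D i) g gi) a * Matrix.of gi)
      - Matrix.of gi * (Gam (chr (fun i => D i) g gi) a).transpose := by
  have h1 := congrArg (DM (D a)) (gi_mul_g g gi hg hgi)
  rw [DM_mul, DM_one, DM_g D g gi hg hgi a] at h1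
  have h2 := g_mul_gi g gi hg hgi
  have h3 := gi_mul_g g gi hg hgi
  set G := (Matrix.of g : Matrix ι ι A)
  set H := (Matrix.of gi : Matrix ι ι A)
  set C := Gam (chr (fun i => D i) g gi) a
  have h4 : (DM (D a) H * G + H * (G * C + C.transpose * G)) * H = 0 := by rw [h1, zero_mul]
  have h5 : (DM (D a) H * G + H * (G * C + C.transpose * G)) * H
      = DM (D a) H * (G * H) + (H * G) * (C * H) + H * C.transpose * (G * H) := by noncomm_ring
  rw [h5, h2, h3, mul_one, one_mul, mul_one] at h4
  rw [add_assoc] at h4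
  have := eq_neg_of_add_eq_zero_left h4
  rw [this]; abel

include hD hg hgi in
/-- the curvature is antisymmetric in the matrix indices -/
lemma Rm_skew (a b : ι) : Matrix.of g * Rm D (chr (fun i => D i) g gi) a b
    + (Rm D (chr (fun i => D i) g gi) a b).transpose * Matrix.of g = 0 := by
  have h1 := DM_comm (D a) (D b) (hD a b) (Matrix.of g)
  rw [DM_g D g gi hg hgi b, DM_g D g gi hg hgi a] at h1
  simp only [DM_add, DM_mul, DM_transpose] at h1
  rw [DM_g D g gi hg hgi b, DM_g D g gi hg hgi a, ← sub_eq_zero] at h1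
  rw [← h1]
  unfold Rm
  simp only [Matrix.transpose_add, Matrix.transpose_sub, Matrix.transpose_mul]
  noncomm_ring

/-- the curvature with both matrix indices up -/
def SmR (a b : ι) : Matrix ι ι A :=
  Rm D (chr (fun i => D i) g gi) a b * Matrix.of gi

lemma SmR_anti (a b : ι) : SmR D g gi a b = - SmR D g gi b a := by
  unfold SmR; rw [Rm_anti, neg_mul]

include hD hg hgi in
lemma SmR_skew (a b : ι) : (SmR D g gi a b).transpose = - SmR D g gi a b := by
  have h1 := Rm_skew D g gi hD hg hgi a b
  have h2 := g_mul_gi g gi hg hgi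
  have h3 := gi_mul_g g gi hg hgi
  unfold SmR
  rw [Matrix.transpose_mul, gi_transpose g gi hg hgi]
  set G := (Matrix.of g : Matrix ι ι A)
  set H := (Matrix.of gi : Matrix ι ι A)
  set R := Rm D (chr (fun i => D i) g gi) a b
  have h4 : H * (G * R + R.transpose * G) * H = 0 := by rw [h1, mul_zero, zero_mul]
  have h5 : H * (G * R + R.transpose * G) * H = (H * G) * R * H + H * R.transpose * (G * H) := by
    noncomm_ring
  rw [h5, h2, h3, one_mul, mul_one, add_comm] at h4
  exact eq_neg_of_add_eq_zero_left h4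

include hD hg hgi in
lemma SmR_skew_apply (a b c d : ι) : SmR D g gi a b c d = - SmR D g gi a b d c := by
  have := congrFun (congrFun (SmR_skew D g gi hD hg hgi a b) d) c
  simpa using this

lemma SmR_anti_apply (a b c d : ι) : SmR D g gi a b c d = - SmR D g gi b a c d := by
  rw [SmR_anti]; rfl

include hD hg hgi in
/-- the second Bianchi identity, indices raised -/
lemma bianchi_S (a b c : ι) :
    (DM (D a) (SmR D g gi b c) + Gam (chr (fun i => D i) g gi) a * SmR D g gi b c
      + SmR D g gi b c * (Gam (chr (fun i => D i) g gi) a).transpose)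
    + (DM (D b) (SmR D g gi c a) + Gam (chr (fun i => D i) g gi) b * SmR D g gi c a
      + SmR D g gi c a * (Gam (chr (fun i => D i) g gi) b).transpose)
    + (DM (D c) (SmR D g gi a b) + Gam (chr (fun i => D i) g gi) c * SmR D g gi a b
      + SmR D g gi a b * (Gam (chr (fun i => D i) g gi) c).transpose) = 0 := by
  have h1 := congrArg (fun M => M * (Matrix.of gi : Matrix ι ι A))
    (bianchi2 D (chr (fun i => D i) g gi) hD a b c)
  simp only [zero_mul] at h1
  rw [← h1]
  unfold SmR
  simp only [DM_mul, DM_gi D g gi hg hgi]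
  noncomm_ring

/-- the Ricci tensor with one index up -/
def Vr (a e : ι) : A := ∑ d, ric (fun i => D i) (chr (fun i => D i) g gi) d a * gi d e

include hg in
lemma Vr_eq (a e : ι) : Vr D g gi a e = ∑ c, SmR D g gi c a c e := by
  unfold Vr SmR
  simp only [Matrix.mul_apply, Matrix.of_apply]
  rw [Finset.sum_comm]
  refine Finset.sum_congr rfl fun d _ => ?_
  rw [ric_eq D _ (fun c a b => chr_symmD D g gi hg c a b), Finset.sum_mul]

include hD hg hgi in
/-- **Contracted Bianchi identity.** -/
theorem contracted_bianchi (a : ι) :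
    2 * (∑ c, D c (Vr D g gi a c) + ∑ c, ∑ e, chr (fun i => D i) g gi c c e * Vr D g gi a e
      - ∑ c, ∑ e, chr (fun i => D i) g gi c a e * Vr D g gi c e) = D a (∑ c, Vr D g gi c c) := by
  set Γ := chr (fun i => D i) g gi with hΓ
  set S := SmR D g gi with hS
  have hsk : ∀ a b c d, S a b c d = - S a b d c := SmR_skew_apply D g gi hD hg hgi
  have han : ∀ a b c d, S a b c d = - S b a c d := SmR_anti_apply D g gi
  have hΓs : ∀ c a b, Γ c a b = Γ c b a := chr_symmD D g gi hg
  have hV : ∀ a e, Vr D g gi a e = ∑ c, S c a c e := Vr_eq D g gi hg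
  have h0 : ∀ b c, (D a (S b c c b) + ∑ e, Γ c a e * S b c e b + ∑ e, S b c c e * Γ b a e)
      + (D b (S c a c b) + ∑ e, Γ c b e * S c a e b + ∑ e, S c a c e * Γ b b e)
      + (D c (S a b c b) + ∑ e, Γ c c e * S a b e b + ∑ e, S a b c e * Γ b c e) = 0 := by
    intro b c
    have := congrFun (congrFun (bianchi_S D g gi hD hg hgi a b c) c) b
    simpa only [Matrix.add_apply, Matrix.mul_apply, DM_apply, Matrix.transpose_apply, Gam,
      Matrix.of_apply, Matrix.zero_apply] using this
  have h1 : ∑ b, ∑ c, ((D a (S b c c b) + ∑ e, Γ c a e * S b c e b + ∑ e, S b c c e * Γ b a e)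
      + (D b (S c a c b) + ∑ e, Γ c b e * S c a e b + ∑ e, S c a c e * Γ b b e)
      + (D c (S a b c b) + ∑ e, Γ c c e * S a b e b + ∑ e, S a b c e * Γ b c e)) = 0 :=
    Finset.sum_eq_zero fun b _ => Finset.sum_eq_zero fun c _ => h0 b c
  simp only [Finset.sum_add_distrib] at h1
  -- the nine terms
  have t1 : ∑ b, ∑ c, D a (S b c c b) = - D a (∑ c, Vr D g gi c c) := by
    simp only [hV, map_sum, ← Finset.sum_neg_distrib]
    rw [Finset.sum_comm]
    refine Finset.sum_congr rfl fun c _ => Finset.sum_congr rfl fun b _ => ?_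
    rw [hsk b c c b, map_neg]
  have t2 : ∑ b, ∑ c, ∑ e, Γ c a e * S b c e b = - ∑ c, ∑ e, Γ c a e * Vr D g gi c e := by
    simp only [hV, Finset.mul_sum, ← Finset.sum_neg_distrib]
    rw [Finset.sum_comm]
    refine Finset.sum_congr rfl fun c _ => ?_
    rw [Finset.sum_comm]
    refine Finset.sum_congr rfl fun e _ => Finset.sum_congr rfl fun b _ => ?_
    rw [hsk b c e b]; ring
  have t3 : ∑ b, ∑ c, ∑ e, S b c c e * Γ b a e = - ∑ c, ∑ e, Γ c a e * Vr D g gi c e := by
    simp only [hV, Finset.mul_sum, ← Finset.sum_neg_distrib]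
    refine Finset.sum_congr rfl fun b _ => ?_
    rw [Finset.sum_comm]
    refine Finset.sum_congr rfl fun e _ => Finset.sum_congr rfl fun c _ => ?_
    rw [han b c c e]; ring
  have t4 : ∑ b, ∑ c, D b (S c a c b) = ∑ c, D c (Vr D g gi a c) := by
    simp only [hV, map_sum]
  have t5 : ∑ b, ∑ c, ∑ e, Γ c b e * S c a e b = 0 := by
    have : ∀ x : A, x = -x → x = 0 := by
      intro x hx
      have h2 : (2 : ℝ) • x = 0 := by rw [two_smul]; nth_rewrite 1 [hx]; ring
      have h3 : (1 / 2 : ℝ) • ((2 : ℝ) • x) = 0 := by rw [h2, smul_zero]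
      rwa [smul_smul, show (1 / 2 : ℝ) * 2 = 1 by norm_num, one_smul] at h3
    apply this
    conv_lhs => rw [Finset.sum_comm]
    conv_rhs => rw [Finset.sum_comm]
    rw [← Finset.sum_neg_distrib]
    refine Finset.sum_congr rfl fun c _ => ?_
    rw [← Finset.sum_neg_distrib, Finset.sum_comm]
    refine Finset.sum_congr rfl fun b _ => ?_
    rw [← Finset.sum_neg_distrib]
    refine Finset.sum_congr rfl fun e _ => ?_
    rw [hsk c a b e, hΓs c e b]; ring
  have t6 : ∑ b, ∑ c, ∑ e, S c a c e * Γ b b e = ∑ c, ∑ e, Γ c c e * Vr D g gi a e := by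
    simp only [hV, Finset.mul_sum]
    refine Finset.sum_congr rfl fun b _ => ?_
    rw [Finset.sum_comm]
    exact Finset.sum_congr rfl fun e _ => Finset.sum_congr rfl fun c _ => by ring
  have t7 : ∑ b, ∑ c, D c (S a b c b) = ∑ c, D c (Vr D g gi a c) := by
    simp only [hV, map_sum]
    rw [Finset.sum_comm]
    refine Finset.sum_congr rfl fun c _ => Finset.sum_congr rfl fun b _ => ?_
    rw [hsk a b c b, han a b b c, neg_neg]
  have t8 : ∑ b, ∑ c, ∑ e, Γ c c e * S a b e b = ∑ c, ∑ e, Γ c c e * Vr D g gi a e := by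
    simp only [hV, Finset.mul_sum]
    rw [Finset.sum_comm]
    refine Finset.sum_congr rfl fun c _ => ?_
    rw [Finset.sum_comm]
    refine Finset.sum_congr rfl fun e _ => Finset.sum_congr rfl fun b _ => ?_
    rw [hsk a b e b, han a b b e, neg_neg]
  have t9 : ∑ b, ∑ c, ∑ e, S a b c e * Γ b c e = 0 := by
    have : ∀ x : A, x = -x → x = 0 := by
      intro x hx
      have h2 : (2 : ℝ) • x = 0 := by rw [two_smul]; nth_rewrite 1 [hx]; ring
      have h3 : (1 / 2 : ℝ) • ((2 : ℝ) • x) = 0 := by rw [h2, smul_zero]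
      rwa [smul_smul, show (1 / 2 : ℝ) * 2 = 1 by norm_num, one_smul] at h3
    apply this
    rw [← Finset.sum_neg_distrib]
    refine Finset.sum_congr rfl fun b _ => ?_
    rw [← Finset.sum_neg_distrib, Finset.sum_comm]
    refine Finset.sum_congr rfl fun c _ => ?_
    rw [← Finset.sum_neg_distrib]
    refine Finset.sum_congr rfl fun e _ => ?_
    rw [hsk a b e c, hΓs b e c]; ring
  rw [t1, t2, t3, t4, t5, t6, t7, t8, t9] at h1
  linear_combination h1

include hD hg hgi in
/-- the Ricci tensor is symmetric -/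
theorem ric_symm (a b : ι) : ric (fun i => D i) (chr (fun i => D i) g gi) a b =
    ric (fun i => D i) (chr (fun i => D i) g gi) b a := by
  set Γ := chr (fun i => D i) g gi with hΓ
  have hΓs : ∀ c a b, Γ c a b = Γ c b a := chr_symmD D g gi hg
  have h1 := Rm_skew D g gi hD hg hgi a b
  have h2 := gi_mul_g g gi hg hgi
  have h3 := g_mul_gi g gi hg hgi
  have htr : (Rm D Γ a b).trace = 0 := by
    have h4 : (Matrix.of gi * (Matrix.of g * Rm D Γ a b + (Rm D Γ a b).transpose * Matrix.of g)).trace = 0 := by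
      rw [h1, mul_zero, Matrix.trace_zero]
    rw [mul_add, Matrix.trace_add, ← mul_assoc, h2, one_mul, Matrix.trace_mul_comm, mul_assoc, h3,
      mul_one, Matrix.trace_transpose] at h4
    have h5 : (1 / 2 : ℝ) • ((2 : ℝ) • (Rm D Γ a b).trace) = 0 := by rw [two_smul, h4, smul_zero]
    rwa [smul_smul, show (1 / 2 : ℝ) * 2 = 1 by norm_num, one_smul] at h5
  have htr2 : ∑ c, (D a (Γ c b c) - D b (Γ c a c)) = 0 := by
    rw [← htr]
    unfold Rm
    rw [Matrix.trace_sub, Matrix.trace_add, Matrix.trace_sub, Matrix.trace_mul_comm (Gam Γ a)]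
    rw [add_sub_cancel_right, Finset.sum_sub_distrib]
    rfl
  unfold ric
  have e1 : ∑ c, ∑ e, (Γ c c e * Γ e b a - Γ c a e * Γ e b c) =
      ∑ c, ∑ e, (Γ c c e * Γ e a b - Γ c b e * Γ e a c) := by
    simp only [Finset.sum_sub_distrib]
    congr 1
    · exact Finset.sum_congr rfl fun c _ => Finset.sum_congr rfl fun e _ => by rw [hΓs e b a]
    · rw [Finset.sum_comm]
      refine Finset.sum_congr rfl fun c _ => Finset.sum_congr rfl fun e _ => ?_
      rw [hΓs e a c, hΓs c b e]; ring
  rw [e1]
  congr 1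
  rw [← sub_eq_zero, ← Finset.sum_sub_distrib, ← htr2]
  refine Finset.sum_congr rfl fun c _ => ?_
  rw [hΓs c b a]; ring

end metric

end

end RS61
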