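import Mathlib
import Pool.Agent.RS61.Bianchi

/-!
# The block metric `dt² + a(t)² k(x) + h(t, y)` over a commutative ring with derivations
-/

open Finset

set_option linter.unusedSectionVars false

namespace RS61

noncomputable section

/-- The index set of the coordinates `t`, `x_i` (`i ∈ κ₁`), `y_j` (`j ∈ κ₂`). -/
abbrev Idx (κ₁ κ₂ : Type) : Type := Option (κ₁ ⊕ κ₂)

/-- The block matrix with the entry `1` at `(t, t)`, the block `M` at `(x_i, x_j)`, the block `N` at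
`(y_i, y_j)`, and zeros elsewhere. -/
def blk {κ₁ κ₂ A : Type} [Zero A] [One A] (M : κ₁ → κ₁ → A) (N : κ₂ → κ₂ → A) :
    Idx κ₁ κ₂ → Idx κ₁ κ₂ → A
  | none, none => 1
  | some (Sum.inl i), some (Sum.inl j) => M i j
  | some (Sum.inr i), some (Sum.inr j) => N i j
  | _, _ => 0

variable {κ₁ κ₂ : Type} [Fintype κ₁] [Fintype κ₂] [DecidableEq κ₁] [DecidableEq κ₂]
  {A : Type} [CommRing A] [Algebra ℝ A]

section
variable (M : κ₁ → κ₁ → A) (N : κ₂ → κ₂ → A)

@[simp] lemma blk_tt : blk M N none none = 1 := rfl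
@[simp] lemma blk_tx (i : κ₁) : blk M N none (some (Sum.inl i)) = 0 := rfl
@[simp] lemma blk_ty (i : κ₂) : blk M N none (some (Sum.inr i)) = 0 := rfl
@[simp] lemma blk_xt (i : κ₁) : blk M N (some (Sum.inl i)) none = 0 := rfl
@[simp] lemma blk_yt (i : κ₂) : blk M N (some (Sum.inr i)) none = 0 := rfl
@[simp] lemma blk_xx (i j : κ₁) : blk M N (some (Sum.inl i)) (some (Sum.inl j)) = M i j := rfl
@[simp] lemma blk_yy (i j : κ₂) : blk M N (some (Sum.inr i)) (some (Sum.inr j)) = N i j := rfl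
@[simp] lemma blk_xy (i : κ₁) (j : κ₂) : blk M N (some (Sum.inl i)) (some (Sum.inr j)) = 0 := rfl
@[simp] lemma blk_yx (i : κ₂) (j : κ₁) : blk M N (some (Sum.inr i)) (some (Sum.inl j)) = 0 := rfl

end

/-- the data of a block metric over `A` -/
structure BData (κ₁ κ₂ A : Type) [Fintype κ₁] [Fintype κ₂] [DecidableEq κ₁] [DecidableEq κ₂]
    [CommRing A] [Algebra ℝ A] where
  D : Idx κ₁ κ₂ → Derivation ℝ A A
  comm : ∀ i j x, D i (D j x) = D j (D i x)
  a : A
  ai : A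
  a_inv : ai * a = 1
  k : κ₁ → κ₁ → A
  ki : κ₁ → κ₁ → A
  k_symm : ∀ i j, k i j = k j i
  k_inv : ∀ i j, ∑ l, ki i l * k j l = if i = j then 1 else 0
  h : κ₂ → κ₂ → A
  hi : κ₂ → κ₂ → A
  h_symm : ∀ i j, h i j = h j i
  h_inv : ∀ i j, ∑ l, hi i l * h j l = if i = j then 1 else 0
  xa : ∀ i, D (some (Sum.inl i)) a = 0
  ya : ∀ i, D (some (Sum.inr i)) a = 0
  tk : ∀ i j, D none (k i j) = 0
  yk : ∀ l i j, D (some (Sum.inr l)) (k i j) = 0
  xh : ∀ l i j, D (some (Sum.inl l)) (h i j) = 0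
  f : A
  xf : ∀ i, D (some (Sum.inl i)) f = 0
  yf : ∀ i, D (some (Sum.inr i)) f = 0

namespace BData

variable (B : BData κ₁ κ₂ A)

/-- the metric -/
def g : Idx κ₁ κ₂ → Idx κ₁ κ₂ → A := blk (fun i j => B.a ^ 2 * B.k i j) B.h
/-- the inverse metric -/
def gi : Idx κ₁ κ₂ → Idx κ₁ κ₂ → A := blk (fun i j => B.ai ^ 2 * B.ki i j) B.hi
/-- the Christoffel symbols -/
def G (c a b : Idx κ₁ κ₂) : A := chr (fun i => B.D i) B.g B.gi c a b
/-- `a'` -/
def da : A := B.D none B.a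
/-- `a' / a` -/
def X : A := B.ai * B.da
/-- `f'` -/
def v : A := B.D none B.f
/-- the shape operator of the second factor -/
def S (i j : κ₂) : A := (1 / 2 : ℝ) • ∑ l, B.hi i l * B.D none (B.h j l)
/-- its trace -/
def σ : A := ∑ i, B.S i i
/-- the trace of its square -/
def τ : A := ∑ i, ∑ j, B.S i j * B.S j i
/-- the dimension of the first factor -/
def p (_ : BData κ₁ κ₂ A) : A := (Fintype.card κ₁ : A)
/-- the Christoffel symbols of the first factor -/
def Gk (c a b : κ₁) : A := chr (fun i => B.D (some (Sum.inl i))) B.k B.ki c a b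

lemma g_symm (a b : Idx κ₁ κ₂) : B.g a b = B.g b a := by
  rcases a with _ | a | a <;> rcases b with _ | b | b <;>
    simp only [g, blk_tt, blk_tx, blk_ty, blk_xt, blk_yt, blk_xx, blk_yy, blk_xy, blk_yx]
  · rw [B.k_symm a b]
  · rw [B.h_symm a b]

lemma g_inv (a b : Idx κ₁ κ₂) : ∑ c, B.gi a c * B.g b c = if a = b then 1 else 0 := by
  have hai : B.ai ^ 2 * B.a ^ 2 = 1 := by rw [← mul_pow, B.a_inv, one_pow]
  rcases a with _ | a | a <;> rcases b with _ | b | b <;>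
    simp [g, gi, Fintype.sum_option]
  · have : ∀ l, B.ai ^ 2 * B.ki a l * (B.a ^ 2 * B.k b l) = B.ki a l * B.k b l := by
      intro l
      calc _ = (B.ai ^ 2 * B.a ^ 2) * (B.ki a l * B.k b l) := by ring
        _ = _ := by rw [hai, one_mul]
    simp only [this]
    exact B.k_inv a b
  · exact B.h_inv a b

@[simp] lemma ma (i : κ₁) : B.D (some (Sum.inl i)) B.a = 0 := B.xa i
@[simp] lemma mb (i : κ₂) : B.D (some (Sum.inr i)) B.a = 0 := B.ya i
@[simp] lemma mc (i j : κ₁) : B.D none (B.k i j) = 0 := B.tk i j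
@[simp] lemma md (l : κ₂) (i j : κ₁) : B.D (some (Sum.inr l)) (B.k i j) = 0 := B.yk l i j
@[simp] lemma me (l : κ₁) (i j : κ₂) : B.D (some (Sum.inl l)) (B.h i j) = 0 := B.xh l i j
@[simp] lemma mf (i : κ₁) : B.D (some (Sum.inl i)) B.f = 0 := B.xf i
@[simp] lemma mg (i : κ₂) : B.D (some (Sum.inr i)) B.f = 0 := B.yf i

lemma D_one' (i : Idx κ₁ κ₂) : B.D i (1 : A) = 0 := (B.D i).map_one_eq_zero

lemma Dt_ak (i j : κ₁) : B.D none (B.a ^ 2 * B.k i j) = 2 * B.a * B.da * B.k i j := by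
  rw [Derivation.leibniz, B.tk, smul_zero, zero_add, sq, Derivation.leibniz]
  simp only [smul_eq_mul, da]
  ring

lemma Dx_ak (l i j : κ₁) : B.D (some (Sum.inl l)) (B.a ^ 2 * B.k i j)
    = B.a ^ 2 * B.D (some (Sum.inl l)) (B.k i j) := by
  rw [Derivation.leibniz, sq, Derivation.leibniz, B.xa]
  simp

lemma Dy_ak (l : κ₂) (i j : κ₁) : B.D (some (Sum.inr l)) (B.a ^ 2 * B.k i j) = 0 := by
  rw [Derivation.leibniz, sq, Derivation.leibniz, B.ya, B.yk]
  simp

lemma ai_a_sq : B.ai ^ 2 * B.a ^ 2 = 1 := by rw [← mul_pow, B.a_inv, one_pow]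

section gam

lemma G_symm (c a b : Idx κ₁ κ₂) : B.G c a b = B.G c b a := chr_symmD B.D B.g B.gi B.g_symm c a b

/-- unfolding of a Christoffel symbol -/
lemma G_def (c a b : Idx κ₁ κ₂) : B.G c a b = (1 / 2 : ℝ) • (B.gi c none * (B.D a (B.g b none)
    + B.D b (B.g a none) - B.D none (B.g a b))
    + (∑ l, B.gi c (some (Sum.inl l)) * (B.D a (B.g b (some (Sum.inl l)))
      + B.D b (B.g a (some (Sum.inl l))) - B.D (some (Sum.inl l)) (B.g a b))
    + ∑ l, B.gi c (some (Sum.inr l)) * (B.D a (B.g b (some (Sum.inr l)))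
      + B.D b (B.g a (some (Sum.inr l))) - B.D (some (Sum.inr l)) (B.g a b)))) := by
  unfold G chr
  rw [Fintype.sum_option, Fintype.sum_sum_type]

lemma G_ttt : B.G none none none = 0 := by
  rw [G_def]; simp [g, gi]
lemma G_ttx (i : κ₁) : B.G none none (some (Sum.inl i)) = 0 := by
  rw [G_def]; simp [g, gi]
lemma G_tty (i : κ₂) : B.G none none (some (Sum.inr i)) = 0 := by
  rw [G_def]; simp [g, gi]
lemma G_txx (i j : κ₁) : B.G none (some (Sum.inl i)) (some (Sum.inl j)) = -(B.a * B.da * B.k i j) := by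
  rw [G_def]; simp only [g, gi, blk_tt, blk_tx, blk_xt, blk_xx, blk_ty, map_zero, zero_mul,
    Finset.sum_const_zero, add_zero, zero_sub, one_mul, Dt_ak]
  rw [show -(2 * B.a * B.da * B.k i j) = (2 : ℝ) • (-(B.a * B.da * B.k i j)) by
    rw [two_smul]; ring, smul_smul]
  norm_num
lemma G_txy (i : κ₁) (j : κ₂) : B.G none (some (Sum.inl i)) (some (Sum.inr j)) = 0 := by
  rw [G_def]; simp [g, gi]
lemma G_tyy (i j : κ₂) : B.G none (some (Sum.inr i)) (some (Sum.inr j))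
    = -((1 / 2 : ℝ) • B.D none (B.h i j)) := by
  rw [G_def]; simp [g, gi]
lemma G_xtt (i : κ₁) : B.G (some (Sum.inl i)) none none = 0 := by
  rw [G_def]; simp [g, gi]
lemma G_xtx (i j : κ₁) : B.G (some (Sum.inl i)) none (some (Sum.inl j)) = if i = j then B.X else 0 := by
  rw [G_def]; simp only [g, gi, blk_tt, blk_tx, blk_xt, blk_xx, blk_xy, blk_ty, map_zero, zero_mul,
    Finset.sum_const_zero, add_zero, zero_add, sub_zero, Dt_ak]
  have : ∀ l, B.ai ^ 2 * B.ki i l * (2 * B.a * B.da * B.k j l)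
      = (2 : ℝ) • (B.X * (B.ki i l * B.k j l)) := by
    intro l
    rw [two_smul]
    unfold X
    linear_combination (2 * B.ai * B.da * B.ki i l * B.k j l) * B.a_inv
  simp only [this]
  rw [← Finset.smul_sum, ← Finset.mul_sum, B.k_inv, smul_smul]
  split_ifs <;> norm_num
lemma G_xty (i : κ₁) (j : κ₂) : B.G (some (Sum.inl i)) none (some (Sum.inr j)) = 0 := by
  rw [G_def]; simp [g, gi]
lemma G_xxx (i j l : κ₁) : B.G (some (Sum.inl i)) (some (Sum.inl j)) (some (Sum.inl l))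
    = B.Gk i j l := by
  rw [G_def]; simp only [g, gi, blk_tt, blk_tx, blk_xt, blk_xx, blk_xy, blk_ty, map_zero, zero_mul,
    Finset.sum_const_zero, add_zero, zero_add, sub_zero, Dx_ak]
  unfold Gk chr
  congr 1
  refine Finset.sum_congr rfl fun e _ => ?_
  linear_combination (B.ki i e * ((B.D (some (Sum.inl j))) (B.k l e)
    + (B.D (some (Sum.inl l))) (B.k j e) - (B.D (some (Sum.inl e))) (B.k j l))) * B.ai_a_sq
lemma G_xxy (i j : κ₁) (l : κ₂) : B.G (some (Sum.inl i)) (some (Sum.inl j)) (some (Sum.inr l)) = 0 := by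
  rw [G_def]; simp [g, gi, Dy_ak]
lemma G_xyy (i : κ₁) (j l : κ₂) : B.G (some (Sum.inl i)) (some (Sum.inr j)) (some (Sum.inr l)) = 0 := by
  rw [G_def]; simp [g, gi]
lemma G_ytt (i : κ₂) : B.G (some (Sum.inr i)) none none = 0 := by
  rw [G_def]; simp [g, gi]
lemma G_ytx (i : κ₂) (j : κ₁) : B.G (some (Sum.inr i)) none (some (Sum.inl j)) = 0 := by
  rw [G_def]; simp [g, gi]
lemma G_yty (i j : κ₂) : B.G (some (Sum.inr i)) none (some (Sum.inr j)) = B.S i j := by
  rw [G_def]; simp [g, gi, S]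
lemma G_yxx (i : κ₂) (j l : κ₁) : B.G (some (Sum.inr i)) (some (Sum.inl j)) (some (Sum.inl l)) = 0 := by
  rw [G_def]; simp [g, gi, Dy_ak]
lemma G_yxy (i : κ₂) (j : κ₁) (l : κ₂) :
    B.G (some (Sum.inr i)) (some (Sum.inl j)) (some (Sum.inr l)) = 0 := by
  rw [G_def]; simp [g, gi]

end gam

end BData

end

end RS61
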