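import Mathlib

/-!
# A comparison argument of Sturm type
-/

open Set Filter Topology

namespace RS61

/-- a function which is zero at `t₁` and nonnegative on `(t₁, t₂)` has a nonnegative derivative at `t₁` -/
lemma deriv_nonneg_left {v : ℝ → ℝ} {v' t₁ t₂ : ℝ} (h12 : t₁ < t₂) (h0 : v t₁ = 0)
    (hp : ∀ t ∈ Ioo t₁ t₂, 0 ≤ v t) (hd : HasDerivAt v v' t₁) : 0 ≤ v' := by
  have h1 : Tendsto (slope v t₁) (𝓝[>] t₁) (𝓝 v') :=
    (hasDerivAt_iff_tendsto_slope.1 hd).mono_left (nhdsWithin_mono _ fun t ht => ne_of_gt ht)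
  refine ge_of_tendsto h1 ?_
  filter_upwards [Ioo_mem_nhdsGT h12] with t ht
  rw [slope_def_field, h0, sub_zero]
  exact div_nonneg (hp t ht) (sub_nonneg.2 ht.1.le)

lemma deriv_nonpos_right {v : ℝ → ℝ} {v' t₁ t₂ : ℝ} (h12 : t₁ < t₂) (h0 : v t₂ = 0)
    (hp : ∀ t ∈ Ioo t₁ t₂, 0 ≤ v t) (hd : HasDerivAt v v' t₂) : v' ≤ 0 := by
  have h1 : Tendsto (slope v t₂) (𝓝[<] t₂) (𝓝 v') :=
    (hasDerivAt_iff_tendsto_slope.1 hd).mono_left (nhdsWithin_mono _ fun t ht => ne_of_lt ht)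
  refine le_of_tendsto h1 ?_
  filter_upwards [Ioo_mem_nhdsLT h12] with t ht
  rw [slope_def_field, h0, sub_zero]
  exact div_nonpos_of_nonneg_of_nonpos (hp t ht) (sub_nonpos.2 ht.2.le)

/-- the zero of a continuous function before a point where it is positive -/
lemma exists_left {v : ℝ → ℝ} {a s : ℝ} (hv : Continuous v) (has : a < s) (ha : v a ≤ 0)
    (hs : 0 < v s) : ∃ t₁, a ≤ t₁ ∧ t₁ < s ∧ v t₁ = 0 ∧ ∀ t ∈ Ioc t₁ s, 0 < v t := by
  set Z := {t | t ∈ Icc a s ∧ v t ≤ 0} with hZ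
  have hne : Z.Nonempty := ⟨a, ⟨le_refl _, has.le⟩, ha⟩
  have hcl : IsClosed Z := isClosed_Icc.inter (isClosed_le hv continuous_const)
  have hbd : BddAbove Z := ⟨s, fun t ht => ht.1.2⟩
  have hmem : sSup Z ∈ Z := hcl.csSup_mem hne hbd
  have hlt : sSup Z < s := lt_of_le_of_ne hmem.1.2 (fun h => by
    have := hmem.2; rw [h] at this; linarith)
  have hpos : ∀ t ∈ Ioc (sSup Z) s, 0 < v t := by
    intro t ht
    by_contra hc
    have : t ∈ Z := ⟨⟨hmem.1.1.trans ht.1.le, ht.2⟩, not_lt.1 hc⟩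
    exact absurd (le_csSup hbd this) (not_le.2 ht.1)
  refine ⟨sSup Z, hmem.1.1, hlt, le_antisymm hmem.2 ?_, hpos⟩
  have h1 : Tendsto v (𝓝[>] (sSup Z)) (𝓝 (v (sSup Z))) := hv.continuousAt.continuousWithinAt
  refine ge_of_tendsto h1 ?_
  filter_upwards [Ioc_mem_nhdsGT hlt] with t ht
  exact (hpos t ht).le

lemma exists_right {v : ℝ → ℝ} {b s : ℝ} (hv : Continuous v) (hsb : s < b) (hb : v b ≤ 0)
    (hs : 0 < v s) : ∃ t₂, s < t₂ ∧ t₂ ≤ b ∧ v t₂ = 0 ∧ ∀ t ∈ Ico s t₂, 0 < v t := by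
  obtain ⟨t₁, h1, h2, h3, h4⟩ := exists_left (v := fun t => v (-t)) (a := -b) (s := -s)
    (hv.comp continuous_neg) (by linarith) (by simpa using hb) (by simpa using hs)
  refine ⟨-t₁, by linarith, by linarith, h3, fun t ht => ?_⟩
  have := h4 (-t) ⟨by linarith [ht.2], by linarith [ht.1]⟩
  simpa using this

/-- Sturm comparison: let `W, u > 0` on `(0, T)`, `v(0) = v(T) = 0`, and let the function `W (v' u - v u')`
have the derivative `q v`, `q > 0`, and the limit zero at `0` and at `T`. Then `v ≤ 0`. -/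
theorem sturm {T : ℝ} {v u W q : ℝ → ℝ} (hv : Differentiable ℝ v) (hv0 : v 0 = 0) (hvT : v T = 0)
    (hW : ∀ t ∈ Ioo 0 T, 0 < W t) (hu : ∀ t ∈ Ioo 0 T, 0 < u t) (hq : ∀ t ∈ Ioo 0 T, 0 < q t)
    (hG : ∀ t ∈ Ioo 0 T, HasDerivAt (fun t => W t * (deriv v t * u t - v t * deriv u t))
      (q t * v t) t)
    (h0 : Tendsto (fun t => W t * (deriv v t * u t - v t * deriv u t)) (𝓝[>] 0) (𝓝 0))
    (h1 : Tendsto (fun t => W t * (deriv v t * u t - v t * deriv u t)) (𝓝[<] T) (𝓝 0)) :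
    ∀ t ∈ Ioo 0 T, v t ≤ 0 := by
  intro s hs
  by_contra hc
  have hvs : 0 < v s := not_le.1 hc
  have hT : 0 < T := hs.1.trans hs.2
  obtain ⟨t₁, ha1, ha2, ha3, ha4⟩ := exists_left hv.continuous hs.1 hv0.le hvs
  obtain ⟨t₂, hb1, hb2, hb3, hb4⟩ := exists_right hv.continuous hs.2 hvT.le hvs
  set G : ℝ → ℝ := fun t => W t * (deriv v t * u t - v t * deriv u t) with hGdef
  set Ge : ℝ → ℝ := fun t => if t ∈ Ioo 0 T then G t else 0 with hGe
  have hpos : ∀ t ∈ Ioo t₁ t₂, 0 < v t := by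
    intro t ht
    rcases le_total t s with h | h
    · exact ha4 t ⟨ht.1, h⟩
    · exact hb4 t ⟨h, ht.2⟩
  have hin : ∀ t ∈ Ioo t₁ t₂, t ∈ Ioo 0 T := fun t ht =>
    ⟨ha1.trans_lt ht.1, ht.2.trans_le hb2⟩
  have hev : ∀ t ∈ Ioo 0 T, Ge =ᶠ[𝓝 t] G := by
    intro t ht
    filter_upwards [isOpen_Ioo.mem_nhds ht] with x hx
    simp only [hGe, if_pos hx]
  have hcont : ContinuousOn Ge (Icc 0 T) := by
    intro t ht
    rcases eq_or_lt_of_le ht.1 with h | h
    · subst h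
      have hz : Ge 0 = 0 := by simp [hGe]
      have h2 : Tendsto Ge (𝓝[>] 0) (𝓝 0) := by
        refine h0.congr' ?_
        filter_upwards [Ioo_mem_nhdsGT hT] with x hx
        simp only [hGe, if_pos hx, hGdef]
      have h3 : ContinuousWithinAt Ge (Ioi 0) 0 := by
        show Tendsto Ge (𝓝[>] 0) (𝓝 (Ge 0))
        rw [hz]; exact h2
      have h4 : ContinuousWithinAt Ge (Ici 0) 0 := by
        rw [← Set.Ioi_insert]; exact h3.insert
      exact h4.mono (fun x hx => hx.1)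
    · rcases eq_or_lt_of_le ht.2 with h' | h'
      · have hz : Ge T = 0 := by simp [hGe]
        have h2 : Tendsto Ge (𝓝[<] T) (𝓝 0) := by
          refine h1.congr' ?_
          filter_upwards [Ioo_mem_nhdsLT hT] with x hx
          simp only [hGe, if_pos hx, hGdef]
        rw [h']
        have h3 : ContinuousWithinAt Ge (Iio T) T := by
          show Tendsto Ge (𝓝[<] T) (𝓝 (Ge T))
          rw [hz]; exact h2
        have h4 : ContinuousWithinAt Ge (Iic T) T := by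
          rw [← Set.Iio_insert]; exact h3.insert
        exact h4.mono (fun x hx => hx.2)
      · have h2 : ContinuousAt G t := (hG t ⟨h, h'⟩).continuousAt
        exact (h2.congr (hev t ⟨h, h'⟩).symm).continuousWithinAt
  have hmono : StrictMonoOn Ge (Icc t₁ t₂) := by
    refine strictMonoOn_of_deriv_pos (convex_Icc _ _)
      (hcont.mono (Icc_subset_Icc ha1 hb2)) ?_
    intro t ht
    rw [interior_Icc] at ht
    rw [(hev t (hin t ht)).deriv_eq, (hG t (hin t ht)).deriv]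
    exact mul_pos (hq t (hin t ht)) (hpos t ht)
  have h12 : t₁ < t₂ := ha2.trans hb1
  have hlt := hmono (left_mem_Icc.2 h12.le) (right_mem_Icc.2 h12.le) h12
  have hg1 : 0 ≤ Ge t₁ := by
    simp only [hGe]
    split_ifs with h
    · have hd := deriv_nonneg_left h12 ha3 (fun t ht => (hpos t ht).le) (hv t₁).hasDerivAt
      simp only [hGdef, ha3, zero_mul, sub_zero]
      exact mul_nonneg (hW t₁ h).le (mul_nonneg hd (hu t₁ h).le)
    · exact le_refl _
  have hg2 : Ge t₂ ≤ 0 := by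
    simp only [hGe]
    split_ifs with h
    · have hd := deriv_nonpos_right h12 hb3 (fun t ht => (hpos t ht).le) (hv t₂).hasDerivAt
      simp only [hGdef, hb3, zero_mul, sub_zero]
      exact mul_nonpos_of_nonneg_of_nonpos (hW t₂ h).le
        (mul_nonpos_of_nonpos_of_nonneg hd (hu t₂ h).le)
    · exact le_refl _
  linarith

end RS61
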