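import Mathlib
import Pool.Agent.RS61.Sturm

/-!
# The ordinary differential equations of a soliton `dt² + a(t)² k + h(t)`, `f = f(t)`

`H` is the determinant of `h(t, y₀)`, `σ` the trace of the shape operator of the second factor, `τ` the trace of
its square.
-/

open Set Filter Topology
open scoped ContDiff

namespace RS61

/-- the equations along the normal geodesic -/
structure OData (T lam c : ℝ) (p : ℕ) (a f σ τ H : ℝ → ℝ) : Prop where
  T_pos : 0 < T
  a_smooth : ContDiff ℝ ∞ a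
  f_smooth : ContDiff ℝ ∞ f
  a_pos : ∀ t ∈ Ioo 0 T, 0 < a t
  H_pos : ∀ t ∈ Ioo 0 T, 0 < H t
  H_deriv : ∀ t ∈ Ioo 0 T, HasDerivAt H (2 * σ t * H t) t
  σ_diff : ∀ t ∈ Ioo 0 T, DifferentiableAt ℝ σ t
  tt : ∀ t ∈ Ioo 0 T, deriv (deriv f) t = lam + deriv (fun t => p * (deriv a t / a t) + σ t) t
    + (p * (deriv a t / a t) ^ 2 + τ t)
  xx : ∀ t ∈ Ioo 0 T, c - (deriv (fun t => a t * deriv a t) t
    + ((p * (deriv a t / a t) + σ t) - deriv f t) * (a t * deriv a t) - 2 * deriv a t ^ 2)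
      = lam * a t ^ 2
  bi : ∀ t ∈ Ioo 0 T, deriv (deriv (deriv f)) t
    + (p * (deriv a t / a t) + σ t) * deriv (deriv f) t
    - (2 * (p * (deriv a t / a t) ^ 2 + τ t) + deriv (fun t => p * (deriv a t / a t) + σ t) t)
      * deriv f t = 0
  H_bdd : ∃ C, ∀ t ∈ Ioo 0 T, H t ≤ C
  a_zero : a 0 = 0
  da_T : deriv a T = 0
  df_zero : deriv f 0 = 0
  df_T : deriv f T = 0

namespace OData

variable {T lam c : ℝ} {p : ℕ} {a f σ τ H : ℝ → ℝ} (O : OData T lam c p a f σ τ H)

include O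

lemma a1_smooth : ContDiff ℝ ∞ (deriv a) := (contDiff_infty_iff_deriv.1 O.a_smooth).2
lemma a2_smooth : ContDiff ℝ ∞ (deriv (deriv a)) := (contDiff_infty_iff_deriv.1 O.a1_smooth).2
lemma v_smooth : ContDiff ℝ ∞ (deriv f) := (contDiff_infty_iff_deriv.1 O.f_smooth).2
lemma v1_smooth : ContDiff ℝ ∞ (deriv (deriv f)) := (contDiff_infty_iff_deriv.1 O.v_smooth).2

lemma ha (t : ℝ) : HasDerivAt a (deriv a t) t :=
  ((contDiff_infty_iff_deriv.1 O.a_smooth).1 t).hasDerivAt
lemma ha1 (t : ℝ) : HasDerivAt (deriv a) (deriv (deriv a) t) t :=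
  ((contDiff_infty_iff_deriv.1 O.a1_smooth).1 t).hasDerivAt
lemma hf (t : ℝ) : HasDerivAt f (deriv f t) t :=
  ((contDiff_infty_iff_deriv.1 O.f_smooth).1 t).hasDerivAt
lemma hv (t : ℝ) : HasDerivAt (deriv f) (deriv (deriv f) t) t :=
  ((contDiff_infty_iff_deriv.1 O.v_smooth).1 t).hasDerivAt
lemma hv1 (t : ℝ) : HasDerivAt (deriv (deriv f)) (deriv (deriv (deriv f)) t) t :=
  ((contDiff_infty_iff_deriv.1 O.v1_smooth).1 t).hasDerivAt

/-- `a' / a` -/
lemma hX {t : ℝ} (ht : t ∈ Ioo 0 T) : HasDerivAt (fun t => deriv a t / a t)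
    (deriv (deriv a) t / a t - (deriv a t / a t) ^ 2) t := by
  have h := (O.ha1 t).div (O.ha t) (O.a_pos t ht).ne'
  refine h.congr_deriv ?_
  have := (O.a_pos t ht).ne'
  field_simp

/-- the mean curvature -/
lemma hs {t : ℝ} (ht : t ∈ Ioo 0 T) : HasDerivAt (fun t => p * (deriv a t / a t) + σ t)
    (p * (deriv (deriv a) t / a t - (deriv a t / a t) ^ 2) + deriv σ t) t :=
  ((O.hX ht).const_mul _).add (O.σ_diff t ht).hasDerivAt

/-- `u = a a'` -/
lemma hu (t : ℝ) : HasDerivAt (fun t => a t * deriv a t)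
    (deriv a t ^ 2 + a t * deriv (deriv a) t) t := by
  refine ((O.ha t).mul (O.ha1 t)).congr_deriv ?_
  ring

lemma deriv_u : deriv (fun t => a t * deriv a t)
    = fun t => deriv a t ^ 2 + a t * deriv (deriv a) t := funext fun t => (O.hu t).deriv

/-- the equation of the first factor -/
lemma xx' {t : ℝ} (ht : t ∈ Ioo 0 T) : deriv a t ^ 2 + a t * deriv (deriv a) t
    = c - lam * a t ^ 2 + 2 * deriv a t ^ 2
      - ((p * (deriv a t / a t) + σ t) - deriv f t) * (a t * deriv a t) := by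
  have h := O.xx t ht
  rw [O.deriv_u] at h
  linear_combination -h

/-- `ξ = s - f'` -/
lemma hξ {t : ℝ} (ht : t ∈ Ioo 0 T) : HasDerivAt
    (fun t => (p * (deriv a t / a t) + σ t) - deriv f t)
    ((p * (deriv (deriv a) t / a t - (deriv a t / a t) ^ 2) + deriv σ t)
      - deriv (deriv f) t) t := (O.hs ht).sub (O.hv t)

/-- the second order equation for `u` -/
lemma hu1 {t : ℝ} (ht : t ∈ Ioo 0 T) :
    HasDerivAt (fun t => deriv a t ^ 2 + a t * deriv (deriv a) t)
      (4 * deriv a t * deriv (deriv a) t - 2 * lam * (a t * deriv a t)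
        - (((p * (deriv (deriv a) t / a t - (deriv a t / a t) ^ 2) + deriv σ t)
            - deriv (deriv f) t) * (a t * deriv a t)
          + ((p * (deriv a t / a t) + σ t) - deriv f t)
            * (deriv a t ^ 2 + a t * deriv (deriv a) t))) t := by
  have h : HasDerivAt (fun t => c - lam * a t ^ 2 + 2 * deriv a t ^ 2
      - ((p * (deriv a t / a t) + σ t) - deriv f t) * (a t * deriv a t)) _ t :=
    ((((O.ha t).pow 2).const_mul lam).const_sub c |>.add (((O.ha1 t).pow 2).const_mul 2)).sub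
      ((O.hξ ht).mul (O.hu t))
  have h2 := h.congr_of_eventuallyEq (f₁ := fun t => deriv a t ^ 2 + a t * deriv (deriv a) t)
    (by filter_upwards [isOpen_Ioo.mem_nhds ht] with x hx using O.xx' hx)
  refine h2.congr_deriv ?_
  push_cast
  ring

/-- the second order equation for `f'` -/
lemma v2 {t : ℝ} (ht : t ∈ Ioo 0 T) : deriv (deriv (deriv f)) t
    = - ((p * (deriv a t / a t) + σ t) - deriv f t) * deriv (deriv f) t
      - (((p * (deriv (deriv a) t / a t - (deriv a t / a t) ^ 2) + deriv σ t)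
            - deriv (deriv f) t) + 2 * lam) * deriv f t := by
  have h1 := O.bi t ht
  have h2 := O.tt t ht
  rw [(O.hs ht).deriv] at h1 h2
  linear_combination h1 - 2 * deriv f t * h2

/-- the weight -/
noncomputable def W (_ : OData T lam c p a f σ τ H) (t : ℝ) : ℝ :=
  Real.exp (-f t) * a t ^ p * Real.sqrt (H t)

lemma hsqrt {t : ℝ} (ht : t ∈ Ioo 0 T) :
    HasDerivAt (fun t => Real.sqrt (H t)) (σ t * Real.sqrt (H t)) t := by
  have hH := O.H_pos t ht
  refine ((O.H_deriv t ht).sqrt hH.ne').congr_deriv ?_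
  have h2 : Real.sqrt (H t) ≠ 0 := (Real.sqrt_pos.2 hH).ne'
  field_simp
  rw [Real.sq_sqrt hH.le]

lemma hexp (t : ℝ) : HasDerivAt (fun t => Real.exp (-f t)) (-deriv f t * Real.exp (-f t)) t := by
  refine ((O.hf t).neg.exp).congr_deriv ?_
  simp only [Pi.neg_apply]
  ring

lemma hapow {t : ℝ} (ht : t ∈ Ioo 0 T) :
    HasDerivAt (fun t => a t ^ p) (p * (deriv a t / a t) * a t ^ p) t := by
  refine ((O.ha t).pow p).congr_deriv ?_
  have ha := (O.a_pos t ht).ne'
  rcases p with _ | p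
  · simp
  · rw [Nat.add_sub_cancel, pow_succ]
    field_simp

lemma hW {t : ℝ} (ht : t ∈ Ioo 0 T) : HasDerivAt O.W
    (((p * (deriv a t / a t) + σ t) - deriv f t) * O.W t) t := by
  have h := ((O.hexp t).mul (O.hapow ht)).mul (O.hsqrt ht)
  refine h.congr_deriv ?_
  unfold W
  simp only [Pi.mul_apply]
  ring

lemma W_pos {t : ℝ} (ht : t ∈ Ioo 0 T) : 0 < O.W t := by
  unfold W
  exact mul_pos (mul_pos (Real.exp_pos _) (pow_pos (O.a_pos t ht) _)) (Real.sqrt_pos.2 (O.H_pos t ht))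

/-- the Wronskian -/
lemma hG {t : ℝ} (ht : t ∈ Ioo 0 T) : HasDerivAt (fun t => O.W t * (deriv (deriv f) t
    * (a t * deriv a t) - deriv f t * deriv (fun t => a t * deriv a t) t))
    (-(4 * O.W t * deriv a t * deriv (deriv a) t) * deriv f t) t := by
  rw [O.deriv_u]
  have h := (O.hW ht).mul (((O.hv1 t).mul (O.hu t)).sub ((O.hv t).mul (O.hu1 ht)))
  refine h.congr_deriv ?_
  rw [O.v2 ht]
  simp only [Pi.mul_apply, Pi.sub_apply]
  ring

/-- a bounded function times a continuous function which vanishes at the endpoint -/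
lemma W_bdd : ∃ C, ∀ t ∈ Ioo 0 T, |O.W t| ≤ C := by
  obtain ⟨C, hC⟩ := O.H_bdd
  have hc : ContinuousOn (fun t => Real.exp (-f t) * a t ^ p) (Icc 0 T) :=
    ((Real.continuous_exp.comp O.f_smooth.continuous.neg).mul
      (O.a_smooth.continuous.pow p)).continuousOn
  obtain ⟨M, hM⟩ := isCompact_Icc.exists_bound_of_continuousOn hc
  refine ⟨M * Real.sqrt C, fun t ht => ?_⟩
  unfold W
  rw [abs_mul]
  have h1 := hM t ⟨ht.1.le, ht.2.le⟩
  rw [Real.norm_eq_abs] at h1
  have h2 : |Real.sqrt (H t)| ≤ Real.sqrt C := by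
    rw [abs_of_nonneg (Real.sqrt_nonneg _)]
    exact Real.sqrt_le_sqrt (hC t ht)
  exact mul_le_mul h1 h2 (abs_nonneg _) ((abs_nonneg _).trans h1)

lemma lim_G {z : ℝ} (hz : deriv f z = 0) (hz2 : a z * deriv a z = 0) (l : Filter ℝ)
    (hl : l ≤ 𝓝 z) (hl2 : ∀ᶠ t in l, t ∈ Ioo 0 T) :
    Tendsto (fun t => O.W t * (deriv (deriv f) t
    * (a t * deriv a t) - deriv f t * deriv (fun t => a t * deriv a t) t)) l (𝓝 0) := by
  obtain ⟨C, hC⟩ := O.W_bdd
  rw [O.deriv_u]
  have hc : Continuous fun t => deriv (deriv f) t * (a t * deriv a t)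
      - deriv f t * (deriv a t ^ 2 + a t * deriv (deriv a) t) :=
    (O.v1_smooth.continuous.mul (O.a_smooth.continuous.mul O.a1_smooth.continuous)).sub
      (O.v_smooth.continuous.mul ((O.a1_smooth.continuous.pow 2).add
        (O.a_smooth.continuous.mul O.a2_smooth.continuous)))
  have h1 := (hc.tendsto z).mono_left hl
  simp only [hz, hz2, mul_zero, zero_mul, sub_zero] at h1
  refine bdd_le_mul_tendsto_zero' C ?_ h1
  filter_upwards [hl2] with t ht using hC t ht

lemma u_zero : a 0 * deriv a 0 = 0 := by rw [O.a_zero, zero_mul]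
lemma u_T : a T * deriv a T = 0 := by rw [O.da_T, mul_zero]

/-- if `a' > 0` and `a'' < 0` on `(0, T)`, then `f' = 0` -/
theorem df_eq_zero (h1 : ∀ t ∈ Ioo 0 T, 0 < deriv a t)
    (h2 : ∀ t ∈ Ioo 0 T, deriv (deriv a) t < 0) : ∀ t ∈ Icc 0 T, deriv f t = 0 := by
  have hu : ∀ t ∈ Ioo 0 T, 0 < a t * deriv a t := fun t ht => mul_pos (O.a_pos t ht) (h1 t ht)
  have hq : ∀ t ∈ Ioo 0 T, 0 < -(4 * O.W t * deriv a t * deriv (deriv a) t) := fun t ht => by
    have h3 := mul_pos (mul_pos (O.W_pos ht) (h1 t ht)) (neg_pos.2 (h2 t ht))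
    nlinarith
  have hlim0 := O.lim_G O.df_zero O.u_zero (𝓝[>] 0) nhdsWithin_le_nhds
    (Ioo_mem_nhdsGT O.T_pos)
  have hlimT := O.lim_G O.df_T O.u_T (𝓝[<] T) nhdsWithin_le_nhds
    (Ioo_mem_nhdsLT O.T_pos)
  have hle := sturm (v := deriv f) (u := fun t => a t * deriv a t) (W := O.W)
    (q := fun t => -(4 * O.W t * deriv a t * deriv (deriv a) t))
    (fun t => (O.hv t).differentiableAt) O.df_zero O.df_T (fun t ht => O.W_pos ht) hu hq
    (fun t ht => O.hG ht) hlim0 hlimT
  have hge := sturm (v := fun t => -deriv f t) (u := fun t => a t * deriv a t) (W := O.W)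
    (q := fun t => -(4 * O.W t * deriv a t * deriv (deriv a) t))
    (fun t => (O.hv t).differentiableAt.neg) (by rw [O.df_zero, neg_zero])
    (by rw [O.df_T, neg_zero]) (fun t ht => O.W_pos ht) hu hq ?_ ?_ ?_
  · intro t ht
    rcases eq_or_lt_of_le ht.1 with h | h
    · rw [← h]; exact O.df_zero
    rcases eq_or_lt_of_le ht.2 with h' | h'
    · rw [h']; exact O.df_T
    exact le_antisymm (hle t ⟨h, h'⟩) (by have := hge t ⟨h, h'⟩; linarith)
  · intro t ht
    have hd : ∀ t, deriv (fun t => -deriv f t) t = -deriv (deriv f) t := fun t => deriv.fun_neg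
    simp only [hd]
    have h3 := (O.hG ht).neg
    refine (h3.congr_deriv ?_).congr_of_eventuallyEq (Eventually.of_forall fun x => ?_)
    · ring
    · simp only [Pi.neg_apply]; ring
  · have hd : ∀ t, deriv (fun t => -deriv f t) t = -deriv (deriv f) t := fun t => deriv.fun_neg
    simp only [hd]
    have h3 := hlim0.neg
    rw [neg_zero] at h3
    refine h3.congr fun t => ?_
    ring
  · have hd : ∀ t, deriv (fun t => -deriv f t) t = -deriv (deriv f) t := fun t => deriv.fun_neg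
    simp only [hd]
    have h3 := hlimT.neg
    rw [neg_zero] at h3
    refine h3.congr fun t => ?_
    ring

end OData

end RS61
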