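import Mathlib
import Pool.Agent.RS61.ODE

/-!
# The case of a circle factor: the circle is automatically concave
-/

open Set Filter Topology
open scoped ContDiff

namespace RS61

namespace OData

variable {T lam : ℝ} {a f σ τ H : ℝ → ℝ} (O : OData T lam 0 1 a f σ τ H)

/-- the weight `w = e^{-f} √H` -/
noncomputable def w (_ : OData T lam 0 1 a f σ τ H) (t : ℝ) : ℝ := Real.exp (-f t) * Real.sqrt (H t)

include O

lemma w_pos {t : ℝ} (ht : t ∈ Ioo 0 T) : 0 < O.w t :=
  mul_pos (Real.exp_pos _) (Real.sqrt_pos.2 (O.H_pos t ht))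

lemma hw {t : ℝ} (ht : t ∈ Ioo 0 T) : HasDerivAt O.w ((σ t - deriv f t) * O.w t) t := by
  refine ((O.hexp t).mul (O.hsqrt ht)).congr_deriv ?_
  unfold w
  ring

/-- `a'' = - lam a - (σ - f') a'` -/
lemma a2_eq {t : ℝ} (ht : t ∈ Ioo 0 T) :
    deriv (deriv a) t = -(lam * a t) - (σ t - deriv f t) * deriv a t := by
  have h := O.xx' ht
  have ha := (O.a_pos t ht).ne'
  have h2 : a t * (deriv (deriv a) t + lam * a t + (σ t - deriv f t) * deriv a t) = 0 := by
    have h3 : deriv a t / a t * (a t * deriv a t) = deriv a t ^ 2 := by field_simp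
    push_cast at h
    linear_combination h - h3
  have h4 := (mul_eq_zero.1 h2).resolve_left ha
  linear_combination h4

lemma hwa {t : ℝ} (ht : t ∈ Ioo 0 T) :
    HasDerivAt (fun t => O.w t * deriv a t) (-(lam * O.w t * a t)) t := by
  refine ((O.hw ht).mul (O.ha1 t)).congr_deriv ?_
  rw [O.a2_eq ht]
  ring

variable (hlam : 0 < lam) (hH : Tendsto H (𝓝[<] T) (𝓝 0))

include hH in
lemma w_lim : Tendsto O.w (𝓝[<] T) (𝓝 0) := by
  have h1 : Tendsto (fun t => Real.exp (-f t)) (𝓝[<] T) (𝓝 (Real.exp (-f T))) :=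
    ((Real.continuous_exp.comp O.f_smooth.continuous.neg).tendsto T).mono_left nhdsWithin_le_nhds
  have h2 : Tendsto (fun t => Real.sqrt (H t)) (𝓝[<] T) (𝓝 (Real.sqrt 0)) :=
    (Real.continuous_sqrt.tendsto 0).comp hH
  have h3 := h1.mul h2
  rw [Real.sqrt_zero, mul_zero] at h3
  exact h3

omit O in
/-- a function with a negative derivative and the limit zero at the right endpoint is positive -/
lemma pos_of_lim {F F' : ℝ → ℝ} (hF : ∀ t ∈ Ioo 0 T, HasDerivAt F (F' t) t)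
    (hF' : ∀ t ∈ Ioo 0 T, F' t ≤ 0) (hl : Tendsto F (𝓝[<] T) (𝓝 0)) :
    ∀ t ∈ Ioo 0 T, 0 ≤ F t := by
  intro t ht
  refine le_of_tendsto hl ?_
  filter_upwards [Ioo_mem_nhdsLT ht.2] with x hx
  have h1 : AntitoneOn F (Ioo 0 T) := by
    refine antitoneOn_of_deriv_nonpos (convex_Ioo _ _)
      (fun y hy => (hF y hy).continuousAt.continuousWithinAt)
      (fun y hy => ?_) (fun y hy => ?_)
    · rw [interior_Ioo] at hy
      exact (hF y hy).differentiableAt.differentiableWithinAt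
    · rw [interior_Ioo] at hy
      rw [(hF y hy).deriv]; exact hF' y hy
  exact h1 ht ⟨ht.1.trans hx.1, hx.2⟩ hx.1.le

omit O in
/-- a positive function whose derivative vanishes on an interval ending at `T` does not tend to zero -/
lemma not_lim_zero {F : ℝ → ℝ} {t₀ : ℝ} (ht₀ : t₀ ∈ Ioo 0 T) (hF : ∀ t ∈ Ioo t₀ T, HasDerivAt F 0 t)
    (hpos : ∀ t ∈ Ioo t₀ T, 0 < F t) (hl : Tendsto F (𝓝[<] T) (𝓝 0)) : False := by
  have hm : (t₀ + T) / 2 ∈ Ioo t₀ T := ⟨by linarith [ht₀.2], by linarith [ht₀.2]⟩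
  have hc : ∀ x ∈ Ioo t₀ T, F x = F ((t₀ + T) / 2) := by
    intro x hx
    refine (convex_Ioo t₀ T).is_const_of_fderivWithin_eq_zero (𝕜 := ℝ)
      (fun y hy => (hF y hy).differentiableAt.differentiableWithinAt) (fun y hy => ?_) hx hm
    rw [fderivWithin_of_isOpen isOpen_Ioo hy]
    have h := (hF y hy).hasFDerivAt.fderiv
    rw [h]
    ext
    simp
  have h1 : Tendsto F (𝓝[<] T) (𝓝 (F ((t₀ + T) / 2))) := by
    refine tendsto_const_nhds.congr' ?_
    filter_upwards [Ioo_mem_nhdsLT ht₀.2] with x hx using (hc x hx).symm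
  have h2 := tendsto_nhds_unique hl h1
  exact absurd h2 (hpos _ hm).ne

include hlam hH in
/-- `a' > 0` -/
lemma a1_pos : ∀ t ∈ Ioo 0 T, 0 < deriv a t := by
  have hlim : Tendsto (fun t => O.w t * deriv a t) (𝓝[<] T) (𝓝 0) := by
    have h1 := (O.a1_smooth.continuous.tendsto T).mono_left (nhdsWithin_le_nhds (s := Iio T))
    have h2 := (O.w_lim hH).mul h1
    rwa [zero_mul] at h2
  have hder : ∀ t ∈ Ioo 0 T, -(lam * O.w t * a t) < 0 := fun t ht => by
    have := mul_pos (mul_pos hlam (O.w_pos ht)) (O.a_pos t ht)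
    linarith
  have h0 := pos_of_lim (fun t ht => O.hwa ht) (fun t ht => (hder t ht).le) hlim
  intro t ht
  have h1 : 0 < O.w t * deriv a t := by
    obtain ⟨s, hs1, hs2⟩ := exists_between ht.2
    have hs : s ∈ Ioo 0 T := ⟨ht.1.trans hs1, hs2⟩
    have h2 : StrictAntiOn (fun t => O.w t * deriv a t) (Ioo 0 T) := by
      refine strictAntiOn_of_deriv_neg (convex_Ioo _ _)
        (fun y hy => (O.hwa hy).continuousAt.continuousWithinAt) (fun y hy => ?_)
      rw [interior_Ioo] at hy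
      rw [(O.hwa hy).deriv]; exact hder y hy
    exact (h0 s hs).trans_lt (h2 ht hs hs1)
  exact (mul_pos_iff_of_pos_left (O.w_pos ht)).1 h1

/-- `w K`, `K = -a''/a` the sectional curvature of the planes spanned by `∂_t` and the circle -/
noncomputable def Q (_ : OData T lam 0 1 a f σ τ H) (t : ℝ) : ℝ :=
  Real.exp (-f t) * Real.sqrt (H t) * (lam + (σ t - deriv f t) * (deriv a t / a t))

lemma Q_eq {t : ℝ} (ht : t ∈ Ioo 0 T) : O.Q t = O.w t * (-(deriv (deriv a) t / a t)) := by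
  have ha := (O.a_pos t ht).ne'
  unfold Q w
  rw [O.a2_eq ht]
  congr 1
  field_simp
  ring

lemma hQ {t : ℝ} (ht : t ∈ Ioo 0 T) : HasDerivAt O.Q (-(O.w t * τ t * (deriv a t / a t))) t := by
  have h := (O.hw ht).mul (((((O.σ_diff t ht).hasDerivAt).sub (O.hv t)).mul (O.hX ht)).const_add lam)
  have h1 := O.tt t ht
  rw [(O.hs ht).deriv] at h1
  have ha := (O.a_pos t ht).ne'
  have h2 : deriv (deriv a) t / a t = -lam - (σ t - deriv f t) * (deriv a t / a t) := by
    rw [O.a2_eq ht]; field_simp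
  refine (h.congr_deriv ?_).congr_of_eventuallyEq (Eventually.of_forall fun x => ?_)
  · simp only [Pi.sub_apply, Pi.mul_apply]
    push_cast at h1
    rw [h2] at h1 ⊢
    linear_combination (-(O.w t * (deriv a t / a t))) * h1
  · simp only [Pi.sub_apply, Pi.mul_apply]
    rfl

variable (hτ : ∀ t ∈ Ioo 0 T, 0 ≤ τ t) (hτ0 : ∀ t ∈ Ioo 0 T, τ t = 0 → σ t = 0)

include hH in
lemma Q_lim (ha : 0 < a T) : Tendsto O.Q (𝓝[<] T) (𝓝 0) := by
  have h1 : Tendsto (fun t => -(deriv (deriv a) t / a t)) (𝓝[<] T)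
      (𝓝 (-(deriv (deriv a) T / a T))) :=
    (((O.a2_smooth.continuous.tendsto T).div (O.a_smooth.continuous.tendsto T) ha.ne').neg).mono_left
      nhdsWithin_le_nhds
  have h2 := (O.w_lim hH).mul h1
  rw [zero_mul] at h2
  refine h2.congr' ?_
  filter_upwards [Ioo_mem_nhdsLT O.T_pos] with t ht using (O.Q_eq ht).symm

include hlam hH hτ hτ0 in
/-- `a'' < 0` -/
lemma a2_neg : ∀ t ∈ Ioo 0 T, deriv (deriv a) t < 0 := by
  have ha1 := O.a1_pos hlam hH
  have haT : 0 < a T := by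
    have h1 : MonotoneOn a (Icc 0 T) := by
      refine monotoneOn_of_deriv_nonneg (convex_Icc _ _) O.a_smooth.continuous.continuousOn
        (fun x _ => (O.ha x).differentiableAt.differentiableWithinAt) (fun x hx => ?_)
      rw [interior_Icc] at hx
      exact (ha1 x hx).le
    have hm : T / 2 ∈ Ioo 0 T := ⟨by linarith [O.T_pos], by linarith [O.T_pos]⟩
    exact (O.a_pos _ hm).trans_le (h1 ⟨hm.1.le, hm.2.le⟩ ⟨O.T_pos.le, le_refl _⟩ hm.2.le)
  have hder : ∀ t ∈ Ioo 0 T, -(O.w t * τ t * (deriv a t / a t)) ≤ 0 := fun t ht => by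
    have := mul_nonneg (mul_nonneg (O.w_pos ht).le (hτ t ht)) (div_pos (ha1 t ht) (O.a_pos t ht)).le
    linarith
  have h0 := pos_of_lim (fun t ht => O.hQ ht) hder (O.Q_lim hH haT)
  have hanti : AntitoneOn O.Q (Ioo 0 T) := by
    refine antitoneOn_of_deriv_nonpos (convex_Ioo _ _)
      (fun y hy => (O.hQ hy).continuousAt.continuousWithinAt)
      (fun y hy => ?_) (fun y hy => ?_)
    · rw [interior_Ioo] at hy
      exact (O.hQ hy).differentiableAt.differentiableWithinAt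
    · rw [interior_Ioo] at hy
      rw [(O.hQ hy).deriv]; exact hder y hy
  have hpos : ∀ t ∈ Ioo 0 T, 0 < O.Q t := by
    intro t ht
    refine lt_of_le_of_ne (h0 t ht) fun h => ?_
    -- `Q` vanishes on `[t, T)`
    have hz : ∀ x ∈ Ioo t T, O.Q x = 0 := fun x hx =>
      le_antisymm (h ▸ hanti ht ⟨ht.1.trans hx.1, hx.2⟩ hx.1.le) (h0 x ⟨ht.1.trans hx.1, hx.2⟩)
    have hτz : ∀ x ∈ Ioo t T, τ x = 0 := by
      intro x hx
      have hx0 : x ∈ Ioo 0 T := ⟨ht.1.trans hx.1, hx.2⟩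
      have h1 : O.Q =ᶠ[𝓝 x] fun _ => (0 : ℝ) := by
        filter_upwards [isOpen_Ioo.mem_nhds hx] with y hy using hz y hy
      have h2 := (O.hQ hx0).deriv
      rw [h1.deriv_eq, deriv_const] at h2
      have h3 : O.w x * τ x * (deriv a x / a x) = 0 := by linarith
      have h4 := (div_pos (ha1 x hx0) (O.a_pos x hx0)).ne'
      have h5 := (O.w_pos hx0).ne'
      rcases mul_eq_zero.1 h3 with h6 | h6
      · exact (mul_eq_zero.1 h6).resolve_left h5
      · exact absurd h6 h4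
    refine not_lim_zero ht (F := H) (fun x hx => ?_) (fun x hx => O.H_pos x ⟨ht.1.trans hx.1, hx.2⟩)
      hH
    have hx0 : x ∈ Ioo 0 T := ⟨ht.1.trans hx.1, hx.2⟩
    have h1 := O.H_deriv x hx0
    rw [hτ0 x hx0 (hτz x hx)] at h1
    simpa using h1
  intro t ht
  have h1 := hpos t ht
  rw [O.Q_eq ht] at h1
  have h2 : 0 < -(deriv (deriv a) t / a t) := (mul_pos_iff_of_pos_left (O.w_pos ht)).1 h1
  have h3 : deriv (deriv a) t / a t < 0 := by linarith
  exact (div_neg_iff.1 h3).elim (fun h => absurd h.2 (not_lt.2 (O.a_pos t ht).le)) (fun h => h.1)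

include hlam hH hτ hτ0 in
/-- the soliton with a circle factor is trivial -/
theorem circle_trivial : ∀ t ∈ Icc 0 T, deriv f t = 0 :=
  O.df_eq_zero (O.a1_pos hlam hH) (O.a2_neg hlam hH hτ hτ0)

end OData

end RS61
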