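import Mathlib
import Pool.Agent.RS61.Sturm

/-!
# Critical points of the potential of a soliton `dt² + h_t`, `f = f(t)`

`H` is the determinant of `h(t, y₀)`, `σ` the trace of the shape operator and `τ` the trace of its square.
`v = f'` satisfies `v'' + ξ v' + (lam - τ) v = 0` with `ξ = σ - v`, `ξ' = - lam - τ`. On an interval with
`ξ ≥ 0` between two zeros of `v` the function `sqrt (exp (-f) sqrt H) v` is compared with the solution
`s exp (-lam s² / 4)` of the equation of the harmonic oscillator.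
-/

open Set Filter Topology
open scoped ContDiff

namespace RS61

/-- the comparison function -/
noncomputable def y0 (lam t1 t : ℝ) : ℝ := (t1 - t) * Real.exp (-(lam * (t1 - t) ^ 2 / 4))

/-- its derivative -/
noncomputable def y1 (lam t1 t : ℝ) : ℝ :=
  (-1 + lam * (t1 - t) ^ 2 / 2) * Real.exp (-(lam * (t1 - t) ^ 2 / 4))

lemma hexp0 (lam t1 t : ℝ) : HasDerivAt (fun t => Real.exp (-(lam * (t1 - t) ^ 2 / 4)))
    (lam * (t1 - t) / 2 * Real.exp (-(lam * (t1 - t) ^ 2 / 4))) t := by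
  have h1 : HasDerivAt (fun t => t1 - t) (-1) t := by simpa using (hasDerivAt_id t).const_sub t1
  have h2 := ((((h1.pow 2).const_mul lam).div_const 4).neg).exp
  refine h2.congr_deriv ?_
  simp only [Pi.neg_apply, Pi.pow_apply]
  push_cast
  ring

lemma hy0 (lam t1 t : ℝ) : HasDerivAt (y0 lam t1) (y1 lam t1 t) t := by
  have h1 : HasDerivAt (fun t => t1 - t) (-1) t := by simpa using (hasDerivAt_id t).const_sub t1
  refine (h1.mul (hexp0 lam t1 t)).congr_deriv ?_
  unfold y1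
  ring

lemma hy1 (lam t1 t : ℝ) : HasDerivAt (y1 lam t1)
    ((-(3 * lam / 2) + lam ^ 2 * (t1 - t) ^ 2 / 4) * y0 lam t1 t) t := by
  have h1 : HasDerivAt (fun t => t1 - t) (-1) t := by simpa using (hasDerivAt_id t).const_sub t1
  have h2 := ((((h1.pow 2).const_mul lam).div_const 2).const_add (-1)).mul (hexp0 lam t1 t)
  refine h2.congr_deriv ?_
  unfold y0
  simp only [Pi.pow_apply]
  push_cast
  ring

lemma y0_pos {lam t1 t : ℝ} (h : t < t1) : 0 < y0 lam t1 t :=
  mul_pos (sub_pos.2 h) (Real.exp_pos _)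

lemma y0_nonneg {lam t1 t : ℝ} (h : t ≤ t1) : 0 ≤ y0 lam t1 t :=
  mul_nonneg (sub_nonneg.2 h) (Real.exp_pos _).le

/-- the comparison argument -/
theorem crit_key {u u1 ξ τ r : ℝ → ℝ} {lam T t1 : ℝ} (hlam : 0 < lam) (ht1 : t1 ∈ Ioo 0 T)
    (hu : ∀ t, HasDerivAt u (u1 t) t) (hu1c : Continuous u1)
    (hu1 : ∀ t ∈ Ioo 0 T, HasDerivAt u1 (-ξ t * u1 t + (τ t - lam) * u t) t)
    (hξ : ∀ t ∈ Ioo 0 T, HasDerivAt ξ (-lam - τ t) t) (hτ : ∀ t ∈ Ioo 0 T, 0 ≤ τ t)
    (hr : ∀ t ∈ Ioo 0 T, HasDerivAt r (ξ t / 2 * r t) t) (hrp : ∀ t ∈ Ioo 0 T, 0 < r t)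
    (hξ1 : 0 ≤ ξ t1) (hu0 : u 0 = 0) (hut : u t1 = 0) {s : ℝ} (hs : s ∈ Ioo 0 t1)
    (hpos : 0 < u s) :
    ∃ α β, 0 ≤ α ∧ α < β ∧ β ≤ t1 ∧ u α = 0 ∧ u β = 0 ∧ ∀ t ∈ Ioo α β, τ t = 0 := by
  have huc : Continuous u := continuous_iff_continuousAt.2 fun t => (hu t).continuousAt
  obtain ⟨α, ha1, ha2, ha3, ha4⟩ := exists_left huc hs.1 hu0.le hpos
  obtain ⟨β, hb1, hb2, hb3, hb4⟩ := exists_right huc hs.2 hut.le hpos
  have hαβ : α < β := ha2.trans hb1
  have hup : ∀ t ∈ Ioo α β, 0 < u t := by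
    intro t ht
    rcases le_total t s with h | h
    · exact ha4 t ⟨ht.1, h⟩
    · exact hb4 t ⟨h, ht.2⟩
  have hin : ∀ t ∈ Ioo 0 t1, t ∈ Ioo 0 T := fun t ht => ⟨ht.1, ht.2.trans ht1.2⟩
  have hin' : ∀ t ∈ Ioo α β, t ∈ Ioo 0 t1 := fun t ht => ⟨ha1.trans_lt ht.1, ht.2.trans_le hb2⟩
  -- lower bound for ξ
  have hξl : ∀ t ∈ Ioo 0 t1, lam * (t1 - t) ≤ ξ t := by
    intro t ht
    have hanti : AntitoneOn (fun t => ξ t + lam * t) (Icc t t1) := by
      have hd : ∀ x ∈ Icc t t1, HasDerivAt (fun t => ξ t + lam * t) ((-lam - τ x) + lam) x := by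
        intro x hx
        have hx' : x ∈ Ioo 0 T := ⟨ht.1.trans_le hx.1, hx.2.trans_lt ht1.2⟩
        have h1 : HasDerivAt (fun t => lam * t) lam x := by
          simpa using (hasDerivAt_id x).const_mul lam
        exact (hξ x hx').add h1
      refine antitoneOn_of_deriv_nonpos (convex_Icc _ _)
        (fun x hx => (hd x hx).continuousAt.continuousWithinAt)
        (fun x hx => (hd x (interior_subset hx)).differentiableAt.differentiableWithinAt) ?_
      intro x hx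
      rw [(hd x (interior_subset hx)).deriv]
      have := hτ x ⟨ht.1.trans_le (interior_subset hx).1, (interior_subset hx).2.trans_lt ht1.2⟩
      linarith
    have h2 := hanti (left_mem_Icc.2 ht.2.le) (right_mem_Icc.2 ht.2.le) ht.2.le
    simp only at h2
    linarith
  have hξp : ∀ t ∈ Ioo 0 t1, 0 ≤ ξ t := fun t ht =>
    (mul_nonneg hlam.le (sub_nonneg.2 ht.2.le)).trans (hξl t ht)
  -- r is monotone
  have hrm : MonotoneOn r (Ioo 0 t1) := by
    refine monotoneOn_of_deriv_nonneg (convex_Ioo _ _)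
      (fun x hx => (hr x (hin x hx)).continuousAt.continuousWithinAt)
      (fun x hx => (hr x (hin x (interior_subset hx))).differentiableAt.differentiableWithinAt) ?_
    intro x hx
    have hx' := interior_subset hx
    rw [(hr x (hin x hx')).deriv]
    exact mul_nonneg (div_nonneg (hξp x hx') (by norm_num)) (hrp x (hin x hx')).le
  -- the function D
  set D : ℝ → ℝ := fun t => r t * ((u1 t + ξ t / 2 * u t) * y0 lam t1 t - u t * y1 lam t1 t)
    with hD
  have hDd : ∀ t ∈ Ioo 0 T, HasDerivAt D (r t * u t * y0 lam t1 t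
      * (τ t / 2 + (ξ t ^ 2 - (lam * (t1 - t)) ^ 2) / 4)) t := by
    intro t ht
    have h1 := (hr t ht).mul ((((hu1 t ht).add (((hξ t ht).div_const 2).mul (hu t))).mul
      (hy0 lam t1 t)).sub ((hu t).mul (hy1 lam t1 t)))
    refine h1.congr_deriv ?_
    simp only [Pi.mul_apply, Pi.sub_apply, Pi.add_apply]
    ring
  have hDq : ∀ t ∈ Ioo 0 t1, 0 ≤ (ξ t ^ 2 - (lam * (t1 - t)) ^ 2) / 4 := by
    intro t ht
    have h1 := hξl t ht
    have h2 : 0 ≤ lam * (t1 - t) := mul_nonneg hlam.le (sub_nonneg.2 ht.2.le)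
    have h3 := pow_le_pow_left₀ h2 h1 2
    linarith
  have hDm : MonotoneOn D (Ioo α β) := by
    refine monotoneOn_of_deriv_nonneg (convex_Ioo _ _)
      (fun x hx => (hDd x (hin x (hin' x hx))).continuousAt.continuousWithinAt)
      (fun x hx => (hDd x (hin x (hin' x (interior_subset hx)))).differentiableAt.differentiableWithinAt)
      ?_
    intro x hx
    have hx0 := interior_subset hx
    have hx' := hin' x hx0
    rw [(hDd x (hin x hx')).deriv]
    refine mul_nonneg (mul_nonneg (mul_nonneg (hrp x (hin x hx')).le (hup x hx0).le)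
      (y0_nonneg hx'.2.le)) ?_
    have := hDq x hx'
    have := hτ x (hin x hx')
    linarith
  -- D is nonnegative
  have hD0 : ∀ t ∈ Ioo α β, 0 ≤ D t := by
    intro t ht
    set g : ℝ → ℝ := fun x => u1 x * y0 lam t1 x - u x * y1 lam t1 x with hg
    have hy0c : Continuous (y0 lam t1) :=
      continuous_iff_continuousAt.2 fun t => (hy0 lam t1 t).continuousAt
    have hy1c : Continuous (y1 lam t1) :=
      continuous_iff_continuousAt.2 fun t => (hy1 lam t1 t).continuousAt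
    have hgc : Continuous g := (hu1c.mul hy0c).sub (huc.mul hy1c)
    have hgα : 0 ≤ g α := by
      simp only [hg, ha3, zero_mul, sub_zero]
      exact mul_nonneg (deriv_nonneg_left hαβ ha3 (fun t ht => (hup t ht).le) (hu α))
        (y0_nonneg (hαβ.le.trans hb2))
    have hlim : Tendsto (fun x => r t * min (g x) 0) (𝓝[>] α) (𝓝 (r t * min (g α) 0)) :=
      ((continuous_const.mul (hgc.min continuous_const)).tendsto α).mono_left nhdsWithin_le_nhds
    rw [min_eq_right hgα, mul_zero] at hlim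
    refine le_of_tendsto hlim ?_
    filter_upwards [Ioo_mem_nhdsGT ht.1] with x hx
    have hxαβ : x ∈ Ioo α β := ⟨hx.1, hx.2.trans ht.2⟩
    have hx' := hin' x hxαβ
    have h1 : D x ≤ D t := hDm hxαβ ht hx.2.le
    have h2 : r x ≤ r t := hrm hx' (hin' t ht) hx.2.le
    have h3 : 0 < r x := hrp x (hin x hx')
    have h4 : r x * g x ≤ D x := by
      simp only [hD, hg]
      refine mul_le_mul_of_nonneg_left ?_ h3.le
      have h5 : 0 ≤ ξ x / 2 * u x * y0 lam t1 x :=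
        mul_nonneg (mul_nonneg (div_nonneg (hξp x hx') (by norm_num)) (hup x hxαβ).le)
          (y0_nonneg hx'.2.le)
      linarith
    have h6 : r x * min (g x) 0 ≤ r x * g x := mul_le_mul_of_nonneg_left (min_le_left _ _) h3.le
    have h7 : r t * min (g x) 0 ≤ r x * min (g x) 0 :=
      mul_le_mul_of_nonpos_right h2 (min_le_right _ _)
    linarith
  -- D is nonpositive
  have hβT : β ∈ Ioo 0 T := ⟨ha1.trans_lt hαβ, hb2.trans_lt ht1.2⟩
  have hD1 : ∀ t ∈ Ioo α β, D t ≤ 0 := by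
    intro t ht
    have hDβ : D β ≤ 0 := by
      simp only [hD, hb3, zero_mul, mul_zero, sub_zero, add_zero]
      refine mul_nonpos_of_nonneg_of_nonpos (hrp β hβT).le
        (mul_nonpos_of_nonpos_of_nonneg ?_ (y0_nonneg hb2))
      exact deriv_nonpos_right hαβ hb3 (fun t ht => (hup t ht).le) (hu β)
    have hlim : Tendsto D (𝓝[<] β) (𝓝 (D β)) :=
      ((hDd β hβT).continuousAt.tendsto).mono_left nhdsWithin_le_nhds
    have h1 : D t ≤ D β := by
      refine ge_of_tendsto hlim ?_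
      filter_upwards [Ioo_mem_nhdsLT ht.2] with x hx
      exact hDm ht ⟨ht.1.trans hx.1, hx.2⟩ hx.1.le
    exact h1.trans hDβ
  refine ⟨α, β, ha1, hαβ, hb2, ha3, hb3, fun t ht => ?_⟩
  have hx' := hin' t ht
  have h1 : HasDerivAt D 0 t := by
    refine (hasDerivAt_const t (0 : ℝ)).congr_of_eventuallyEq ?_
    filter_upwards [isOpen_Ioo.mem_nhds ht] with x hx
    exact le_antisymm (hD1 x hx) (hD0 x hx)
  have h2 := (hDd t (hin t hx')).unique h1
  have h3 : 0 < r t * u t * y0 lam t1 t :=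
    mul_pos (mul_pos (hrp t (hin t hx')) (hup t ht)) (y0_pos hx'.2)
  have h4 := (mul_eq_zero.1 h2).resolve_left h3.ne'
  have h5 := hDq t hx'
  have h6 := hτ t (hin t hx')
  linarith

/-- uniqueness for the linear equation -/
lemma crit_unique {v v1 ξ q : ℝ → ℝ} {t1 b : ℝ} (hv : ∀ t, HasDerivAt v (v1 t) t)
    (hv1 : ∀ t ∈ Icc t1 b, HasDerivAt v1 (-ξ t * v1 t + q t * v t) t)
    (hξc : ContinuousOn ξ (Icc t1 b)) (hqc : ContinuousOn q (Icc t1 b))
    (h0 : v t1 = 0) (h1 : v1 t1 = 0) : ∀ t ∈ Icc t1 b, v t = 0 := by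
  obtain ⟨M, hM⟩ := isCompact_Icc.exists_bound_of_continuousOn hξc
  obtain ⟨N, hN⟩ := isCompact_Icc.exists_bound_of_continuousOn hqc
  have hvc : Continuous v := continuous_iff_continuousAt.2 fun t => (hv t).continuousAt
  have key := norm_le_gronwallBound_of_norm_deriv_right_le (f := fun t => (v t, v1 t))
    (f' := fun t => (v1 t, -ξ t * v1 t + q t * v t)) (δ := 0) (K := 1 + |M| + |N|) (ε := 0)
    (a := t1) (b := b) ?_ ?_ ?_ ?_
  · intro t ht
    have h2 := key t ht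
    rw [gronwallBound_ε0_δ0] at h2
    have h3 : ‖v t‖ ≤ ‖(v t, v1 t)‖ := norm_fst_le (v t, v1 t)
    have h4 : ‖v t‖ ≤ 0 := h3.trans h2
    exact norm_le_zero_iff.1 h4
  · exact fun t ht => (hvc.continuousAt.prodMk (hv1 t ht).continuousAt).continuousWithinAt
  · intro t ht
    exact ((hv t).prodMk (hv1 t ⟨ht.1, ht.2.le⟩)).hasDerivWithinAt
  · simp [h0, h1]
  · intro t ht
    have ht' : t ∈ Icc t1 b := ⟨ht.1, ht.2.le⟩
    have h2 := hM t ht'
    have h3 := hN t ht'
    have h4 : ‖v t‖ ≤ ‖(v t, v1 t)‖ := norm_fst_le (v t, v1 t)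
    have h5 : ‖v1 t‖ ≤ ‖(v t, v1 t)‖ := norm_snd_le (v t, v1 t)
    set n := ‖(v t, v1 t)‖ with hn
    have hn0 : 0 ≤ n := norm_nonneg _
    have h2' : ‖ξ t‖ ≤ |M| := h2.trans (le_abs_self M)
    have h3' : ‖q t‖ ≤ |N| := h3.trans (le_abs_self N)
    rw [add_zero]
    refine (norm_prod_le_iff (r := (1 + |M| + |N|) * n)).2 ⟨?_, ?_⟩
    · show ‖v1 t‖ ≤ _
      nlinarith [abs_nonneg M, abs_nonneg N, mul_nonneg (abs_nonneg M) hn0,
        mul_nonneg (abs_nonneg N) hn0]
    · show ‖-ξ t * v1 t + q t * v t‖ ≤ _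
      have h6 : ‖-ξ t * v1 t + q t * v t‖ ≤ ‖ξ t‖ * ‖v1 t‖ + ‖q t‖ * ‖v t‖ := by
        refine (norm_add_le _ _).trans ?_
        rw [norm_mul, norm_mul, norm_neg]
      have h7 : ‖ξ t‖ * ‖v1 t‖ ≤ |M| * n := mul_le_mul h2' h5 (norm_nonneg _) (abs_nonneg _)
      have h8 : ‖q t‖ * ‖v t‖ ≤ |N| * n := mul_le_mul h3' h4 (norm_nonneg _) (abs_nonneg _)
      nlinarith

/-- the equations along the normal geodesic of a soliton `dt² + h_t` -/
structure CData (T lam : ℝ) (f σ τ H : ℝ → ℝ) : Prop where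
  T_pos : 0 < T
  lam_pos : 0 < lam
  f_smooth : ContDiff ℝ ∞ f
  H_pos : ∀ t ∈ Ioo 0 T, 0 < H t
  H_deriv : ∀ t ∈ Ioo 0 T, HasDerivAt H (2 * σ t * H t) t
  σ_diff : ∀ t ∈ Ioo 0 T, DifferentiableAt ℝ σ t
  τ_cont : ContinuousOn τ (Ioo 0 T)
  τ_nonneg : ∀ t ∈ Ioo 0 T, 0 ≤ τ t
  σ_of_τ : ∀ t ∈ Ioo 0 T, τ t = 0 → σ t = 0
  tt : ∀ t ∈ Ioo 0 T, deriv (deriv f) t = lam + deriv σ t + τ t
  bi : ∀ t ∈ Ioo 0 T, deriv (deriv (deriv f)) t + σ t * deriv (deriv f) t
    - (2 * τ t + deriv σ t) * deriv f t = 0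

namespace CData

variable {T lam : ℝ} {f σ τ H : ℝ → ℝ} (O : CData T lam f σ τ H)

include O

lemma v_smooth : ContDiff ℝ ∞ (deriv f) := (contDiff_infty_iff_deriv.1 O.f_smooth).2
lemma v1_smooth : ContDiff ℝ ∞ (deriv (deriv f)) := (contDiff_infty_iff_deriv.1 O.v_smooth).2

lemma hf (t : ℝ) : HasDerivAt f (deriv f t) t :=
  ((contDiff_infty_iff_deriv.1 O.f_smooth).1 t).hasDerivAt
lemma hv (t : ℝ) : HasDerivAt (deriv f) (deriv (deriv f) t) t :=
  ((contDiff_infty_iff_deriv.1 O.v_smooth).1 t).hasDerivAt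
lemma hv1 (t : ℝ) : HasDerivAt (deriv (deriv f)) (deriv (deriv (deriv f)) t) t :=
  ((contDiff_infty_iff_deriv.1 O.v1_smooth).1 t).hasDerivAt

lemma hξ {t : ℝ} (ht : t ∈ Ioo 0 T) : HasDerivAt (fun t => σ t - deriv f t) (-lam - τ t) t := by
  refine ((O.σ_diff t ht).hasDerivAt.sub (O.hv t)).congr_deriv ?_
  have := O.tt t ht
  linarith

lemma hv2 {t : ℝ} (ht : t ∈ Ioo 0 T) : HasDerivAt (deriv (deriv f))
    (-(σ t - deriv f t) * deriv (deriv f) t + (τ t - lam) * deriv f t) t := by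
  refine (O.hv1 t).congr_deriv ?_
  have h1 := O.bi t ht
  have h2 := O.tt t ht
  linear_combination h1 - deriv f t * h2

/-- the square root of the weight -/
noncomputable def r (_ : CData T lam f σ τ H) (t : ℝ) : ℝ :=
  Real.sqrt (Real.exp (-f t) * Real.sqrt (H t))

lemma W_pos {t : ℝ} (ht : t ∈ Ioo 0 T) : 0 < Real.exp (-f t) * Real.sqrt (H t) :=
  mul_pos (Real.exp_pos _) (Real.sqrt_pos.2 (O.H_pos t ht))

lemma r_pos {t : ℝ} (ht : t ∈ Ioo 0 T) : 0 < O.r t := Real.sqrt_pos.2 (O.W_pos ht)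

lemma hr {t : ℝ} (ht : t ∈ Ioo 0 T) : HasDerivAt O.r ((σ t - deriv f t) / 2 * O.r t) t := by
  have hH := O.H_pos t ht
  have h1 : HasDerivAt (fun t => Real.sqrt (H t)) (σ t * Real.sqrt (H t)) t := by
    refine ((O.H_deriv t ht).sqrt hH.ne').congr_deriv ?_
    have h2 : Real.sqrt (H t) ≠ 0 := (Real.sqrt_pos.2 hH).ne'
    field_simp
    rw [Real.sq_sqrt hH.le]
  have h2 : HasDerivAt (fun t => Real.exp (-f t)) (-deriv f t * Real.exp (-f t)) t := by
    refine ((O.hf t).neg.exp).congr_deriv ?_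
    simp only [Pi.neg_apply]
    ring
  have h3 := (h2.mul h1).sqrt (O.W_pos ht).ne'
  refine h3.congr_deriv ?_
  have h4 := O.r_pos ht
  have h5 : O.r t * O.r t = Real.exp (-f t) * Real.sqrt (H t) := Real.mul_self_sqrt (O.W_pos ht).le
  have h6 : Real.sqrt ((Real.exp (-f t)) * Real.sqrt (H t)) = O.r t := rfl
  simp only [Pi.mul_apply]
  rw [h6, div_eq_iff (by positivity)]
  linear_combination (-(σ t - deriv f t)) * h5

/-- the first case: `ξ(t₁) ≥ 0` -/
lemma left_zero {t1 : ℝ} (ht1 : t1 ∈ Ioo 0 T) (hξ1 : 0 ≤ σ t1 - deriv f t1)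
    (h0 : deriv f 0 = 0) (h1 : deriv f t1 = 0) : ∀ t ∈ Icc 0 t1, deriv f t = 0 := by
  have contra : ∀ α β : ℝ, 0 ≤ α → α < β → β ≤ t1 → deriv f α = 0 → deriv f β = 0 →
      (∀ t ∈ Ioo α β, τ t = 0) → False := by
    intro α β hα hαβ hβ h2 h3 h4
    have hin : ∀ t ∈ Ioo α β, t ∈ Ioo 0 T := fun t ht =>
      ⟨hα.trans_lt ht.1, (ht.2.trans_le hβ).trans ht1.2⟩
    have hσ : ∀ t ∈ Ioo α β, deriv σ t = 0 := by
      intro t ht
      have h5 : HasDerivAt σ 0 t := by
        refine (hasDerivAt_const t (0 : ℝ)).congr_of_eventuallyEq ?_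
        filter_upwards [isOpen_Ioo.mem_nhds ht] with x hx
        exact O.σ_of_τ x (hin x hx) (h4 x hx)
      exact h5.deriv
    obtain ⟨x, hx, hx'⟩ := exists_hasDerivAt_eq_slope (deriv f) (deriv (deriv f)) hαβ
      O.v_smooth.continuous.continuousOn (fun x _ => O.hv x)
    rw [h2, h3, sub_self, zero_div, O.tt x (hin x hx), hσ x hx, h4 x hx] at hx'
    linarith [O.lam_pos]
  intro t ht
  rcases eq_or_lt_of_le ht.1 with h | h
  · rw [← h]; exact h0
  rcases eq_or_lt_of_le ht.2 with h' | h'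
  · rw [h']; exact h1
  rcases lt_trichotomy (deriv f t) 0 with h2 | h2 | h2
  · exfalso
    obtain ⟨α, β, e1, e2, e3, e4, e5, e6⟩ := crit_key (u := fun t => -deriv f t)
      (u1 := fun t => -deriv (deriv f) t) (ξ := fun t => σ t - deriv f t) (τ := τ) (r := O.r)
      (lam := lam) (T := T) (t1 := t1) O.lam_pos ht1 (fun t => (O.hv t).neg)
      O.v1_smooth.continuous.neg
      (fun t ht => (O.hv2 ht).neg.congr_deriv (by ring)) (fun t ht => O.hξ ht) O.τ_nonneg
      (fun t ht => O.hr ht) (fun t ht => O.r_pos ht) hξ1 (by rw [h0, neg_zero])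
      (by rw [h1, neg_zero]) ⟨h, h'⟩ (by linarith)
    exact contra α β e1 e2 e3 (by linarith) (by linarith) e6
  · exact h2
  · exfalso
    obtain ⟨α, β, e1, e2, e3, e4, e5, e6⟩ := crit_key (u := deriv f)
      (u1 := deriv (deriv f)) (ξ := fun t => σ t - deriv f t) (τ := τ) (r := O.r)
      (lam := lam) (T := T) (t1 := t1) O.lam_pos ht1 (fun t => O.hv t)
      O.v1_smooth.continuous
      (fun t ht => O.hv2 ht) (fun t ht => O.hξ ht) O.τ_nonneg
      (fun t ht => O.hr ht) (fun t ht => O.r_pos ht) hξ1 h0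
      h1 ⟨h, h'⟩ h2
    exact contra α β e1 e2 e3 e4 e5 e6

/-- the first case -/
lemma all_zero {t1 : ℝ} (ht1 : t1 ∈ Ioo 0 T) (hξ1 : 0 ≤ σ t1 - deriv f t1)
    (h0 : deriv f 0 = 0) (h1 : deriv f t1 = 0) (hT : deriv f T = 0) :
    ∀ t ∈ Icc 0 T, deriv f t = 0 := by
  have hl := O.left_zero ht1 hξ1 h0 h1
  have h2 : deriv (deriv f) t1 = 0 := by
    have h3 := deriv_nonpos_right (v := deriv f) ht1.1 h1
      (fun t ht => (hl t ⟨ht.1.le, ht.2.le⟩).ge) (O.hv t1)
    have h4 := deriv_nonpos_right (v := fun t => -deriv f t) ht1.1 (by rw [h1, neg_zero])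
      (fun t ht => by rw [hl t ⟨ht.1.le, ht.2.le⟩, neg_zero]) (O.hv t1).neg
    linarith
  intro t ht
  rcases le_or_gt t t1 with h | h
  · exact hl t ⟨ht.1, h⟩
  rcases eq_or_lt_of_le ht.2 with h' | h'
  · rw [h']; exact hT
  have hin : ∀ s ∈ Icc t1 t, s ∈ Ioo 0 T := fun s hs => ⟨ht1.1.trans_le hs.1, hs.2.trans_lt h'⟩
  exact crit_unique (v := deriv f) (v1 := deriv (deriv f)) (ξ := fun t => σ t - deriv f t)
    (q := fun t => τ t - lam) (t1 := t1) (b := t) O.hv (fun s hs => O.hv2 (hin s hs))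
    (fun s hs => (O.hξ (hin s hs)).continuousAt.continuousWithinAt)
    ((O.τ_cont.mono hin).sub continuousOn_const) h1 h2 t ⟨h.le, le_refl _⟩

/-- the reversed data -/
lemma rev : CData T lam (fun t => f (T - t)) (fun t => -σ (T - t)) (fun t => τ (T - t))
    (fun t => H (T - t)) := by
  have e1 : deriv (fun t => f (T - t)) = fun t => -deriv f (T - t) :=
    funext fun t => deriv_comp_const_sub _ _ _
  have e2 : deriv (fun t => -deriv f (T - t)) = fun t => deriv (deriv f) (T - t) := by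
    funext t
    rw [deriv.fun_neg, deriv_comp_const_sub, neg_neg]
  have e3 : deriv (fun t => deriv (deriv f) (T - t)) = fun t => -deriv (deriv (deriv f)) (T - t) :=
    funext fun t => deriv_comp_const_sub _ _ _
  have e4 : ∀ t, deriv (fun t => -σ (T - t)) t = deriv σ (T - t) := by
    intro t
    rw [deriv.fun_neg, deriv_comp_const_sub, neg_neg]
  have hin : ∀ t ∈ Ioo 0 T, T - t ∈ Ioo 0 T := fun t ht => ⟨by linarith [ht.2], by linarith [ht.1]⟩
  have hd : ∀ t : ℝ, HasDerivAt (fun t => T - t) (-1) t := fun t => by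
    simpa using (hasDerivAt_id t).const_sub T
  refine ⟨O.T_pos, O.lam_pos, ?_, ?_, ?_, ?_, ?_, ?_, ?_, ?_, ?_⟩
  · exact O.f_smooth.comp (contDiff_const.sub contDiff_id)
  · exact fun t ht => O.H_pos _ (hin t ht)
  · intro t ht
    refine ((O.H_deriv _ (hin t ht)).comp t (hd t)).congr_deriv ?_
    ring
  · intro t ht
    exact (((O.σ_diff _ (hin t ht)).hasDerivAt.comp t (hd t)).differentiableAt).neg
  · exact O.τ_cont.comp (continuous_const.sub continuous_id).continuousOn hin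
  · exact fun t ht => O.τ_nonneg _ (hin t ht)
  · intro t ht h
    rw [O.σ_of_τ _ (hin t ht) h, neg_zero]
  · intro t ht
    rw [e1, e2, e4]
    exact O.tt _ (hin t ht)
  · intro t ht
    rw [e1, e2, e3, e4]
    have := O.bi _ (hin t ht)
    linear_combination -this

/-- `f'` has no zero between two zeros -/
theorem df_eq_zero {t1 : ℝ} (ht1 : t1 ∈ Ioo 0 T)
    (h0 : deriv f 0 = 0) (h1 : deriv f t1 = 0) (hT : deriv f T = 0) :
    ∀ t ∈ Icc 0 T, deriv f t = 0 := by
  rcases le_or_gt 0 (σ t1 - deriv f t1) with h | h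
  · exact O.all_zero ht1 h h0 h1 hT
  · have e1 : deriv (fun t => f (T - t)) = fun t => -deriv f (T - t) :=
      funext fun t => deriv_comp_const_sub _ _ _
    have h2 := O.rev.all_zero (t1 := T - t1) ⟨by linarith [ht1.2], by linarith [ht1.1]⟩
      (by rw [e1]; simp only [sub_sub_cancel]; linarith)
      (by rw [e1]; simp only [sub_zero, hT, neg_zero])
      (by rw [e1]; simp only [sub_sub_cancel, h1, neg_zero])
      (by rw [e1]; simp only [sub_self, h0, neg_zero])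
    intro t ht
    have h3 := h2 (T - t) ⟨by linarith [ht.2], by linarith [ht.1]⟩
    rw [e1] at h3
    simp only [sub_sub_cancel] at h3
    linarith

end CData

end RS61
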