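import Mathlib

/-!
# The derivative of a determinant, and the trace of the square of a shape operator
-/

open Finset Matrix

namespace RS61

variable {n : Type} [Fintype n] [DecidableEq n]

/-- Jacobi's formula -/
theorem hasDerivAt_det {M : ℝ → Matrix n n ℝ} {M' : Matrix n n ℝ} {t : ℝ}
    (hM : ∀ i j, HasDerivAt (fun t => M t i j) (M' i j) t) (hd : (M t).det ≠ 0) :
    HasDerivAt (fun t => (M t).det) ((M t).det * ∑ i, ∑ r, (M t)⁻¹ i r * M' r i) t := by
  have h1 : HasDerivAt (fun t => ∑ σ : Equiv.Perm n, (Equiv.Perm.sign σ : ℝ) * ∏ i, M t (σ i) i)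
      (∑ σ : Equiv.Perm n, (Equiv.Perm.sign σ : ℝ) *
        ∑ i, (∏ j ∈ univ.erase i, M t (σ j) j) * M' (σ i) i) t := by
    refine HasDerivAt.fun_sum fun σ _ => HasDerivAt.const_mul _ ?_
    have := HasDerivAt.fun_finsetProd (u := univ) (f := fun i t => M t (σ i) i)
      (f' := fun i => M' (σ i) i) (x := t) fun i _ => hM (σ i) i
    simpa using this
  have h2 : (fun t => (M t).det)
      = fun t => ∑ σ : Equiv.Perm n, (Equiv.Perm.sign σ : ℝ) * ∏ i, M t (σ i) i := by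
    funext t
    rw [Matrix.det_apply']
  rw [h2]
  refine h1.congr_deriv ?_
  have h3 : ∀ i, ∑ r, (M t).adjugate i r * M' r i
      = ∑ σ : Equiv.Perm n, (Equiv.Perm.sign σ : ℝ) * ((∏ j ∈ univ.erase i, M t (σ j) j) * M' (σ i) i) := by
    intro i
    have h4 : ∑ r, (M t).adjugate i r * M' r i = (M t).cramer (fun r => M' r i) i := by
      rw [Matrix.cramer_eq_adjugate_mulVec]; rfl
    rw [h4, Matrix.cramer_apply, Matrix.det_apply']
    refine Finset.sum_congr rfl fun σ _ => ?_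
    congr 1
    rw [← Finset.mul_prod_erase univ _ (mem_univ i), mul_comm]
    congr 1
    · refine Finset.prod_congr rfl fun j hj => ?_
      rw [Matrix.updateCol_ne (Finset.ne_of_mem_erase hj)]
    · rw [Matrix.updateCol_self]
  have h5 : ∀ i r, (M t).det * ((M t)⁻¹ i r * M' r i) = (M t).adjugate i r * M' r i := by
    intro i r
    rw [Matrix.inv_def, Matrix.smul_apply, Ring.inverse_eq_inv', smul_eq_mul]
    field_simp
  simp only [Finset.mul_sum, h5]
  rw [Finset.sum_comm]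
  refine (Finset.sum_congr rfl fun i _ => ?_)
  rw [h3 i]

/-- `tr S² ≥ 0` for `S = P⁻¹ Q / 2`, `P` positive definite and `Q` symmetric, and `tr S² = 0` only if
`S = 0`. -/
theorem trace_sq {P Q : Matrix n n ℝ} (hP : P.PosDef) (hQ : Qᵀ = Q) :
    0 ≤ ((P⁻¹ * Q) * (P⁻¹ * Q)).trace ∧ (((P⁻¹ * Q) * (P⁻¹ * Q)).trace = 0 → Q = 0) := by
  have hPi : P⁻¹.PosDef := hP.inv
  obtain ⟨B, hB⟩ : ∃ B : Matrix n n ℝ, P⁻¹ = Bᵀ * B := by
    open scoped MatrixOrder in
    obtain ⟨B, hB⟩ := CStarAlgebra.nonneg_iff_eq_star_mul_self.mp hPi.posSemidef.nonneg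
    refine ⟨B, ?_⟩
    have hBt : star B = Bᵀ := by ext i j; simp [Matrix.star_apply]
    rw [hB, hBt]
  set M := B * Q * Bᵀ with hM
  have hMt : Mᵀ = M := by
    rw [hM, Matrix.transpose_mul, Matrix.transpose_mul, Matrix.transpose_transpose, hQ,
      Matrix.mul_assoc]
  have h1 : ((P⁻¹ * Q) * (P⁻¹ * Q)).trace = (M * M).trace := by
    have e1 : (P⁻¹ * Q) * (P⁻¹ * Q) = Bᵀ * (B * Q * (Bᵀ * B) * Q) := by
      rw [hB]; simp only [Matrix.mul_assoc]
    rw [e1, Matrix.trace_mul_comm, hM]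
    simp only [Matrix.mul_assoc]
  have h2 : (M * M).trace = ∑ i, ∑ j, M i j ^ 2 := by
    simp only [Matrix.trace, Matrix.diag, Matrix.mul_apply]
    refine Finset.sum_congr rfl fun i _ => Finset.sum_congr rfl fun j _ => ?_
    have : M j i = M i j := congrFun (congrFun hMt i) j
    rw [this, sq]
  rw [h1, h2]
  refine ⟨Finset.sum_nonneg fun i _ => Finset.sum_nonneg fun j _ => sq_nonneg _, fun h => ?_⟩
  have h3 : M = 0 := by
    ext i j
    have h4 := (Finset.sum_eq_zero_iff_of_nonneg fun i _ =>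
      Finset.sum_nonneg fun j _ => sq_nonneg (M i j)).1 h i (mem_univ i)
    have h5 := (Finset.sum_eq_zero_iff_of_nonneg fun j _ => sq_nonneg (M i j)).1 h4 j (mem_univ j)
    exact pow_eq_zero_iff (two_ne_zero) |>.1 h5
  have h6 : P⁻¹ * Q * P⁻¹ = 0 := by
    have : P⁻¹ * Q * P⁻¹ = Bᵀ * M * B := by
      rw [hB, hM]; simp only [Matrix.mul_assoc]
    rw [this, h3, Matrix.mul_zero, Matrix.zero_mul]
  have hu : IsUnit P.det := isUnit_iff_ne_zero.2 hP.det_pos.ne'
  have h7 : P * (P⁻¹ * Q * P⁻¹) * P = Q := by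
    rw [← Matrix.mul_assoc, ← Matrix.mul_assoc, Matrix.mul_nonsing_inv _ hu, Matrix.one_mul,
      Matrix.mul_assoc, Matrix.nonsing_inv_mul _ hu, Matrix.mul_one]
  rw [← h7, h6, Matrix.mul_zero, Matrix.zero_mul]

end RS61
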