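import Mathlib
import Pool.Agent.RS61.Defs

/-!
# The ring of smooth functions on an open set, partial derivatives as derivations
-/

open Finset Set
open scoped ContDiff

set_option linter.unusedSectionVars false
set_option linter.unusedSimpArgs false

namespace RS61

noncomputable section

variable {ι : Type} [Fintype ι] [DecidableEq ι] {A B : Type} [CommRing A] [Algebra ℝ A] [CommRing B]
  [Algebra ℝ B]

/-- a relation between `A` and `B` closed under all operations -/
structure RelOK (dA : ι → A → A) (dB : ι → B → B) (R : A → B → Prop) : Prop where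
  zero : R 0 0
  one : R 1 1
  add : ∀ {a a' b b'}, R a b → R a' b' → R (a + a') (b + b')
  sub : ∀ {a a' b b'}, R a b → R a' b' → R (a - a') (b - b')
  mul : ∀ {a a' b b'}, R a b → R a' b' → R (a * a') (b * b')
  smul : ∀ (r : ℝ) {a b}, R a b → R (r • a) (r • b)
  d : ∀ i {a b}, R a b → R (dA i a) (dB i b)

namespace RelOK

variable {dA : ι → A → A} {dB : ι → B → B} {R : A → B → Prop} (h : RelOK dA dB R)

include h

lemma sum {σ : Type*} (s : Finset σ) {f : σ → A} {f' : σ → B} (hf : ∀ i ∈ s, R (f i) (f' i)) :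
    R (∑ i ∈ s, f i) (∑ i ∈ s, f' i) := by
  classical
  induction s using Finset.induction_on with
  | empty => simpa using h.zero
  | insert a s ha ih =>
    rw [Finset.sum_insert ha, Finset.sum_insert ha]
    exact h.add (hf a (Finset.mem_insert_self a s)) (ih fun i hi => hf i (Finset.mem_insert_of_mem hi))

lemma prod {σ : Type*} (s : Finset σ) {f : σ → A} {f' : σ → B} (hf : ∀ i ∈ s, R (f i) (f' i)) :
    R (∏ i ∈ s, f i) (∏ i ∈ s, f' i) := by
  classical
  induction s using Finset.induction_on with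
  | empty => simpa using h.one
  | insert a s ha ih =>
    rw [Finset.prod_insert ha, Finset.prod_insert ha]
    exact h.mul (hf a (Finset.mem_insert_self a s)) (ih fun i hi => hf i (Finset.mem_insert_of_mem hi))


variable {g gi : ι → ι → A} {g' gi' : ι → ι → B}
  (hg : ∀ a b, R (g a b) (g' a b)) (hgi : ∀ a b, R (gi a b) (gi' a b))

include hg hgi in
lemma chr (c a b : ι) : R (chr dA g gi c a b) (RS61.chr dB g' gi' c a b) := by
  unfold RS61.chr
  exact h.smul _ (h.sum _ fun e _ => h.mul (hgi _ _)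
    (h.sub (h.add (h.d _ (hg _ _)) (h.d _ (hg _ _))) (h.d _ (hg _ _))))

lemma ric {Γ : ι → ι → ι → A} {Γ' : ι → ι → ι → B}
    (hΓ : ∀ c a b, R (Γ c a b) (Γ' c a b)) (a b : ι) :
    R (ric dA Γ a b) (RS61.ric dB Γ' a b) := by
  unfold RS61.ric
  exact h.add (h.sum _ fun c _ => h.sub (h.d _ (hΓ _ _ _)) (h.d _ (hΓ _ _ _)))
    (h.sum _ fun c _ => h.sum _ fun e _ => h.sub (h.mul (hΓ _ _ _) (hΓ _ _ _))
      (h.mul (hΓ _ _ _) (hΓ _ _ _)))

lemma hess {Γ : ι → ι → ι → A} {Γ' : ι → ι → ι → B}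
    (hΓ : ∀ c a b, R (Γ c a b) (Γ' c a b)) {f : A} {f' : B} (hf : R f f') (a b : ι) :
    R (hess dA Γ f a b) (RS61.hess dB Γ' f' a b) := by
  unfold RS61.hess
  exact h.sub (h.d _ (h.d _ hf)) (h.sum _ fun c _ => h.mul (hΓ _ _ _) (h.d _ hf))

lemma rm {Γ : ι → ι → ι → A} {Γ' : ι → ι → ι → B}
    (hΓ : ∀ c a b, R (Γ c a b) (Γ' c a b)) (l k i j : ι) :
    R (rm dA Γ l k i j) (RS61.rm dB Γ' l k i j) := by
  unfold RS61.rm
  exact h.add (h.sub (h.d _ (hΓ _ _ _)) (h.d _ (hΓ _ _ _)))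
    (h.sum _ fun m _ => h.sub (h.mul (hΓ _ _ _) (hΓ _ _ _)) (h.mul (hΓ _ _ _) (hΓ _ _ _)))

end RelOK

section raw

variable {U W : Set (ι → ℝ)}

lemma pd_smooth (hU : IsOpen U) (i : ι) {F : Raw ι} (hF : ContDiffOn ℝ ∞ F U) :
    ContDiffOn ℝ ∞ (pd i F) U := by
  have h : ContDiffOn ℝ ∞ (fderiv ℝ F) U := hF.fderiv_of_isOpen hU (by simp)
  exact h.clm_apply contDiffOn_const

lemma pd_congr (hU : IsOpen U) (i : ι) {F G : Raw ι} (h : EqOn F G U) :
    EqOn (pd i F) (pd i G) U := by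
  intro x hx
  unfold pd
  have : F =ᶠ[nhds x] G := Filter.eventuallyEq_of_mem (hU.mem_nhds hx) h
  rw [this.fderiv_eq]

lemma pd_comm (hU : IsOpen U) (i j : ι) {F : Raw ι} (hF : ContDiffOn ℝ ∞ F U) :
    EqOn (pd i (pd j F)) (pd j (pd i F)) U := by
  intro x hx
  have h1 : ContDiffAt ℝ ∞ F x := hF.contDiffAt (hU.mem_nhds hx)
  have hd : DifferentiableAt ℝ (fderiv ℝ F) x :=
    ((hF.fderiv_of_isOpen hU (m := ∞) (by simp)).contDiffAt (hU.mem_nhds hx)).differentiableAt
      (by simp)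
  have h2 : ∀ a b : ι, pd a (pd b F) x
      = fderiv ℝ (fderiv ℝ F) x (Pi.single a 1) (Pi.single b 1) := by
    intro a b
    unfold pd
    rw [fderiv_clm_apply hd (differentiableAt_const _)]
    simp
  rw [h2, h2]
  refine (h1.isSymmSndFDerivAt ?_) _ _
  rw [minSmoothness_of_isRCLikeNormedField]
  exact WithTop.coe_le_coe.2 le_top

lemma pd_mul (hU : IsOpen U) (i : ι) {F G : Raw ι} (hF : ContDiffOn ℝ ∞ F U)
    (hG : ContDiffOn ℝ ∞ G U) : EqOn (pd i (F * G)) (F * pd i G + G * pd i F) U := by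
  intro x hx
  have h1 : DifferentiableAt ℝ F x := (hF.contDiffAt (hU.mem_nhds hx)).differentiableAt (by simp)
  have h2 : DifferentiableAt ℝ G x := (hG.contDiffAt (hU.mem_nhds hx)).differentiableAt (by simp)
  unfold pd
  rw [fderiv_mul h1 h2]
  simp

lemma pd_add (hU : IsOpen U) (i : ι) {F G : Raw ι} (hF : ContDiffOn ℝ ∞ F U)
    (hG : ContDiffOn ℝ ∞ G U) : EqOn (pd i (F + G)) (pd i F + pd i G) U := by
  intro x hx
  have h1 : DifferentiableAt ℝ F x := (hF.contDiffAt (hU.mem_nhds hx)).differentiableAt (by simp)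
  have h2 : DifferentiableAt ℝ G x := (hG.contDiffAt (hU.mem_nhds hx)).differentiableAt (by simp)
  unfold pd
  rw [fderiv_add h1 h2]
  simp

/-- smooth functions on `W` -/
def smSubF (W : Set (ι → ℝ)) : Subalgebra ℝ (W → ℝ) where
  carrier := {a | ∃ F : Raw ι, ContDiffOn ℝ ∞ F W ∧ ∀ z : W, a z = F z}
  mul_mem' := by
    rintro a b ⟨F, hF, ha⟩ ⟨G, hG, hb⟩
    exact ⟨fun z => F z * G z, hF.mul hG, fun z => by rw [Pi.mul_apply, ha, hb]⟩
  add_mem' := by
    rintro a b ⟨F, hF, ha⟩ ⟨G, hG, hb⟩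
    exact ⟨fun z => F z + G z, hF.add hG, fun z => by rw [Pi.add_apply, ha, hb]⟩
  algebraMap_mem' r := ⟨fun _ => r, contDiffOn_const, fun _ => rfl⟩

/-- the ring of smooth functions on `W` -/
def SmF (W : Set (ι → ℝ)) : Type := ↥(smSubF W)

instance (W : Set (ι → ℝ)) : CommRing (SmF W) := inferInstanceAs (CommRing (smSubF W))

instance (W : Set (ι → ℝ)) : Algebra ℝ (SmF W) := inferInstanceAs (Algebra ℝ (smSubF W))

/-- evaluation at a point -/
def evl (z : W) : SmF W →ₐ[ℝ] ℝ := (Pi.evalAlgHom ℝ (fun _ : W => ℝ) z).comp (smSubF W).val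

lemma evl_apply (z : W) (x : SmF W) : evl z x = x.1 z := rfl

lemma SmF.ext_iff' {x y : SmF W} (h : ∀ z : W, evl z x = evl z y) : x = y :=
  Subtype.ext (funext h)

/-- extension by zero -/
def ext (a : SmF W) : Raw ι := by
  classical
  exact fun z => if h : z ∈ W then a.1 ⟨z, h⟩ else 0

lemma ext_apply (a : SmF W) {z : ι → ℝ} (h : z ∈ W) : ext a z = a.1 ⟨z, h⟩ := by
  unfold ext
  rw [dif_pos h]

lemma ext_smooth (a : SmF W) : ContDiffOn ℝ ∞ (ext a) W := by
  obtain ⟨F, hF, ha⟩ := a.2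
  exact hF.congr fun z hz => by rw [ext_apply a hz, ha]

/-- restriction of a smooth function -/
def res {F : Raw ι} (hF : ContDiffOn ℝ ∞ F W) : SmF W := ⟨fun z => F z, F, hF, fun _ => rfl⟩

lemma ext_res {F : Raw ι} (hF : ContDiffOn ℝ ∞ F W) : EqOn (ext (res hF)) F W :=
  fun z hz => ext_apply _ hz

lemma ext_add (a b : SmF W) : EqOn (ext (a + b)) (ext a + ext b) W := by
  intro z hz
  rw [Pi.add_apply, ext_apply _ hz, ext_apply _ hz, ext_apply _ hz]; rfl

lemma ext_mul (a b : SmF W) : EqOn (ext (a * b)) (ext a * ext b) W := by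
  intro z hz
  rw [Pi.mul_apply, ext_apply _ hz, ext_apply _ hz, ext_apply _ hz]; rfl

lemma ext_smul (r : ℝ) (a : SmF W) : EqOn (ext (r • a)) (r • ext a) W := by
  intro z hz
  rw [Pi.smul_apply, ext_apply _ hz, ext_apply _ hz]; rfl

lemma pd_smulR (F : Raw ι) (r : ℝ) (i : ι) : pd i (r • F) = r • pd i F := by
  funext x
  unfold pd
  rw [fderiv_const_smul_field]
  rfl

/-- partial derivatives as derivations -/
def smD (hW : IsOpen W) (i : ι) : Derivation ℝ (SmF W) (SmF W) where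
  toFun a := res (pd_smooth hW i (ext_smooth a))
  map_add' a b := by
    apply Subtype.ext
    funext z
    show pd i (ext (a + b)) z = pd i (ext a) z + pd i (ext b) z
    rw [pd_congr hW i (ext_add a b) z.2, pd_add hW i (ext_smooth a) (ext_smooth b) z.2]
    rfl
  map_smul' r a := by
    apply Subtype.ext
    funext z
    show pd i (ext (r • a)) z = r • pd i (ext a) z
    rw [pd_congr hW i (ext_smul r a) z.2, pd_smulR]
    rfl
  map_one_eq_zero' := by
    apply Subtype.ext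
    funext z
    show pd i (ext 1) z = 0
    have h : EqOn (ext (1 : SmF W)) (fun _ => (1 : ℝ)) W := fun z hz => by
      rw [ext_apply _ hz]; rfl
    rw [pd_congr hW i h z.2]
    unfold pd
    simp
  leibniz' a b := by
    apply Subtype.ext
    funext z
    show pd i (ext (a * b)) z = a.1 z * pd i (ext b) z + b.1 z * pd i (ext a) z
    rw [pd_congr hW i (ext_mul a b) z.2, pd_mul hW i (ext_smooth a) (ext_smooth b) z.2]
    show ext a z * _ + ext b z * _ = _
    rw [ext_apply a z.2, ext_apply b z.2]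

lemma smD_apply (hW : IsOpen W) (i : ι) (a : SmF W) (z : W) :
    (smD hW i a).1 z = pd i (ext a) z := rfl

lemma ext_smD (hW : IsOpen W) (i : ι) (a : SmF W) : EqOn (ext (smD hW i a)) (pd i (ext a)) W := by
  intro z hz
  rw [ext_apply _ hz, smD_apply]

lemma smD_comm (hW : IsOpen W) (i j : ι) (a : SmF W) :
    smD hW i (smD hW j a) = smD hW j (smD hW i a) := by
  apply Subtype.ext
  funext z
  rw [smD_apply, smD_apply, pd_congr hW i (ext_smD hW j a) z.2, pd_congr hW j (ext_smD hW i a) z.2]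
  exact pd_comm hW i j (ext_smooth a) z.2

/-- `F` is smooth on `W` and restricts to `a` -/
def RR (W : Set (ι → ℝ)) (F : Raw ι) (a : SmF W) : Prop :=
  ContDiffOn ℝ ∞ F W ∧ ∀ z : W, F z = a.1 z

lemma RR_res {F : Raw ι} (hF : ContDiffOn ℝ ∞ F W) : RR W F (res hF) := ⟨hF, fun _ => rfl⟩

lemma RR.eq_ext {F : Raw ι} {a : SmF W} (h : RR W F a) : EqOn F (ext a) W := by
  intro z hz
  rw [ext_apply a hz]; exact h.2 ⟨z, hz⟩

lemma relOK_sm (hW : IsOpen W) : RelOK pd (fun i => smD hW i) (RR W) where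
  zero := ⟨contDiffOn_const, fun _ => rfl⟩
  one := ⟨contDiffOn_const, fun _ => rfl⟩
  add := by
    intro F F' a a' h1 h2
    exact ⟨h1.1.add h2.1, fun z => by rw [Pi.add_apply, h1.2, h2.2]; rfl⟩
  sub := by
    intro F F' a a' h1 h2
    exact ⟨h1.1.sub h2.1, fun z => by rw [Pi.sub_apply, h1.2, h2.2]; rfl⟩
  mul := by
    intro F F' a a' h1 h2
    exact ⟨h1.1.mul h2.1, fun z => by rw [Pi.mul_apply, h1.2, h2.2]; rfl⟩
  smul := by
    intro r F a h1
    exact ⟨h1.1.const_smul r, fun z => by rw [Pi.smul_apply, h1.2]; rfl⟩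
  d := by
    intro i F a h1
    refine ⟨pd_smooth hW i h1.1, fun z => ?_⟩
    show pd i F z = pd i (ext a) z
    exact pd_congr hW i h1.eq_ext z.2


end raw

end

end RS61
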