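import Mathlib
import Pool.Agent.RS61.Block

/-!
# The soliton equation for the block metric `dt² + a(t)² k(x) + h(t, y)`
-/

open Finset

set_option linter.unusedSectionVars false
set_option linter.unusedSimpArgs false

namespace RS61

noncomputable section

variable {κ₁ κ₂ : Type} [Fintype κ₁] [Fintype κ₂] [DecidableEq κ₁] [DecidableEq κ₂]
  {A : Type} [CommRing A] [Algebra ℝ A]

namespace BData

variable (B : BData κ₁ κ₂ A)

lemma G_txt (i : κ₁) : B.G none (some (Sum.inl i)) none = 0 := by rw [G_symm, G_ttx]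
lemma G_tyt (i : κ₂) : B.G none (some (Sum.inr i)) none = 0 := by rw [G_symm, G_tty]
lemma G_tyx (i : κ₂) (j : κ₁) : B.G none (some (Sum.inr i)) (some (Sum.inl j)) = 0 := by
  rw [G_symm, G_txy]
lemma G_xxt (i j : κ₁) : B.G (some (Sum.inl i)) (some (Sum.inl j)) none = if i = j then B.X else 0 := by
  rw [G_symm, G_xtx]
lemma G_xyt (i : κ₁) (j : κ₂) : B.G (some (Sum.inl i)) (some (Sum.inr j)) none = 0 := by
  rw [G_symm, G_xty]
lemma G_xyx (i : κ₁) (l : κ₂) (j : κ₁) :
    B.G (some (Sum.inl i)) (some (Sum.inr l)) (some (Sum.inl j)) = 0 := by rw [G_symm, G_xxy]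
lemma G_yxt (i : κ₂) (j : κ₁) : B.G (some (Sum.inr i)) (some (Sum.inl j)) none = 0 := by
  rw [G_symm, G_ytx]
lemma G_yyt (i j : κ₂) : B.G (some (Sum.inr i)) (some (Sum.inr j)) none = B.S i j := by
  rw [G_symm, G_yty]
lemma G_yyx (i l : κ₂) (j : κ₁) :
    B.G (some (Sum.inr i)) (some (Sum.inr l)) (some (Sum.inl j)) = 0 := by rw [G_symm, G_yxy]

/-- the Ricci tensor -/
def R (a b : Idx κ₁ κ₂) : A := ric (fun i => B.D i) B.G a b

/-- the Hessian of `f` -/
def H (a b : Idx κ₁ κ₂) : A := hess (fun i => B.D i) B.G B.f a b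

/-- the Ricci tensor of the first factor -/
def Rk (i j : κ₁) : A := ric (fun i => B.D (some (Sum.inl i))) B.Gk i j

/-- the mean curvature `s` -/
def s : A := B.p * B.X + B.σ

lemma sum_dd (x : A) : ∑ i : κ₁, ∑ j : κ₁, (if i = j then x else 0) * (if j = i then x else 0)
    = (Fintype.card κ₁ : A) * x ^ 2 := by
  have : ∀ i j : κ₁, (if i = j then x else 0) * (if j = i then x else 0)
      = if i = j then x ^ 2 else 0 := by
    intro i j
    by_cases h : i = j
    · subst h; simp [sq]
    · simp [h]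
  simp only [this, Finset.sum_ite_eq, Finset.mem_univ, if_true, Finset.sum_const,
    Finset.card_univ, nsmul_eq_mul]

lemma R_tt : B.R none none = - B.D none B.s - (B.p * B.X ^ 2 + B.τ) := by
  unfold R ric
  rw [Fintype.sum_option, Fintype.sum_sum_type]
  simp only [Fintype.sum_option, Fintype.sum_sum_type, G_ttt, G_ttx, G_tty, G_xtt, G_ytt, G_xtx,
    G_xty, G_ytx, G_yty, map_zero, mul_zero, zero_mul, sub_zero, zero_sub, add_zero, zero_add,
    Finset.sum_const_zero, if_true, Finset.sum_neg_distrib, neg_zero, sum_dd]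
  unfold s σ τ p
  rw [map_add, Derivation.leibniz, Derivation.map_natCast, smul_zero, add_zero, map_sum]
  simp only [Finset.sum_const, Finset.card_univ, nsmul_eq_mul, smul_eq_mul]
  ring

lemma a_X : B.a * B.X = B.da := by
  unfold X
  linear_combination B.da * B.a_inv

lemma R_xx (i j : κ₁) : B.R (some (Sum.inl i)) (some (Sum.inl j)) = B.Rk i j
    - (B.D none (B.a * B.da) + B.s * (B.a * B.da) - 2 * B.da ^ 2) * B.k i j := by
  unfold R ric
  rw [Fintype.sum_option, Fintype.sum_sum_type]
  simp only [Fintype.sum_option, Fintype.sum_sum_type, G_ttt, G_ttx, G_tty, G_xtt, G_ytt, G_xtx,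
    G_xty, G_ytx, G_yty, G_txt, G_tyt, G_txx, G_xxx, G_xxt, G_yxx, G_yxt, G_yxy, G_xxy, G_txy,
    G_yyt, G_yyx, G_xyx, G_xyt, G_tyx, map_zero, mul_zero, zero_mul, sub_zero, zero_sub, add_zero,
    zero_add, Finset.sum_const_zero, if_true, Finset.sum_neg_distrib, neg_zero]
  simp only [Finset.sum_add_distrib, Finset.sum_sub_distrib, mul_ite, ite_mul, mul_zero, zero_mul,
    Finset.sum_ite_eq', Finset.mem_univ, if_true, Finset.sum_const, Finset.card_univ,
    nsmul_eq_mul, ← Finset.sum_mul]
  unfold Rk ric s σ p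
  simp only [Finset.sum_sub_distrib]
  rw [map_neg, Derivation.leibniz (B.D none) (B.a * B.da), B.tk, smul_zero, zero_add, smul_eq_mul,
    B.k_symm j i]
  linear_combination (2 * B.da * B.k i j) * B.a_X

/-- the curvature component `R^t_{x_i t x_j}` -/
lemma rm_tx (i j : κ₁) : rm (fun i => B.D i) B.G none (some (Sum.inl i)) none (some (Sum.inl j))
    = -(B.a * B.D none B.da * B.k i j) := by
  unfold rm
  simp only [Fintype.sum_option, Fintype.sum_sum_type, G_ttt, G_ttx, G_tty, G_txx, G_txt, G_xtx,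
    G_txy, G_ytx, map_zero, mul_zero, zero_mul, sub_zero, zero_sub, add_zero, zero_add,
    Finset.sum_const_zero, map_neg, Finset.sum_neg_distrib, neg_zero]
  simp only [mul_ite, mul_zero, Finset.sum_ite_eq', Finset.mem_univ, if_true]
  rw [Derivation.leibniz (B.D none) (B.a * B.da), B.tk, smul_zero, zero_add, smul_eq_mul,
    Derivation.leibniz, B.k_symm j i]
  have h : B.D none B.a = B.da := rfl
  rw [h]
  simp only [smul_eq_mul]
  linear_combination (B.da * B.k i j) * B.a_X

lemma H_tt : B.H none none = B.D none B.v := by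
  unfold H hess
  simp [Fintype.sum_option, Fintype.sum_sum_type, G_ttt, v]

lemma H_xx (i j : κ₁) : B.H (some (Sum.inl i)) (some (Sum.inl j)) = B.a * B.da * B.v * B.k i j := by
  unfold H hess
  simp [Fintype.sum_option, Fintype.sum_sum_type, G_txx, v]
  ring

lemma H_yy (i j : κ₂) : B.H (some (Sum.inr i)) (some (Sum.inr j))
    = ((1 / 2 : ℝ) • B.D none (B.h i j)) * B.v := by
  unfold H hess
  simp [Fintype.sum_option, Fintype.sum_sum_type, G_tyy, v]

lemma H_xt (i : κ₁) : B.H (some (Sum.inl i)) none = 0 := by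
  unfold H hess
  dsimp only
  rw [B.comm]
  simp [Fintype.sum_option, Fintype.sum_sum_type, G_txt]

lemma H_yt (i : κ₂) : B.H (some (Sum.inr i)) none = 0 := by
  unfold H hess
  dsimp only
  rw [B.comm]
  simp [Fintype.sum_option, Fintype.sum_sum_type, G_tyt]

lemma H_tx (i : κ₁) : B.H none (some (Sum.inl i)) = 0 := by
  unfold H hess
  simp [Fintype.sum_option, Fintype.sum_sum_type, G_ttx]

lemma H_ty (i : κ₂) : B.H none (some (Sum.inr i)) = 0 := by
  unfold H hess
  simp [Fintype.sum_option, Fintype.sum_sum_type, G_tty]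

/-- the soliton equation -/
def Sol (lam : ℝ) : Prop := ∀ a b, B.R a b + B.H a b = lam • B.g a b

variable {B} {lam : ℝ} (hS : B.Sol lam)

include hS

/-- the `tt` component of the soliton equation -/
lemma Sol.tt : B.D none B.v = algebraMap ℝ A lam + B.D none B.s + (B.p * B.X ^ 2 + B.τ) := by
  have h := hS none none
  rw [R_tt, H_tt, g, blk_tt, Algebra.smul_def, mul_one] at h
  linear_combination h

/-- the components of the soliton equation in the directions of the first factor -/
lemma Sol.xx (i j : κ₁) : B.Rk i j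
    - (B.D none (B.a * B.da) + (B.s - B.v) * (B.a * B.da) - 2 * B.da ^ 2) * B.k i j
      = algebraMap ℝ A lam * (B.a ^ 2 * B.k i j) := by
  have h := hS (some (Sum.inl i)) (some (Sum.inl j))
  rw [R_xx, H_xx, g, blk_xx, Algebra.smul_def] at h
  linear_combination h

omit hS in
lemma gi_symm' (a b : Idx κ₁ κ₂) : B.gi a b = B.gi b a := RS61.gi_symm B.g B.gi B.g_symm B.g_inv a b

omit hS in
lemma hi_symm (a b : κ₂) : B.hi a b = B.hi b a := RS61.gi_symm B.h B.hi B.h_symm B.h_inv a b

omit hS in
lemma S_eq (i j : κ₂) : B.S i j = ∑ l, ((1 / 2 : ℝ) • B.D none (B.h l j)) * B.hi l i := by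
  unfold S
  rw [Finset.smul_sum]
  refine Finset.sum_congr rfl fun l _ => ?_
  rw [B.hi_symm i l, B.h_symm j l, smul_mul_assoc, mul_comm]

/-- the Ricci tensor with one index up -/
lemma Sol.Vr_eq (a e : Idx κ₁ κ₂) : Vr B.D B.g B.gi a e
    = (if a = e then algebraMap ℝ A lam else 0) - ∑ d, B.H d a * B.gi d e := by
  unfold Vr
  have h1 : ∀ d, ric (fun i => B.D i) (chr (fun i => B.D i) B.g B.gi) d a * B.gi d e
      = algebraMap ℝ A lam * (B.gi e d * B.g a d) - B.H d a * B.gi d e := by
    intro d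
    have h := hS d a
    rw [Algebra.smul_def] at h
    have h2 : ric (fun i => B.D i) (chr (fun i => B.D i) B.g B.gi) d a = B.R d a := rfl
    rw [h2, B.gi_symm' e d, B.g_symm a d]
    linear_combination B.gi d e * h
  simp only [h1, Finset.sum_sub_distrib, ← Finset.mul_sum]
  rw [B.g_inv e a]
  congr 1
  by_cases hae : a = e
  · subst hae; simp
  · rw [if_neg hae, if_neg (Ne.symm hae), mul_zero]

lemma Sol.V_tt : Vr B.D B.g B.gi none none = algebraMap ℝ A lam - B.D none B.v := by
  rw [hS.Vr_eq]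
  simp [Fintype.sum_option, Fintype.sum_sum_type, H_tt, gi]

lemma Sol.V_tx (i : κ₁) : Vr B.D B.g B.gi none (some (Sum.inl i)) = 0 := by
  rw [hS.Vr_eq]
  simp [Fintype.sum_option, Fintype.sum_sum_type, H_xt, gi]

lemma Sol.V_ty (i : κ₂) : Vr B.D B.g B.gi none (some (Sum.inr i)) = 0 := by
  rw [hS.Vr_eq]
  simp [Fintype.sum_option, Fintype.sum_sum_type, H_yt, gi]

lemma Sol.V_xx (i j : κ₁) : Vr B.D B.g B.gi (some (Sum.inl i)) (some (Sum.inl j))
    = if i = j then algebraMap ℝ A lam - B.X * B.v else 0 := by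
  rw [hS.Vr_eq]
  simp only [Fintype.sum_option, Fintype.sum_sum_type, H_xx, gi, blk_tx, blk_xx, blk_yx, mul_zero,
    Finset.sum_const_zero, add_zero, zero_add]
  have h1 : ∀ l, B.a * B.da * B.v * B.k l i * (B.ai ^ 2 * B.ki l j)
      = B.X * B.v * (B.ki j l * B.k i l) := by
    intro l
    rw [B.k_symm l i, RS61.gi_symm B.k B.ki B.k_symm B.k_inv l j]
    unfold X
    linear_combination (B.ai * B.da * B.v * B.ki j l * B.k i l) * B.a_inv
  simp only [h1, ← Finset.mul_sum]
  rw [B.k_inv]
  by_cases hij : i = j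
  · subst hij; simp
  · simp [hij, Ne.symm hij]

lemma Sol.V_yy (i j : κ₂) : Vr B.D B.g B.gi (some (Sum.inr i)) (some (Sum.inr j))
    = (if i = j then algebraMap ℝ A lam else 0) - B.v * B.S j i := by
  rw [hS.Vr_eq, S_eq]
  simp only [Fintype.sum_option, Fintype.sum_sum_type, H_yy, gi, blk_ty, blk_xy, blk_yy, mul_zero,
    Finset.sum_const_zero, add_zero, zero_add, Option.some.injEq, Sum.inr.injEq]
  congr 1
  rw [Finset.mul_sum]
  refine Finset.sum_congr rfl fun l _ => ?_
  ring

/-- the `t` component of the contracted Bianchi identity -/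
lemma Sol.bianchi : B.D none (B.D none B.v) + B.s * B.D none B.v
    - (2 * (B.p * B.X ^ 2 + B.τ) + B.D none B.s) * B.v = 0 := by
  have h := contracted_bianchi B.D B.g B.gi B.comm B.g_symm B.g_inv none
  have hG : ∀ c a b, chr (fun i => B.D i) B.g B.gi c a b = B.G c a b := fun _ _ _ => rfl
  simp only [hG, Fintype.sum_option, Fintype.sum_sum_type, hS.V_tt, hS.V_tx, hS.V_ty, hS.V_xx,
    hS.V_yy, G_ttt, G_ttx, G_tty, G_xtt, G_ytt, G_xtx, G_xty, G_ytx, G_yty, G_txt, G_tyt, G_xxt,
    G_yxt, G_yyt, map_zero, mul_zero, zero_mul, add_zero, zero_add, Finset.sum_const_zero,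
    if_true] at h
  set L := algebraMap ℝ A lam with hL
  have h3 : ∑ x : κ₁, ∑ x_1 : κ₁, ((if x = x_1 then B.X else 0)
      * if x = x_1 then L - B.X * B.v else 0) = B.p * (B.X * (L - B.X * B.v)) := by
    have : ∀ i j : κ₁, ((if i = j then B.X else 0) * if i = j then L - B.X * B.v else 0)
        = if i = j then B.X * (L - B.X * B.v) else 0 := by
      intro i j
      by_cases h : i = j
      · simp [h]
      · simp [h]
    simp only [this, Finset.sum_ite_eq, Finset.mem_univ, if_true, Finset.sum_const,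
      Finset.card_univ, nsmul_eq_mul, p]
  have h4 : ∑ x : κ₂, ∑ x_1 : κ₂, B.S x x_1 * ((if x = x_1 then L else 0) - B.v * B.S x_1 x)
      = B.σ * L - B.v * B.τ := by
    simp only [mul_sub, Finset.sum_sub_distrib, mul_ite, mul_zero, Finset.sum_ite_eq,
      Finset.mem_univ, if_true]
    unfold σ τ
    rw [Finset.sum_mul, Finset.mul_sum]
    congr 1
    refine Finset.sum_congr rfl fun i _ => ?_
    rw [Finset.mul_sum]
    refine Finset.sum_congr rfl fun j _ => ?_
    ring
  have h5 : ∑ x : κ₂, B.S x x * (L - B.D none B.v) = B.σ * (L - B.D none B.v) := by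
    unfold σ; rw [Finset.sum_mul]
  have h6 : ∑ x : κ₂, (L - B.v * B.S x x) = (Fintype.card κ₂ : A) * L - B.v * B.σ := by
    unfold σ
    rw [Finset.sum_sub_distrib, Finset.sum_const, Finset.card_univ, nsmul_eq_mul, Finset.mul_sum]
  have h7 : ∀ y : A, ∑ _x : κ₁, y = B.p * y := by
    intro y
    rw [Finset.sum_const, Finset.card_univ, nsmul_eq_mul]; rfl
  rw [h3, h4, h5, h6, h7, h7] at h
  have hDL : B.D none L = 0 := Derivation.map_algebraMap _ _
  have hDp : B.D none B.p = 0 := Derivation.map_natCast _ _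
  have hDs : B.D none B.s = B.p * B.D none B.X + B.D none B.σ := by
    unfold s
    rw [map_add, Derivation.leibniz, hDp, smul_zero, add_zero, smul_eq_mul]
  simp only [map_add, map_sub, Derivation.leibniz, hDL, hDp, Derivation.map_natCast, smul_eq_mul,
    smul_zero, mul_zero, add_zero, sub_zero, zero_sub, zero_add] at h
  rw [hDs]
  unfold s
  linear_combination -h

end BData

end

end RS61
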