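import Mathlib
import Pool.Agent.RS61.Soliton
import Pool.Agent.RS61.Ring

/-!
# The block metric `dt² + a(t)² k(x) + h(t, y)` on an open set of `ℝ^n`
-/

open Finset Set
open scoped ContDiff Topology

set_option linter.unusedSectionVars false

namespace RS61

noncomputable section

section general

variable {ι : Type} [Fintype ι] [DecidableEq ι]

lemma pd_line {F : Raw ι} {z : ι → ℝ} (hF : DifferentiableAt ℝ F z) (i : ι) :
    HasDerivAt (fun s : ℝ => F (z + s • Pi.single i 1)) (pd i F z) 0 := by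
  have h1 : HasFDerivAt F (fderiv ℝ F z) (z + (0 : ℝ) • Pi.single i 1) := by
    rw [zero_smul, add_zero]; exact hF.hasFDerivAt
  have h2 : HasDerivAt (fun s : ℝ => z + s • (Pi.single i 1 : ι → ℝ)) (Pi.single i 1) 0 := by
    have := ((hasDerivAt_id (0 : ℝ)).smul_const (Pi.single i 1 : ι → ℝ)).const_add z
    simpa using this
  exact h1.comp_hasDerivAt (0 : ℝ) h2

/-- the partial derivative of a function which does not depend on the coordinate -/
lemma pd_eq_zero {F : Raw ι} {z : ι → ℝ} {i : ι} (h : ∀ s : ℝ, F (z + s • Pi.single i 1) = F z) :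
    pd i F z = 0 := by
  by_cases hF : DifferentiableAt ℝ F z
  · have h1 := pd_line hF i
    have h2 : (fun s : ℝ => F (z + s • Pi.single i 1)) = fun _ => F z := funext h
    rw [h2] at h1
    exact h1.unique (hasDerivAt_const _ _)
  · unfold pd
    rw [fderiv_zero_of_not_differentiableAt hF]; simp

lemma contDiffOn_det {E : Type} [NormedAddCommGroup E] [NormedSpace ℝ E] {U : Set E}
    {M : E → Matrix ι ι ℝ} (hM : ∀ i j, ContDiffOn ℝ ∞ (fun x => M x i j) U) :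
    ContDiffOn ℝ ∞ (fun x => (M x).det) U := by
  simp only [Matrix.det_apply]
  refine ContDiffOn.sum fun σ _ => ?_
  refine ContDiffOn.const_smul _ ?_
  exact contDiffOn_prod fun i _ => hM _ _

lemma contDiffOn_inv {E : Type} [NormedAddCommGroup E] [NormedSpace ℝ E] {U : Set E}
    {M : E → Matrix ι ι ℝ} (hM : ∀ i j, ContDiffOn ℝ ∞ (fun x => M x i j) U)
    (hd : ∀ x ∈ U, (M x).det ≠ 0) (i j : ι) :
    ContDiffOn ℝ ∞ (fun x => (M x)⁻¹ i j) U := by
  have h1 : ContDiffOn ℝ ∞ (fun x => ((M x).det)⁻¹ * (M x).adjugate i j) U := by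
    refine ((contDiffOn_det hM).inv hd).mul ?_
    simp only [Matrix.adjugate_apply]
    refine contDiffOn_det fun a b => ?_
    by_cases h : a = j
    · subst h
      simp only [Matrix.updateRow_self]
      exact contDiffOn_const
    · simp only [Matrix.updateRow_ne h]
      exact hM a b
  refine h1.congr fun x hx => ?_
  rw [Matrix.inv_def, Matrix.smul_apply, smul_eq_mul, Ring.inverse_eq_inv']

end general

variable {κ₁ κ₂ : Type} [Fintype κ₁] [Fintype κ₂] [DecidableEq κ₁] [DecidableEq κ₂]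

/-- The set of the points `(t, x, y)` with `0 < t < T`, `x ∈ V₁` and `y ∈ V₂`. -/
def dom (T : ℝ) (V₁ : Set (κ₁ → ℝ)) (V₂ : Set (κ₂ → ℝ)) : Set (Idx κ₁ κ₂ → ℝ) :=
  {z | z none ∈ Ioo 0 T ∧ (fun i => z (some (Sum.inl i))) ∈ V₁ ∧
    (fun i => z (some (Sum.inr i))) ∈ V₂}

/-- The metric `dt² + a(t)² k(x) + h(t, y)`. -/
def wmet (a : ℝ → ℝ) (k : κ₁ → κ₁ → Raw κ₁) (h : ℝ → κ₂ → κ₂ → Raw κ₂) :
    Idx κ₁ κ₂ → Idx κ₁ κ₂ → Raw (Idx κ₁ κ₂) :=
  blk (fun i j z => a (z none) ^ 2 * k i j fun l => z (some (Sum.inl l)))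
    (fun i j z => h (z none) i j fun l => z (some (Sum.inr l)))

/-- the point `(t, x, y)` -/
def pt (t : ℝ) (x : κ₁ → ℝ) (y : κ₂ → ℝ) : Idx κ₁ κ₂ → ℝ
  | none => t
  | some (Sum.inl i) => x i
  | some (Sum.inr i) => y i

lemma pt_mem {T : ℝ} {V₁ : Set (κ₁ → ℝ)} {V₂ : Set (κ₂ → ℝ)} {t : ℝ} (ht : t ∈ Ioo 0 T)
    {x : κ₁ → ℝ} (hx : x ∈ V₁) {y : κ₂ → ℝ} (hy : y ∈ V₂) : pt t x y ∈ dom T V₁ V₂ :=
  ⟨ht, hx, hy⟩

/-- the projection to the `x` coordinates -/
def prx : (Idx κ₁ κ₂ → ℝ) →L[ℝ] (κ₁ → ℝ) :=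
  ContinuousLinearMap.pi fun i => ContinuousLinearMap.proj (some (Sum.inl i))

/-- the projection to the `y` coordinates -/
def pry : (Idx κ₁ κ₂ → ℝ) →L[ℝ] (κ₂ → ℝ) :=
  ContinuousLinearMap.pi fun i => ContinuousLinearMap.proj (some (Sum.inr i))

/-- the projection to the `t` coordinate -/
def prt : (Idx κ₁ κ₂ → ℝ) →L[ℝ] ℝ := ContinuousLinearMap.proj none

lemma isOpen_dom {T : ℝ} {V₁ : Set (κ₁ → ℝ)} {V₂ : Set (κ₂ → ℝ)} (h₁ : IsOpen V₁) (h₂ : IsOpen V₂) :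
    IsOpen (dom T V₁ V₂) := by
  have h : dom T V₁ V₂ = (prt ⁻¹' Ioo 0 T) ∩ ((prx ⁻¹' V₁) ∩ (pry ⁻¹' V₂)) := rfl
  rw [h]
  exact (isOpen_Ioo.preimage prt.continuous).inter
    ((h₁.preimage prx.continuous).inter (h₂.preimage pry.continuous))

lemma hasDerivAt_pt (t : ℝ) (x : κ₁ → ℝ) (y : κ₂ → ℝ) :
    HasDerivAt (fun t => (pt t x y : Idx κ₁ κ₂ → ℝ)) (Pi.single none 1) t := by
  rw [hasDerivAt_pi]
  intro i
  rcases i with _ | i | i
  · simpa [pt] using hasDerivAt_id' t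
  · simpa [pt] using hasDerivAt_const t (x i)
  · simpa [pt] using hasDerivAt_const t (y i)

lemma pd_pt {F : Raw (Idx κ₁ κ₂)} {t : ℝ} {x : κ₁ → ℝ} {y : κ₂ → ℝ}
    (hF : DifferentiableAt ℝ F (pt t x y)) :
    HasDerivAt (fun t => F (pt t x y)) (pd none F (pt t x y)) t :=
  hF.hasFDerivAt.comp_hasDerivAt t (hasDerivAt_pt t x y)

end

end RS61
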