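import Mathlib
import Pool.Agent.RS61.Setup

/-!
# The ring elements of a block metric
-/

open Finset Set
open scoped ContDiff Topology

set_option linter.unusedSectionVars false

namespace RS61

noncomputable section

variable {κ₁ κ₂ : Type} [Fintype κ₁] [Fintype κ₂] [DecidableEq κ₁] [DecidableEq κ₂]

/-- the hypotheses on a block metric -/
structure IsBlock (T : ℝ) (V₁ : Set (κ₁ → ℝ)) (V₂ : Set (κ₂ → ℝ)) (a f : ℝ → ℝ)
    (k : κ₁ → κ₁ → Raw κ₁) (h : ℝ → κ₂ → κ₂ → Raw κ₂) : Prop where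
  a_smooth : ContDiff ℝ ∞ a
  f_smooth : ContDiff ℝ ∞ f
  a_pos : ∀ t ∈ Ioo 0 T, 0 < a t
  k_riem : IsRiem V₁ k
  V₂_open : IsOpen V₂
  h_smooth : ∀ i j, ContDiffOn ℝ ∞ (fun q : ℝ × (κ₂ → ℝ) => h q.1 i j q.2) (Ioo 0 T ×ˢ V₂)
  h_posDef : ∀ t ∈ Ioo 0 T, ∀ y ∈ V₂, (Matrix.of fun i j => h t i j y).PosDef

namespace IsBlock

variable {T : ℝ} {V₁ : Set (κ₁ → ℝ)} {V₂ : Set (κ₂ → ℝ)} {a f : ℝ → ℝ}
    {k : κ₁ → κ₁ → Raw κ₁} {h : ℝ → κ₂ → κ₂ → Raw κ₂} (I : IsBlock T V₁ V₂ a f k h)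

include I

lemma W_open : IsOpen (dom T V₁ V₂) := isOpen_dom I.k_riem.isOpen I.V₂_open

lemma sm_t {F : ℝ → ℝ} (hF : ContDiff ℝ ∞ F) :
    ContDiffOn ℝ ∞ (fun z : Idx κ₁ κ₂ → ℝ => F (z none)) (dom T V₁ V₂) :=
  (hF.comp (prt (κ₁ := κ₁) (κ₂ := κ₂)).contDiff).contDiffOn

lemma sm_ai : ContDiffOn ℝ ∞ (fun z : Idx κ₁ κ₂ → ℝ => (a (z none))⁻¹) (dom T V₁ V₂) :=
  (I.sm_t I.a_smooth).inv fun z hz => (I.a_pos _ hz.1).ne'

lemma sm_x {F : Raw κ₁} (hF : ContDiffOn ℝ ∞ F V₁) :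
    ContDiffOn ℝ ∞ (fun z : Idx κ₁ κ₂ → ℝ => F fun l => z (some (Sum.inl l))) (dom T V₁ V₂) :=
  hF.comp (prx (κ₁ := κ₁) (κ₂ := κ₂)).contDiff.contDiffOn fun z hz => hz.2.1

lemma sm_k (i j : κ₁) :
    ContDiffOn ℝ ∞ (fun z : Idx κ₁ κ₂ → ℝ => k i j fun l => z (some (Sum.inl l))) (dom T V₁ V₂) :=
  I.sm_x (I.k_riem.smooth i j)

lemma k_det {x : κ₁ → ℝ} (hx : x ∈ V₁) : (Matrix.of fun i j => k i j x).det ≠ 0 :=
  (I.k_riem.posDef x hx).det_pos.ne'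

lemma sm_ki (i j : κ₁) : ContDiffOn ℝ ∞ (fun z : Idx κ₁ κ₂ → ℝ =>
    minv k i j fun l => z (some (Sum.inl l))) (dom T V₁ V₂) :=
  I.sm_x (contDiffOn_inv (M := fun x => Matrix.of fun i j => k i j x) (I.k_riem.smooth)
    (fun _ hx => I.k_det hx) i j)

lemma sm_ty {F : ℝ → Raw κ₂} (hF : ContDiffOn ℝ ∞ (fun q : ℝ × (κ₂ → ℝ) => F q.1 q.2)
    (Ioo 0 T ×ˢ V₂)) :
    ContDiffOn ℝ ∞ (fun z : Idx κ₁ κ₂ → ℝ => F (z none) fun l => z (some (Sum.inr l)))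
      (dom T V₁ V₂) :=
  hF.comp ((prt (κ₁ := κ₁) (κ₂ := κ₂)).prod (pry (κ₁ := κ₁) (κ₂ := κ₂))).contDiff.contDiffOn
    fun z hz => ⟨hz.1, hz.2.2⟩

lemma sm_h (i j : κ₂) : ContDiffOn ℝ ∞ (fun z : Idx κ₁ κ₂ → ℝ =>
    h (z none) i j fun l => z (some (Sum.inr l))) (dom T V₁ V₂) :=
  I.sm_ty (F := fun t => h t i j) (I.h_smooth i j)

lemma h_det {t : ℝ} (ht : t ∈ Ioo 0 T) {y : κ₂ → ℝ} (hy : y ∈ V₂) :
    (Matrix.of fun i j => h t i j y).det ≠ 0 :=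
  (I.h_posDef t ht y hy).det_pos.ne'

lemma sm_hi (i j : κ₂) : ContDiffOn ℝ ∞ (fun z : Idx κ₁ κ₂ → ℝ =>
    minv (h (z none)) i j fun l => z (some (Sum.inr l))) (dom T V₁ V₂) :=
  I.sm_ty (F := fun t => minv (h t) i j)
    (contDiffOn_inv (M := fun q : ℝ × (κ₂ → ℝ) => Matrix.of fun i j => h q.1 i j q.2) I.h_smooth
    (fun _ hq => I.h_det hq.1 hq.2) i j)

omit I in
lemma inv_rel {n : Type} [Fintype n] [DecidableEq n] {M : Matrix n n ℝ} (hM : M.PosDef) (i j : n) :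
    ∑ l, M⁻¹ i l * M j l = if i = j then 1 else 0 := by
  have h1 : M⁻¹ * M = 1 := Matrix.nonsing_inv_mul _ (isUnit_iff_ne_zero.2 hM.det_pos.ne')
  have h2 := congrFun (congrFun h1 i) j
  rw [Matrix.mul_apply, Matrix.one_apply] at h2
  rw [← h2]
  refine Finset.sum_congr rfl fun l _ => ?_
  have h3 : M l j = M j l := by
    have := congrFun (congrFun hM.isHermitian l) j
    simpa [Matrix.conjTranspose_apply] using this.symm
  rw [h3]

omit I in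
lemma symm_rel {n : Type} [Fintype n] [DecidableEq n] {M : Matrix n n ℝ} (hM : M.PosDef) (i j : n) :
    M i j = M j i := by
  have := congrFun (congrFun hM.isHermitian i) j
  simpa [Matrix.conjTranspose_apply] using this.symm

omit I in
lemma smD_zero {W : Set (Idx κ₁ κ₂ → ℝ)} (hW : IsOpen W) (i : Idx κ₁ κ₂)
    {F : Raw (Idx κ₁ κ₂)} (hF : ContDiffOn ℝ ∞ F W)
    (h : ∀ z (s : ℝ), F (z + s • Pi.single i 1) = F z) : smD hW i (res hF) = 0 := by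
  apply Subtype.ext
  funext z
  rw [smD_apply, pd_congr hW i (ext_res hF) z.2, pd_eq_zero (h z)]
  rfl

omit I in
lemma none_x (z : Idx κ₁ κ₂ → ℝ) (s : ℝ) (i : κ₁ ⊕ κ₂) :
    (z + s • (Pi.single (some i) 1 : Idx κ₁ κ₂ → ℝ)) none = z none := by
  simp

omit I in
lemma x_none (z : Idx κ₁ κ₂ → ℝ) (s : ℝ) :
    (fun l : κ₁ => (z + s • (Pi.single none 1 : Idx κ₁ κ₂ → ℝ)) (some (Sum.inl l)))
      = fun l => z (some (Sum.inl l)) := by
  funext l; simp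

omit I in
lemma x_y (z : Idx κ₁ κ₂ → ℝ) (s : ℝ) (i : κ₂) :
    (fun l : κ₁ => (z + s • (Pi.single (some (Sum.inr i)) 1 : Idx κ₁ κ₂ → ℝ)) (some (Sum.inl l)))
      = fun l => z (some (Sum.inl l)) := by
  funext l; simp

omit I in
lemma y_x (z : Idx κ₁ κ₂ → ℝ) (s : ℝ) (i : κ₁) :
    (fun l : κ₂ => (z + s • (Pi.single (some (Sum.inl i)) 1 : Idx κ₁ κ₂ → ℝ)) (some (Sum.inr l)))
      = fun l => z (some (Sum.inr l)) := by
  funext l; simp

/-- the ring elements -/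
def bdat : BData κ₁ κ₂ (SmF (dom T V₁ V₂)) where
  D := smD I.W_open
  comm := smD_comm I.W_open
  a := res (I.sm_t I.a_smooth)
  ai := res I.sm_ai
  a_inv := by
    apply Subtype.ext
    funext z
    exact inv_mul_cancel₀ (I.a_pos _ z.2.1).ne'
  k i j := res (I.sm_k i j)
  ki i j := res (I.sm_ki i j)
  k_symm i j := by
    apply Subtype.ext
    funext z
    exact symm_rel (I.k_riem.posDef _ z.2.2.1) i j
  k_inv i j := by
    refine SmF.ext_iff' fun z => ?_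
    have h1 := inv_rel (I.k_riem.posDef _ z.2.2.1) i j
    rw [map_sum, apply_ite (evl z), map_one, map_zero, ← h1]
    exact Finset.sum_congr rfl fun l _ => by rw [map_mul]; rfl
  h i j := res (I.sm_h i j)
  hi i j := res (I.sm_hi i j)
  h_symm i j := by
    apply Subtype.ext
    funext z
    exact symm_rel (I.h_posDef _ z.2.1 _ z.2.2.2) i j
  h_inv i j := by
    refine SmF.ext_iff' fun z => ?_
    have h1 := inv_rel (I.h_posDef _ z.2.1 _ z.2.2.2) i j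
    rw [map_sum, apply_ite (evl z), map_one, map_zero, ← h1]
    exact Finset.sum_congr rfl fun l _ => by rw [map_mul]; rfl
  xa i := smD_zero _ _ _ fun z s => by rw [none_x]
  ya i := smD_zero _ _ _ fun z s => by rw [none_x]
  tk i j := smD_zero _ _ _ fun z s => by rw [x_none]
  yk l i j := smD_zero _ _ _ fun z s => by rw [x_y]
  xh l i j := smD_zero _ _ _ fun z s => by rw [none_x, y_x]
  f := res (I.sm_t I.f_smooth)
  xf i := smD_zero _ _ _ fun z s => by rw [none_x]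
  yf i := smD_zero _ _ _ fun z s => by rw [none_x]

end IsBlock

end

end RS61
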