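import Mathlib
import Pool.Agent.RS61.Real
import Pool.Agent.RS61.Circle

/-!
# From the soliton equation to the ordinary differential equations
-/

open Finset Set
open scoped ContDiff Topology

set_option linter.unusedSectionVars false

namespace RS61

noncomputable section

variable {κ₁ κ₂ : Type} [Fintype κ₁] [Fintype κ₂] [DecidableEq κ₁] [DecidableEq κ₂]

namespace IsBlock

variable {T : ℝ} {V₁ : Set (κ₁ → ℝ)} {V₂ : Set (κ₂ → ℝ)} {a f : ℝ → ℝ}
    {k : κ₁ → κ₁ → Raw κ₁} {h : ℝ → κ₂ → κ₂ → Raw κ₂} (I : IsBlock T V₁ V₂ a f k h)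

lemma rel_g (i j : Idx κ₁ κ₂) : RR (dom T V₁ V₂) (wmet a k h i j) (I.bdat.g i j) := by
  rcases i with _ | i | i <;> rcases j with _ | j | j
  · exact ⟨contDiffOn_const, fun _ => rfl⟩
  · exact ⟨contDiffOn_const, fun _ => rfl⟩
  · exact ⟨contDiffOn_const, fun _ => rfl⟩
  · exact ⟨contDiffOn_const, fun _ => rfl⟩
  · refine ⟨((I.sm_t I.a_smooth).pow 2).mul (I.sm_k i j), fun z => ?_⟩
    show _ = evl z (I.bdat.a ^ 2 * I.bdat.k i j)
    rw [map_mul, map_pow]; rfl
  · exact ⟨contDiffOn_const, fun _ => rfl⟩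
  · exact ⟨contDiffOn_const, fun _ => rfl⟩
  · exact ⟨contDiffOn_const, fun _ => rfl⟩
  · exact ⟨I.sm_h i j, fun _ => rfl⟩

lemma minv_eq (z : dom T V₁ V₂) (i j : Idx κ₁ κ₂) :
    minv (wmet a k h) i j z = evl z (I.bdat.gi i j) := by
  have h1 : (Matrix.of fun i j => evl z (I.bdat.gi i j))
      * (Matrix.of fun i j => wmet a k h i j z.1) = 1 := by
    ext i j
    rw [Matrix.mul_apply, Matrix.one_apply]
    have h2 := congrArg (evl z) (I.bdat.g_inv i j)
    rw [map_sum, apply_ite (evl z), map_one, map_zero] at h2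
    rw [← h2]
    refine Finset.sum_congr rfl fun l _ => ?_
    rw [map_mul, Matrix.of_apply, Matrix.of_apply, I.bdat.g_symm j l, (I.rel_g l j).2 z]
    rfl
  show ((Matrix.of fun i j => wmet a k h i j z.1)⁻¹) i j = _
  rw [Matrix.inv_eq_left_inv h1, Matrix.of_apply]

lemma rel_gi (i j : Idx κ₁ κ₂) : RR (dom T V₁ V₂) (minv (wmet a k h) i j) (I.bdat.gi i j) := by
  refine ⟨(ext_smooth (I.bdat.gi i j)).congr fun z hz => ?_, fun z => I.minv_eq z i j⟩
  rw [ext_apply _ hz]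
  exact I.minv_eq ⟨z, hz⟩ i j

lemma rel_G (c i j : Idx κ₁ κ₂) : RR (dom T V₁ V₂)
    (chr pd (wmet a k h) (minv (wmet a k h)) c i j) (I.bdat.G c i j) :=
  (relOK_sm I.W_open).chr I.rel_g I.rel_gi c i j

lemma rel_f : RR (dom T V₁ V₂) (fun z => f (z none)) I.bdat.f := RR_res (I.sm_t I.f_smooth)

lemma sol {lam : ℝ} (hS : IsSoliton (dom T V₁ V₂) (wmet a k h) (fun z => f (z none)) lam) :
    I.bdat.Sol lam := by
  intro i j
  refine SmF.ext_iff' fun z => ?_
  have h1 := hS z z.2 i j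
  rw [((relOK_sm I.W_open).ric I.rel_G i j).2 z,
    ((relOK_sm I.W_open).hess I.rel_G I.rel_f i j).2 z, (I.rel_g i j).2 z] at h1
  rw [map_add, map_smul]
  exact h1

lemma rm_eq (l k' i j : Idx κ₁ κ₂) (z : dom T V₁ V₂) :
    rm pd (chr pd (wmet a k h) (minv (wmet a k h))) l k' i j z
      = evl z (rm (fun i => I.bdat.D i) I.bdat.G l k' i j) :=
  ((relOK_sm I.W_open).rm I.rel_G l k' i j).2 z

end IsBlock

end

end RS61
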