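import Mathlib
import Pool.Agent.RS61.Link
import Pool.Agent.RS61.Jacobi

/-!
# Restriction to the normal geodesic `t ↦ (t, x, y)`
-/

open Finset Set
open scoped ContDiff Topology

set_option linter.unusedSectionVars false

namespace RS61

noncomputable section

variable {κ₁ κ₂ : Type} [Fintype κ₁] [Fintype κ₂] [DecidableEq κ₁] [DecidableEq κ₂]

namespace IsBlock

variable {T : ℝ} {V₁ : Set (κ₁ → ℝ)} {V₂ : Set (κ₂ → ℝ)} {a f : ℝ → ℝ}
    {k : κ₁ → κ₁ → Raw κ₁} {h : ℝ → κ₂ → κ₂ → Raw κ₂} (I : IsBlock T V₁ V₂ a f k h)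
  {x : κ₁ → ℝ} (hx : x ∈ V₁) {y : κ₂ → ℝ} (hy : y ∈ V₂)

/-- restriction to the line -/
def lin (x : κ₁ → ℝ) (y : κ₂ → ℝ) (q : SmF (dom T V₁ V₂)) (t : ℝ) : ℝ := ext q (pt t x y)

/-- the point of the domain -/
def pw (hx : x ∈ V₁) (hy : y ∈ V₂) {t : ℝ} (ht : t ∈ Ioo 0 T) : dom T V₁ V₂ :=
  ⟨pt t x y, pt_mem ht hx hy⟩

lemma lin_eq (q : SmF (dom T V₁ V₂)) {t : ℝ} (ht : t ∈ Ioo 0 T) :
    lin x y q t = evl (pw hx hy ht) q := ext_apply q (pt_mem ht hx hy)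

include hx hy in
lemma lin_deriv (q : SmF (dom T V₁ V₂)) {t : ℝ} (ht : t ∈ Ioo 0 T) :
    HasDerivAt (lin x y q) (lin x y (I.bdat.D none q) t) t := by
  have hz : pt t x y ∈ dom T V₁ V₂ := pt_mem ht hx hy
  have h1 : DifferentiableAt ℝ (ext q) (pt t x y) :=
    ((ext_smooth q).contDiffAt (I.W_open.mem_nhds hz)).differentiableAt (by simp)
  have h2 := pd_pt h1
  have h3 : lin x y (I.bdat.D none q) t = pd none (ext q) (pt t x y) :=
    ext_smD I.W_open none q hz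
  rw [h3]
  exact h2

include hx hy in
lemma lin_a {t : ℝ} (ht : t ∈ Ioo 0 T) : lin x y I.bdat.a t = a t := by
  rw [lin_eq hx hy _ ht]; rfl

include hx hy in
lemma lin_f {t : ℝ} (ht : t ∈ Ioo 0 T) : lin x y I.bdat.f t = f t := by
  rw [lin_eq hx hy _ ht]; rfl

/-- derivatives along the line -/
lemma lin_of_eq {F : ℝ → ℝ} {q : SmF (dom T V₁ V₂)}
    (h : ∀ t ∈ Ioo 0 T, lin x y q t = F t) (hx : x ∈ V₁) (hy : y ∈ V₂) :
    ∀ t ∈ Ioo 0 T, lin x y (I.bdat.D none q) t = deriv F t := by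
  intro t ht
  have h1 := I.lin_deriv hx hy q ht
  have h2 : F =ᶠ[𝓝 t] lin x y q := by
    filter_upwards [isOpen_Ioo.mem_nhds ht] with s hs using (h s hs).symm
  rw [h2.deriv_eq, h1.deriv]

include hx hy in
lemma lin_da : ∀ t ∈ Ioo 0 T, lin x y I.bdat.da t = deriv a t :=
  I.lin_of_eq (fun _ ht => I.lin_a hx hy ht) hx hy

include hx hy in
lemma lin_v : ∀ t ∈ Ioo 0 T, lin x y I.bdat.v t = deriv f t :=
  I.lin_of_eq (fun _ ht => I.lin_f hx hy ht) hx hy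

include hx hy in
lemma lin_v1 : ∀ t ∈ Ioo 0 T, lin x y (I.bdat.D none I.bdat.v) t = deriv (deriv f) t :=
  I.lin_of_eq (I.lin_v hx hy) hx hy

include hx hy in
lemma lin_v2 : ∀ t ∈ Ioo 0 T, lin x y (I.bdat.D none (I.bdat.D none I.bdat.v)) t
    = deriv (deriv (deriv f)) t :=
  I.lin_of_eq (I.lin_v1 hx hy) hx hy

include hx hy in
lemma lin_X : ∀ t ∈ Ioo 0 T, lin x y I.bdat.X t = deriv a t / a t := by
  intro t ht
  have h1 := I.lin_da hx hy t ht
  rw [lin_eq hx hy _ ht] at h1 ⊢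
  unfold BData.X
  rw [map_mul, h1, div_eq_inv_mul]
  rfl

include hx hy in
lemma lin_s : ∀ t ∈ Ioo 0 T, lin x y I.bdat.s t
    = Fintype.card κ₁ * (deriv a t / a t) + lin x y I.bdat.σ t := by
  intro t ht
  have h1 := I.lin_X hx hy t ht
  rw [lin_eq hx hy _ ht] at h1 ⊢
  rw [lin_eq hx hy _ ht]
  unfold BData.s BData.p
  rw [map_add, map_mul, map_natCast, h1]

include hx hy in
lemma lin_ds : ∀ t ∈ Ioo 0 T, lin x y (I.bdat.D none I.bdat.s) t
    = deriv (fun t => Fintype.card κ₁ * (deriv a t / a t) + lin x y I.bdat.σ t) t :=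
  I.lin_of_eq (I.lin_s hx hy) hx hy

include hx hy in
lemma lin_u : ∀ t ∈ Ioo 0 T, lin x y (I.bdat.a * I.bdat.da) t = a t * deriv a t := by
  intro t ht
  have h1 := I.lin_da hx hy t ht
  have h2 := I.lin_a hx hy ht
  rw [lin_eq hx hy _ ht] at h1 h2 ⊢
  rw [map_mul, h1, h2]

include hx hy in
lemma lin_du : ∀ t ∈ Ioo 0 T, lin x y (I.bdat.D none (I.bdat.a * I.bdat.da)) t
    = deriv (fun t => a t * deriv a t) t :=
  I.lin_of_eq (I.lin_u hx hy) hx hy

include hx hy in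
lemma lin_k (i j : κ₁) {t : ℝ} (ht : t ∈ Ioo 0 T) : lin x y (I.bdat.k i j) t = k i j x := by
  rw [lin_eq hx hy _ ht]; rfl

include hx hy in
lemma lin_h (i j : κ₂) {t : ℝ} (ht : t ∈ Ioo 0 T) : lin x y (I.bdat.h i j) t = h t i j y := by
  rw [lin_eq hx hy _ ht]; rfl

include hx hy in
lemma hasDerivAt_h (i j : κ₂) {t : ℝ} (ht : t ∈ Ioo 0 T) :
    HasDerivAt (fun t => h t i j y) (lin x y (I.bdat.D none (I.bdat.h i j)) t) t := by
  refine (I.lin_deriv hx hy (I.bdat.h i j) ht).congr_of_eventuallyEq ?_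
  filter_upwards [isOpen_Ioo.mem_nhds ht] with s hs using (I.lin_h hx hy i j hs).symm

/-- the matrix of the `t`-derivative of `h` -/
def dh (I : IsBlock T V₁ V₂ a f k h) (x : κ₁ → ℝ) (y : κ₂ → ℝ) (t : ℝ) : Matrix κ₂ κ₂ ℝ :=
  Matrix.of fun i j => lin x y (I.bdat.D none (I.bdat.h i j)) t

lemma dh_symm (t : ℝ) : (I.dh x y t).transpose = I.dh x y t := by
  ext i j
  show lin x y (I.bdat.D none (I.bdat.h j i)) t = lin x y (I.bdat.D none (I.bdat.h i j)) t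
  rw [I.bdat.h_symm]

include hx hy in
lemma lin_S (i j : κ₂) {t : ℝ} (ht : t ∈ Ioo 0 T) : lin x y (I.bdat.S i j) t
    = 1 / 2 * ((Matrix.of fun i j => h t i j y)⁻¹ * I.dh x y t) i j := by
  rw [lin_eq hx hy _ ht]
  unfold BData.S
  rw [map_smul, map_sum, smul_eq_mul, Matrix.mul_apply]
  congr 1
  refine Finset.sum_congr rfl fun l _ => ?_
  rw [map_mul]
  have h1 : I.dh x y t l j = evl (pw hx hy ht) (I.bdat.D none (I.bdat.h j l)) := by
    rw [← lin_eq hx hy _ ht, I.bdat.h_symm]; rfl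
  rw [h1]
  rfl

include hx hy in
lemma lin_σ {t : ℝ} (ht : t ∈ Ioo 0 T) : lin x y I.bdat.σ t
    = 1 / 2 * ((Matrix.of fun i j => h t i j y)⁻¹ * I.dh x y t).trace := by
  have h1 : lin x y I.bdat.σ t = ∑ i, lin x y (I.bdat.S i i) t := by
    rw [lin_eq hx hy _ ht]
    unfold BData.σ
    rw [map_sum]
    exact Finset.sum_congr rfl fun i _ => (lin_eq hx hy _ ht).symm
  rw [h1]
  simp only [I.lin_S hx hy _ _ ht, ← Finset.mul_sum]
  rfl

include hx hy in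
lemma lin_τ {t : ℝ} (ht : t ∈ Ioo 0 T) : lin x y I.bdat.τ t
    = 1 / 4 * (((Matrix.of fun i j => h t i j y)⁻¹ * I.dh x y t)
      * ((Matrix.of fun i j => h t i j y)⁻¹ * I.dh x y t)).trace := by
  have h1 : lin x y I.bdat.τ t = ∑ i, ∑ j, lin x y (I.bdat.S i j) t * lin x y (I.bdat.S j i) t := by
    rw [lin_eq hx hy _ ht]
    unfold BData.τ
    rw [map_sum]
    refine Finset.sum_congr rfl fun i _ => ?_
    rw [map_sum]
    refine Finset.sum_congr rfl fun j _ => ?_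
    rw [map_mul, lin_eq hx hy _ ht, lin_eq hx hy _ ht]
  rw [h1]
  simp only [I.lin_S hx hy _ _ ht, Matrix.trace, Matrix.diag]
  rw [Finset.mul_sum]
  refine Finset.sum_congr rfl fun i _ => ?_
  rw [Matrix.mul_apply (M := (Matrix.of fun i j => h t i j y)⁻¹ * I.dh x y t), Finset.mul_sum]
  refine Finset.sum_congr rfl fun j _ => ?_
  ring

include hx hy in
lemma τ_nonneg {t : ℝ} (ht : t ∈ Ioo 0 T) : 0 ≤ lin x y I.bdat.τ t := by
  rw [I.lin_τ hx hy ht]
  have := (trace_sq (I.h_posDef t ht y hy) (I.dh_symm (x := x) (y := y) t)).1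
  linarith

include hx hy in
lemma σ_of_τ {t : ℝ} (ht : t ∈ Ioo 0 T) (h0 : lin x y I.bdat.τ t = 0) :
    lin x y I.bdat.σ t = 0 := by
  rw [I.lin_τ hx hy ht] at h0
  have h1 := (trace_sq (I.h_posDef t ht y hy) (I.dh_symm (x := x) (y := y) t)).2 (by linarith)
  rw [I.lin_σ hx hy ht, h1, Matrix.mul_zero, Matrix.trace_zero, mul_zero]

include hx hy in
lemma H_deriv {t : ℝ} (ht : t ∈ Ioo 0 T) :
    HasDerivAt (fun t => (Matrix.of fun i j => h t i j y).det)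
      (2 * lin x y I.bdat.σ t * (Matrix.of fun i j => h t i j y).det) t := by
  have h1 := hasDerivAt_det (M := fun t => Matrix.of fun i j => h t i j y) (M' := I.dh x y t) (t := t)
    (fun i j => I.hasDerivAt_h hx hy i j ht) (I.h_det ht hy)
  refine h1.congr_deriv ?_
  rw [I.lin_σ hx hy ht]
  have h2 : ((Matrix.of fun i j => h t i j y)⁻¹ * I.dh x y t).trace
      = ∑ i, ∑ r, (Matrix.of fun i j => h t i j y)⁻¹ i r * I.dh x y t r i := by
    simp only [Matrix.trace, Matrix.diag, Matrix.mul_apply]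
  rw [h2]
  ring

end IsBlock

end

end RS61
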