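import Mathlib
import Pool.Agent.RS61.Line

/-!
# Triviality of solitons `dt² + a(t)² k(x) + h(t, y)`, `f = f(t)`
-/

open Finset Set Filter
open scoped ContDiff Topology

set_option linter.unusedSectionVars false

namespace RS61

noncomputable section

variable {κ₁ κ₂ : Type} [Fintype κ₁] [Fintype κ₂] [DecidableEq κ₁] [DecidableEq κ₂]

namespace BData

variable {A : Type} [CommRing A] [Algebra ℝ A] (B : BData κ₁ κ₂ A)

lemma D_ki (i j : κ₁) : B.D none (B.ki i j) = 0 := by
  have h1 := congrArg (DM (B.D none)) (gi_mul_g B.k B.ki B.k_symm B.k_inv)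
  rw [DM_mul, DM_one] at h1
  have h2 : DM (B.D none) (Matrix.of B.k) = 0 := by
    ext i j
    exact B.tk i j
  rw [h2, mul_zero, add_zero] at h1
  have h3 := congrArg (fun M => M * (Matrix.of B.ki : Matrix κ₁ κ₁ A)) h1
  simp only [zero_mul, mul_assoc, g_mul_gi B.k B.ki B.k_symm B.k_inv, mul_one] at h3
  exact congrFun (congrFun h3 i) j

lemma D_Gk (c i j : κ₁) : B.D none (B.Gk c i j) = 0 := by
  unfold Gk chr
  rw [Derivation.map_smul, map_sum]
  have : ∀ e, B.D none (B.ki c e * (B.D (some (Sum.inl i)) (B.k j e)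
      + B.D (some (Sum.inl j)) (B.k i e) - B.D (some (Sum.inl e)) (B.k i j))) = 0 := by
    intro e
    rw [Derivation.leibniz, B.D_ki, smul_zero, add_zero, map_sub, map_add, B.comm none,
      B.comm none, B.comm none, B.tk, B.tk, B.tk]
    simp
  simp only [this, Finset.sum_const_zero, smul_zero]

lemma D_Rk (i j : κ₁) : B.D none (B.Rk i j) = 0 := by
  unfold Rk ric
  simp only [map_add, map_sum, map_sub, Derivation.leibniz, B.D_Gk, B.comm none, map_zero,
    smul_zero, add_zero, sub_zero, Finset.sum_const_zero]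

lemma Rk_unique [Unique κ₁] (i j : κ₁) : B.Rk i j = 0 := by
  unfold Rk ric
  simp only [Fintype.sum_unique, Unique.eq_default, sub_self, add_zero]

end BData

namespace IsBlock

variable {T : ℝ} {V₁ : Set (κ₁ → ℝ)} {V₂ : Set (κ₂ → ℝ)} {a f : ℝ → ℝ}
    {k : κ₁ → κ₁ → Raw κ₁} {h : ℝ → κ₂ → κ₂ → Raw κ₂} (I : IsBlock T V₁ V₂ a f k h)
  {x : κ₁ → ℝ} (hx : x ∈ V₁) {y : κ₂ → ℝ} (hy : y ∈ V₂)

/-- the Einstein constant of the first factor -/
def cst (I : IsBlock T V₁ V₂ a f k h) (x : κ₁ → ℝ) (y : κ₂ → ℝ) (i : κ₁) : ℝ :=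
  lin x y (I.bdat.Rk i i) (T / 2) / k i i x

include hx hy in
lemma Rk_const (hT : 0 < T) (i j : κ₁) {t : ℝ} (ht : t ∈ Ioo 0 T) :
    lin x y (I.bdat.Rk i j) t = lin x y (I.bdat.Rk i j) (T / 2) := by
  have hm : T / 2 ∈ Ioo 0 T := ⟨by linarith, by linarith⟩
  refine (convex_Ioo 0 T).is_const_of_fderivWithin_eq_zero (𝕜 := ℝ)
    (fun s hs => (I.lin_deriv hx hy _ hs).differentiableAt.differentiableWithinAt)
    (fun s hs => ?_) ht hm
  rw [fderivWithin_of_isOpen isOpen_Ioo hs]
  have h1 := (I.lin_deriv hx hy (I.bdat.Rk i j) hs).hasFDerivAt.fderiv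
  rw [h1, I.bdat.D_Rk]
  have h2 : lin x y (0 : SmF (dom T V₁ V₂)) s = 0 := by
    rw [lin_eq hx hy _ hs, map_zero]
  rw [h2]
  ext
  simp

/-- the equations along a normal geodesic -/
theorem odata {lam : ℝ} (hS : IsSoliton (dom T V₁ V₂) (wmet a k h) (fun z => f (z none)) lam)
    (hT : 0 < T) (hx : x ∈ V₁) (hy : y ∈ V₂) (i : κ₁)
    (hbdd : ∃ C, ∀ t ∈ Ioo 0 T, (Matrix.of fun i j => h t i j y).det ≤ C)
    (ha0 : a 0 = 0) (haT : deriv a T = 0) (hf0 : deriv f 0 = 0) (hfT : deriv f T = 0) :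
    OData T lam (I.cst x y i) (Fintype.card κ₁) a f (lin x y I.bdat.σ) (lin x y I.bdat.τ)
      (fun t => (Matrix.of fun i j => h t i j y).det) where
  T_pos := hT
  a_smooth := I.a_smooth
  f_smooth := I.f_smooth
  a_pos := I.a_pos
  H_pos t ht := (I.h_posDef t ht y hy).det_pos
  H_deriv t ht := I.H_deriv hx hy ht
  σ_diff t ht := (I.lin_deriv hx hy _ ht).differentiableAt
  tt t ht := by
    have h1 := congrArg (fun q => lin x y q t) (I.sol hS).tt
    rw [I.lin_v1 hx hy t ht] at h1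
    rw [h1, ← I.lin_ds hx hy t ht, ← I.lin_X hx hy t ht]
    simp only [lin_eq hx hy _ ht, BData.p]
    simp only [map_add, map_mul, map_pow, map_natCast, AlgHom.commutes]
    rfl
  xx t ht := by
    have h1 := congrArg (fun q => lin x y q t) ((I.sol hS).xx i i)
    have hk : 0 < k i i x := by
      have := (I.k_riem.posDef x hx).diag_pos (i := i)
      simpa using this
    have h2 : lin x y (I.bdat.Rk i i) t = I.cst x y i * k i i x := by
      rw [I.Rk_const hx hy hT i i ht, cst, div_mul_cancel₀ _ hk.ne']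
    have e1 := I.lin_du hx hy t ht
    have e2 := I.lin_s hx hy t ht
    have e3 := I.lin_v hx hy t ht
    have e4 := I.lin_u hx hy t ht
    have e5 := I.lin_da hx hy t ht
    have e6 := I.lin_k hx hy i i ht
    have e7 := I.lin_a hx hy ht
    simp only [lin_eq hx hy _ ht] at h1 h2 e1 e2 e3 e4 e5 e6 e7 ⊢
    simp only [map_sub, map_mul, map_add, map_pow, AlgHom.commutes, map_ofNat] at h1
    rw [map_mul] at e4
    rw [h2, e1, e2, e3, e5, e6, e7] at h1
    have h3 : k i i x * (I.cst x y i - (deriv (fun t => a t * deriv a t) t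
        + ((Fintype.card κ₁ * (deriv a t / a t) + evl (pw hx hy ht) I.bdat.σ) - deriv f t)
          * (a t * deriv a t) - 2 * deriv a t ^ 2) - lam * a t ^ 2) = 0 := by
      have h4 : (algebraMap ℝ ℝ) lam = lam := rfl
      rw [h4] at h1
      linear_combination h1
    have h5 := (mul_eq_zero.1 h3).resolve_left hk.ne'
    linarith
  bi t ht := by
    have h1 := congrArg (fun q => lin x y q t) (I.sol hS).bianchi
    have e0 : lin x y (0 : SmF (dom T V₁ V₂)) t = 0 := by rw [lin_eq hx hy _ ht, map_zero]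
    rw [e0] at h1
    rw [← I.lin_v2 hx hy t ht, ← I.lin_v1 hx hy t ht, ← I.lin_v hx hy t ht,
      ← I.lin_ds hx hy t ht, ← I.lin_s hx hy t ht, ← I.lin_X hx hy t ht]
    simp only [lin_eq hx hy _ ht, BData.p] at h1 ⊢
    simp only [map_add, map_sub, map_mul, map_pow, map_natCast, map_ofNat] at h1
    exact h1
  H_bdd := hbdd
  a_zero := ha0
  da_T := haT
  df_zero := hf0
  df_T := hfT

include I in
/-- a soliton with constant `f` is Einstein -/
theorem einstein_of_const {lam : ℝ}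
    (hS : IsSoliton (dom T V₁ V₂) (wmet a k h) (fun z => f (z none)) lam)
    (hdf : ∀ t ∈ Icc 0 T, deriv f t = 0) : ∀ z ∈ dom T V₁ V₂, ∀ i j,
      ric pd (chr pd (wmet a k h) (minv (wmet a k h))) i j z = lam * wmet a k h i j z := by
  intro z hz i j
  have h1 := hS z hz i j
  have h2 : ∀ c, EqOn (pd c (fun z : Idx κ₁ κ₂ → ℝ => f (z none))) (fun _ => 0) (dom T V₁ V₂) := by
    intro c w hw
    have h3 : HasFDerivAt (fun z : Idx κ₁ κ₂ → ℝ => f (z none)) _ w :=
      (((contDiff_infty_iff_deriv.1 I.f_smooth).1 (w none)).hasDerivAt).comp_hasFDerivAt w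
        (prt (κ₁ := κ₁) (κ₂ := κ₂)).hasFDerivAt
    unfold pd
    rw [h3.fderiv, hdf _ ⟨hw.1.1.le, hw.1.2.le⟩]
    simp
  have h4 : hess pd (chr pd (wmet a k h) (minv (wmet a k h))) (fun z => f (z none)) i j z = 0 := by
    unfold hess
    have e1 : pd i (pd j fun z : Idx κ₁ κ₂ → ℝ => f (z none)) z = 0 := by
      rw [pd_congr I.W_open i (h2 j) hz]
      unfold pd; simp
    show pd i (pd j fun z : Idx κ₁ κ₂ → ℝ => f (z none)) z - (∑ c, _ * _ : Raw _) z = 0
    rw [e1, Finset.sum_apply]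
    have e2 : ∀ c, (chr pd (wmet a k h) (minv (wmet a k h)) c i j
        * pd c fun z : Idx κ₁ κ₂ → ℝ => f (z none)) z = 0 := by
      intro c
      rw [Pi.mul_apply, h2 c hz, mul_zero]
    simp only [e2, Finset.sum_const_zero, sub_zero]
  rw [h4, add_zero] at h1
  exact h1

omit I in
/-- `f` is constant if `f' = 0` -/
lemma const_of_deriv {f : ℝ → ℝ} (hf : ContDiff ℝ ∞ f) (hdf : ∀ t ∈ Icc 0 T, deriv f t = 0) :
    ∀ t ∈ Icc 0 T, f t = f 0 := by
  intro t ht
  refine constant_of_derivWithin_zero (a := 0) (b := T)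
    (fun s _ => ((contDiff_infty_iff_deriv.1 hf).1 s).differentiableWithinAt) (fun s hs => ?_) t ht
  have hs' : s ∈ Icc 0 T := ⟨hs.1, hs.2.le⟩
  rw [((contDiff_infty_iff_deriv.1 hf).1 s).derivWithin
    ((uniqueDiffOn_Icc (hs.1.trans_lt hs.2)) s hs')]
  exact hdf s hs'

omit I in
lemma secNum_single {ι : Type} [Fintype ι] [DecidableEq ι] (g : ι → ι → Raw ι) (z : ι → ℝ)
    (p q : ι) : secNum g z (Pi.single p 1) (Pi.single q 1)
      = ∑ l, g l p z * rm pd (chr pd g (minv g)) l q p q z := by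
  unfold secNum
  refine Finset.sum_congr rfl fun l _ => ?_
  rw [Finset.sum_eq_single p, Finset.sum_eq_single q, Finset.sum_eq_single p,
    Finset.sum_eq_single q]
  · simp
  · intro b _ hb; simp [Pi.single_eq_of_ne hb]
  · intro hb; exact absurd (Finset.mem_univ _) hb
  · intro b _ hb; simp [Pi.single_eq_of_ne hb]
  · intro hb; exact absurd (Finset.mem_univ _) hb
  · intro b _ hb; simp [Pi.single_eq_of_ne hb]
  · intro hb; exact absurd (Finset.mem_univ _) hb
  · intro b _ hb; simp [Pi.single_eq_of_ne hb]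
  · intro hb; exact absurd (Finset.mem_univ _) hb

include I in
/-- the radial curvature of the first factor -/
lemma a2_neg_of_sec (hx : x ∈ V₁) (hy : y ∈ V₂) (i : κ₁) {t : ℝ} (ht : t ∈ Ioo 0 T)
    (hsec : 0 < secNum (wmet a k h) (pt t x y) (Pi.single none 1)
      (Pi.single (some (Sum.inl i)) 1)) : deriv (deriv a) t < 0 := by
  set z : dom T V₁ V₂ := pw hx hy ht with hz
  have e0 : secNum (wmet a k h) (pt t x y) (Pi.single none 1) (Pi.single (some (Sum.inl i)) 1)
      = rm pd (chr pd (wmet a k h) (minv (wmet a k h))) none (some (Sum.inl i)) none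
        (some (Sum.inl i)) (pt t x y) := by
    rw [secNum_single, Fintype.sum_option]
    have e1 : wmet a k h none none (pt t x y) = 1 := rfl
    have e2 : ∀ l : κ₁ ⊕ κ₂, wmet a k h (some l) none (pt t x y) = 0 := by
      rintro (l | l) <;> rfl
    simp only [e1, e2, zero_mul, Finset.sum_const_zero, add_zero, one_mul]
  rw [e0, show pt t x y = z.1 from rfl, I.rm_eq, BData.rm_tx] at hsec
  have hk : 0 < k i i x := (I.k_riem.posDef x hx).diag_pos (i := i)
  have e3 := I.lin_of_eq (I.lin_da hx hy) hx hy t ht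
  have e4 := I.lin_k hx hy i i ht
  have e5 := I.lin_a hx hy ht
  rw [lin_eq hx hy _ ht] at e3 e4 e5
  rw [map_neg, map_mul, map_mul, hz, e3, e4, e5] at hsec
  have ha := I.a_pos t ht
  by_contra hc
  have h1 : 0 ≤ a t * deriv (deriv a) t * k i i x :=
    mul_nonneg (mul_nonneg ha.le (not_lt.1 hc)) hk.le
  linarith

end IsBlock

end

end RS61
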