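import Mathlib
import Pool.Agent.RS61.Main
import Pool.Agent.RS61.Crit

/-!
# Solitons `dt² + h(t, y)`, `f = f(t)`, in the coordinates `Option κ`
-/

open Finset Set Filter
open scoped ContDiff Topology

set_option linter.unusedSectionVars false

namespace RS61

noncomputable section

/-! ### The open set and the metric -/

section defs

variable {κ : Type}

/-- The set of the points `(t, y)` with `0 < t < T` and `y ∈ V`, `t = z none`, `y_j = z (some j)`. -/
def cdom (T : ℝ) (V : Set (κ → ℝ)) : Set (Option κ → ℝ) :=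
  {z | z none ∈ Ioo 0 T ∧ (fun i => z (some i)) ∈ V}

/-- The metric `dt² + h(t, y)`. -/
def cmet (h : ℝ → κ → κ → Raw κ) : Option κ → Option κ → Raw (Option κ)
  | none, none => fun _ => 1
  | some i, some j => fun z => h (z none) i j fun l => z (some l)
  | _, _ => fun _ => 0

end defs

/-! ### Change of the index set -/

section transport

variable {ι ι' : Type} [Fintype ι] [Fintype ι'] [DecidableEq ι] [DecidableEq ι'] (e : ι ≃ ι')

/-- change of the index set -/
def tr (F : Raw ι) : Raw ι' := fun z => F fun i => z (e i)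

/-- the linear equivalence -/
def trE : (ι' → ℝ) ≃L[ℝ] (ι → ℝ) :=
  (LinearEquiv.funCongrLeft ℝ ℝ e).toContinuousLinearEquiv

lemma trE_apply (z : ι' → ℝ) : trE e z = fun i => z (e i) := rfl

lemma pd_tr (i : ι) (F : Raw ι) : pd (e i) (tr e F) = tr e (pd i F) := by
  funext z
  have h1 : tr e F = F ∘ (trE e) := rfl
  unfold pd
  rw [h1, ContinuousLinearEquiv.comp_right_fderiv]
  show (fderiv ℝ F (trE e z)) (trE e (Pi.single (e i) 1)) = (fderiv ℝ F _) (Pi.single i 1)
  have h2 : trE e (Pi.single (e i) (1 : ℝ)) = Pi.single i 1 := by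
    rw [trE_apply]
    funext j
    by_cases h : j = i
    · subst h; simp
    · rw [Pi.single_eq_of_ne h, Pi.single_eq_of_ne (fun h' => h (e.injective h'))]
  rw [h2, trE_apply]

lemma tr_add (F G : Raw ι) : tr e (F + G) = tr e F + tr e G := rfl
lemma tr_sub (F G : Raw ι) : tr e (F - G) = tr e F - tr e G := rfl
lemma tr_mul (F G : Raw ι) : tr e (F * G) = tr e F * tr e G := rfl
lemma tr_smul (r : ℝ) (F : Raw ι) : tr e (r • F) = r • tr e F := rfl
lemma tr_sum {α : Type} (s : Finset α) (F : α → Raw ι) : tr e (∑ i ∈ s, F i) = ∑ i ∈ s, tr e (F i) := by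
  funext z
  simp only [tr, Finset.sum_apply]

variable {g gi : ι → ι → Raw ι} {g' gi' : ι' → ι' → Raw ι'}

lemma chr_tr (hg : ∀ i j, g' (e i) (e j) = tr e (g i j)) (hgi : ∀ i j, gi' (e i) (e j) = tr e (gi i j))
    (c a b : ι) : chr pd g' gi' (e c) (e a) (e b) = tr e (chr pd g gi c a b) := by
  unfold chr
  rw [tr_smul, tr_sum, ← Equiv.sum_comp e]
  congr 1
  refine Finset.sum_congr rfl fun l _ => ?_
  rw [hgi, hg, hg, hg, pd_tr, pd_tr, pd_tr, ← tr_add, ← tr_sub, ← tr_mul]

lemma minv_tr (hg : ∀ i j, g' (e i) (e j) = tr e (g i j)) (i j : ι) :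
    minv g' (e i) (e j) = tr e (minv g i j) := by
  funext z
  unfold minv tr
  have h1 : (Matrix.of fun a b => g' a b z)
      = (Matrix.of fun a b => g a b fun i => z (e i)).submatrix e.symm e.symm := by
    ext a b
    obtain ⟨a, rfl⟩ := e.surjective a
    obtain ⟨b, rfl⟩ := e.surjective b
    simp only [Matrix.of_apply, Matrix.submatrix_apply, Equiv.symm_apply_apply]
    rw [hg]
    rfl
  rw [h1, Matrix.inv_submatrix_equiv]
  simp

variable {Γ : ι → ι → ι → Raw ι} {Γ' : ι' → ι' → ι' → Raw ι'}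

lemma ric_tr (hΓ : ∀ c a b, Γ' (e c) (e a) (e b) = tr e (Γ c a b)) (a b : ι) :
    ric pd Γ' (e a) (e b) = tr e (ric pd Γ a b) := by
  unfold ric
  rw [tr_add, tr_sum, tr_sum, ← Equiv.sum_comp e, ← Equiv.sum_comp e]
  congr 1
  · refine Finset.sum_congr rfl fun c _ => ?_
    rw [hΓ, hΓ, pd_tr, pd_tr, ← tr_sub]
  · refine Finset.sum_congr rfl fun c _ => ?_
    rw [tr_sum, ← Equiv.sum_comp e]
    refine Finset.sum_congr rfl fun l _ => ?_
    rw [hΓ, hΓ, hΓ, hΓ, ← tr_mul, ← tr_mul, ← tr_sub]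

lemma hess_tr (hΓ : ∀ c a b, Γ' (e c) (e a) (e b) = tr e (Γ c a b)) (f : Raw ι) (a b : ι) :
    hess pd Γ' (tr e f) (e a) (e b) = tr e (hess pd Γ f a b) := by
  unfold hess
  rw [tr_sub, tr_sum, ← Equiv.sum_comp e, pd_tr, pd_tr]
  congr 1
  refine Finset.sum_congr rfl fun c _ => ?_
  rw [hΓ, pd_tr, ← tr_mul]

end transport

/-! ### The theorem -/

section main

variable {κ : Type} [Fintype κ] [DecidableEq κ]

/-- the change of the index set -/
def ie (κ : Type) : Idx Empty κ ≃ Option κ where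
  toFun
    | none => none
    | some (Sum.inl e) => e.elim
    | some (Sum.inr i) => some i
  invFun
    | none => none
    | some i => some (Sum.inr i)
  left_inv := by rintro (_ | e | i) <;> [rfl; exact e.elim; rfl]
  right_inv := by rintro (_ | i) <;> rfl

/-- the trivial metric of the point -/
def k0 : Empty → Empty → Raw Empty := fun i _ => i.elim

lemma cmet_tr (h : ℝ → κ → κ → Raw κ) (i j : Idx Empty κ) :
    cmet h (ie κ i) (ie κ j) = tr (ie κ) (wmet (fun _ => 1) k0 h i j) := by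
  rcases i with _ | e | i
  · rcases j with _ | e | j
    · rfl
    · exact e.elim
    · rfl
  · exact e.elim
  · rcases j with _ | e | j
    · rfl
    · exact e.elim
    · rfl

lemma cdom_iff {T : ℝ} {V : Set (κ → ℝ)} (z : Option κ → ℝ) :
    z ∈ cdom T V ↔ (fun i => z (ie κ i)) ∈ dom (κ₁ := Empty) T univ V := by
  constructor
  · rintro ⟨h1, h2⟩
    exact ⟨h1, trivial, h2⟩
  · rintro ⟨h1, _, h2⟩
    exact ⟨h1, h2⟩

variable {T lam : ℝ} {V : Set (κ → ℝ)} {f : ℝ → ℝ} {h : ℝ → κ → κ → Raw κ}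

lemma isBlock0 (hf : ContDiff ℝ ∞ f) (hV : IsOpen V)
    (hh : ∀ i j, ContDiffOn ℝ ∞ (fun q : ℝ × (κ → ℝ) => h q.1 i j q.2) (Ioo 0 T ×ˢ V))
    (hpd : ∀ t ∈ Ioo 0 T, ∀ y ∈ V, (Matrix.of fun i j => h t i j y).PosDef) :
    IsBlock (κ₁ := Empty) T univ V (fun _ => 1) f k0 h where
  a_smooth := contDiff_const
  f_smooth := hf
  a_pos := fun _ _ => one_pos
  k_riem := ⟨isOpen_univ, fun i => i.elim, fun z _ => by
    have : (Matrix.of fun i j => k0 i j z) = (1 : Matrix Empty Empty ℝ) := Subsingleton.elim _ _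
    rw [this]
    exact Matrix.PosDef.one⟩
  V₂_open := hV
  h_smooth := hh
  h_posDef := hpd

lemma sol_tr (hS : IsSoliton (cdom T V) (cmet h) (fun z => f (z none)) lam) :
    IsSoliton (dom (κ₁ := Empty) T univ V) (wmet (fun _ => 1) k0 h) (fun z => f (z none)) lam := by
  intro z hz a b
  set z' : Option κ → ℝ := fun i => z ((ie κ).symm i) with hz'
  have e0 : (fun i => z' (ie κ i)) = z := by
    funext i
    simp [hz']
  have hz2 : z' ∈ cdom T V := by rw [cdom_iff, e0]; exact hz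
  have h1 := hS z' hz2 (ie κ a) (ie κ b)
  have hΓ : ∀ c a b, chr pd (cmet h) (minv (cmet h)) (ie κ c) (ie κ a) (ie κ b)
      = tr (ie κ) (chr pd (wmet (fun _ => 1) k0 h) (minv (wmet (fun _ => 1) k0 h)) c a b) :=
    chr_tr (ie κ) (cmet_tr h) (minv_tr (ie κ) (cmet_tr h))
  have hf' : (fun z : Option κ → ℝ => f (z none)) = tr (ie κ) (fun z : Idx Empty κ → ℝ => f (z none)) := rfl
  rw [hf', ric_tr (ie κ) hΓ, hess_tr (ie κ) hΓ, cmet_tr] at h1
  simp only [tr] at h1
  rw [e0] at h1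
  exact h1

lemma ric_cmet {z : Option κ → ℝ} (a b : Option κ) :
    ric pd (chr pd (cmet h) (minv (cmet h))) a b z
      = ric pd (chr pd (wmet (fun _ => 1) k0 h) (minv (wmet (fun _ => 1) k0 h)))
        ((ie κ).symm a) ((ie κ).symm b) (fun i => z (ie κ i)) := by
  have hΓ : ∀ c a b, chr pd (cmet h) (minv (cmet h)) (ie κ c) (ie κ a) (ie κ b)
      = tr (ie κ) (chr pd (wmet (fun _ => 1) k0 h) (minv (wmet (fun _ => 1) k0 h)) c a b) :=
    chr_tr (ie κ) (cmet_tr h) (minv_tr (ie κ) (cmet_tr h))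
  have h1 := ric_tr (ie κ) hΓ ((ie κ).symm a) ((ie κ).symm b)
  rw [Equiv.apply_symm_apply, Equiv.apply_symm_apply] at h1
  rw [h1]
  rfl

/-- the equations along a normal geodesic -/
theorem cdata (hT : 0 < T) (hlam : 0 < lam) (hf : ContDiff ℝ ∞ f) (hV : IsOpen V)
    (hh : ∀ i j, ContDiffOn ℝ ∞ (fun q : ℝ × (κ → ℝ) => h q.1 i j q.2) (Ioo 0 T ×ˢ V))
    (hpd : ∀ t ∈ Ioo 0 T, ∀ y ∈ V, (Matrix.of fun i j => h t i j y).PosDef)
    (hS : IsSoliton (cdom T V) (cmet h) (fun z => f (z none)) lam) {y : κ → ℝ} (hy : y ∈ V) :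
    ∃ σ τ : ℝ → ℝ, CData T lam f σ τ (fun t => (Matrix.of fun i j => h t i j y).det) := by
  have I := isBlock0 hf hV hh hpd
  have hS' := sol_tr hS
  have hx : (fun i : Empty => (i.elim : ℝ)) ∈ (univ : Set (Empty → ℝ)) := trivial
  set x : Empty → ℝ := fun i => i.elim with hxdef
  have es : ∀ t ∈ Ioo 0 T, IsBlock.lin x y I.bdat.s t = IsBlock.lin x y I.bdat.σ t := by
    intro t ht
    rw [I.lin_s hx hy t ht]
    simp
  have eds : ∀ t ∈ Ioo 0 T, IsBlock.lin x y (I.bdat.D none I.bdat.s) t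
      = deriv (IsBlock.lin x y I.bdat.σ) t := I.lin_of_eq es hx hy
  refine ⟨IsBlock.lin x y I.bdat.σ, IsBlock.lin x y I.bdat.τ, ?_⟩
  refine ⟨hT, hlam, hf, fun t ht => (I.h_posDef t ht y hy).det_pos, fun t ht => I.H_deriv hx hy ht,
    fun t ht => (I.lin_deriv hx hy _ ht).differentiableAt,
    fun t ht => (I.lin_deriv hx hy _ ht).continuousAt.continuousWithinAt,
    fun t ht => I.τ_nonneg hx hy ht, fun t ht h0 => I.σ_of_τ hx hy ht h0, ?_, ?_⟩
  · intro t ht
    have h1 := congrArg (fun q => IsBlock.lin x y q t) (I.sol hS').tt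
    rw [← I.lin_v1 hx hy t ht, h1, ← eds t ht]
    simp only [IsBlock.lin_eq hx hy _ ht, BData.p]
    simp only [map_add, map_mul, map_pow, map_natCast, AlgHom.commutes]
    simp
  · intro t ht
    have h1 := congrArg (fun q => IsBlock.lin x y q t) (I.sol hS').bianchi
    have e0 : IsBlock.lin x y (0 : SmF (dom T univ V)) t = 0 := by
      rw [IsBlock.lin_eq hx hy _ ht, map_zero]
    rw [e0] at h1
    rw [← I.lin_v2 hx hy t ht, ← I.lin_v1 hx hy t ht, ← I.lin_v hx hy t ht,
      ← eds t ht, ← es t ht]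
    simp only [IsBlock.lin_eq hx hy _ ht, BData.p] at h1 ⊢
    simp only [map_add, map_sub, map_mul, map_pow, map_natCast, map_ofNat] at h1
    simp only [Fintype.card_eq_zero, Nat.cast_zero, zero_mul, zero_add] at h1
    exact h1

end main

end

end RS61
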