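import Mathlib

/-!
# The algebraic inequality for the supersolution
-/

namespace RS61

/-- the function `2𝒥` -/
noncomputable def J2 (q j k e β E P R u : ℝ) : ℝ :=
  (q + 2) * (1 + β ^ 2) + 4 * (q + 2) * (u - 1) - 4 * (q + 2) * β * E + 8 * E ^ 2 - 2 * P * β
    - 4 * P * E + R * ((q + 2) * β - 4 * E + (q + 2) / q * P)
  - ((j * (q * (β ^ 2 - 1) - R * ((q + 2) * β - 4 * E + P) - R ^ 2) - k * P * (2 * β + R)
      + e * (β ^ 2 - 1 - P * R / q)) + (j * R - k * P + e * β) ^ 2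
      + (j * R - k * P + e * β) * (q * β - 4 * E + P - R))

/-- the inequalities between the quantities of the soliton -/
structure JHyp (q β E P R u : ℝ) : Prop where
  β0 : 0 ≤ β
  E0 : 0 ≤ E
  P0 : 0 ≤ P
  R0 : 0 ≤ R
  W : (6 + q * β + P) * E ≤ (q + 6) * (u - 1)
  C : (1 + 2 / q) * (P * u) ≤ (q + 2) * u - 1 - (q + 1) * β ^ 2 + 2 * β * E - P * β + P * R / q
  U : β ^ 2 ≤ u

lemma J2_pos1 {β E P R u : ℝ} (h : JHyp 2 β E P R u) : 0 < J2 2 (1 / 2) (2 / 3) (2 / 5) β E P R u := by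
  obtain ⟨h1, h2, h3, h4, hW, hC, hU⟩ := h
  unfold J2
  have e1 := mul_nonneg h3 (sub_nonneg.2 hW)
  have e2 := mul_nonneg h1 h1
  have e3 := mul_nonneg h1 h3
  have e4 := mul_nonneg h1 h4
  have e5 := mul_nonneg h3 h3
  have e6 := mul_nonneg h3 h4
  have e7 := mul_nonneg h4 h4
  have e8 := mul_nonneg e3 h2
  have e9 := mul_nonneg h2 (sq_nonneg (P - 6))
  have e10 := sq_nonneg (E - (263 / 20 * β + 9 / 5 * P + 4 * R) / 16)
  nlinarith [e1, e2, e3, e4, e5, e6, e7, e8, e9, e10, mul_nonneg h2 e5]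

lemma J2_pos2 {β E P R u : ℝ} (h : JHyp 4 β E P R u) : 0 < J2 4 (3 / 8) (3 / 5) (1 / 5) β E P R u := by
  obtain ⟨h1, h2, h3, h4, hW, hC, hU⟩ := h
  unfold J2
  have e1 := mul_nonneg h3 (sub_nonneg.2 hW)
  have e2 := mul_nonneg h1 h1
  have e3 := mul_nonneg h1 h3
  have e4 := mul_nonneg h1 h4
  have e5 := mul_nonneg h3 h3
  have e6 := mul_nonneg h3 h4
  have e7 := mul_nonneg h4 h4
  have e8 := mul_nonneg e3 h2
  have e9 := mul_nonneg h2 (sq_nonneg (P - 9))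
  have e10 := sq_nonneg (E - (911 / 50 * β + 41 / 20 * P + 4 * R) / 16)
  nlinarith [e1, e2, e3, e4, e5, e6, e7, e8, e9, e10, mul_nonneg h2 e5]

lemma J2_pos3 {β E P R u : ℝ} (h : JHyp 6 β E P R u) : 0 < J2 6 (5 / 16) (1 / 2) (-1 / 2) β E P R u := by
  obtain ⟨h1, h2, h3, h4, hW, hC, hU⟩ := h
  unfold J2
  have e1 := mul_nonneg h3 (sub_nonneg.2 hW)
  have e2 := mul_nonneg h1 h1
  have e3 := mul_nonneg h1 h3
  have e4 := mul_nonneg h1 h4
  have e5 := mul_nonneg h3 h3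
  have e6 := mul_nonneg h3 h4
  have e7 := mul_nonneg h4 h4
  have e8 := mul_nonneg e3 h2
  have e9 := mul_nonneg h2 (sq_nonneg (P - 13))
  have e10 := sq_nonneg (E - (118 / 5 * β + 48 / 25 * P + 4 * R) / 16)
  have e11 := sq_nonneg (11 * β - 10 * P)
  nlinarith [e1, e2, e3, e4, e5, e6, e7, e8, e9, e10, mul_nonneg h2 e5]

lemma J2_pos4 {β E P R u : ℝ} (h : JHyp 8 β E P R u) : 0 < J2 8 (2 / 5) (1 / 2) (-9 / 8) β E P R u := by
  obtain ⟨h1, h2, h3, h4, hW, hC, hU⟩ := h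
  unfold J2
  have e1 := mul_nonneg h3 (sub_nonneg.2 hW)
  have e2 := mul_nonneg h1 h1
  have e3 := mul_nonneg h1 h3
  have e4 := mul_nonneg h1 h4
  have e5 := mul_nonneg h3 h3
  have e6 := mul_nonneg h3 h4
  have e7 := mul_nonneg h4 h4
  have e8 := mul_nonneg e3 h2
  have e9 := mul_nonneg h2 (sq_nonneg (P - 18))
  have e10 := sq_nonneg (E - (687 / 28 * β + 2 * P + 4 * R) / 16)
  nlinarith [e1, e2, e3, e4, e5, e6, e7, e8, e9, e10, mul_nonneg h2 e5]

lemma J2_pos5 {β E P R u : ℝ} (h : JHyp 10 β E P R u) : 0 < J2 10 (2 / 5) (1 / 2) (-9 / 8) β E P R u := by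
  obtain ⟨h1, h2, h3, h4, hW, hC, hU⟩ := h
  unfold J2
  have e1 := mul_nonneg h3 (sub_nonneg.2 hW)
  have e2 := mul_nonneg h1 h1
  have e3 := mul_nonneg h1 h3
  have e4 := mul_nonneg h1 h4
  have e5 := mul_nonneg h3 h3
  have e6 := mul_nonneg h3 h4
  have e7 := mul_nonneg h4 h4
  have e8 := mul_nonneg e3 h2
  have e9 := mul_nonneg h2 (sq_nonneg (P - 20))
  have e10 := sq_nonneg (E - (417 / 16 * β + 2 * P + 4 * R) / 16)
  nlinarith [e1, e2, e3, e4, e5, e6, e7, e8, e9, e10, mul_nonneg h2 e5]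

lemma J2_pos6 {β E P R u : ℝ} (h : JHyp 12 β E P R u) : 0 < J2 12 (2 / 5) (1 / 2) (-9 / 8) β E P R u := by
  obtain ⟨h1, h2, h3, h4, hW, hC, hU⟩ := h
  unfold J2
  have e1 := mul_nonneg h3 (sub_nonneg.2 hW)
  have e2 := mul_nonneg h1 h1
  have e3 := mul_nonneg h1 h3
  have e4 := mul_nonneg h1 h4
  have e5 := mul_nonneg h3 h3
  have e6 := mul_nonneg h3 h4
  have e7 := mul_nonneg h4 h4
  have e8 := mul_nonneg e3 h2
  have e9 := mul_nonneg h2 (sq_nonneg (P - 21))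
  have e10 := sq_nonneg (E - (329 / 12 * β + 2 * P + 4 * R) / 16)
  nlinarith [e1, e2, e3, e4, e5, e6, e7, e8, e9, e10, mul_nonneg h2 e5]

lemma J2_pos7 {q β E P R u : ℝ} (hq : 14 ≤ q) (h : JHyp q β E P R u) :
    0 < J2 q (1 / 2) (1 / 2) (-1) β E P R u := by
  obtain ⟨h1, h2, h3, h4, hW, -, -⟩ := h
  have hq0 : 0 < q := by linarith
  have hq6 : 0 < q + 6 := by linarith
  set x : ℝ := (28 * q + 72) / (q + 6) with hx
  set a : ℝ := (2 * q + 28) / (q + 6) with ha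
  have hw : 0 ≤ u - 1 - (6 + q * β + P) * E / (q + 6) := by
    rw [sub_nonneg, div_le_iff₀ hq6]
    linarith
  have key : J2 q (1 / 2) (1 / 2) (-1) β E P R u
      = 4 * (q + 2) * (u - 1 - (6 + q * β + P) * E / (q + 6))
        + 8 * (E - (x * β + a * P + 4 * R) / 16) ^ 2
        + ((3 * q + 4) / 2 - x ^ 2 / 32) * β ^ 2 + (1 / 4 - a ^ 2 / 32) * P ^ 2 + 1 / 4 * R ^ 2
        + (q / 2 - 1 - x * a / 16) * (β * P) + (q + 3 - x / 4) * (β * R)
        + (3 / 2 + 1 / q - a / 4) * (P * R) + 24 * (q + 2) / (q + 6) * E + (3 * q / 2 + 1) := by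
    unfold J2
    rw [hx, ha]
    field_simp
    ring
  have hx0 : 0 ≤ x := by positivity
  have ha0 : 0 ≤ a := by positivity
  have hx1 : x ≤ 28 := by rw [hx, div_le_iff₀ hq6]; linarith
  have ha1 : a ≤ 14 / 5 := by rw [ha, div_le_iff₀ hq6]; linarith
  have c1 : 0 ≤ (3 * q + 4) / 2 - x ^ 2 / 32 := by
    have h5 : x * (q + 6) = 28 * q + 72 := by rw [hx]; field_simp
    have h6 : 0 ≤ ((3 * q + 4) / 2 - x ^ 2 / 32) * (q + 6) ^ 2 := by
      have : ((3 * q + 4) / 2 - x ^ 2 / 32) * (q + 6) ^ 2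
          = (3 * q + 4) / 2 * (q + 6) ^ 2 - (28 * q + 72) ^ 2 / 32 := by
        rw [← h5]; ring
      rw [this]
      nlinarith [mul_nonneg (sub_nonneg.2 hq) (sub_nonneg.2 hq),
        mul_nonneg (mul_nonneg (sub_nonneg.2 hq) (sub_nonneg.2 hq)) (sub_nonneg.2 hq)]
    by_contra hc
    push Not at hc
    have := mul_neg_of_neg_of_pos hc (pow_pos hq6 2)
    linarith
  have c2 : 0 ≤ 1 / 4 - a ^ 2 / 32 := by nlinarith
  have c3 : 0 ≤ q / 2 - 1 - x * a / 16 := by nlinarith [mul_le_mul hx1 ha1 ha0 (by norm_num)]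
  have c4 : 0 ≤ q + 3 - x / 4 := by linarith
  have c5 : 0 ≤ 3 / 2 + 1 / q - a / 4 := by
    have : 0 < 1 / q := by positivity
    linarith
  rw [key]
  have d1 := mul_nonneg (by linarith : (0:ℝ) ≤ 4 * (q + 2)) hw
  have d2 := mul_nonneg c1 (sq_nonneg β)
  have d3 := mul_nonneg c2 (sq_nonneg P)
  have d4 := mul_nonneg c3 (mul_nonneg h1 h3)
  have d5 := mul_nonneg c4 (mul_nonneg h1 h4)
  have d6 := mul_nonneg c5 (mul_nonneg h3 h4)
  have d7 : 0 ≤ 24 * (q + 2) / (q + 6) * E := by positivity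
  have d8 := sq_nonneg (E - (x * β + a * P + 4 * R) / 16)
  have d9 := sq_nonneg R
  linarith

/-- positivity of `2𝒥` for a suitable choice of the exponents -/
theorem J2_pos (m : ℕ) (hm : 1 ≤ m) : ∃ j k e : ℝ, 0 < j ∧ k < 1 ∧ -(2 : ℝ) < e ∧
    ∀ β E P R u : ℝ, JHyp (2 * m) β E P R u → 0 < J2 (2 * m) j k e β E P R u := by
  rcases Nat.lt_or_ge m 7 with h | h
  · interval_cases m
    · refine ⟨1 / 2, 2 / 3, 2 / 5, by norm_num, by norm_num, by norm_num, ?_⟩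
      intro β E P R u h
      norm_num at h ⊢
      exact J2_pos1 h
    · refine ⟨3 / 8, 3 / 5, 1 / 5, by norm_num, by norm_num, by norm_num, ?_⟩
      intro β E P R u h
      norm_num at h ⊢
      exact J2_pos2 h
    · refine ⟨5 / 16, 1 / 2, -1 / 2, by norm_num, by norm_num, by norm_num, ?_⟩
      intro β E P R u h
      norm_num at h ⊢
      have := J2_pos3 h
      norm_num at this
      exact this
    · refine ⟨2 / 5, 1 / 2, -9 / 8, by norm_num, by norm_num, by norm_num, ?_⟩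
      intro β E P R u h
      norm_num at h ⊢
      have := J2_pos4 h
      norm_num at this
      exact this
    · refine ⟨2 / 5, 1 / 2, -9 / 8, by norm_num, by norm_num, by norm_num, ?_⟩
      intro β E P R u h
      norm_num at h ⊢
      have := J2_pos5 h
      norm_num at this
      exact this
    · refine ⟨2 / 5, 1 / 2, -9 / 8, by norm_num, by norm_num, by norm_num, ?_⟩
      intro β E P R u h
      norm_num at h ⊢
      have := J2_pos6 h
      norm_num at this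
      exact this
  · refine ⟨1 / 2, 1 / 2, -1, by norm_num, by norm_num, by norm_num, ?_⟩
    intro β E P R u h'
    refine J2_pos7 ?_ h'
    have : (7 : ℝ) ≤ m := by exact_mod_cast h
    linarith

end RS61
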