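import Mathlib
import Pool.Agent.RS61.HAlg

/-!
# The ordinary differential equations of a soliton `dt² + a² η² + b² k`

`q` is the dimension of the base. All derivatives are computed with respect to `t`; `r = a / b²`.
-/

open Set Filter Topology
open scoped ContDiff

namespace RS61

noncomputable section

/-- the equations -/
structure HData (T lam : ℝ) (q : ℕ) (a b f : ℝ → ℝ) : Prop where
  T_pos : 0 < T
  lam_pos : 0 < lam
  q_pos : 2 ≤ q
  a_smooth : ContDiff ℝ ∞ a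
  b_smooth : ContDiff ℝ ∞ b
  f_smooth : ContDiff ℝ ∞ f
  a_pos : ∀ t ∈ Ioo 0 T, 0 < a t
  b_pos : ∀ t ∈ Ioo 0 T, 0 < b t
  tt : ∀ t ∈ Ioo 0 T, deriv (deriv f) t
    = lam + deriv (deriv a) t / a t + q * (deriv (deriv b) t / b t)
  th : ∀ t ∈ Ioo 0 T, deriv (deriv a) t = q * a t ^ 3 / b t ^ 4 - q * deriv a t * deriv b t / b t
    + deriv a t * deriv f t - lam * a t
  bi : ∀ t ∈ Ioo 0 T, deriv (deriv (deriv f)) t
    = -(deriv a t / a t + q * (deriv b t / b t)) * deriv (deriv f) t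
      + ((deriv a t / a t) ^ 2 + q * (deriv b t / b t) ^ 2 + deriv (deriv f) t - lam) * deriv f t

/-- `a(t₀) = b(t₀) = 0` and `a'(t₀) = b'(t₀) = ε` -/
structure Nut (a b : ℝ → ℝ) (t₀ ε : ℝ) : Prop where
  a0 : a t₀ = 0
  a1 : deriv a t₀ = ε
  b0 : b t₀ = 0
  b1 : deriv b t₀ = ε

/-- `a(t₀) = 0`, `a'(t₀) = ε`, `b(t₀) > 0` and `b'(t₀) = 0` -/
structure Bolt (a b : ℝ → ℝ) (t₀ ε : ℝ) : Prop where
  a0 : a t₀ = 0
  a1 : deriv a t₀ = ε
  b0 : 0 < b t₀
  b1 : deriv b t₀ = 0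

section calculus

variable {u v F F' : ℝ → ℝ} {t0 u' v' T c s t : ℝ}

lemma tendsto_quot (hu : HasDerivAt u u' t0) (hv : HasDerivAt v v' t0) (hu0 : u t0 = 0)
    (hv0 : v t0 = 0) (hv' : v' ≠ 0) :
    Tendsto (fun t => u t / v t) (𝓝[≠] t0) (𝓝 (u' / v')) := by
  have h1 := (hasDerivAt_iff_tendsto_slope.1 hu).div (hasDerivAt_iff_tendsto_slope.1 hv) hv'
  refine h1.congr' ?_
  filter_upwards [self_mem_nhdsWithin] with t ht
  simp only [Pi.div_apply, slope_def_field, hu0, hv0, sub_zero]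
  have : t - t0 ≠ 0 := sub_ne_zero.2 ht
  field_simp

lemma nhdsGT_le_ne : 𝓝[>] t0 ≤ 𝓝[≠] t0 := nhdsWithin_mono _ fun _ ht => ne_of_gt ht
lemma nhdsLT_le_ne : 𝓝[<] t0 ≤ 𝓝[≠] t0 := nhdsWithin_mono _ fun _ ht => ne_of_lt ht

lemma mono_Ioo (h : ∀ x ∈ Ioo s t, HasDerivAt F (F' x) x) (h' : ∀ x ∈ Ioo s t, 0 ≤ F' x) :
    MonotoneOn F (Ioo s t) := by
  refine monotoneOn_of_deriv_nonneg (convex_Ioo _ _)
    (fun x hx => (h x hx).continuousAt.continuousWithinAt)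
    (fun x hx => (h x (interior_subset hx)).differentiableAt.differentiableWithinAt) ?_
  intro x hx
  rw [(h x (interior_subset hx)).deriv]
  exact h' x (interior_subset hx)

lemma strictMono_Ioo (h : ∀ x ∈ Ioo s t, HasDerivAt F (F' x) x) (h' : ∀ x ∈ Ioo s t, 0 < F' x) :
    StrictMonoOn F (Ioo s t) := by
  refine strictMonoOn_of_deriv_pos (convex_Ioo _ _)
    (fun x hx => (h x hx).continuousAt.continuousWithinAt) ?_
  intro x hx
  rw [(h x (interior_subset hx)).deriv]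
  exact h' x (interior_subset hx)

/-- a monotone function is at least its limit at the left end -/
lemma ge_of_lim_left (hm : MonotoneOn F (Ioo s t)) (h0 : Tendsto F (𝓝[>] s) (𝓝 c)) {x : ℝ}
    (hx : x ∈ Ioo s t) : c ≤ F x := by
  refine le_of_tendsto h0 ?_
  filter_upwards [Ioo_mem_nhdsGT hx.1] with y hy
  exact hm ⟨hy.1, hy.2.trans hx.2⟩ hx hy.2.le

/-- a monotone function is at most its limit at the right end -/
lemma le_of_lim_right (hm : MonotoneOn F (Ioo s t)) (h0 : Tendsto F (𝓝[<] t) (𝓝 c)) {x : ℝ}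
    (hx : x ∈ Ioo s t) : F x ≤ c := by
  refine ge_of_tendsto h0 ?_
  filter_upwards [Ioo_mem_nhdsLT hx.2] with y hy
  exact hm hx ⟨hx.1.trans hy.1, hy.2⟩ hy.1.le

lemma const_Ioo (h : ∀ x ∈ Ioo 0 T, HasDerivAt F 0 x) (h0 : Tendsto F (𝓝[>] 0) (𝓝 c)) :
    ∀ t ∈ Ioo 0 T, F t = c := by
  intro t ht
  have h1 : MonotoneOn F (Ioo 0 T) := mono_Ioo (F' := fun _ => 0) h (fun _ _ => le_refl _)
  have h2 : MonotoneOn (fun t => -F t) (Ioo 0 T) :=
    mono_Ioo (F' := fun _ => 0) (fun x hx => by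
      have := (h x hx).neg
      rw [neg_zero] at this
      exact this) (fun _ _ => le_refl _)
  have h3 := ge_of_lim_left h1 h0 ht
  have h4 := ge_of_lim_left h2 h0.neg ht
  linarith

end calculus

namespace HData

variable {T lam : ℝ} {q : ℕ} {a b f : ℝ → ℝ}

section basic

variable (O : HData T lam q a b f)
include O

lemma a1_smooth : ContDiff ℝ ∞ (deriv a) := (contDiff_infty_iff_deriv.1 O.a_smooth).2
lemma b1_smooth : ContDiff ℝ ∞ (deriv b) := (contDiff_infty_iff_deriv.1 O.b_smooth).2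
lemma f1_smooth : ContDiff ℝ ∞ (deriv f) := (contDiff_infty_iff_deriv.1 O.f_smooth).2
lemma f2_smooth : ContDiff ℝ ∞ (deriv (deriv f)) := (contDiff_infty_iff_deriv.1 O.f1_smooth).2

lemma ha (t : ℝ) : HasDerivAt a (deriv a t) t :=
  ((contDiff_infty_iff_deriv.1 O.a_smooth).1 t).hasDerivAt
lemma ha1 (t : ℝ) : HasDerivAt (deriv a) (deriv (deriv a) t) t :=
  ((contDiff_infty_iff_deriv.1 O.a1_smooth).1 t).hasDerivAt
lemma hb (t : ℝ) : HasDerivAt b (deriv b t) t :=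
  ((contDiff_infty_iff_deriv.1 O.b_smooth).1 t).hasDerivAt
lemma hb1 (t : ℝ) : HasDerivAt (deriv b) (deriv (deriv b) t) t :=
  ((contDiff_infty_iff_deriv.1 O.b1_smooth).1 t).hasDerivAt
lemma hf (t : ℝ) : HasDerivAt f (deriv f t) t :=
  ((contDiff_infty_iff_deriv.1 O.f_smooth).1 t).hasDerivAt
lemma hf1 (t : ℝ) : HasDerivAt (deriv f) (deriv (deriv f) t) t :=
  ((contDiff_infty_iff_deriv.1 O.f1_smooth).1 t).hasDerivAt
lemma hf2 (t : ℝ) : HasDerivAt (deriv (deriv f)) (deriv (deriv (deriv f)) t) t :=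
  ((contDiff_infty_iff_deriv.1 O.f2_smooth).1 t).hasDerivAt

lemma q_ne : (q : ℝ) ≠ 0 := by
  have := O.q_pos
  positivity

end basic

/-- `b²` times the trace of the equation in the horizontal directions -/
def Phi (lam : ℝ) (q : ℕ) (a b f : ℝ → ℝ) (t : ℝ) : ℝ :=
  b t ^ 2 * (q * lam + deriv (deriv f) t - (deriv a t / a t + q * (deriv b t / b t)) * deriv f t
    + (2 * q * (deriv a t / a t) * (deriv b t / b t) + q * (q - 1) * (deriv b t / b t) ^ 2)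
    + q * a t ^ 2 / b t ^ 4)

lemma hPhi (O : HData T lam q a b f) {t : ℝ} (ht : t ∈ Ioo 0 T) :
    HasDerivAt (Phi lam q a b f) 0 t := by
  have ha0 := (O.a_pos t ht).ne'
  have hb0 := (O.b_pos t ht).ne'
  have hX := (O.ha1 t).div (O.ha t) ha0
  have hY := (O.hb1 t).div (O.hb t) hb0
  have h1 := ((O.hb t).pow 2).mul ((((((hasDerivAt_const t ((q : ℝ) * lam)).add (O.hf2 t)).sub
    ((hX.add (hY.const_mul (q : ℝ))).mul (O.hf1 t))).add
    (((hX.const_mul (2 * (q : ℝ))).mul hY).add ((hY.pow 2).const_mul ((q : ℝ) * (q - 1))))).add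
    ((((O.ha t).pow 2).const_mul (q : ℝ)).div ((O.hb t).pow 4) (pow_ne_zero 4 hb0))))
  refine h1.congr_deriv ?_
  have e1 := O.tt t ht
  have e2 := O.th t ht
  have e3 := O.bi t ht
  have hq := O.q_ne
  have e4 : deriv (deriv b) t = b t / q * (deriv (deriv f) t - lam - deriv (deriv a) t / a t) := by
    rw [e1]; field_simp; ring
  simp only [Pi.div_apply, Pi.mul_apply, Pi.add_apply, Pi.sub_apply, Pi.pow_apply, Nat.cast_ofNat,
    Nat.reduceSub, pow_one]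
  rw [e3, e4, e2]
  field_simp
  ring

section nut

variable (O : HData T lam q a b f) (hN : Nut a b 0 1) (hf0 : deriv f 0 = 0)
include O

lemma lim_a (t : ℝ) : Tendsto a (𝓝 t) (𝓝 (a t)) := (O.ha t).continuousAt
lemma lim_a1 (t : ℝ) : Tendsto (deriv a) (𝓝 t) (𝓝 (deriv a t)) := (O.ha1 t).continuousAt
lemma lim_b (t : ℝ) : Tendsto b (𝓝 t) (𝓝 (b t)) := (O.hb t).continuousAt
lemma lim_b1 (t : ℝ) : Tendsto (deriv b) (𝓝 t) (𝓝 (deriv b t)) := (O.hb1 t).continuousAt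
lemma lim_f (t : ℝ) : Tendsto f (𝓝 t) (𝓝 (f t)) := (O.hf t).continuousAt
lemma lim_f1 (t : ℝ) : Tendsto (deriv f) (𝓝 t) (𝓝 (deriv f t)) := (O.hf1 t).continuousAt
lemma lim_f2 (t : ℝ) : Tendsto (deriv (deriv f)) (𝓝 t) (𝓝 (deriv (deriv f) t)) :=
  (O.hf2 t).continuousAt

include hN

lemma nut_ba : Tendsto (fun t => b t / a t) (𝓝[>] 0) (𝓝 1) := by
  have := (tendsto_quot (O.hb 0) (O.ha 0) hN.b0 hN.a0 (by rw [hN.a1]; norm_num)).mono_left
    nhdsGT_le_ne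
  rwa [hN.a1, hN.b1, div_one] at this

lemma nut_ab : Tendsto (fun t => a t / b t) (𝓝[>] 0) (𝓝 1) := by
  have := (tendsto_quot (O.ha 0) (O.hb 0) hN.a0 hN.b0 (by rw [hN.b1]; norm_num)).mono_left
    nhdsGT_le_ne
  rwa [hN.a1, hN.b1, div_one] at this

include hf0 in
lemma nut_fa : Tendsto (fun t => deriv f t / a t) (𝓝[>] 0) (𝓝 (deriv (deriv f) 0)) := by
  have := (tendsto_quot (O.hf1 0) (O.ha 0) hf0 hN.a0 (by rw [hN.a1]; norm_num)).mono_left
    nhdsGT_le_ne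
  rwa [hN.a1, div_one] at this

lemma l_a : Tendsto a (𝓝[>] 0) (𝓝 0) := by
  have := (O.lim_a 0).mono_left (nhdsWithin_le_nhds (s := Ioi 0)); rwa [hN.a0] at this
lemma l_a1 : Tendsto (deriv a) (𝓝[>] 0) (𝓝 1) := by
  have := (O.lim_a1 0).mono_left (nhdsWithin_le_nhds (s := Ioi 0)); rwa [hN.a1] at this
lemma l_b : Tendsto b (𝓝[>] 0) (𝓝 0) := by
  have := (O.lim_b 0).mono_left (nhdsWithin_le_nhds (s := Ioi 0)); rwa [hN.b0] at this
lemma l_b1 : Tendsto (deriv b) (𝓝[>] 0) (𝓝 1) := by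
  have := (O.lim_b1 0).mono_left (nhdsWithin_le_nhds (s := Ioi 0)); rwa [hN.b1] at this

include hf0

omit hN in
lemma l_f1 : Tendsto (deriv f) (𝓝[>] 0) (𝓝 0) := by
  have := (O.lim_f1 0).mono_left (nhdsWithin_le_nhds (s := Ioi 0)); rwa [hf0] at this

omit hf0 hN in
lemma ev_pos : ∀ᶠ t in 𝓝[>] (0 : ℝ), t ∈ Ioo 0 T := Ioo_mem_nhdsGT O.T_pos

lemma lim_Phi : Tendsto (Phi lam q a b f) (𝓝[>] 0) (𝓝 (q * (q + 2))) := by
  have hb := O.l_b hN
  have hb1 := O.l_b1 hN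
  have ha1 := O.l_a1 hN
  have hf1 := O.l_f1 hf0
  have hf2 := (O.lim_f2 0).mono_left (nhdsWithin_le_nhds (s := Ioi 0))
  have hba := O.nut_ba hN
  have hab := O.nut_ab hN
  have h1 := ((((((hb.pow 2).const_mul (q * lam)).add ((hb.pow 2).mul hf2)).sub
    (((hb.mul (hba.mul ha1)).add ((hb.mul hb1).const_mul (q : ℝ))).mul hf1)).add
    (((hba.mul (ha1.mul hb1)).const_mul (2 * (q : ℝ))).add
      ((hb1.pow 2).const_mul ((q : ℝ) * (q - 1))))).add ((hab.pow 2).const_mul (q : ℝ)))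
  have e : q * lam * 0 ^ 2 + 0 ^ 2 * deriv (deriv f) 0 - (0 * (1 * 1) + q * (0 * 1)) * 0
      + (2 * q * (1 * (1 * 1)) + q * (q - 1) * 1 ^ 2) + q * 1 ^ 2 = (q : ℝ) * (q + 2) := by ring
  rw [e] at h1
  refine h1.congr' ?_
  filter_upwards [O.ev_pos] with t ht
  have ha0 := (O.a_pos t ht).ne'
  have hb0 := (O.b_pos t ht).ne'
  unfold Phi
  field_simp

lemma Phi_eq : ∀ t ∈ Ioo 0 T, Phi lam q a b f t = q * (q + 2) :=
  const_Ioo (fun _ ht => O.hPhi ht) (O.lim_Phi hN hf0)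

/-- the formula for `f''` -/
lemma f2_eq {t : ℝ} (ht : t ∈ Ioo 0 T) : deriv (deriv f) t = q * (q + 2) / b t ^ 2 - q * lam
    + (deriv a t / a t + q * (deriv b t / b t)) * deriv f t
    - (2 * q * (deriv a t / a t) * (deriv b t / b t) + q * (q - 1) * (deriv b t / b t) ^ 2)
    - q * a t ^ 2 / b t ^ 4 := by
  have h1 := O.Phi_eq hN hf0 t ht
  have hb0 := (O.b_pos t ht).ne'
  rw [← h1]
  unfold Phi
  field_simp
  ring

/-- the equation in the horizontal directions -/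
lemma b2_eq {t : ℝ} (ht : t ∈ Ioo 0 T) : deriv (deriv b) t = (q + 2) / b t - lam * b t
    + deriv b t * deriv f t - deriv a t * deriv b t / a t - (q - 1) * deriv b t ^ 2 / b t
    - 2 * a t ^ 2 / b t ^ 3 := by
  have ha0 := (O.a_pos t ht).ne'
  have hb0 := (O.b_pos t ht).ne'
  have hq := O.q_ne
  have e1 := O.tt t ht
  have e2 := O.th t ht
  have e3 := O.f2_eq hN hf0 ht
  have e4 : deriv (deriv b) t = b t / q * (deriv (deriv f) t - lam - deriv (deriv a) t / a t) := by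
    rw [e1]; field_simp; ring
  rw [e4, e2, e3]
  field_simp
  ring

end nut

/-! ### The quantities of the proof -/

/-- `b² / a²` -/
def U (a b : ℝ → ℝ) (t : ℝ) : ℝ := b t ^ 2 / a t ^ 2
/-- `b b' / a` -/
def Be (a b : ℝ → ℝ) (t : ℝ) : ℝ := b t * deriv b t / a t
/-- `E` -/
def Ee (a b : ℝ → ℝ) (t : ℝ) : ℝ := b t * deriv b t / a t - b t ^ 2 * deriv a t / a t ^ 2
/-- `p = - f' / a` -/
def pe (a f : ℝ → ℝ) (t : ℝ) : ℝ := -(deriv f t / a t)
/-- `P = b² p` -/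
def Pe (a b f : ℝ → ℝ) (t : ℝ) : ℝ := b t ^ 2 * pe a f t
/-- `R = (b² / a) (p' / p)` -/
def Re (a b f : ℝ → ℝ) (t : ℝ) : ℝ :=
  b t ^ 2 / a t * (deriv (deriv f) t / deriv f t - deriv a t / a t)
/-- `r = a / b²` -/
def rr (a b : ℝ → ℝ) (t : ℝ) : ℝ := a t / b t ^ 2
/-- `G = A² B^m e^{-f} h_x`, `h = f' / a` -/
def Ge (q : ℕ) (a b f : ℝ → ℝ) (t : ℝ) : ℝ :=
  a t * b t ^ q * Real.exp (-f t) * (a t * deriv (deriv f) t - deriv a t * deriv f t)

section quant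

variable (O : HData T lam q a b f)
include O

lemma rr_pos {t : ℝ} (ht : t ∈ Ioo 0 T) : 0 < rr a b t :=
  div_pos (O.a_pos t ht) (pow_pos (O.b_pos t ht) 2)

lemma hU {t : ℝ} (ht : t ∈ Ioo 0 T) :
    HasDerivAt (U a b) (rr a b t * (2 * Ee a b t * U a b t)) t := by
  have ha0 := (O.a_pos t ht).ne'
  have hb0 := (O.b_pos t ht).ne'
  refine (((O.hb t).pow 2).div ((O.ha t).pow 2) (pow_ne_zero 2 ha0)).congr_deriv ?_
  simp only [Pi.pow_apply, Nat.cast_ofNat, Nat.reduceSub, pow_one]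
  unfold rr Ee U
  field_simp

lemma hGe {t : ℝ} (ht : t ∈ Ioo 0 T) : HasDerivAt (Ge q a b f)
    (rr a b t * (q * (Be a b t ^ 2 - 1) * (a t ^ 3 * b t ^ q / b t ^ 2 * Real.exp (-f t) * deriv f t)))
      t := by
  have ha0 := (O.a_pos t ht).ne'
  have hb0 := (O.b_pos t ht).ne'
  have hq1 : 1 ≤ q := by have := O.q_pos; omega
  have hbq : HasDerivAt (fun t => b t ^ q) (q * b t ^ q / b t * deriv b t) t := by
    refine ((O.hb t).pow q).congr_deriv ?_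
    obtain ⟨n, rfl⟩ : ∃ n, q = n + 1 := ⟨q - 1, by omega⟩
    simp only [Nat.add_sub_cancel]
    rw [pow_succ]
    field_simp
  have h1 := (((O.ha t).mul hbq).mul ((O.hf t).neg.exp)).mul
    (((O.ha t).mul (O.hf2 t)).sub ((O.ha1 t).mul (O.hf1 t)))
  refine h1.congr_deriv ?_
  have e2 := O.th t ht
  have e3 := O.bi t ht
  simp only [Pi.mul_apply, Pi.sub_apply, Pi.neg_apply]
  rw [e3, e2]
  unfold rr Be
  field_simp
  ring

/-- `G` in terms of `R` -/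
lemma Ge_eq {t : ℝ} (ht : t ∈ Ioo 0 T) (hf1 : deriv f t ≠ 0) : Ge q a b f t
    = a t ^ 3 * b t ^ q / b t ^ 2 * Real.exp (-f t) * deriv f t * Re a b f t := by
  have ha0 := (O.a_pos t ht).ne'
  have hb0 := (O.b_pos t ht).ne'
  unfold Ge Re
  field_simp

lemma hpe {t : ℝ} (ht : t ∈ Ioo 0 T) (hf1 : deriv f t ≠ 0) :
    HasDerivAt (pe a f) (rr a b t * (pe a f t * Re a b f t)) t := by
  have ha0 := (O.a_pos t ht).ne'
  have hb0 := (O.b_pos t ht).ne'
  refine (((O.hf1 t).div (O.ha t) ha0).neg).congr_deriv ?_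
  unfold rr pe Re
  field_simp

lemma hPe {t : ℝ} (ht : t ∈ Ioo 0 T) (hf1 : deriv f t ≠ 0) :
    HasDerivAt (Pe a b f) (rr a b t * (Pe a b f t * (2 * Be a b t + Re a b f t))) t := by
  have ha0 := (O.a_pos t ht).ne'
  have hb0 := (O.b_pos t ht).ne'
  refine (((O.hb t).pow 2).mul (O.hpe ht hf1)).congr_deriv ?_
  simp only [Pi.pow_apply, Nat.cast_ofNat, Nat.reduceSub, pow_one]
  unfold Pe Be rr
  field_simp

lemma hRe {t : ℝ} (ht : t ∈ Ioo 0 T) (hf1 : deriv f t ≠ 0) :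
    HasDerivAt (Re a b f) (rr a b t * (q * (Be a b t ^ 2 - 1)
      - Re a b f t * ((q + 2) * Be a b t - 4 * Ee a b t + Pe a b f t) - Re a b f t ^ 2)) t := by
  have ha0 := (O.a_pos t ht).ne'
  have hb0 := (O.b_pos t ht).ne'
  have h1 := (((O.hb t).pow 2).div (O.ha t) ha0).mul
    (((O.hf2 t).div (O.hf1 t) hf1).sub ((O.ha1 t).div (O.ha t) ha0))
  refine h1.congr_deriv ?_
  have e2 := O.th t ht
  have e3 := O.bi t ht
  simp only [Pi.pow_apply, Pi.div_apply, Pi.sub_apply, Nat.cast_ofNat, Nat.reduceSub, pow_one]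
  rw [e3, e2]
  unfold rr Be Re Ee Pe pe
  field_simp
  ring

variable (hN : Nut a b 0 1) (hf0 : deriv f 0 = 0)
include hN hf0

lemma hBe {t : ℝ} (ht : t ∈ Ioo 0 T) (hf1 : deriv f t ≠ 0) :
    HasDerivAt (Be a b) (rr a b t * (Be a b t ^ 2 - 1 - Pe a b f t * Re a b f t / q)) t := by
  have ha0 := (O.a_pos t ht).ne'
  have hb0 := (O.b_pos t ht).ne'
  have hq := O.q_ne
  refine (((O.hb t).mul (O.hb1 t)).div (O.ha t) ha0).congr_deriv ?_
  have e1 := O.f2_eq hN hf0 ht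
  have e2 := O.b2_eq hN hf0 ht
  simp only [Pi.mul_apply]
  unfold rr Be Pe pe Re
  rw [e1, e2]
  field_simp
  ring

lemma hEe {t : ℝ} (ht : t ∈ Ioo 0 T) : HasDerivAt (Ee a b)
    (rr a b t * ((q + 2) * (U a b t - 1) - q * Be a b t * Ee a b t + 2 * Ee a b t ^ 2
      - Pe a b f t * Ee a b t)) t := by
  have ha0 := (O.a_pos t ht).ne'
  have hb0 := (O.b_pos t ht).ne'
  have h1 := (((O.hb t).mul (O.hb1 t)).div (O.ha t) ha0).sub
    ((((O.hb t).pow 2).mul (O.ha1 t)).div ((O.ha t).pow 2) (pow_ne_zero 2 ha0))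
  refine h1.congr_deriv ?_
  have e1 := O.th t ht
  have e2 := O.b2_eq hN hf0 ht
  simp only [Pi.mul_apply, Pi.pow_apply, Nat.cast_ofNat, Nat.reduceSub, pow_one]
  unfold rr Be Ee Pe pe U
  rw [e2, e1]
  field_simp
  ring

/-- the formula for `lam b²` -/
lemma lam_eq {t : ℝ} (ht : t ∈ Ioo 0 T) (hf1 : deriv f t ≠ 0) : lam * b t ^ 2 * U a b t
    = (q + 2) * U a b t - 1 - (q + 1) * Be a b t ^ 2 + 2 * Be a b t * Ee a b t
      - Pe a b f t * Be a b t + Pe a b f t * Re a b f t / q := by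
  have ha0 := (O.a_pos t ht).ne'
  have hb0 := (O.b_pos t ht).ne'
  have hq := O.q_ne
  have e1 := O.f2_eq hN hf0 ht
  unfold Be Ee Pe pe U Re
  rw [e1]
  field_simp
  ring

end quant

end HData

end

end RS61
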