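import Mathlib
import Pool.Agent.RS61.HODE

/-!
# Comparison of `a` and `b`, and the first inequality
-/

open Set Filter Topology
open scoped ContDiff

namespace RS61

noncomputable section

/-- comparison for a linear differential inequality -/
lemma lin_cmp {T : ℝ} {y α ρ : ℝ → ℝ} (h : ∀ t ∈ Ioo 0 T, HasDerivAt y (α t * y t + ρ t) t)
    (hα : ∀ t ∈ Ioo 0 T, α t < 0) (hρ : ∀ t ∈ Ioo 0 T, 0 ≤ ρ t)
    (h0 : Tendsto y (𝓝[>] 0) (𝓝 0)) : ∀ t ∈ Ioo 0 T, 0 ≤ y t := by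
  intro t1 ht1
  by_contra hc
  have hc' : y t1 < 0 := not_le.1 hc
  have h1 : ∀ᶠ t in 𝓝[>] (0 : ℝ), y t1 < y t := (tendsto_order.1 h0).1 _ hc'
  obtain ⟨ε, hε, hε'⟩ := (h1.and (Ioo_mem_nhdsGT ht1.1)).exists
  have hcont : ContinuousOn y (Icc ε t1) := fun t ht =>
    (h t ⟨hε'.1.trans_le ht.1, ht.2.trans_lt ht1.2⟩).continuousAt.continuousWithinAt
  obtain ⟨t2, ht2, hmin⟩ := isCompact_Icc.exists_isMinOn (nonempty_Icc.2 hε'.2.le) hcont
  have h2 : y t2 ≤ y t1 := hmin (right_mem_Icc.2 hε'.2.le)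
  have h3 : ε < t2 := by
    rcases eq_or_lt_of_le ht2.1 with h | h
    · rw [← h] at h2; linarith
    · exact h
  have ht2' : t2 ∈ Ioo 0 T := ⟨hε'.1.trans h3, ht2.2.trans_lt ht1.2⟩
  have h4 : α t2 * y t2 + ρ t2 ≤ 0 := by
    have hd := h t2 ht2'
    have h5 : Tendsto (slope y t2) (𝓝[<] t2) (𝓝 (α t2 * y t2 + ρ t2)) :=
      (hasDerivAt_iff_tendsto_slope.1 hd).mono_left nhdsLT_le_ne
    refine le_of_tendsto h5 ?_
    filter_upwards [Ioo_mem_nhdsLT h3] with t ht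
    rw [slope_def_field]
    refine div_nonpos_of_nonneg_of_nonpos ?_ (sub_nonpos.2 ht.2.le)
    exact sub_nonneg.2 (hmin ⟨ht.1.le, ht.2.le.trans ht2.2⟩)
  have h5 : 0 < α t2 * y t2 := mul_pos_of_neg_of_neg (hα t2 ht2') (lt_of_le_of_lt h2 hc')
  have h6 := hρ t2 ht2'
  linarith

namespace HData

variable {T lam : ℝ} {q : ℕ} {a b f : ℝ → ℝ}

/-- `1 - A / B` -/
def sU (a b : ℝ → ℝ) (t : ℝ) : ℝ := 1 - a t ^ 2 / b t ^ 2
/-- `(A / B) E` -/
def zU (a b : ℝ → ℝ) (t : ℝ) : ℝ := a t * deriv b t / b t - deriv a t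
/-- `b^q e^{-f} z` -/
def zM (q : ℕ) (a b f : ℝ → ℝ) (t : ℝ) : ℝ := b t ^ q * Real.exp (-f t) * zU a b t

section

variable (O : HData T lam q a b f)
include O

lemma hsU {t : ℝ} (ht : t ∈ Ioo 0 T) : HasDerivAt (sU a b) (rr a b t * (2 * zU a b t)) t := by
  have ha0 := (O.a_pos t ht).ne'
  have hb0 := (O.b_pos t ht).ne'
  refine ((((O.ha t).pow 2).div ((O.hb t).pow 2) (pow_ne_zero 2 hb0)).const_sub 1).congr_deriv ?_
  simp only [Pi.pow_apply, Nat.cast_ofNat, Nat.reduceSub, pow_one]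
  unfold rr zU
  field_simp
  ring

lemma hbq (t : ℝ) (ht : t ∈ Ioo 0 T) :
    HasDerivAt (fun t => b t ^ q) (q * b t ^ q / b t * deriv b t) t := by
  have hb0 := (O.b_pos t ht).ne'
  have hq1 : 1 ≤ q := by have := O.q_pos; omega
  refine ((O.hb t).pow q).congr_deriv ?_
  obtain ⟨n, rfl⟩ : ∃ n, q = n + 1 := ⟨q - 1, by omega⟩
  simp only [Nat.add_sub_cancel]
  rw [pow_succ]
  field_simp

lemma U_pos {t : ℝ} (ht : t ∈ Ioo 0 T) : 0 < U a b t :=
  div_pos (pow_pos (O.b_pos t ht) 2) (pow_pos (O.a_pos t ht) 2)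

lemma E_eq {t : ℝ} (ht : t ∈ Ioo 0 T) : Ee a b t = zU a b t * U a b t := by
  have ha0 := (O.a_pos t ht).ne'
  have hb0 := (O.b_pos t ht).ne'
  unfold Ee zU U
  field_simp

lemma U_eq {t : ℝ} (ht : t ∈ Ioo 0 T) : U a b t - 1 = sU a b t * U a b t := by
  have ha0 := (O.a_pos t ht).ne'
  have hb0 := (O.b_pos t ht).ne'
  unfold sU U
  field_simp

variable (hN : Nut a b 0 1) (hf0 : deriv f 0 = 0)
include hN hf0

lemma hzU {t : ℝ} (ht : t ∈ Ioo 0 T) : HasDerivAt (zU a b)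
    (rr a b t * ((q + 2) * sU a b t - (q * Be a b t + Pe a b f t) * zU a b t)) t := by
  have ha0 := (O.a_pos t ht).ne'
  have hb0 := (O.b_pos t ht).ne'
  refine ((((O.ha t).mul (O.hb1 t)).div (O.hb t) hb0).sub (O.ha1 t)).congr_deriv ?_
  have e1 := O.th t ht
  have e2 := O.b2_eq hN hf0 ht
  simp only [Pi.mul_apply]
  unfold rr sU zU Be Pe pe
  rw [e2, e1]
  field_simp
  ring

lemma hzM {t : ℝ} (ht : t ∈ Ioo 0 T) : HasDerivAt (zM q a b f)
    (rr a b t * (q + 2) * (b t ^ q * Real.exp (-f t)) * sU a b t) t := by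
  have ha0 := (O.a_pos t ht).ne'
  have hb0 := (O.b_pos t ht).ne'
  refine (((O.hbq t ht).mul ((O.hf t).neg.exp)).mul (O.hzU hN hf0 ht)).congr_deriv ?_
  simp only [Pi.mul_apply, Pi.neg_apply]
  unfold rr sU zU Be Pe pe
  field_simp
  ring

/-- the product -/
lemma hprod {t : ℝ} (ht : t ∈ Ioo 0 T) : HasDerivAt (fun t => sU a b t * zM q a b f t)
    (2 * (rr a b t * (b t ^ q * Real.exp (-f t))) * zU a b t ^ 2
      + rr a b t * (q + 2) * (b t ^ q * Real.exp (-f t)) * sU a b t ^ 2) t := by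
  refine ((O.hsU ht).mul (O.hzM hN hf0 ht)).congr_deriv ?_
  unfold zM
  ring

omit hf0 in
lemma lim_sU : Tendsto (sU a b) (𝓝[>] 0) (𝓝 0) := by
  have h1 := ((O.nut_ab hN).pow 2).const_sub 1
  rw [one_pow, sub_self] at h1
  refine h1.congr fun t => ?_
  unfold sU
  rw [div_pow]

omit hf0 in
lemma lim_zU : Tendsto (zU a b) (𝓝[>] 0) (𝓝 0) := by
  have h1 := (((O.nut_ab hN).mul (O.l_b1 hN))).sub (O.l_a1 hN)
  rw [one_mul, sub_self] at h1
  refine h1.congr fun t => ?_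
  unfold zU
  rw [div_mul_eq_mul_div]

omit hf0 in
lemma lim_bq : Tendsto (fun t => b t ^ q) (𝓝[>] 0) (𝓝 0) := by
  have h1 := (O.l_b hN).pow q
  have hq : q ≠ 0 := by have := O.q_pos; omega
  rwa [zero_pow hq] at h1

omit hf0 in
lemma lim_zM : Tendsto (zM q a b f) (𝓝[>] 0) (𝓝 0) := by
  have h1 := ((O.lim_bq hN).mul
    ((O.lim_f 0).mono_left (nhdsWithin_le_nhds (s := Ioi 0))).neg.rexp).mul (O.lim_zU hN)
  rw [mul_zero] at h1
  exact h1

omit hf0 in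
lemma lim_prod : Tendsto (fun t => sU a b t * zM q a b f t) (𝓝[>] 0) (𝓝 0) := by
  simpa using (O.lim_sU hN).mul (O.lim_zM hN)

omit hN hf0 in
lemma prod_nonneg' (t : ℝ) (ht : t ∈ Ioo 0 T) :
    0 ≤ 2 * (rr a b t * (b t ^ q * Real.exp (-f t))) * zU a b t ^ 2
      + rr a b t * (q + 2) * (b t ^ q * Real.exp (-f t)) * sU a b t ^ 2 := by
  have h1 := O.rr_pos ht
  have h2 : 0 < b t ^ q := pow_pos (O.b_pos t ht) q
  positivity

omit hN hf0 in
lemma prod_pos' (t : ℝ) (ht : t ∈ Ioo 0 T)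
    (h : 2 * (rr a b t * (b t ^ q * Real.exp (-f t))) * zU a b t ^ 2
      + rr a b t * (q + 2) * (b t ^ q * Real.exp (-f t)) * sU a b t ^ 2 = 0) :
    zU a b t = 0 ∧ sU a b t = 0 := by
  have h1 := O.rr_pos ht
  have h2 : 0 < b t ^ q := pow_pos (O.b_pos t ht) q
  have h3 : 0 ≤ 2 * (rr a b t * (b t ^ q * Real.exp (-f t))) * zU a b t ^ 2 := by positivity
  have h4 : 0 ≤ rr a b t * (q + 2) * (b t ^ q * Real.exp (-f t)) * sU a b t ^ 2 := by positivity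
  have h5 : 2 * (rr a b t * (b t ^ q * Real.exp (-f t))) * zU a b t ^ 2 = 0 := by linarith
  have h6 : rr a b t * (q + 2) * (b t ^ q * Real.exp (-f t)) * sU a b t ^ 2 = 0 := by linarith
  have e := Real.exp_pos (-f t)
  constructor
  · have := (mul_eq_zero.1 h5).resolve_left (by positivity)
    exact pow_eq_zero_iff (two_ne_zero) |>.1 this
  · have := (mul_eq_zero.1 h6).resolve_left (by positivity)
    exact pow_eq_zero_iff (two_ne_zero) |>.1 this

lemma prod_mono : MonotoneOn (fun t => sU a b t * zM q a b f t) (Ioo 0 T) :=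
  mono_Ioo (fun _ ht => O.hprod hN hf0 ht) (fun t ht => O.prod_nonneg' t ht)

lemma prod_nonneg {t : ℝ} (ht : t ∈ Ioo 0 T) : 0 ≤ sU a b t * zM q a b f t :=
  ge_of_lim_left (O.prod_mono hN hf0) (O.lim_prod hN) ht

/-- if the product vanishes at a point, then `a = b` before this point -/
lemma zero_before {t : ℝ} (ht : t ∈ Ioo 0 T) (h : sU a b t * zM q a b f t = 0) :
    ∀ s ∈ Ioo 0 t, zU a b s = 0 ∧ sU a b s = 0 := by
  intro s hs
  have hs' : s ∈ Ioo 0 T := ⟨hs.1, hs.2.trans ht.2⟩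
  have h1 : ∀ x ∈ Ioo 0 t, sU a b x * zM q a b f x = 0 := by
    intro x hx
    have hx' : x ∈ Ioo 0 T := ⟨hx.1, hx.2.trans ht.2⟩
    refine le_antisymm ?_ (O.prod_nonneg hN hf0 hx')
    rw [← h]
    exact O.prod_mono hN hf0 hx' ht hx.2.le
  have h2 : HasDerivAt (fun t => sU a b t * zM q a b f t) 0 s := by
    refine (hasDerivAt_const s (0 : ℝ)).congr_of_eventuallyEq ?_
    filter_upwards [isOpen_Ioo.mem_nhds hs] with x hx using h1 x hx
  exact O.prod_pos' s hs' ((O.hprod hN hf0 hs').unique h2)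

/-- `E ≥ 0` if the other end is a bolt -/
lemma zU_nonneg (hT : Tendsto (sU a b) (𝓝[<] T) (𝓝 1)) {t1 : ℝ} (ht1 : t1 ∈ Ioo 0 T) :
    0 ≤ zU a b t1 := by
  by_contra hc
  have hz : zU a b t1 < 0 := not_le.1 hc
  have hM : zM q a b f t1 < 0 := by
    unfold zM
    exact mul_neg_of_pos_of_neg (mul_pos (pow_pos (O.b_pos t1 ht1) q) (Real.exp_pos _)) hz
  have hF := O.prod_nonneg hN hf0 ht1
  have hs : sU a b t1 ≤ 0 := by
    by_contra h
    have := mul_neg_of_pos_of_neg (not_le.1 h) hM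
    linarith
  rcases eq_or_lt_of_le hs with h0 | h0
  · -- the product is zero
    have h1 := O.zero_before hN hf0 ht1 (by rw [h0, zero_mul])
    have h2 : Tendsto (zU a b) (𝓝[<] t1) (𝓝 (zU a b t1)) :=
      (O.hzU hN hf0 ht1).continuousAt.tendsto.mono_left nhdsWithin_le_nhds
    have h3 : Tendsto (zU a b) (𝓝[<] t1) (𝓝 0) := by
      refine tendsto_const_nhds.congr' ?_
      filter_upwards [Ioo_mem_nhdsLT ht1.1] with x hx
      exact (h1 x hx).1.symm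
    have := tendsto_nhds_unique h2 h3
    linarith
  · -- the product is positive after `t1`
    have hpos : 0 < sU a b t1 * zM q a b f t1 := mul_pos_of_neg_of_neg h0 hM
    have hne : ∀ t ∈ Ico t1 T, sU a b t ≠ 0 := by
      intro t ht h
      have ht' : t ∈ Ioo 0 T := ⟨ht1.1.trans_le ht.1, ht.2⟩
      have := O.prod_mono hN hf0 ht1 ht' ht.1
      simp only [h, zero_mul] at this
      linarith
    have hcont : ContinuousOn (sU a b) (Ico t1 T) := fun t ht =>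
      (O.hsU ⟨ht1.1.trans_le ht.1, ht.2⟩).continuousAt.continuousWithinAt
    have hev : ∀ᶠ t in 𝓝[<] T, 0 < sU a b t := (tendsto_order.1 hT).1 _ one_pos
    obtain ⟨t2, h2, h3⟩ := (hev.and (Ioo_mem_nhdsLT ht1.2)).exists
    have h4 : (0 : ℝ) ∈ sU a b '' Ico t1 T :=
      (isPreconnected_Ico.image _ hcont).ordConnected.out ⟨t1, ⟨le_refl _, ht1.2⟩, rfl⟩
        ⟨t2, ⟨h3.1.le, h3.2⟩, rfl⟩ ⟨h0.le, h2.le⟩
    obtain ⟨t, ht, h5⟩ := h4
    exact hne t ht h5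

/-- `a = b` if the other end is a nut -/
lemma zU_zero (hT : Tendsto (fun t => sU a b t * zM q a b f t) (𝓝[<] T) (𝓝 0)) {t1 : ℝ}
    (ht1 : t1 ∈ Ioo 0 T) : zU a b t1 = 0 ∧ sU a b t1 = 0 := by
  obtain ⟨t2, h2⟩ := exists_between ht1.2
  have ht2 : t2 ∈ Ioo 0 T := ⟨ht1.1.trans h2.1, h2.2⟩
  refine O.zero_before hN hf0 ht2 ?_ t1 ⟨ht1.1, h2.1⟩
  exact le_antisymm (le_of_lim_right (O.prod_mono hN hf0) hT ht2) (O.prod_nonneg hN hf0 ht2)

/-! ### The first inequality -/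

/-- the function `y` -/
def Wy (q : ℕ) (a b f : ℝ → ℝ) (t : ℝ) : ℝ :=
  (q + 6) * sU a b t - (6 + q * Be a b t + Pe a b f t) * zU a b t

lemma hWy {t : ℝ} (ht : t ∈ Ioo 0 T) (hf1 : deriv f t ≠ 0) : HasDerivAt (Wy q a b f)
    ((-(rr a b t * ((q + 2) / (q + 6) * (6 + q * Be a b t + Pe a b f t)))) * Wy q a b f t
      + rr a b t * (zU a b t * (3 * (q - 2) / (q * (q + 6)) * (q * Be a b t + Pe a b f t - q) ^ 2
        + Pe a b f t ^ 2 / q))) t := by
  have hq := O.q_ne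
  have hq6 : (q : ℝ) + 6 ≠ 0 := by positivity
  have h1 := ((O.hsU ht).const_mul ((q : ℝ) + 6)).sub
    (((((O.hBe hN hf0 ht hf1).const_mul (q : ℝ)).const_add 6).add (O.hPe ht hf1)).mul
      (O.hzU hN hf0 ht))
  refine h1.congr_deriv ?_
  simp only [Pi.add_apply]
  unfold Wy
  field_simp
  ring

end

end HData

end

end RS61
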