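import Mathlib
import Pool.Agent.RS61.HLim

/-!
# A nut, a bolt and `f' < 0`: limits and the first inequality
-/

open Set Filter Topology
open scoped ContDiff

namespace RS61

noncomputable section

namespace HData

variable {T lam : ℝ} {q : ℕ} {a b f : ℝ → ℝ}

/-! ### limits at the nut -/

section nut

variable (O : HData T lam q a b f) (hN : Nut a b 0 1) (hf0 : deriv f 0 = 0)
include O hN

lemma l_Be : Tendsto (Be a b) (𝓝[>] 0) (𝓝 1) := by
  have h1 := (O.nut_ba hN).mul (O.l_b1 hN)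
  rw [one_mul] at h1
  refine h1.congr fun t => ?_
  unfold Be
  ring

lemma l_U : Tendsto (U a b) (𝓝[>] 0) (𝓝 1) := by
  have h1 := (O.nut_ba hN).pow 2
  rw [one_pow] at h1
  refine h1.congr fun t => ?_
  unfold U
  rw [div_pow]

lemma l_Ee : Tendsto (Ee a b) (𝓝[>] 0) (𝓝 0) := by
  have h1 := (O.lim_zU hN).mul (O.l_U hN)
  rw [zero_mul] at h1
  refine h1.congr' ?_
  filter_upwards [O.ev_pos] with t ht using (O.E_eq ht).symm

include hf0

lemma l_pe : Tendsto (pe a f) (𝓝[>] 0) (𝓝 (-deriv (deriv f) 0)) := (O.nut_fa hN hf0).neg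

lemma l_Pe : Tendsto (Pe a b f) (𝓝[>] 0) (𝓝 0) := by
  have h1 := ((O.l_b hN).pow 2).mul (O.l_pe hN hf0)
  have e : (0 : ℝ) ^ 2 * -deriv (deriv f) 0 = 0 := by ring
  rw [e] at h1
  exact h1

lemma l_Wy : Tendsto (Wy q a b f) (𝓝[>] 0) (𝓝 0) := by
  have h1 := ((O.lim_sU hN).const_mul ((q : ℝ) + 6)).sub
    (((((O.l_Be hN).const_mul (q : ℝ)).const_add 6).add (O.l_Pe hN hf0)).mul (O.lim_zU hN))
  have e : ((q : ℝ) + 6) * 0 - (6 + q * 1 + 0) * 0 = 0 := by ring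
  rw [e] at h1
  exact h1

end nut

/-! ### limits at the bolt -/

section bolt

variable (O : HData T lam q a b f) (hB : Bolt a b T (-1)) (hfT : deriv f T = 0)
include O hB

lemma k_a : Tendsto a (𝓝[<] T) (𝓝 0) := by
  have := (O.lim_a T).mono_left (nhdsWithin_le_nhds (s := Iio T)); rwa [hB.a0] at this
lemma k_a1 : Tendsto (deriv a) (𝓝[<] T) (𝓝 (-1)) := by
  have := (O.lim_a1 T).mono_left (nhdsWithin_le_nhds (s := Iio T)); rwa [hB.a1] at this
lemma k_b1 : Tendsto (deriv b) (𝓝[<] T) (𝓝 0) := by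
  have := (O.lim_b1 T).mono_left (nhdsWithin_le_nhds (s := Iio T)); rwa [hB.b1] at this
omit hB in
lemma k_b : Tendsto b (𝓝[<] T) (𝓝 (b T)) := (O.lim_b T).mono_left nhdsWithin_le_nhds
omit hB in
lemma k_f : Tendsto f (𝓝[<] T) (𝓝 (f T)) := (O.lim_f T).mono_left nhdsWithin_le_nhds
omit hB in
lemma k_f2 : Tendsto (deriv (deriv f)) (𝓝[<] T) (𝓝 (deriv (deriv f) T)) :=
  (O.lim_f2 T).mono_left nhdsWithin_le_nhds

lemma k_ba : Tendsto (fun t => deriv b t / a t) (𝓝[<] T) (𝓝 (-deriv (deriv b) T)) := by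
  have := (tendsto_quot (O.hb1 T) (O.ha T) hB.b1 hB.a0 (by rw [hB.a1]; norm_num)).mono_left
    nhdsLT_le_ne
  rwa [hB.a1, div_neg, div_one] at this

/-- the limit of `β` -/
def βT (b : ℝ → ℝ) (T : ℝ) : ℝ := b T * -deriv (deriv b) T

lemma k_Be : Tendsto (Be a b) (𝓝[<] T) (𝓝 (βT b T)) := by
  refine (O.k_b.mul (O.k_ba hB)).congr fun t => ?_
  unfold Be
  ring

include hfT in
lemma k_pe : Tendsto (pe a f) (𝓝[<] T) (𝓝 (deriv (deriv f) T)) := by
  have := ((tendsto_quot (O.hf1 T) (O.ha T) hfT hB.a0 (by rw [hB.a1]; norm_num)).mono_left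
    nhdsLT_le_ne).neg
  rwa [hB.a1, div_neg, div_one, neg_neg] at this

include hfT in
lemma k_Pe : Tendsto (Pe a b f) (𝓝[<] T) (𝓝 (b T ^ 2 * deriv (deriv f) T)) :=
  (O.k_b.pow 2).mul (O.k_pe hB hfT)

lemma k_sU : Tendsto (sU a b) (𝓝[<] T) (𝓝 1) := by
  have h1 := (((O.k_a hB).pow 2).div (O.k_b.pow 2) (pow_ne_zero 2 hB.b0.ne')).const_sub 1
  have e : 1 - (0 : ℝ) ^ 2 / b T ^ 2 = 1 := by simp
  rw [e] at h1
  exact h1

lemma k_zU : Tendsto (zU a b) (𝓝[<] T) (𝓝 1) := by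
  have h1 := (((O.k_a hB).mul (O.k_b1 hB)).div O.k_b hB.b0.ne').sub (O.k_a1 hB)
  have e : (0 : ℝ) * 0 / b T - -1 = 1 := by simp
  rw [e] at h1
  exact h1

include hfT in
lemma k_Wy : Tendsto (Wy q a b f) (𝓝[<] T)
    (𝓝 (q - q * βT b T - b T ^ 2 * deriv (deriv f) T)) := by
  have h1 := ((O.k_sU hB).const_mul ((q : ℝ) + 6)).sub
    (((((O.k_Be hB).const_mul (q : ℝ)).const_add 6).add (O.k_Pe hB hfT)).mul (O.k_zU hB))
  have e : ((q : ℝ) + 6) * 1 - (6 + q * βT b T + b T ^ 2 * deriv (deriv f) T) * 1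
    = q - q * βT b T - b T ^ 2 * deriv (deriv f) T := by ring
  rw [e] at h1
  exact h1

/-- `f'' + a' p` -/
def QQ (a f : ℝ → ℝ) (t : ℝ) : ℝ := deriv (deriv f) t + deriv a t * pe a f t

include hfT in
lemma k_QQ : Tendsto (QQ a f) (𝓝[<] T) (𝓝 0) := by
  have h1 := O.k_f2.add ((O.k_a1 hB).mul (O.k_pe hB hfT))
  have e : deriv (deriv f) T + -1 * deriv (deriv f) T = 0 := by ring
  rw [e] at h1
  exact h1

omit hB in
/-- `p R = - U Q` -/
lemma pR_eq {t : ℝ} (ht : t ∈ Ioo 0 T) (hf1 : deriv f t ≠ 0) :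
    pe a f t * Re a b f t = -(U a b t * QQ a f t) := by
  have ha0 := (O.a_pos t ht).ne'
  unfold pe Re U QQ pe
  field_simp
  ring

variable (hN : Nut a b 0 1) (hf0 : deriv f 0 = 0)
include hN hf0

/-- `lam b(T)² = q + 2 + 2 β(T)` -/
lemma lam_T (hfT : deriv f T = 0) (hf1 : ∀ t ∈ Ioo 0 T, deriv f t ≠ 0) :
    lam * b T ^ 2 = q + 2 + 2 * βT b T := by
  have h1 : Tendsto (fun t => (q + 2 : ℝ) - (1 + (q + 1) * Be a b t ^ 2 + Pe a b f t * Be a b t)
      * (1 - sU a b t) + 2 * Be a b t * zU a b t - b t ^ 2 * QQ a f t / q) (𝓝[<] T)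
      (𝓝 ((q + 2 : ℝ) - (1 + (q + 1) * βT b T ^ 2 + b T ^ 2 * deriv (deriv f) T * βT b T)
      * (1 - 1) + 2 * βT b T * 1 - b T ^ 2 * 0 / q)) := by
    refine ((Tendsto.sub tendsto_const_nhds ((((((O.k_Be hB).pow 2).const_mul ((q : ℝ) + 1)).const_add
      1).add ((O.k_Pe hB hfT).mul (O.k_Be hB))).mul ((O.k_sU hB).const_sub 1))).add
      (((O.k_Be hB).const_mul 2).mul (O.k_zU hB))).sub
      (((O.k_b.pow 2).mul (O.k_QQ hB hfT)).div_const (q : ℝ))
  have h2 : Tendsto (fun t => lam * b t ^ 2) (𝓝[<] T) (𝓝 (lam * b T ^ 2)) :=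
    (O.k_b.pow 2).const_mul lam
  have h3 := tendsto_nhds_unique h2 (h1.congr' ?_)
  · rw [h3]; ring
  · filter_upwards [Ioo_mem_nhdsLT O.T_pos] with t ht
    have hU := O.U_pos ht
    have e1 := O.lam_eq hN hf0 ht (hf1 t ht)
    have e2 := O.E_eq ht
    have e3 := O.U_eq ht
    have e4 := O.pR_eq ht (hf1 t ht)
    have e5 : Pe a b f t * Re a b f t = -(b t ^ 2 * (U a b t * QQ a f t)) := by
      unfold Pe
      rw [mul_assoc, e4]
      ring
    rw [e5, e2] at e1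
    have e6 : sU a b t = 1 - 1 / U a b t := by field_simp; linarith
    rw [e6]
    have e7 : (q + 2 : ℝ) - (1 + (q + 1) * Be a b t ^ 2 + Pe a b f t * Be a b t)
      * (1 - (1 - 1 / U a b t)) + 2 * Be a b t * zU a b t - b t ^ 2 * QQ a f t / q
        = (lam * b t ^ 2 * U a b t) / U a b t := by
      rw [e1]
      have hq := O.q_ne
      field_simp
      ring
    rw [e7]
    field_simp

end bolt

end HData

end

end RS61
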