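import Mathlib
import Pool.Agent.RS61.HNeg

/-!
# The Wronskian of the supersolution
-/

open Set Filter Topology
open scoped ContDiff

namespace RS61

noncomputable section

namespace HData

variable {T lam : ℝ} {q : ℕ} {a b f : ℝ → ℝ}

/-- the exponent -/
def LL (q : ℕ) (j k e : ℝ) (a b f : ℝ → ℝ) (t : ℝ) : ℝ :=
  4 * Real.log (a t) + (q - 4 + e) * Real.log (b t) - (1 - k) * f t + j * Real.log (pe a f t)

/-- the linear factor -/
def ss (q : ℕ) (j k e : ℝ) (a b f : ℝ → ℝ) (t : ℝ) : ℝ :=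
  (q + 2) * Be a b t - 4 * Ee a b t + Pe a b f t + (j * Re a b f t - k * Pe a b f t + e * Be a b t)

/-- the function `Y` -/
def YY (q : ℕ) (j k e : ℝ) (a b f : ℝ → ℝ) (t : ℝ) : ℝ :=
  q * (Be a b t ^ 2 - 1) - Re a b f t * ss q j k e a b f t

/-- the Wronskian -/
def DD (q : ℕ) (j k e : ℝ) (a b f : ℝ → ℝ) (t : ℝ) : ℝ :=
  Real.exp (LL q j k e a b f t) * YY q j k e a b f t

variable (O : HData T lam q a b f)
include O

lemma hLL (j k e : ℝ) {t : ℝ} (ht : t ∈ Ioo 0 T) (hf1 : deriv f t < 0) :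
    HasDerivAt (LL q j k e a b f) (rr a b t * (q * Be a b t - 4 * Ee a b t + Pe a b f t
      + (j * Re a b f t - k * Pe a b f t + e * Be a b t))) t := by
  have ha := O.a_pos t ht
  have hb := O.b_pos t ht
  have ha0 := ha.ne'
  have hb0 := hb.ne'
  have hp : 0 < pe a f t := neg_pos.2 (div_neg_of_neg_of_pos hf1 ha)
  have h1 := (((((O.ha t).log ha0).const_mul (4 : ℝ)).add (((O.hb t).log hb0).const_mul
    ((q : ℝ) - 4 + e))).sub ((O.hf t).const_mul (1 - k))).add
    (((O.hpe ht hf1.ne).log hp.ne').const_mul j)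
  refine h1.congr_deriv ?_
  have e1 : rr a b t * (pe a f t * Re a b f t) / pe a f t = rr a b t * Re a b f t := by
    field_simp
  rw [e1]
  unfold rr Be Ee Pe pe
  field_simp
  ring

variable (hN : Nut a b 0 1) (hf0 : deriv f 0 = 0)
include hN hf0

lemma hDD (j k e : ℝ) {t : ℝ} (ht : t ∈ Ioo 0 T) (hf1 : deriv f t < 0) :
    HasDerivAt (DD q j k e a b f) (rr a b t * (Real.exp (LL q j k e a b f t)
      * (Re a b f t * J2 q j k e (Be a b t) (Ee a b t) (Pe a b f t) (Re a b f t) (U a b t)))) t := by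
  have hq := O.q_ne
  have h2 := (O.hBe hN hf0 ht hf1.ne)
  have h3 := O.hEe hN hf0 ht
  have h4 := O.hPe ht hf1.ne
  have h5 := O.hRe ht hf1.ne
  have h6 : HasDerivAt (ss q j k e a b f) _ t :=
    (((h2.const_mul ((q : ℝ) + 2)).sub (h3.const_mul 4)).add h4).add
      (((h5.const_mul j).sub (h4.const_mul k)).add (h2.const_mul e))
  have h7 := ((((h2.pow 2).sub_const 1).const_mul (q : ℝ))).sub (h5.mul h6)
  have h8 := ((O.hLL j k e ht hf1).exp).mul h7
  refine h8.congr_deriv ?_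
  simp only [Pi.pow_apply, Pi.sub_apply, Pi.mul_apply, Nat.cast_ofNat, Nat.reduceSub, pow_one]
  unfold ss J2
  field_simp
  ring

end HData

end

end RS61
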