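import Mathlib
import Pool.Agent.RS61.HDD
import Pool.Agent.RS61.Crit

/-!
# A nut and a bolt, `f' < 0`: contradiction
-/

open Set Filter Topology
open scoped ContDiff

set_option linter.unusedSectionVars false

namespace RS61

noncomputable section

/-- the last zero of a function before a point where it is negative -/
lemma last_zero {F : ℝ → ℝ} {s t : ℝ} (hst : s < t) (hc : ContinuousOn F (Icc s t)) (hs : 0 ≤ F s)
    (ht : F t < 0) : ∃ x, s ≤ x ∧ x < t ∧ F x = 0 ∧ ∀ y ∈ Ioc x t, F y < 0 := by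
  set Z := {x | x ∈ Icc s t ∧ 0 ≤ F x} with hZ
  have hne : Z.Nonempty := ⟨s, ⟨le_refl _, hst.le⟩, hs⟩
  have hcl : IsClosed Z := by
    have : Z = Icc s t ∩ F ⁻¹' Ici 0 := by ext x; simp [hZ]
    rw [this]
    exact hc.preimage_isClosed_of_isClosed isClosed_Icc isClosed_Ici
  have hbd : BddAbove Z := ⟨t, fun x hx => hx.1.2⟩
  have hmem : sSup Z ∈ Z := hcl.csSup_mem hne hbd
  have hlt : sSup Z < t := lt_of_le_of_ne hmem.1.2 (fun h => by
    have := hmem.2; rw [h] at this; linarith)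
  have hneg : ∀ y ∈ Ioc (sSup Z) t, F y < 0 := by
    intro y hy
    by_contra hcon
    have : y ∈ Z := ⟨⟨hmem.1.1.trans hy.1.le, hy.2⟩, not_lt.1 hcon⟩
    exact absurd (le_csSup hbd this) (not_le.2 hy.1)
  refine ⟨sSup Z, hmem.1.1, hlt, le_antisymm ?_ hmem.2, hneg⟩
  have h1 : Tendsto F (𝓝[Ioc (sSup Z) t] (sSup Z)) (𝓝 (F (sSup Z))) :=
    (hc (sSup Z) hmem.1).mono_left (nhdsWithin_mono _ fun y hy => ⟨hmem.1.1.trans hy.1.le, hy.2⟩)
  have h2 : (𝓝[Ioc (sSup Z) t] (sSup Z)).NeBot := by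
    rw [nhdsWithin_Ioc_eq_nhdsGT hlt]; infer_instance
  refine le_of_tendsto h1 ?_
  filter_upwards [self_mem_nhdsWithin] with y hy using (hneg y hy).le

namespace HData

variable {T lam : ℝ} {q : ℕ} {a b f : ℝ → ℝ}

section

variable (O : HData T lam q a b f) (hN : Nut a b 0 1) (hf0 : deriv f 0 = 0)
  (hB : Bolt a b T (-1)) (hfT : deriv f T = 0) (hb2 : ∀ t ∈ Ioo 0 T, deriv (deriv b) t < 0)
  (hneg : ∀ t ∈ Ioo 0 T, deriv f t < 0)

include O hN hb2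

lemma b1_anti : StrictAntiOn (deriv b) (Icc 0 T) := by
  refine strictAntiOn_of_deriv_neg (convex_Icc _ _) O.b1_smooth.continuous.continuousOn ?_
  intro s hs
  rw [interior_Icc] at hs
  exact hb2 s hs

lemma b1_lt {t : ℝ} (ht : t ∈ Ioo 0 T) : deriv b t < 1 := by
  have := O.b1_anti hN hb2 ⟨le_refl _, O.T_pos.le⟩ ⟨ht.1.le, ht.2.le⟩ ht.1
  rwa [hN.b1] at this

include hB

lemma b1_pos {t : ℝ} (ht : t ∈ Ioo 0 T) : 0 < deriv b t := by
  have := O.b1_anti hN hb2 ⟨ht.1.le, ht.2.le⟩ ⟨O.T_pos.le, le_refl _⟩ ht.2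
  rwa [hB.b1] at this

lemma Be_pos {t : ℝ} (ht : t ∈ Ioo 0 T) : 0 < Be a b t :=
  div_pos (mul_pos (O.b_pos t ht) (O.b1_pos hN hB hb2 ht)) (O.a_pos t ht)

lemma Be_sq_le {t : ℝ} (ht : t ∈ Ioo 0 T) : Be a b t ^ 2 ≤ U a b t := by
  have h1 := O.b1_pos hN hB hb2 ht
  have h2 := O.b1_lt hN hb2 ht
  have h3 : Be a b t ^ 2 = U a b t * deriv b t ^ 2 := by
    unfold Be U
    rw [div_pow, mul_pow]
    ring
  rw [h3]
  have h4 := O.U_pos ht
  have h5 : deriv b t ^ 2 ≤ 1 := by nlinarith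
  nlinarith

lemma βT_nonneg : 0 ≤ βT b T := by
  refine ge_of_tendsto (O.k_Be hB) ?_
  filter_upwards [Ioo_mem_nhdsLT O.T_pos] with t ht using (O.Be_pos hN hB hb2 ht).le

include hf0 hneg

omit hf0 hN hB hb2 in
lemma pe_pos {t : ℝ} (ht : t ∈ Ioo 0 T) : 0 < pe a f t :=
  neg_pos.2 (div_neg_of_neg_of_pos (hneg t ht) (O.a_pos t ht))

omit hf0 hN hB hb2 in
lemma Pe_pos {t : ℝ} (ht : t ∈ Ioo 0 T) : 0 < Pe a b f t :=
  mul_pos (pow_pos (O.b_pos t ht) 2) (O.pe_pos hneg ht)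

omit hneg in
lemma zU_nn {t : ℝ} (ht : t ∈ Ioo 0 T) : 0 ≤ zU a b t := O.zU_nonneg hN hf0 (O.k_sU hB) ht

lemma Wrho_nn {t : ℝ} (ht : t ∈ Ioo 0 T) : 0 ≤ rr a b t * (zU a b t
    * (3 * (q - 2) / (q * (q + 6)) * (q * Be a b t + Pe a b f t - q) ^ 2 + Pe a b f t ^ 2 / q)) := by
  have h1 := O.rr_pos ht
  have h2 := O.zU_nn hN hf0 hB hb2 ht
  have h3 : (2 : ℝ) ≤ q := by exact_mod_cast O.q_pos
  have h4 : 0 ≤ 3 * ((q : ℝ) - 2) / (q * (q + 6)) := by
    apply div_nonneg <;> [linarith; positivity]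
  positivity

/-- the first inequality -/
lemma Wy_nn : ∀ t ∈ Ioo 0 T, 0 ≤ Wy q a b f t := by
  refine lin_cmp (fun t ht => O.hWy hN hf0 ht (hneg t ht).ne) (fun t ht => ?_)
    (fun t ht => O.Wrho_nn hN hf0 hB hb2 hneg ht) (O.l_Wy hN hf0)
  have h1 := O.rr_pos ht
  have h2 := O.Be_pos hN hB hb2 ht
  have h3 := O.Pe_pos hneg ht
  have h4 : (2 : ℝ) ≤ q := by exact_mod_cast O.q_pos
  have h5 : 0 < rr a b t * ((q + 2) / (q + 6) * (6 + q * Be a b t + Pe a b f t)) := by positivity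
  linarith

include hfT

/-- the first inequality at the bolt, strict -/
lemma Wy_T : 0 < q - q * βT b T - b T ^ 2 * deriv (deriv f) T := by
  -- near `T`
  have h1 : Tendsto (fun t => rr a b t * ((q + 2) / (q + 6) * (6 + q * Be a b t + Pe a b f t)))
      (𝓝[<] T) (𝓝 (0 / b T ^ 2 * ((q + 2) / (q + 6)
        * (6 + q * βT b T + b T ^ 2 * deriv (deriv f) T)))) :=
    ((O.k_a hB).div (O.k_b.pow 2) (pow_ne_zero 2 hB.b0.ne')).mul
      (((((O.k_Be hB).const_mul (q : ℝ)).const_add 6).add (O.k_Pe hB hfT)).const_mul _)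
  rw [zero_div, zero_mul] at h1
  have h2 : ∀ᶠ t in 𝓝[<] T,
      rr a b t * ((q + 2) / (q + 6) * (6 + q * Be a b t + Pe a b f t)) < 1 :=
    (tendsto_order.1 h1).2 _ one_pos
  have h3 : ∀ᶠ t in 𝓝[<] T, 0 < zU a b t := (tendsto_order.1 (O.k_zU hB)).1 _ one_pos
  obtain ⟨s, hs, hs'⟩ := mem_nhdsLT_iff_exists_Ioo_subset.1
    ((h2.and h3).and (Ioo_mem_nhdsLT O.T_pos))
  have hmono : MonotoneOn (fun t => Wy q a b f t * Real.exp t) (Ioo s T) := by
    refine mono_Ioo (F' := fun t => ((-(rr a b t * ((q + 2) / (q + 6)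
      * (6 + q * Be a b t + Pe a b f t)))) * Wy q a b f t
      + rr a b t * (zU a b t * (3 * (q - 2) / (q * (q + 6)) * (q * Be a b t + Pe a b f t - q) ^ 2
        + Pe a b f t ^ 2 / q))) * Real.exp t + Wy q a b f t * Real.exp t) ?_ ?_
    · intro t ht
      have ht' := (hs' ht).2
      exact (O.hWy hN hf0 ht' (hneg t ht').ne).mul (Real.hasDerivAt_exp t)
    · intro t ht
      obtain ⟨⟨g1, g2⟩, ht'⟩ := hs' ht
      have g3 := O.Wy_nn hN hf0 hB hb2 hneg t ht'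
      have g4 := O.Wrho_nn hN hf0 hB hb2 hneg ht'
      have g5 := Real.exp_pos t
      have g6 : 0 ≤ (1 - rr a b t * ((q + 2) / (q + 6) * (6 + q * Be a b t + Pe a b f t)))
        * Wy q a b f t := mul_nonneg (by linarith) g3
      have g7 : 0 ≤ ((1 - rr a b t * ((q + 2) / (q + 6) * (6 + q * Be a b t + Pe a b f t)))
        * Wy q a b f t + rr a b t * (zU a b t * (3 * (q - 2) / (q * (q + 6))
          * (q * Be a b t + Pe a b f t - q) ^ 2 + Pe a b f t ^ 2 / q))) * Real.exp t :=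
        mul_nonneg (by linarith) g5.le
      linarith
  obtain ⟨t1, h4, h5⟩ := exists_between (show s < T from hs)
  obtain ⟨⟨-, g2⟩, ht1⟩ := hs' ⟨h4, h5⟩
  -- positivity at `t1`
  have h6 : 0 < Wy q a b f t1 := by
    refine lt_of_le_of_ne (O.Wy_nn hN hf0 hB hb2 hneg t1 ht1) (fun h0 => ?_)
    have hd := O.hWy hN hf0 ht1 (hneg t1 ht1).ne
    rw [← h0, mul_zero, zero_add] at hd
    have hle : rr a b t1 * (zU a b t1 * (3 * (q - 2) / (q * (q + 6))
      * (q * Be a b t1 + Pe a b f t1 - q) ^ 2 + Pe a b f t1 ^ 2 / q)) ≤ 0 :=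
      deriv_nonpos_right ht1.1 h0.symm
        (fun t ht => O.Wy_nn hN hf0 hB hb2 hneg t ⟨ht.1, ht.2.trans ht1.2⟩) hd
    have g3 := O.rr_pos ht1
    have g4 := O.Pe_pos hneg ht1
    have h3 : (2 : ℝ) ≤ q := by exact_mod_cast O.q_pos
    have g5 : 0 ≤ 3 * ((q : ℝ) - 2) / (q * (q + 6)) := by
      apply div_nonneg <;> [linarith; positivity]
    have g6 : 0 < Pe a b f t1 ^ 2 / q := by positivity
    have g7 : 0 < rr a b t1 * (zU a b t1 * (3 * (q - 2) / (q * (q + 6))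
      * (q * Be a b t1 + Pe a b f t1 - q) ^ 2 + Pe a b f t1 ^ 2 / q)) := by
      refine mul_pos g3 (mul_pos g2 ?_)
      have := mul_nonneg g5 (sq_nonneg (q * Be a b t1 + Pe a b f t1 - q))
      linarith
    linarith
  have h7 : Tendsto (fun t => Wy q a b f t * Real.exp t) (𝓝[<] T)
      (𝓝 ((q - q * βT b T - b T ^ 2 * deriv (deriv f) T) * Real.exp T)) :=
    (O.k_Wy hB hfT).mul ((Real.continuous_exp.tendsto T).mono_left nhdsWithin_le_nhds)
  have h8 := le_of_lim_right hmono h7 ⟨h4, h5⟩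
  have h9 : 0 < Wy q a b f t1 * Real.exp t1 := mul_pos h6 (Real.exp_pos _)
  have h10 := lt_of_lt_of_le h9 h8
  exact (pos_iff_pos_of_mul_pos h10).2 (Real.exp_pos T)

lemma f2T_nonneg : 0 ≤ deriv (deriv f) T := by
  refine ge_of_tendsto (O.k_pe hB hfT) ?_
  filter_upwards [Ioo_mem_nhdsLT O.T_pos] with t ht using (O.pe_pos hneg ht).le

lemma βT_lt : βT b T < 1 := by
  have h1 := O.Wy_T hN hf0 hB hfT hb2 hneg
  have h2 : 0 ≤ b T ^ 2 * deriv (deriv f) T :=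
    mul_nonneg (sq_nonneg _) (O.f2T_nonneg hN hf0 hB hfT hb2 hneg)
  have h3 : (2 : ℝ) ≤ q := by exact_mod_cast O.q_pos
  by_contra hc
  push Not at hc
  nlinarith

lemma p_bound : (q + 2) * deriv (deriv f) T ≤ q * lam := by
  have h1 := O.Wy_T hN hf0 hB hfT hb2 hneg
  have h2 := O.lam_T hB hN hf0 hfT (fun t ht => (hneg t ht).ne)
  have h3 := O.βT_nonneg hN hB hb2
  have h4 : 0 < b T ^ 2 := pow_pos hB.b0 2
  have hq : (2 : ℝ) ≤ q := by exact_mod_cast O.q_pos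
  have h5 : ((q + 2) * deriv (deriv f) T) * b T ^ 2 ≤ (q * lam) * b T ^ 2 := by
    have e1 : (q * lam) * b T ^ 2 = q * (q + 2 + 2 * βT b T) := by rw [← h2]; ring
    rw [e1]
    nlinarith [mul_nonneg (by linarith : (0:ℝ) ≤ q) h3]
  exact le_of_mul_le_mul_right h5 h4

lemma k_Ge : Tendsto (Ge q a b f) (𝓝[<] T) (𝓝 0) := by
  have h1 := (((O.k_a hB).mul (O.k_b.pow q)).mul (O.k_f.neg.rexp)).mul
    (((O.k_a hB).mul O.k_f2).sub ((O.k_a1 hB).mul
      ((O.lim_f1 T).mono_left (nhdsWithin_le_nhds (s := Iio T)))))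
  have e : 0 * b T ^ q * Real.exp (-f T) * (0 * deriv (deriv f) T - -1 * deriv f T) = 0 := by ring
  rw [e] at h1
  exact h1

omit hN hB hfT hb2 hneg hf0 in
lemma Ge_neg_iff {t : ℝ} (ht : t ∈ Ioo 0 T) (hf1 : deriv f t < 0) :
    Ge q a b f t < 0 ↔ 0 < Re a b f t := by
  have ha := O.a_pos t ht
  have hb := O.b_pos t ht
  rw [O.Ge_eq ht hf1.ne]
  have h1 : a t ^ 3 * b t ^ q / b t ^ 2 * Real.exp (-f t) * deriv f t < 0 :=
    mul_neg_of_pos_of_neg (by positivity) hf1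
  constructor
  · intro h
    by_contra hc
    have := mul_nonneg_of_nonpos_of_nonpos h1.le (not_lt.1 hc)
    linarith
  · intro h
    exact mul_neg_of_neg_of_pos h1 h

/-- `G < 0` near `T` -/
lemma Ge_neg : ∃ s ∈ Ioo 0 T, ∀ t ∈ Ioo s T, Ge q a b f t < 0 := by
  have h1 : ∀ᶠ t in 𝓝[<] T, Be a b t < 1 :=
    (tendsto_order.1 (O.k_Be hB)).2 _ (O.βT_lt hN hf0 hB hfT hb2 hneg)
  obtain ⟨s0, hs0, hs0'⟩ := mem_nhdsLT_iff_exists_Ioo_subset.1 (h1.and (Ioo_mem_nhdsLT O.T_pos))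
  obtain ⟨s, hs1, hs2⟩ := exists_between (show s0 < T from hs0)
  have hsub : Ioo s T ⊆ Ioo s0 T := fun x hx => ⟨hs1.trans hx.1, hx.2⟩
  refine ⟨s, (hs0' ⟨hs1, hs2⟩).2, ?_⟩
  have hmono : StrictMonoOn (Ge q a b f) (Ioo s T) := by
    refine strictMono_Ioo (fun t ht => O.hGe (hs0' (hsub ht)).2) (fun t ht => ?_)
    obtain ⟨g1, ht'⟩ := hs0' (hsub ht)
    have ha := O.a_pos t ht'
    have hb := O.b_pos t ht'
    have hr := O.rr_pos ht'
    have g2 := O.Be_pos hN hB hb2 ht'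
    have g3 : Be a b t ^ 2 - 1 < 0 := by nlinarith
    have g4 : a t ^ 3 * b t ^ q / b t ^ 2 * Real.exp (-f t) * deriv f t < 0 :=
      mul_neg_of_pos_of_neg (by positivity) (hneg t ht')
    have hq : (0 : ℝ) < q := by have := O.q_pos; positivity
    exact mul_pos hr (mul_pos_of_neg_of_neg (mul_neg_of_pos_of_neg hq g3) g4)
  intro t ht
  obtain ⟨t', h2, h3⟩ := exists_between ht.2
  have h4 := hmono ht ⟨ht.1.trans h2, h3⟩ h2
  have h5 := le_of_lim_right hmono.monotoneOn (O.k_Ge hN hf0 hB hfT hb2 hneg) (x := t')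
    ⟨ht.1.trans h2, h3⟩
  linarith

end

end HData

end

end RS61
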