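import Mathlib
import Pool.Agent.RS61.HFin

/-!
# A nut, a bolt and `f' < 0`: contradiction
-/

open Set Filter Topology
open scoped ContDiff

set_option linter.unusedSectionVars false

namespace RS61

noncomputable section

namespace HData

variable {T lam : ℝ} {q : ℕ} {a b f : ℝ → ℝ}

section

variable (O : HData T lam q a b f) (hN : Nut a b 0 1) (hf0 : deriv f 0 = 0)
  (hB : Bolt a b T (-1)) (hfT : deriv f T = 0) (hb2 : ∀ t ∈ Ioo 0 T, deriv (deriv b) t < 0)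
  (hneg : ∀ t ∈ Ioo 0 T, deriv f t < 0)

include O hN hf0 hB hfT hb2 hneg

/-- `p` is increasing after `t₀` if `G < 0` there -/
lemma pe_mono {t0 : ℝ} (h0 : 0 ≤ t0) (hG : ∀ t ∈ Ioo t0 T, Ge q a b f t < 0) :
    StrictMonoOn (pe a f) (Ioo t0 T) := by
  refine strictMono_Ioo (fun t ht => O.hpe ⟨h0.trans_lt ht.1, ht.2⟩
    (hneg t ⟨h0.trans_lt ht.1, ht.2⟩).ne) (fun t ht => ?_)
  have ht' : t ∈ Ioo 0 T := ⟨h0.trans_lt ht.1, ht.2⟩
  have h1 := O.rr_pos ht'
  have h2 := O.pe_pos hneg ht'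
  have h3 := (O.Ge_neg_iff ht' (hneg t ht')).1 (hG t ht)
  positivity

lemma pe_le {t0 : ℝ} (h0 : 0 ≤ t0) (hG : ∀ t ∈ Ioo t0 T, Ge q a b f t < 0) {t : ℝ}
    (ht : t ∈ Ioo t0 T) : pe a f t ≤ deriv (deriv f) T :=
  le_of_lim_right (O.pe_mono hN hf0 hB hfT hb2 hneg h0 hG).monotoneOn (O.k_pe hB hfT) ht

lemma f2T_pos {t0 : ℝ} (h0 : 0 ≤ t0) (h0T : t0 < T) (hG : ∀ t ∈ Ioo t0 T, Ge q a b f t < 0) :
    0 < deriv (deriv f) T := by
  obtain ⟨t, ht⟩ := exists_between h0T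
  exact (O.pe_pos hneg ⟨h0.trans_lt ht.1, ht.2⟩).trans_le
    (O.pe_le hN hf0 hB hfT hb2 hneg h0 hG ht)

/-- the inequalities -/
lemma jhyp {t0 : ℝ} (h0 : 0 ≤ t0) (hG : ∀ t ∈ Ioo t0 T, Ge q a b f t < 0) {t : ℝ}
    (ht : t ∈ Ioo t0 T) :
    JHyp q (Be a b t) (Ee a b t) (Pe a b f t) (Re a b f t) (U a b t) := by
  have ht' : t ∈ Ioo 0 T := ⟨h0.trans_lt ht.1, ht.2⟩
  have hU := O.U_pos ht'
  have hz := O.zU_nn hN hf0 hB hb2 ht'
  have hR := (O.Ge_neg_iff ht' (hneg t ht')).1 (hG t ht)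
  have hP := O.Pe_pos hneg ht'
  have hE : 0 ≤ Ee a b t := by rw [O.E_eq ht']; positivity
  refine ⟨(O.Be_pos hN hB hb2 ht').le, hE, hP.le, hR.le, ?_, ?_, O.Be_sq_le hN hB hb2 ht'⟩
  · have h1 := mul_nonneg (O.Wy_nn hN hf0 hB hb2 hneg t ht') hU.le
    have h2 : Wy q a b f t * U a b t = (q + 6) * (U a b t - 1)
        - (6 + q * Be a b t + Pe a b f t) * Ee a b t := by
      rw [O.U_eq ht', O.E_eq ht']
      unfold Wy
      ring
    linarith
  · rw [← O.lam_eq hN hf0 ht' (hneg t ht').ne]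
    have h1 := O.pe_le hN hf0 hB hfT hb2 hneg h0 hG ht
    have h2 := O.p_bound hN hf0 hB hfT hb2 hneg
    have hq : (0 : ℝ) < q := by have := O.q_pos; positivity
    have h3 : (1 + 2 / (q : ℝ)) * pe a f t ≤ lam := by
      have h4 : (1 + 2 / (q : ℝ)) = (q + 2) / q := by field_simp
      rw [h4, div_mul_eq_mul_div, div_le_iff₀ hq]
      calc (q + 2) * pe a f t ≤ (q + 2) * deriv (deriv f) T :=
            mul_le_mul_of_nonneg_left h1 (by positivity)
        _ ≤ q * lam := h2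
        _ = lam * q := mul_comm _ _
    have h5 : (1 + 2 / (q : ℝ)) * (Pe a b f t * U a b t)
        = ((1 + 2 / (q : ℝ)) * pe a f t) * (b t ^ 2 * U a b t) := by
      unfold Pe
      ring
    have h6 : lam * b t ^ 2 * U a b t = lam * (b t ^ 2 * U a b t) := by ring
    rw [h5, h6]
    refine mul_le_mul_of_nonneg_right h3 ?_
    have := O.b_pos t ht'
    positivity

/-- the Wronskian is increasing -/
lemma DD_mono {m : ℕ} (hqm : q = 2 * m) {j k e : ℝ}
    (hJ : ∀ β E P R u : ℝ, JHyp (2 * m) β E P R u → 0 < J2 (2 * m) j k e β E P R u)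
    {t0 : ℝ} (h0 : 0 ≤ t0) (hG : ∀ t ∈ Ioo t0 T, Ge q a b f t < 0) :
    StrictMonoOn (DD q j k e a b f) (Ioo t0 T) := by
  refine strictMono_Ioo (fun t ht => O.hDD hN hf0 j k e ⟨h0.trans_lt ht.1, ht.2⟩
    (hneg t ⟨h0.trans_lt ht.1, ht.2⟩)) (fun t ht => ?_)
  have ht' : t ∈ Ioo 0 T := ⟨h0.trans_lt ht.1, ht.2⟩
  have h1 := O.rr_pos ht'
  have h2 := O.jhyp hN hf0 hB hfT hb2 hneg h0 hG ht
  have hqr : (q : ℝ) = 2 * m := by rw [hqm]; push_cast; ring
  rw [hqr] at h2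
  have h3 := hJ _ _ _ _ _ h2
  rw [← hqr] at h3
  have h4 := (O.Ge_neg_iff ht' (hneg t ht')).1 (hG t ht)
  have h5 := Real.exp_pos (LL q j k e a b f t)
  positivity

/-- the Wronskian tends to `0` at the bolt -/
lemma DD_T (j k e : ℝ) {t0 : ℝ} (h0 : 0 ≤ t0) (h0T : t0 < T)
    (hG : ∀ t ∈ Ioo t0 T, Ge q a b f t < 0) :
    Tendsto (DD q j k e a b f) (𝓝[<] T) (𝓝 0) := by
  have hf2 := O.f2T_pos hN hf0 hB hfT hb2 hneg h0 h0T hG
  have hbT := hB.b0
  -- the exponent without `log a`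
  have h1 : Tendsto (fun t => (q - 4 + e) * Real.log (b t) - (1 - k) * f t + j * Real.log (pe a f t))
      (𝓝[<] T) (𝓝 ((q - 4 + e) * Real.log (b T) - (1 - k) * f T
        + j * Real.log (deriv (deriv f) T))) := by
    refine (Tendsto.sub ?_ (O.k_f.const_mul _)).add ?_
    · exact ((Real.continuousAt_log hbT.ne').tendsto.comp O.k_b).const_mul _
    · exact ((Real.continuousAt_log hf2.ne').tendsto.comp (O.k_pe hB hfT)).const_mul _
  -- `a² R`
  have h2 : Tendsto (fun t => -(b t ^ 2 * QQ a f t / pe a f t)) (𝓝[<] T)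
      (𝓝 (-(b T ^ 2 * 0 / deriv (deriv f) T))) :=
    (((O.k_b.pow 2).mul (O.k_QQ hB hfT)).div (O.k_pe hB hfT) hf2.ne').neg
  -- `a² s`
  have h3 : Tendsto (fun t => (a t ^ 2) * ((q + 2 + e) * Be a b t + (1 - k) * Pe a b f t)
      - 4 * (zU a b t * b t ^ 2) + j * -(b t ^ 2 * QQ a f t / pe a f t)) (𝓝[<] T)
      (𝓝 (0 ^ 2 * ((q + 2 + e) * βT b T + (1 - k) * (b T ^ 2 * deriv (deriv f) T))
        - 4 * (1 * b T ^ 2) + j * (-(b T ^ 2 * 0 / deriv (deriv f) T)))) := by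
    refine (Tendsto.sub ?_ (((O.k_zU hB).mul (O.k_b.pow 2)).const_mul 4)).add (h2.const_mul j)
    exact ((O.k_a hB).pow 2).mul (((O.k_Be hB).const_mul _).add ((O.k_Pe hB hfT).const_mul _))
  have h4 := (h1.rexp).mul (((((O.k_a hB).pow 4).mul
    ((((O.k_Be hB).pow 2).sub_const 1).const_mul (q : ℝ)))).sub (h2.mul h3))
  have e0 : Real.exp ((q - 4 + e) * Real.log (b T) - (1 - k) * f T
        + j * Real.log (deriv (deriv f) T)) * (0 ^ 4 * (q * (βT b T ^ 2 - 1))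
      - (-(b T ^ 2 * 0 / deriv (deriv f) T)) *
      (0 ^ 2 * ((q + 2 + e) * βT b T + (1 - k) * (b T ^ 2 * deriv (deriv f) T))
        - 4 * (1 * b T ^ 2) + j * (-(b T ^ 2 * 0 / deriv (deriv f) T)))) = 0 := by
    simp
  rw [e0] at h4
  refine h4.congr' ?_
  filter_upwards [Ioo_mem_nhdsLT O.T_pos] with t ht
  have ha := O.a_pos t ht
  have hp := O.pe_pos hneg ht
  have e1 : Real.exp (LL q j k e a b f t) = a t ^ 4 * Real.exp ((q - 4 + e) * Real.log (b t)
      - (1 - k) * f t + j * Real.log (pe a f t)) := by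
    unfold LL
    rw [show 4 * Real.log (a t) + (q - 4 + e) * Real.log (b t) - (1 - k) * f t
      + j * Real.log (pe a f t) = 4 * Real.log (a t) + ((q - 4 + e) * Real.log (b t)
        - (1 - k) * f t + j * Real.log (pe a f t)) by ring, Real.exp_add]
    congr 1
    rw [show (4 : ℝ) * Real.log (a t) = ((4 : ℕ) : ℝ) * Real.log (a t) by norm_num,
      Real.exp_nat_mul, Real.exp_log ha]
  have e2 : a t ^ 2 * Re a b f t = -(b t ^ 2 * QQ a f t / pe a f t) := by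
    have := O.pR_eq ht (hneg t ht).ne
    have h5 : Re a b f t = -(U a b t * QQ a f t) / pe a f t := by
      rw [eq_div_iff hp.ne', mul_comm]; exact this
    rw [h5]
    unfold U
    field_simp
  have e3 : a t ^ 2 * Ee a b t = zU a b t * b t ^ 2 := by
    rw [O.E_eq ht]
    unfold U
    field_simp
  unfold DD
  rw [e1]
  unfold YY ss
  rw [← e2, ← e3]
  ring

/-- the case where `G` has a nonnegative value -/
lemma caseA {t1 : ℝ} (ht1 : t1 ∈ Ioo 0 T) (h1 : 0 ≤ Ge q a b f t1) {m : ℕ} (hm : 1 ≤ m)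
    (hqm : q = 2 * m) : False := by
  obtain ⟨j, k, e, -, -, -, hJ⟩ := J2_pos m hm
  obtain ⟨s, hs, hs'⟩ := O.Ge_neg hN hf0 hB hfT hb2 hneg
  have hlt : t1 ≤ s := by
    by_contra hc
    have := hs' t1 ⟨not_le.1 hc, ht1.2⟩
    linarith
  obtain ⟨t4, h4⟩ := exists_between hs.2
  obtain ⟨t0, h5, h6, h7, h8⟩ := last_zero (F := Ge q a b f) (hlt.trans_lt h4.1)
    (fun t ht => (O.hGe ⟨ht1.1.trans_le ht.1, ht.2.trans_lt h4.2⟩).continuousAt.continuousWithinAt)
    h1 (hs' t4 h4)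
  have ht0 : t0 ∈ Ioo 0 T := ⟨ht1.1.trans_le h5, h6.trans h4.2⟩
  have hG : ∀ t ∈ Ioo t0 T, Ge q a b f t < 0 := by
    intro t ht
    rcases le_or_gt t t4 with h | h
    · exact h8 t ⟨ht.1, h⟩
    · exact hs' t ⟨h4.1.trans h, ht.2⟩
  -- `β ≥ 1` at `t0`
  have hd := O.hGe ht0
  have hd' := deriv_nonneg_left (v := fun t => -Ge q a b f t) ht0.2 (by rw [h7, neg_zero])
    (fun t ht => (neg_pos.2 (hG t ht)).le) hd.neg
  have hR0 : Re a b f t0 = 0 := by
    have h9 := O.Ge_eq ht0 (hneg t0 ht0).ne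
    rw [h7] at h9
    have ha := O.a_pos t0 ht0
    have hb := O.b_pos t0 ht0
    have hf1 := (hneg t0 ht0).ne
    refine (mul_eq_zero.1 h9.symm).resolve_left ?_
    have hE := Real.exp_pos (-f t0)
    exact mul_ne_zero (by positivity) hf1
  have hβ : 0 ≤ q * (Be a b t0 ^ 2 - 1) := by
    by_contra hc
    have hr := O.rr_pos ht0
    have ha := O.a_pos t0 ht0
    have hb := O.b_pos t0 ht0
    have g4 : a t0 ^ 3 * b t0 ^ q / b t0 ^ 2 * Real.exp (-f t0) * deriv f t0 < 0 :=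
      mul_neg_of_pos_of_neg (by positivity) (hneg t0 ht0)
    have := mul_pos hr (mul_pos_of_neg_of_neg (not_le.1 hc) g4)
    linarith
  have hDD0 : 0 ≤ DD q j k e a b f t0 := by
    unfold DD YY
    rw [hR0, zero_mul, sub_zero]
    exact mul_nonneg (Real.exp_pos _).le hβ
  have hmono := O.DD_mono hN hf0 hB hfT hb2 hneg hqm hJ ht0.1.le hG
  have hlim := O.DD_T hN hf0 hB hfT hb2 hneg j k e ht0.1.le ht0.2 hG
  obtain ⟨t2, h9, h10⟩ := exists_between ht0.2
  obtain ⟨t3, h11, h12⟩ := exists_between h10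
  have h13 := hmono ⟨h9, h10⟩ ⟨h9.trans h11, h12⟩ h11
  have h14 := le_of_lim_right hmono.monotoneOn hlim (x := t3) ⟨h9.trans h11, h12⟩
  have h15 : Tendsto (DD q j k e a b f) (𝓝[>] t0) (𝓝 (DD q j k e a b f t0)) :=
    (O.hDD hN hf0 j k e ht0 (hneg t0 ht0)).continuousAt.tendsto.mono_left nhdsWithin_le_nhds
  have h16 := ge_of_lim_left hmono.monotoneOn h15 (x := t2) ⟨h9, h10⟩
  linarith

end

section

variable (O : HData T lam q a b f) (hN : Nut a b 0 1) (hf0 : deriv f 0 = 0)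
include O hN hf0

lemma lim_Ge : Tendsto (Ge q a b f) (𝓝[>] 0) (𝓝 0) := by
  have h1 := (((O.l_a hN).mul (O.lim_bq hN)).mul
    ((O.lim_f 0).mono_left (nhdsWithin_le_nhds (s := Ioi 0))).neg.rexp).mul
    (((O.l_a hN).mul ((O.lim_f2 0).mono_left (nhdsWithin_le_nhds (s := Ioi 0)))).sub
      ((O.l_a1 hN).mul (O.l_f1 hf0)))
  have e : (0 : ℝ) * 0 * Real.exp (-f 0) * (0 * deriv (deriv f) 0 - 1 * 0) = 0 := by ring
  rw [e] at h1
  exact h1

end

section

variable (O : HData T lam q a b f) (hN : Nut a b 0 1) (hf0 : deriv f 0 = 0)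
  (hB : Bolt a b T (-1)) (hfT : deriv f T = 0) (hb2 : ∀ t ∈ Ioo 0 T, deriv (deriv b) t < 0)
  (hneg : ∀ t ∈ Ioo 0 T, deriv f t < 0)

include O hN hf0 hB hfT hb2 hneg

/-- `R ≤ 1` near `0` -/
lemma Re_le (hG : ∀ t ∈ Ioo 0 T, Ge q a b f t < 0) : ∀ᶠ t in 𝓝[>] (0 : ℝ), Re a b f t ≤ 1 := by
  set K : ℝ → ℝ := fun t => a t ^ 3 * b t ^ q / b t ^ 2 * Real.exp (-f t) * -deriv f t with hK
  have hKp : ∀ t ∈ Ioo 0 T, 0 < K t := by
    intro t ht
    have ha := O.a_pos t ht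
    have hb := O.b_pos t ht
    exact mul_pos (by positivity) (neg_pos.2 (hneg t ht))
  have hGK : ∀ t ∈ Ioo 0 T, Ge q a b f t = -(K t * Re a b f t) := by
    intro t ht
    rw [O.Ge_eq ht (hneg t ht).ne, hK]
    ring
  have hKd : ∀ t ∈ Ioo 0 T, HasDerivAt K (rr a b t * (K t * ((q + 2) * Be a b t - 4 * Ee a b t
      + Pe a b f t + Re a b f t))) t := by
    intro t ht
    have ha0 := (O.a_pos t ht).ne'
    have hb0 := (O.b_pos t ht).ne'
    have hf1 := (hneg t ht).ne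
    have h1 := (((((O.ha t).pow 3).mul (O.hbq t ht)).div ((O.hb t).pow 2) (pow_ne_zero 2 hb0)).mul
      ((O.hf t).neg.exp)).mul (O.hf1 t).neg
    refine h1.congr_deriv ?_
    simp only [Pi.mul_apply, Pi.pow_apply, Pi.neg_apply, Pi.div_apply, Nat.cast_ofNat,
      Nat.reduceSub, pow_one, hK]
    unfold rr Be Ee Pe pe Re
    field_simp
    ring
  -- the limit of `K`
  have hKl : Tendsto K (𝓝[>] 0) (𝓝 0) := by
    have h1 := ((((O.l_a hN).mul ((O.nut_ab hN).pow 2)).mul (O.lim_bq hN)).mul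
      ((O.lim_f 0).mono_left (nhdsWithin_le_nhds (s := Ioi 0))).neg.rexp).mul (O.l_f1 hf0).neg
    have e : (0 : ℝ) * 1 ^ 2 * 0 * Real.exp (-f 0) * -0 = 0 := by ring
    rw [e] at h1
    refine h1.congr fun t => ?_
    rw [hK]
    ring
  have hNl : Tendsto (fun t => K t + Ge q a b f t) (𝓝[>] 0) (𝓝 0) := by
    simpa using hKl.add (O.lim_Ge hN hf0)
  -- near `0`
  have h1 : Tendsto (fun t => ((q : ℝ) + 2) * Be a b t - 4 * Ee a b t + Pe a b f t
      - (q : ℝ) * (Be a b t ^ 2 - 1)) (𝓝[>] 0)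
      (𝓝 (((q : ℝ) + 2) * 1 - 4 * 0 + 0 - (q : ℝ) * (1 ^ 2 - 1))) := by
    refine (((((O.l_Be hN).const_mul _).sub ((O.l_Ee hN).const_mul 4)).add (O.l_Pe hN hf0)).sub ?_)
    exact ((((O.l_Be hN).pow 2).sub_const 1).const_mul _)
  have h2 : ∀ᶠ t in 𝓝[>] (0 : ℝ), 0 < (q + 2) * Be a b t - 4 * Ee a b t + Pe a b f t
      - q * (Be a b t ^ 2 - 1) := by
    refine (tendsto_order.1 h1).1 _ ?_
    have : (2 : ℝ) ≤ q := by exact_mod_cast O.q_pos
    linarith
  obtain ⟨s, hs, hs'⟩ := mem_nhdsGT_iff_exists_Ioo_subset.1 (h2.and O.ev_pos)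
  have hmono : MonotoneOn (fun t => K t + Ge q a b f t) (Ioo 0 s) := by
    refine mono_Ioo (fun t ht => (hKd t (hs' ht).2).add (O.hGe (hs' ht).2)) (fun t ht => ?_)
    obtain ⟨g1, ht'⟩ := hs' ht
    have g2 := (O.Ge_neg_iff ht' (hneg t ht')).1 (hG t ht')
    have g3 := O.rr_pos ht'
    have g4 := hKp t ht'
    have e : rr a b t * (K t * ((q + 2) * Be a b t - 4 * Ee a b t + Pe a b f t + Re a b f t))
        + rr a b t * (q * (Be a b t ^ 2 - 1)
          * (a t ^ 3 * b t ^ q / b t ^ 2 * Real.exp (-f t) * deriv f t))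
        = rr a b t * K t * ((q + 2) * Be a b t - 4 * Ee a b t + Pe a b f t
          - q * (Be a b t ^ 2 - 1) + Re a b f t) := by
      rw [hK]; ring
    rw [e]
    have g5 : 0 < (q + 2) * Be a b t - 4 * Ee a b t + Pe a b f t
          - q * (Be a b t ^ 2 - 1) + Re a b f t := by linarith
    positivity
  filter_upwards [Ioo_mem_nhdsGT (show (0 : ℝ) < s from hs)] with t ht
  have ht' := (hs' ht).2
  have h3 := ge_of_lim_left hmono hNl ht
  rw [hGK t ht'] at h3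
  have h4 := hKp t ht'
  by_contra hc
  have : K t * 1 < K t * Re a b f t := mul_lt_mul_of_pos_left (not_le.1 hc) h4
  linarith

/-- the Wronskian tends to `0` at the nut -/
lemma DD_0 {j k e : ℝ} (hj : 0 < j) (he : -2 < e) (hG : ∀ t ∈ Ioo 0 T, Ge q a b f t < 0) :
    Tendsto (DD q j k e a b f) (𝓝[>] 0) (𝓝 0) := by
  have hf2 := O.f2T_pos hN hf0 hB hfT hb2 hneg (le_refl _) O.T_pos hG
  have hq : (2 : ℝ) ≤ q := by exact_mod_cast O.q_pos
  -- the factor
  have h1 : Tendsto (fun t => Real.exp (4 * Real.log (a t / b t) + (q + e) * Real.log (b t)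
      - (1 - k) * f t + j * Real.log (deriv (deriv f) T))) (𝓝[>] 0) (𝓝 0) := by
    refine Real.tendsto_exp_atBot.comp ?_
    have g1 : Tendsto (fun t => 4 * Real.log (a t / b t) - (1 - k) * f t
        + j * Real.log (deriv (deriv f) T)) (𝓝[>] 0)
        (𝓝 (4 * Real.log 1 - (1 - k) * f 0 + j * Real.log (deriv (deriv f) T))) := by
      refine (Tendsto.sub ?_
        (((O.lim_f 0).mono_left (nhdsWithin_le_nhds (s := Ioi 0))).const_mul _)).add_const _
      exact ((Real.continuousAt_log one_ne_zero).tendsto.comp (O.nut_ab hN)).const_mul _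
    have g2 : Tendsto (fun t => (q + e) * Real.log (b t)) (𝓝[>] 0) atBot := by
      refine Tendsto.const_mul_atBot (by linarith) (Real.tendsto_log_nhdsGT_zero.comp ?_)
      refine tendsto_nhdsWithin_iff.2 ⟨O.l_b hN, ?_⟩
      filter_upwards [O.ev_pos] with t ht using O.b_pos t ht
    refine (g2.atBot_add g1).congr fun t => ?_
    ring
  -- the bounded factor
  have h2 : ∀ᶠ t in 𝓝[>] (0 : ℝ), |YY q j k e a b f t| ≤ q * 3 + ((|q + 2 + e| * 2 + 4 + |1 - k|) + |j|) := by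
    have g1 : ∀ᶠ t in 𝓝[>] (0 : ℝ), Be a b t < 2 :=
      (tendsto_order.1 (O.l_Be hN)).2 _ (by norm_num)
    have g2 : ∀ᶠ t in 𝓝[>] (0 : ℝ), Ee a b t < 1 :=
      (tendsto_order.1 (O.l_Ee hN)).2 _ (by norm_num)
    have g3 : ∀ᶠ t in 𝓝[>] (0 : ℝ), Pe a b f t < 1 :=
      (tendsto_order.1 (O.l_Pe hN hf0)).2 _ (by norm_num)
    filter_upwards [g1, g2, g3, O.Re_le hN hf0 hB hfT hb2 hneg hG, O.ev_pos] with t k1 k2 k3 k4 ht
    have k5 := (O.Ge_neg_iff ht (hneg t ht)).1 (hG t ht)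
    have k6 := O.Be_pos hN hB hb2 ht
    have k7 := O.Pe_pos hneg ht
    have k8 : 0 ≤ Ee a b t := by
      rw [O.E_eq ht]; exact mul_nonneg (O.zU_nn hN hf0 hB hb2 ht) (O.U_pos ht).le
    have k9 : |ss q j k e a b f t| ≤ (|q + 2 + e| * 2 + 4 + |1 - k|) + |j| := by
      have e1 : ss q j k e a b f t = ((q + 2 + e) * Be a b t - 4 * Ee a b t
          + (1 - k) * Pe a b f t) + j * Re a b f t := by
        unfold ss; ring
      rw [e1]
      have a1 : |(q + 2 + e) * Be a b t| ≤ |q + 2 + e| * 2 := by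
        rw [abs_mul, abs_of_pos k6]
        exact mul_le_mul_of_nonneg_left k1.le (abs_nonneg _)
      have a2 : |4 * Ee a b t| ≤ 4 := by
        rw [abs_of_nonneg (by positivity)]; linarith
      have a3 : |(1 - k) * Pe a b f t| ≤ |1 - k| := by
        rw [abs_mul, abs_of_pos k7]
        exact mul_le_of_le_one_right (abs_nonneg _) k3.le
      have a4 : |j * Re a b f t| ≤ |j| := by
        rw [abs_mul, abs_of_pos k5]
        exact mul_le_of_le_one_right (abs_nonneg _) k4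
      calc |((q + 2 + e) * Be a b t - 4 * Ee a b t + (1 - k) * Pe a b f t) + j * Re a b f t|
          ≤ |(q + 2 + e) * Be a b t - 4 * Ee a b t + (1 - k) * Pe a b f t| + |j * Re a b f t| :=
            abs_add_le _ _
        _ ≤ (|(q + 2 + e) * Be a b t - 4 * Ee a b t| + |(1 - k) * Pe a b f t|)
            + |j * Re a b f t| := by gcongr; exact abs_add_le _ _
        _ ≤ ((|(q + 2 + e) * Be a b t| + |4 * Ee a b t|) + |(1 - k) * Pe a b f t|)
            + |j * Re a b f t| := by gcongr; exact abs_sub _ _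
        _ ≤ _ := by gcongr
    have k10 : |(q : ℝ) * (Be a b t ^ 2 - 1)| ≤ (q : ℝ) * 3 := by
      rw [abs_mul, abs_of_nonneg (by positivity : (0 : ℝ) ≤ q)]
      refine mul_le_mul_of_nonneg_left ?_ (by positivity)
      rw [abs_le]
      constructor <;> nlinarith
    have k11 : |Re a b f t * ss q j k e a b f t| ≤ 1 * ((|q + 2 + e| * 2 + 4 + |1 - k|) + |j|) := by
      rw [abs_mul, abs_of_pos k5]
      exact mul_le_mul k4 k9 (abs_nonneg _) zero_le_one
    calc |YY q j k e a b f t| ≤ |(q : ℝ) * (Be a b t ^ 2 - 1)|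
          + |Re a b f t * ss q j k e a b f t| := by
          unfold YY; exact abs_sub _ _
      _ ≤ (q : ℝ) * 3 + 1 * ((|q + 2 + e| * 2 + 4 + |1 - k|) + |j|) := add_le_add k10 k11
      _ = _ := by ring
  have h3 := h1.mul_const (q * 3 + ((|q + 2 + e| * 2 + 4 + |1 - k|) + |j|))
  rw [zero_mul] at h3
  refine squeeze_zero_norm' ?_ h3
  filter_upwards [h2, O.ev_pos] with t k1 ht
  have ha := O.a_pos t ht
  have hb := O.b_pos t ht
  have hp := O.pe_pos hneg ht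
  rw [Real.norm_eq_abs]
  unfold DD
  rw [abs_mul, abs_of_pos (Real.exp_pos _)]
  refine mul_le_mul (Real.exp_le_exp.2 ?_) k1 (abs_nonneg _) (Real.exp_pos _).le
  unfold LL
  rw [Real.log_div ha.ne' hb.ne']
  have k2 : Real.log (pe a f t) ≤ Real.log (deriv (deriv f) T) :=
    Real.log_le_log hp (O.pe_le hN hf0 hB hfT hb2 hneg (le_refl _) hG ht)
  have k3 := mul_le_mul_of_nonneg_left k2 hj.le
  linarith

/-- there is no soliton with a nut at `0`, a bolt at `T` and `f' < 0` -/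
theorem no_neg {m : ℕ} (hm : 1 ≤ m) (hqm : q = 2 * m) : False := by
  by_cases h : ∃ t1 ∈ Ioo 0 T, 0 ≤ Ge q a b f t1
  · obtain ⟨t1, ht1, h1⟩ := h
    exact O.caseA hN hf0 hB hfT hb2 hneg ht1 h1 hm hqm
  · push Not at h
    obtain ⟨j, k, e, hj, -, he, hJ⟩ := J2_pos m hm
    have hmono := O.DD_mono hN hf0 hB hfT hb2 hneg hqm hJ (le_refl _) h
    have hlim := O.DD_T hN hf0 hB hfT hb2 hneg j k e (le_refl _) O.T_pos h
    have hlim0 := O.DD_0 hN hf0 hB hfT hb2 hneg (k := k) hj he h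
    obtain ⟨t2, h9, h10⟩ := exists_between O.T_pos
    obtain ⟨t3, h11, h12⟩ := exists_between h10
    have h13 := hmono ⟨h9, h10⟩ ⟨h9.trans h11, h12⟩ h11
    have h14 := le_of_lim_right hmono.monotoneOn hlim (x := t3) ⟨h9.trans h11, h12⟩
    have h16 := ge_of_lim_left hmono.monotoneOn hlim0 (x := t2) ⟨h9, h10⟩
    linarith

end

end HData

end

end RS61
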