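import Mathlib
import Pool.Agent.RS61.HCon

/-!
# A nut, a bolt and `f' > 0`; two nuts; the conclusion
-/

open Set Filter Topology
open scoped ContDiff

set_option linter.unusedSectionVars false

namespace RS61

noncomputable section

/-- a monotone function with the same limit at both ends is constant -/
lemma const_of_lims {F : ℝ → ℝ} {s t c : ℝ} (hm : MonotoneOn F (Ioo s t))
    (h0 : Tendsto F (𝓝[>] s) (𝓝 c)) (h1 : Tendsto F (𝓝[<] t) (𝓝 c)) {x : ℝ} (hx : x ∈ Ioo s t) :
    F x = c :=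
  le_antisymm (le_of_lim_right hm h1 hx) (ge_of_lim_left hm h0 hx)

/-- there is no strictly monotone function with the same limit at both ends -/
lemma not_strict {F : ℝ → ℝ} {s t c : ℝ} (hst : s < t) (hm : StrictMonoOn F (Ioo s t))
    (h0 : Tendsto F (𝓝[>] s) (𝓝 c)) (h1 : Tendsto F (𝓝[<] t) (𝓝 c)) : False := by
  obtain ⟨x, h2, h3⟩ := exists_between hst
  obtain ⟨y, h4, h5⟩ := exists_between h3
  have h6 := const_of_lims hm.monotoneOn h0 h1 (x := x) ⟨h2, h3⟩
  have h7 := const_of_lims hm.monotoneOn h0 h1 (x := y) ⟨h2.trans h4, h5⟩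
  have h8 := hm ⟨h2, h3⟩ ⟨h2.trans h4, h5⟩ h4
  linarith

namespace HData

variable {T lam : ℝ} {q : ℕ} {a b f : ℝ → ℝ}

section

variable (O : HData T lam q a b f) (hN : Nut a b 0 1) (hf0 : deriv f 0 = 0)
  (hB : Bolt a b T (-1)) (hfT : deriv f T = 0) (hb2 : ∀ t ∈ Ioo 0 T, deriv (deriv b) t < 0)
  (hpos : ∀ t ∈ Ioo 0 T, 0 < deriv f t)

include O hN hf0 hB hfT hb2 hpos

/-- `β = 1` and `R = 0` -/
lemma be_one : ∀ t ∈ Ioo 0 T, Be a b t = 1 ∧ Re a b f t = 0 := by
  set Z : ℝ → ℝ := fun t => Ge q a b f t * (Be a b t ^ 2 - 1) / b t ^ 2 with hZ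
  set K : ℝ → ℝ := fun t => a t ^ 3 * b t ^ q / b t ^ 2 * Real.exp (-f t) * deriv f t with hK
  have hq : (2 : ℝ) ≤ q := by exact_mod_cast O.q_pos
  have hKp : ∀ t ∈ Ioo 0 T, 0 < K t := by
    intro t ht
    have ha := O.a_pos t ht
    have hb := O.b_pos t ht
    exact mul_pos (by positivity) (hpos t ht)
  have hPn : ∀ t ∈ Ioo 0 T, 0 < -Pe a b f t := by
    intro t ht
    have ha := O.a_pos t ht
    have hb := O.b_pos t ht
    have hf := hpos t ht
    have e : -Pe a b f t = b t ^ 2 * (deriv f t / a t) := by unfold Pe pe; ring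
    rw [e]
    positivity
  have hZd : ∀ t ∈ Ioo 0 T, HasDerivAt Z (rr a b t * K t / b t ^ 2 * (q * (Be a b t ^ 2 - 1) ^ 2
      + 2 * Be a b t * (-Pe a b f t) * Re a b f t ^ 2 / q)) t := by
    intro t ht
    have ha0 := (O.a_pos t ht).ne'
    have hb0 := (O.b_pos t ht).ne'
    have hq0 := O.q_ne
    have h1 := ((O.hGe ht).mul (((O.hBe hN hf0 ht (hpos t ht).ne').pow 2).sub_const 1)).div
      ((O.hb t).pow 2) (pow_ne_zero 2 hb0)
    refine h1.congr_deriv ?_
    simp only [Pi.mul_apply, Pi.pow_apply, Nat.cast_ofNat, Nat.reduceSub, pow_one]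
    have e1 := O.Ge_eq ht (hpos t ht).ne'
    have e2 : deriv b t = rr a b t * (Be a b t * b t) := by
      unfold rr Be; field_simp
    rw [e1, e2]
    simp only [hK]
    field_simp
    ring
  have hZ0 : ∀ t ∈ Ioo 0 T, 0 ≤ rr a b t * K t / b t ^ 2 * (q * (Be a b t ^ 2 - 1) ^ 2
      + 2 * Be a b t * (-Pe a b f t) * Re a b f t ^ 2 / q) := by
    intro t ht
    have h1 := O.rr_pos ht
    have h2 := hKp t ht
    have h3 := hPn t ht
    have h4 := O.Be_pos hN hB hb2 ht
    have h5 := O.b_pos t ht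
    have h6 : 0 ≤ 2 * Be a b t * (-Pe a b f t) * Re a b f t ^ 2 / q := by positivity
    have h7 : 0 ≤ q * (Be a b t ^ 2 - 1) ^ 2 := by positivity
    have h8 : 0 < rr a b t * K t / b t ^ 2 := by positivity
    exact mul_nonneg h8.le (add_nonneg h7 h6)
  have hmono : MonotoneOn Z (Ioo 0 T) := mono_Ioo hZd hZ0
  -- limits
  have hl0 : Tendsto Z (𝓝[>] 0) (𝓝 0) := by
    have hq2 : ∃ n, q = n + 2 := ⟨q - 2, by have := O.q_pos; omega⟩
    obtain ⟨n, hn⟩ := hq2
    have h1 := ((((O.l_a hN).mul ((O.l_b hN).pow n)).mul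
      ((O.lim_f 0).mono_left (nhdsWithin_le_nhds (s := Ioi 0))).neg.rexp).mul
      (((O.l_a hN).mul ((O.lim_f2 0).mono_left (nhdsWithin_le_nhds (s := Ioi 0)))).sub
      ((O.l_a1 hN).mul (O.l_f1 hf0)))).mul (((O.l_Be hN).pow 2).sub_const 1)
    have e : (0 : ℝ) * 0 ^ n * Real.exp (-f 0) * (0 * deriv (deriv f) 0 - 1 * 0) * (1 ^ 2 - 1)
      = 0 := by ring
    rw [e] at h1
    refine h1.congr' ?_
    filter_upwards [O.ev_pos] with t ht
    have hb0 := (O.b_pos t ht).ne'
    simp only [hZ]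
    unfold Ge
    rw [hn, pow_add]
    field_simp
  have hlT : Tendsto Z (𝓝[<] T) (𝓝 0) := by
    have h0 : Tendsto (Ge q a b f) (𝓝[<] T) (𝓝 0) := by
      have h1 := (((O.k_a hB).mul (O.k_b.pow q)).mul (O.k_f.neg.rexp)).mul
        (((O.k_a hB).mul O.k_f2).sub ((O.k_a1 hB).mul
          ((O.lim_f1 T).mono_left (nhdsWithin_le_nhds (s := Iio T)))))
      have e : 0 * b T ^ q * Real.exp (-f T) * (0 * deriv (deriv f) T - -1 * deriv f T) = 0 := by
        ring
      rw [e] at h1
      exact h1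
    have h1 := (h0.mul (((O.k_Be hB).pow 2).sub_const 1)).div (O.k_b.pow 2)
      (pow_ne_zero 2 hB.b0.ne')
    rw [zero_mul, zero_div] at h1
    exact h1
  intro t ht
  have hz : HasDerivAt Z 0 t := by
    refine (hasDerivAt_const t (0 : ℝ)).congr_of_eventuallyEq ?_
    filter_upwards [isOpen_Ioo.mem_nhds ht] with x hx using const_of_lims hmono hl0 hlT hx
  have h1 := (hZd t ht).unique hz
  have h2 := O.rr_pos ht
  have h3 := hKp t ht
  have h4 := hPn t ht
  have h5 := O.Be_pos hN hB hb2 ht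
  have h6 := O.b_pos t ht
  have h7 := (mul_eq_zero.1 h1).resolve_left (by positivity)
  have h8 : 0 ≤ 2 * Be a b t * (-Pe a b f t) * Re a b f t ^ 2 / q := by positivity
  have h9 : 0 ≤ q * (Be a b t ^ 2 - 1) ^ 2 := by positivity
  have h10 : q * (Be a b t ^ 2 - 1) ^ 2 = 0 := by linarith
  have h11 : 2 * Be a b t * (-Pe a b f t) * Re a b f t ^ 2 / q = 0 := by linarith
  constructor
  · have h12 := (mul_eq_zero.1 h10).resolve_left O.q_ne
    have h13 := pow_eq_zero_iff (two_ne_zero) |>.1 h12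
    nlinarith
  · have h12 := (div_eq_zero_iff.1 h11).resolve_right O.q_ne
    have h13 := (mul_eq_zero.1 h12).resolve_left (by positivity)
    exact pow_eq_zero_iff (two_ne_zero) |>.1 h13

/-- there is no soliton with a nut at `0`, a bolt at `T` and `f' > 0` -/
theorem no_pos : False := by
  have h1 := O.be_one hN hf0 hB hfT hb2 hpos
  have hq : (2 : ℝ) ≤ q := by exact_mod_cast O.q_pos
  have hβT : βT b T = 1 := by
    refine tendsto_nhds_unique (O.k_Be hB) (tendsto_const_nhds.congr' ?_)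
    filter_upwards [Ioo_mem_nhdsLT O.T_pos] with t ht using (h1 t ht).1.symm
  have hlT := O.lam_T hB hN hf0 hfT (fun t ht => (hpos t ht).ne')
  rw [hβT] at hlT
  set S : ℝ → ℝ := fun t => b t ^ q * (a t ^ 2 - b t ^ 2 + lam / (q + 4) * b t ^ 4) with hS
  have hd : ∀ t ∈ Ioo 0 T, HasDerivAt S (rr a b t * (-Pe a b f t) * a t ^ 2 * b t ^ q) t := by
    intro t ht
    have ha0 := (O.a_pos t ht).ne'
    have hb0 := (O.b_pos t ht).ne'
    have hq4 : (q : ℝ) + 4 ≠ 0 := by positivity
    obtain ⟨e1, e2⟩ := h1 t ht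
    have h2 := (O.hbq t ht).mul ((((O.ha t).pow 2).sub ((O.hb t).pow 2)).add
      (((O.hb t).pow 4).const_mul (lam / (q + 4))))
    refine h2.congr_deriv ?_
    have e3 := O.lam_eq hN hf0 ht (hpos t ht).ne'
    rw [e1, e2] at e3
    have e4 : deriv b t = a t / b t := by
      unfold Be at e1
      field_simp at e1 ⊢
      linarith
    simp only [Pi.pow_apply, Pi.sub_apply, Pi.add_apply, Nat.cast_ofNat, Nat.reduceSub, pow_one]
    have e5 : deriv a t = a t / b t ^ 2 * a t * (1 - Ee a b t) / 1 := by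
      unfold Ee
      rw [e4]
      field_simp
      ring
    have e6 : Ee a b t = (lam * b t ^ 2 * U a b t - (q + 2) * U a b t + 1 + (q + 1)
      + Pe a b f t) / 2 := by
      rw [e3]
      ring
    rw [e5, e4, e6]
    unfold rr U
    field_simp
    ring
  have hmono : StrictMonoOn S (Ioo 0 T) := by
    refine strictMono_Ioo hd (fun t ht => ?_)
    have ha := O.a_pos t ht
    have hb := O.b_pos t ht
    have hf := hpos t ht
    have hr := O.rr_pos ht
    have e : -Pe a b f t = b t ^ 2 * (deriv f t / a t) := by unfold Pe pe; ring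
    rw [e]
    positivity
  refine not_strict (c := 0) O.T_pos hmono ?_ ?_
  · have h2 := (O.lim_bq hN).mul ((((O.l_a hN).pow 2).sub ((O.l_b hN).pow 2)).add
      (((O.l_b hN).pow 4).const_mul (lam / (q + 4))))
    rw [zero_mul] at h2
    exact h2
  · have h2 := (O.k_b.pow q).mul ((((O.k_a hB).pow 2).sub (O.k_b.pow 2)).add
      ((O.k_b.pow 4).const_mul (lam / (q + 4))))
    have hq4 : (q : ℝ) + 4 ≠ 0 := by positivity
    have e : b T ^ q * (0 ^ 2 - b T ^ 2 + lam / (q + 4) * b T ^ 4) = 0 := by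
      have e1 : lam / (q + 4) * b T ^ 4 = b T ^ 2 := by
        rw [show lam / (q + 4) * b T ^ 4 = (lam * b T ^ 2) * b T ^ 2 / (q + 4) by ring, hlT]
        field_simp
        ring
      rw [e1]
      ring
    rw [e] at h2
    exact h2

end

section nn

variable (O : HData T lam q a b f) (hN : Nut a b 0 1) (hf0 : deriv f 0 = 0)
  (hT : Nut a b T (-1)) (hfT : deriv f T = 0) (hb2 : ∀ t ∈ Ioo 0 T, deriv (deriv b) t < 0)

include O hN hf0 hT hfT hb2

lemma lim_prod_T : Tendsto (fun t => sU a b t * zM q a b f t) (𝓝[<] T) (𝓝 0) := by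
  have hab : Tendsto (fun t => a t / b t) (𝓝[<] T) (𝓝 1) := by
    have := (tendsto_quot (O.ha T) (O.hb T) hT.a0 hT.b0 (by rw [hT.b1]; norm_num)).mono_left
      nhdsLT_le_ne
    rwa [hT.a1, hT.b1, div_self (by norm_num)] at this
  have hb : Tendsto b (𝓝[<] T) (𝓝 0) := by
    have := (O.lim_b T).mono_left (nhdsWithin_le_nhds (s := Iio T)); rwa [hT.b0] at this
  have h1 := ((hab.pow 2).const_sub 1).mul (((hb.pow q).mul
    ((O.lim_f T).mono_left (nhdsWithin_le_nhds (s := Iio T))).neg.rexp).mul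
    ((hab.mul ((O.lim_b1 T).mono_left (nhdsWithin_le_nhds (s := Iio T)))).sub
      ((O.lim_a1 T).mono_left (nhdsWithin_le_nhds (s := Iio T)))))
  have e : (1 - (1 : ℝ) ^ 2) * (0 ^ q * Real.exp (-f T) * (1 * deriv b T - deriv a T)) = 0 := by
    ring
  rw [e] at h1
  refine h1.congr fun t => ?_
  unfold sU zM zU
  ring

/-- two nuts: `f'` is not of one sign -/
theorem no_nn (hs : (∀ t ∈ Ioo 0 T, 0 < deriv f t) ∨ (∀ t ∈ Ioo 0 T, deriv f t < 0)) : False := by
  have hab : ∀ t ∈ Ioo 0 T, a t = b t := by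
    intro t ht
    have h1 := (O.zU_zero hN hf0 (O.lim_prod_T hN hf0 hT hfT hb2) ht).2
    have ha := O.a_pos t ht
    have hb := O.b_pos t ht
    unfold sU at h1
    have h2 : a t ^ 2 / b t ^ 2 = 1 := by linarith
    rw [div_eq_one_iff_eq (by positivity)] at h2
    exact (pow_left_inj₀ ha.le hb.le two_ne_zero).1 h2
  have hβ : ∀ t ∈ Ioo 0 T, Be a b t ^ 2 - 1 < 0 := by
    intro t ht
    have h1 := O.b1_lt hN hb2 ht
    have h2 : -1 < deriv b t := by
      have := O.b1_anti hN hb2 ⟨ht.1.le, ht.2.le⟩ ⟨O.T_pos.le, le_refl _⟩ ht.2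
      rwa [hT.b1] at this
    have h3 : Be a b t = deriv b t := by
      have hb := O.b_pos t ht
      unfold Be
      rw [hab t ht]
      field_simp
    rw [h3]
    nlinarith
  have hq : (2 : ℝ) ≤ q := by exact_mod_cast O.q_pos
  have ha : Tendsto a (𝓝[<] T) (𝓝 0) := by
    have := (O.lim_a T).mono_left (nhdsWithin_le_nhds (s := Iio T)); rwa [hT.a0] at this
  have hGT : Tendsto (Ge q a b f) (𝓝[<] T) (𝓝 0) := by
    have h1 := (((ha.mul ((O.lim_b T).mono_left (nhdsWithin_le_nhds (s := Iio T)) |>.pow q))).mul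
      ((O.lim_f T).mono_left (nhdsWithin_le_nhds (s := Iio T))).neg.rexp).mul
      ((ha.mul ((O.lim_f2 T).mono_left (nhdsWithin_le_nhds (s := Iio T)))).sub
      (((O.lim_a1 T).mono_left (nhdsWithin_le_nhds (s := Iio T))).mul
        ((O.lim_f1 T).mono_left (nhdsWithin_le_nhds (s := Iio T)))))
    have e : (0 : ℝ) * b T ^ q * Real.exp (-f T)
      * (0 * deriv (deriv f) T - deriv a T * deriv f T) = 0 := by ring
    rw [e] at h1
    exact h1
  rcases hs with hs | hs
  · refine not_strict (F := fun t => -Ge q a b f t) (c := 0) O.T_pos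
      (strictMono_Ioo (fun t ht => (O.hGe ht).neg) (fun t ht => ?_)) ?_ ?_
    · have h1 := O.rr_pos ht
      have h2 := hβ t ht
      have ha := O.a_pos t ht
      have hb := O.b_pos t ht
      have hf := hs t ht
      have h3 : 0 < a t ^ 3 * b t ^ q / b t ^ 2 * Real.exp (-f t) * deriv f t := by positivity
      have h4 : q * (Be a b t ^ 2 - 1) < 0 := mul_neg_of_pos_of_neg (by linarith) h2
      have h5 := mul_pos h1 (mul_pos (neg_pos.2 h4) h3)
      linarith
    · simpa using (O.lim_Ge hN hf0).neg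
    · simpa using hGT.neg
  · refine not_strict (F := Ge q a b f) (c := 0) O.T_pos
      (strictMono_Ioo (fun t ht => (O.hGe ht)) (fun t ht => ?_)) (O.lim_Ge hN hf0) hGT
    have h1 := O.rr_pos ht
    have h2 := hβ t ht
    have ha := O.a_pos t ht
    have hb := O.b_pos t ht
    have hf := hs t ht
    have h3 : a t ^ 3 * b t ^ q / b t ^ 2 * Real.exp (-f t) * deriv f t < 0 :=
      mul_neg_of_pos_of_neg (by positivity) hf
    have h4 : q * (Be a b t ^ 2 - 1) < 0 := mul_neg_of_pos_of_neg (by linarith) h2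
    exact mul_pos h1 (mul_pos_of_neg_of_neg h4 h3)

end nn

end HData

end

end RS61
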