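import Mathlib
import Pool.Agent.RS61.HPosi

/-!
# The equations of a soliton `dt² + a² η² + b² k` with `b'' < 0`: `f' = 0`
-/

open Set Filter Topology
open scoped ContDiff

set_option linter.unusedSectionVars false

namespace RS61

noncomputable section

namespace HData

variable {T lam : ℝ} {q : ℕ} {a b f : ℝ → ℝ}

/-- the reversed data -/
lemma rev (O : HData T lam q a b f) :
    HData T lam q (fun t => a (T - t)) (fun t => b (T - t)) (fun t => f (T - t)) := by
  have d1 : ∀ u : ℝ → ℝ, deriv (fun t => u (T - t)) = fun t => -deriv u (T - t) :=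
    fun u => funext fun t => deriv_comp_const_sub _ _ _
  have d2 : ∀ u : ℝ → ℝ, deriv (deriv (fun t => u (T - t))) = fun t => deriv (deriv u) (T - t) := by
    intro u
    rw [d1]
    funext t
    rw [deriv.fun_neg, deriv_comp_const_sub, neg_neg]
  have d3 : ∀ u : ℝ → ℝ, deriv (deriv (deriv (fun t => u (T - t))))
      = fun t => -deriv (deriv (deriv u)) (T - t) := by
    intro u
    rw [d2]
    exact funext fun t => deriv_comp_const_sub _ _ _
  have hin : ∀ t ∈ Ioo 0 T, T - t ∈ Ioo 0 T := fun t ht => ⟨by linarith [ht.2], by linarith [ht.1]⟩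
  refine ⟨O.T_pos, O.lam_pos, O.q_pos, O.a_smooth.comp (contDiff_const.sub contDiff_id),
    O.b_smooth.comp (contDiff_const.sub contDiff_id),
    O.f_smooth.comp (contDiff_const.sub contDiff_id), fun t ht => O.a_pos _ (hin t ht),
    fun t ht => O.b_pos _ (hin t ht), ?_, ?_, ?_⟩
  · intro t ht
    simp only [d2]
    exact O.tt _ (hin t ht)
  · intro t ht
    rw [d2 a]
    simp only [d1]
    have := O.th _ (hin t ht)
    rw [this]
    ring
  · intro t ht
    rw [d3 f, d2 f]
    simp only [d1]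
    have := O.bi _ (hin t ht)
    rw [this]
    ring

lemma nut_rev (h : Nut a b T (-1)) : Nut (fun t => a (T - t)) (fun t => b (T - t)) 0 1 := by
  refine ⟨by simpa using h.a0, ?_, by simpa using h.b0, ?_⟩
  · rw [deriv_comp_const_sub, sub_zero, h.a1, neg_neg]
  · rw [deriv_comp_const_sub, sub_zero, h.b1, neg_neg]

lemma bolt_rev (h : Bolt a b 0 1) : Bolt (fun t => a (T - t)) (fun t => b (T - t)) T (-1) := by
  refine ⟨by simpa using h.a0, ?_, by simpa using h.b0, ?_⟩
  · rw [deriv_comp_const_sub, sub_self, h.a1]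
  · rw [deriv_comp_const_sub, sub_self, h.b1, neg_zero]

/-- the data of the normal geodesic -/
lemma cData (O : HData T lam q a b f) : CData T lam f
    (fun t => deriv a t / a t + q * (deriv b t / b t))
    (fun t => (deriv a t / a t) ^ 2 + q * (deriv b t / b t) ^ 2)
    (fun t => a t ^ 2 * (b t ^ q) ^ 2) := by
  have hσ : ∀ t ∈ Ioo 0 T, HasDerivAt (fun t => deriv a t / a t + q * (deriv b t / b t))
      (deriv (deriv a) t / a t - (deriv a t / a t) ^ 2
        + q * (deriv (deriv b) t / b t - (deriv b t / b t) ^ 2)) t := by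
    intro t ht
    have ha0 := (O.a_pos t ht).ne'
    have hb0 := (O.b_pos t ht).ne'
    refine (((O.ha1 t).div (O.ha t) ha0).add (((O.hb1 t).div (O.hb t) hb0).const_mul
      (q : ℝ))).congr_deriv ?_
    field_simp
  have hq : (2 : ℝ) ≤ q := by exact_mod_cast O.q_pos
  refine ⟨O.T_pos, O.lam_pos, O.f_smooth, ?_, ?_, fun t ht => (hσ t ht).differentiableAt, ?_, ?_,
    ?_, ?_, ?_⟩
  · intro t ht
    have ha := O.a_pos t ht
    have hb := O.b_pos t ht
    positivity
  · intro t ht
    have ha0 := (O.a_pos t ht).ne'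
    have hb0 := (O.b_pos t ht).ne'
    refine (((O.ha t).pow 2).mul ((O.hbq t ht).pow 2)).congr_deriv ?_
    simp only [Pi.pow_apply, Nat.cast_ofNat, Nat.reduceSub, pow_one]
    field_simp
  · intro t ht
    have ha0 := (O.a_pos t ht).ne'
    have hb0 := (O.b_pos t ht).ne'
    exact (((((O.ha1 t).div (O.ha t) ha0).pow 2).add ((((O.hb1 t).div (O.hb t) hb0).pow 2).const_mul
      (q : ℝ))).continuousAt).continuousWithinAt
  · intro t ht
    positivity
  · intro t ht h
    have h1 : 0 ≤ (deriv a t / a t) ^ 2 := sq_nonneg _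
    have h2 : 0 ≤ q * (deriv b t / b t) ^ 2 := by positivity
    have h3 : (deriv a t / a t) ^ 2 = 0 := by linarith
    have h4 : q * (deriv b t / b t) ^ 2 = 0 := by linarith
    have h5 := pow_eq_zero_iff (two_ne_zero) |>.1 h3
    have h6 := pow_eq_zero_iff (two_ne_zero) |>.1 ((mul_eq_zero.1 h4).resolve_left (by linarith))
    rw [h5, h6, mul_zero, add_zero]
  · intro t ht
    rw [(hσ t ht).deriv, O.tt t ht]
    ring
  · intro t ht
    rw [(hσ t ht).deriv, O.bi t ht, O.tt t ht]
    ring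

/-- `f'` vanishes identically or has no zeros -/
lemma trich (O : HData T lam q a b f) (h0 : deriv f 0 = 0) (hT : deriv f T = 0) :
    (∀ t ∈ Icc 0 T, deriv f t = 0) ∨
      ((∀ t ∈ Ioo 0 T, 0 < deriv f t) ∨ (∀ t ∈ Ioo 0 T, deriv f t < 0)) := by
  by_cases h1 : ∃ t ∈ Ioo 0 T, deriv f t = 0
  · left
    obtain ⟨t1, ht1, h2⟩ := h1
    exact O.cData.df_eq_zero ht1 h0 h2 hT
  · right
    push Not at h1
    have hc : ContinuousOn (deriv f) (Ioo 0 T) := O.f1_smooth.continuous.continuousOn
    by_contra hcon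
    push Not at hcon
    obtain ⟨⟨s, hs, hs'⟩, ⟨u, hu, hu'⟩⟩ := hcon
    have h2 : (0 : ℝ) ∈ deriv f '' Ioo 0 T :=
      (isPreconnected_Ioo.image (deriv f) hc).ordConnected.out ⟨s, hs, rfl⟩ ⟨u, hu, rfl⟩ ⟨hs', hu'⟩
    obtain ⟨t, ht, h3⟩ := h2
    exact h1 t ht h3

/-- a nut and a bolt -/
lemma nut_bolt (O : HData T lam q a b f) (hN : Nut a b 0 1) (hB : Bolt a b T (-1))
    (h0 : deriv f 0 = 0) (hT : deriv f T = 0) (hb2 : ∀ t ∈ Ioo 0 T, deriv (deriv b) t < 0)
    {m : ℕ} (hm : 1 ≤ m) (hqm : q = 2 * m) : ∀ t ∈ Icc 0 T, deriv f t = 0 := by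
  rcases O.trich h0 hT with h | h | h
  · exact h
  · exact (O.no_pos hN h0 hB hT hb2 h).elim
  · exact (O.no_neg hN h0 hB hT hb2 h hm hqm).elim

/-- **the theorem on the equations** -/
theorem f1_zero (O : HData T lam q a b f) (h0 : Nut a b 0 1 ∨ Bolt a b 0 1)
    (h1 : Nut a b T (-1) ∨ Bolt a b T (-1))
    (hf0 : deriv f 0 = 0) (hfT : deriv f T = 0) (hb2 : ∀ t ∈ Ioo 0 T, deriv (deriv b) t < 0)
    {m : ℕ} (hm : 1 ≤ m) (hqm : q = 2 * m) : ∀ t ∈ Icc 0 T, deriv f t = 0 := by
  rcases h0 with h0 | h0 <;> rcases h1 with h1 | h1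
  · -- two nuts
    rcases O.trich hf0 hfT with h | h
    · exact h
    · exact (O.no_nn h0 hf0 h1 hfT hb2 h).elim
  · exact O.nut_bolt h0 h1 hf0 hfT hb2 hm hqm
  · -- a bolt and a nut
    have d1 : ∀ u : ℝ → ℝ, deriv (fun t => u (T - t)) = fun t => -deriv u (T - t) :=
      fun u => funext fun t => deriv_comp_const_sub _ _ _
    have h2 := O.rev.nut_bolt (nut_rev h1) (bolt_rev h0)
      (by rw [d1]; simp only [sub_zero, hfT, neg_zero])
      (by rw [d1]; simp only [sub_self, hf0, neg_zero])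
      (by
        intro t ht
        have e : deriv (deriv fun t => b (T - t)) t = deriv (deriv b) (T - t) := by
          rw [d1, deriv.fun_neg, deriv_comp_const_sub, neg_neg]
        rw [e]
        exact hb2 _ ⟨by linarith [ht.2], by linarith [ht.1]⟩) hm hqm
    intro t ht
    have h3 := h2 (T - t) ⟨by linarith [ht.2], by linarith [ht.1]⟩
    rw [d1] at h3
    simp only [sub_sub_cancel] at h3
    linarith
  · -- two bolts
    exfalso
    have h2 : StrictAntiOn (deriv b) (Icc 0 T) := by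
      refine strictAntiOn_of_deriv_neg (convex_Icc _ _) O.b1_smooth.continuous.continuousOn ?_
      intro s hs
      rw [interior_Icc] at hs
      exact hb2 s hs
    have h3 := h2 ⟨le_refl _, O.T_pos.le⟩ ⟨O.T_pos.le, le_refl _⟩ O.T_pos
    rw [h0.b1, h1.b1] at h3
    exact lt_irrefl _ h3

end HData

end

end RS61
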