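import Mathlib
import Pool.Agent.RS61.Soliton

/-!
# The metric `dt² + a(t)² (dθ + α)² + b(t)² k` over a commutative ring with derivations
-/

open Finset

set_option linter.unusedSectionVars false
set_option linter.unusedSimpArgs false

namespace RS61

noncomputable section

variable {κ : Type} [Fintype κ] [DecidableEq κ] {A : Type} [CommRing A] [Algebra ℝ A]

/-- the data: `h = a² η η + b² K` in the coordinates `θ = none`, `y_i = some i`; `η none = 1`; `K` is the metric
of the base with the inverse `ki`; `dη = F` satisfies `F ki Fᵀ = 4 K` -/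
structure HB (B : BData Empty (Option κ) A) (a ai b bi : A) (η : Option κ → A)
    (K : Option κ → Option κ → A) (ki : κ → κ → A) : Prop where
  aa : ai * a = 1
  bb : bi * b = 1
  h_eq : ∀ i j, B.h i j = a ^ 2 * (η i * η j) + b ^ 2 * K i j
  η0 : η none = 1
  K0 : ∀ j, K none j = 0
  K_symm : ∀ i j, K i j = K j i
  tη : ∀ i, B.D none (η i) = 0
  tK : ∀ i j, B.D none (K i j) = 0
  ya : ∀ i, B.D (some (Sum.inr i)) a = 0
  yb : ∀ i, B.D (some (Sum.inr i)) b = 0
  θη : ∀ i, B.D (some (Sum.inr none)) (η i) = 0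
  θK : ∀ i j, B.D (some (Sum.inr none)) (K i j) = 0
  ki_symm : ∀ i j, ki i j = ki j i
  ki_inv : ∀ i j, ∑ l, ki i l * K (some j) (some l) = if i = j then 1 else 0
  hF : ∀ i j : κ, ∑ l, ∑ p,
    (B.D (some (Sum.inr (some i))) (η (some l)) - B.D (some (Sum.inr (some l))) (η (some i)))
      * ki l p * (B.D (some (Sum.inr (some j))) (η (some p))
        - B.D (some (Sum.inr (some p))) (η (some j))) = 4 * K (some i) (some j)

namespace HB

variable {B : BData Empty (Option κ) A} {a ai b bi : A} {η : Option κ → A}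
    {K : Option κ → Option κ → A} {ki : κ → κ → A} (H : HB B a ai b bi η K ki)

include H

lemma K0' (j : Option κ) : K j none = 0 := by rw [H.K_symm, H.K0]

lemma asq : ai ^ 2 * a ^ 2 = 1 := by rw [← mul_pow, H.aa, one_pow]
lemma bsq : bi ^ 2 * b ^ 2 = 1 := by rw [← mul_pow, H.bb, one_pow]

lemma w_eq (i : Option κ) : ∑ l, B.hi i l * η l = if i = none then ai ^ 2 else 0 := by
  have h1 := B.h_inv i none
  have h2 : ∑ l, B.hi i l * B.h none l = a ^ 2 * ∑ l, B.hi i l * η l := by
    rw [Finset.mul_sum]
    refine Finset.sum_congr rfl fun l _ => ?_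
    rw [H.h_eq, H.η0, H.K0]
    ring
  rw [h2] at h1
  calc ∑ l, B.hi i l * η l = ai ^ 2 * a ^ 2 * ∑ l, B.hi i l * η l := by rw [H.asq, one_mul]
    _ = ai ^ 2 * (a ^ 2 * ∑ l, B.hi i l * η l) := by ring
    _ = _ := by rw [h1]; split_ifs <;> ring

lemma hK_eq (i j : Option κ) : ∑ l, B.hi i l * K j l
    = bi ^ 2 * ((if i = j then 1 else 0) - if i = none then η j else 0) := by
  have h1 := B.h_inv i j
  have h2 : ∑ l, B.hi i l * B.h j l = a ^ 2 * η j * (∑ l, B.hi i l * η l)
      + b ^ 2 * ∑ l, B.hi i l * K j l := by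
    rw [Finset.mul_sum, Finset.mul_sum, ← Finset.sum_add_distrib]
    refine Finset.sum_congr rfl fun l _ => ?_
    rw [H.h_eq]
    ring
  rw [h2, H.w_eq] at h1
  have h3 : a ^ 2 * η j * (if i = none then ai ^ 2 else 0) = if i = none then η j else 0 := by
    split_ifs
    · linear_combination η j * H.asq
    · ring
  rw [h3] at h1
  calc ∑ l, B.hi i l * K j l = bi ^ 2 * b ^ 2 * ∑ l, B.hi i l * K j l := by rw [H.bsq, one_mul]
    _ = bi ^ 2 * (b ^ 2 * ∑ l, B.hi i l * K j l) := by ring
    _ = _ := by rw [← h1]; ring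

lemma hi_eq (i l : κ) : B.hi (some i) (some l) = bi ^ 2 * ki i l := by
  have h1 : ∀ j : κ, ∑ m : κ, B.hi (some i) (some m) * K (some j) (some m)
      = bi ^ 2 * if i = j then 1 else 0 := by
    intro j
    have := H.hK_eq (some i) (some j)
    rw [Fintype.sum_option, H.K0', mul_zero, zero_add] at this
    rw [this]
    simp
  have h2 : ∑ j, ki l j * ∑ m : κ, B.hi (some i) (some m) * K (some j) (some m)
      = B.hi (some i) (some l) := by
    calc ∑ j, ki l j * ∑ m : κ, B.hi (some i) (some m) * K (some j) (some m)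
        = ∑ j, ∑ m : κ, B.hi (some i) (some m) * (ki l j * K (some m) (some j)) := by
          refine Finset.sum_congr rfl fun j _ => ?_
          rw [Finset.mul_sum]
          refine Finset.sum_congr rfl fun m _ => ?_
          rw [H.K_symm (some j) (some m)]
          ring
      _ = ∑ m : κ, B.hi (some i) (some m) * ∑ j, ki l j * K (some m) (some j) := by
          rw [Finset.sum_comm]
          refine Finset.sum_congr rfl fun m _ => ?_
          rw [Finset.mul_sum]
      _ = _ := by
          simp only [H.ki_inv, mul_ite, mul_one, mul_zero, Finset.sum_ite_eq, Finset.mem_univ,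
            if_true]
  rw [← h2]
  simp only [h1, mul_ite, mul_one, mul_zero, Finset.sum_ite_eq, Finset.mem_univ, if_true]
  rw [H.ki_symm l i]
  ring

/-- `a' / a` -/
def Xa (_ : HB B a ai b bi η K ki) : A := ai * B.D none a
/-- `b' / b` -/
def Yb (_ : HB B a ai b bi η K ki) : A := bi * B.D none b

lemma Dh (i j : Option κ) : B.D none (B.h i j)
    = 2 * (a * B.D none a * (η i * η j) + b * B.D none b * K i j) := by
  rw [H.h_eq, map_add]
  simp only [Derivation.leibniz, Derivation.leibniz_pow, H.tη, H.tK, smul_eq_mul, mul_zero, add_zero,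
    smul_zero, zero_add, nsmul_eq_mul, Nat.cast_ofNat, Nat.reduceSub, pow_one]
  ring

lemma half (x : A) : (1 / 2 : ℝ) • (2 * x) = x := by
  rw [show (2 : A) * x = (2 : ℝ) • x by rw [two_smul]; ring, smul_smul]
  norm_num

lemma Dh_half (i j : Option κ) : (1 / 2 : ℝ) • B.D none (B.h i j)
    = a * B.D none a * (η i * η j) + b * B.D none b * K i j := by
  rw [H.Dh, H.half]

lemma S_eq' (i j : Option κ) : B.S i j = (if i = j then H.Yb else 0)
    + if i = none then (H.Xa - H.Yb) * η j else 0 := by
  have h1 : B.S i j = a * B.D none a * η j * (∑ l, B.hi i l * η l)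
      + b * B.D none b * ∑ l, B.hi i l * K j l := by
    unfold BData.S
    rw [Finset.smul_sum, Finset.mul_sum, Finset.mul_sum, ← Finset.sum_add_distrib]
    refine Finset.sum_congr rfl fun l _ => ?_
    rw [← mul_smul_comm, H.Dh_half]
    ring
  rw [h1, H.w_eq, H.hK_eq]
  unfold Xa Yb
  rcases i with _ | i
  · rcases j with _ | j
    · simp only [if_true, H.η0]
      linear_combination (ai * B.D none a) * H.aa
    · simp only [if_true, reduceCtorEq, if_false]
      linear_combination (η (some j) * ai * B.D none a) * H.aa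
        - (η (some j) * bi * B.D none b) * H.bb
  · by_cases hij : some i = j
    · subst hij
      simp only [if_true, reduceCtorEq, if_false]
      linear_combination (bi * B.D none b) * H.bb
    · simp only [hij, if_false, reduceCtorEq]
      ring

lemma σ_eq : B.σ = H.Xa + (Fintype.card κ : A) * H.Yb := by
  unfold BData.σ
  rw [Fintype.sum_option]
  simp only [H.S_eq', if_true, H.η0, reduceCtorEq, if_false, add_zero, Finset.sum_const,
    Finset.card_univ, nsmul_eq_mul]
  ring

lemma τ_eq : B.τ = H.Xa ^ 2 + (Fintype.card κ : A) * H.Yb ^ 2 := by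
  unfold BData.τ
  rw [Fintype.sum_option, Fintype.sum_option]
  simp only [Fintype.sum_option, H.S_eq', if_true, H.η0, reduceCtorEq, if_false, add_zero,
    zero_add, Option.some.injEq]
  have h1 : ∀ i : κ, ∑ j : κ, ((if i = j then H.Yb else 0) * if j = i then H.Yb else 0)
      = H.Yb ^ 2 := by
    intro i
    rw [Finset.sum_eq_single i]
    · simp [sq]
    · intro j _ hj
      simp [hj]
    · intro h; exact absurd (Finset.mem_univ _) h
  simp only [h1, mul_zero, zero_mul, Finset.sum_const_zero, add_zero, zero_add, Finset.sum_const,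
    Finset.card_univ, nsmul_eq_mul]
  ring

/-! ### The connection and the Ricci curvature in the direction of the circle -/

/-- the exterior derivative of `η` -/
def F (_ : HB B a ai b bi η K ki) (i l : Option κ) : A :=
  B.D (some (Sum.inr i)) (η l) - B.D (some (Sum.inr l)) (η i)

lemma F_anti (i l : Option κ) : H.F i l = -H.F l i := by unfold F; ring

lemma F0 (l : Option κ) : H.F none l = 0 := by
  unfold F
  rw [H.θη, H.η0, B.D_one', sub_zero]

lemma F0' (l : Option κ) : H.F l none = 0 := by rw [F_anti, F0, neg_zero]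

lemma hθ (j : Option κ) : B.h none j = a ^ 2 * η j := by
  rw [H.h_eq, H.η0, H.K0]; ring

lemma Dya (i : Option κ) : B.D (some (Sum.inr i)) (a ^ 2) = 0 := by
  rw [sq, Derivation.leibniz, H.ya]; simp

lemma Dyb (i : Option κ) : B.D (some (Sum.inr i)) (b ^ 2) = 0 := by
  rw [sq, Derivation.leibniz, H.yb]; simp

lemma Dhθ (i j : Option κ) : B.D (some (Sum.inr i)) (B.h none j)
    = a ^ 2 * B.D (some (Sum.inr i)) (η j) := by
  rw [H.hθ, Derivation.leibniz, H.Dya]
  simp

lemma Dθh (i j : Option κ) : B.D (some (Sum.inr none)) (B.h i j) = 0 := by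
  rw [H.h_eq, map_add]
  simp only [Derivation.leibniz, H.θη, H.θK, H.Dya, H.Dyb, smul_eq_mul, mul_zero, add_zero]

/-- the components `Γ^i_{θ j}` -/
lemma G_N (i j : Option κ) : B.G (some (Sum.inr i)) (some (Sum.inr none)) (some (Sum.inr j))
    = (1 / 2 : ℝ) • (a ^ 2 * ∑ l, B.hi i l * H.F j l) := by
  rw [BData.G_def]
  simp only [BData.g, BData.gi, blk_yy, blk_yt, blk_ty, blk_xy, blk_yx, zero_mul,
    Finset.sum_const_zero, zero_add, Finset.univ_eq_empty, Finset.sum_empty]
  congr 1
  rw [Finset.mul_sum]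
  refine Finset.sum_congr rfl fun l _ => ?_
  rw [H.Dθh, H.Dhθ, H.Dhθ]
  unfold F
  ring

omit H in
lemma eq_zero_of_neg {x : A} (h : x = -x) : x = 0 := by
  have h2 : (2 : ℝ) • x = 0 := by
    rw [two_smul]
    linear_combination h
  calc x = (1 / 2 : ℝ) • ((2 : ℝ) • x) := by rw [smul_smul]; norm_num
    _ = 0 := by rw [h2, smul_zero]

/-- the trace of `N` -/
lemma tr_N : ∑ i, B.G (some (Sum.inr i)) (some (Sum.inr none)) (some (Sum.inr i)) = 0 := by
  simp only [H.G_N]
  rw [← Finset.smul_sum, ← Finset.mul_sum]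
  have h1 : ∑ i, ∑ l, B.hi i l * H.F i l = -∑ i, ∑ l, B.hi i l * H.F i l := by
    conv_lhs => rw [Finset.sum_comm]
    rw [← Finset.sum_neg_distrib]
    refine Finset.sum_congr rfl fun i _ => ?_
    rw [← Finset.sum_neg_distrib]
    refine Finset.sum_congr rfl fun l _ => ?_
    rw [B.hi_symm l i, H.F_anti l i]
    ring
  rw [eq_zero_of_neg h1, mul_zero, smul_zero]

lemma N_θ (i : Option κ) : B.G (some (Sum.inr i)) (some (Sum.inr none)) (some (Sum.inr none)) = 0 := by
  rw [H.G_N]
  simp [H.F0]

/-- the components `Γ^i_{θ j}`, `i, j ∈ κ` -/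
lemma N_eq (i j : κ) : B.G (some (Sum.inr (some i))) (some (Sum.inr none)) (some (Sum.inr (some j)))
    = (1 / 2 : ℝ) • (a ^ 2 * bi ^ 2 * ∑ l, ki i l * H.F (some j) (some l)) := by
  rw [H.G_N, Fintype.sum_option, H.F0', mul_zero, zero_add]
  congr 1
  rw [Finset.mul_sum, Finset.mul_sum]
  refine Finset.sum_congr rfl fun l _ => ?_
  rw [H.hi_eq]
  ring

/-- the trace of `N²` -/
lemma tr_NN : ∑ i, ∑ j, B.G (some (Sum.inr i)) (some (Sum.inr none)) (some (Sum.inr j))
      * B.G (some (Sum.inr j)) (some (Sum.inr none)) (some (Sum.inr i))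
    = -((Fintype.card κ : A) * (a ^ 4 * bi ^ 4)) := by
  rw [Fintype.sum_option]
  simp only [Fintype.sum_option, H.N_θ, mul_zero, zero_mul, Finset.sum_const_zero, zero_add]
  simp only [H.N_eq]
  have e1 : ∀ x y : A, ((1 / 2 : ℝ) • (a ^ 2 * bi ^ 2 * x)) * ((1 / 2 : ℝ) • (a ^ 2 * bi ^ 2 * y))
      = (1 / 4 : ℝ) • ((a ^ 4 * bi ^ 4) * (x * y)) := by
    intro x y
    rw [smul_mul_smul_comm]
    norm_num
    ring_nf
  simp only [e1]
  have e2 : ∑ i : κ, ∑ j : κ, (∑ l, ki i l * H.F (some j) (some l))
      * (∑ p, ki j p * H.F (some i) (some p)) = -(4 * (Fintype.card κ : A)) := by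
    have e3 : ∀ i : κ, ∑ j : κ, (∑ l, ki i l * H.F (some j) (some l))
        * (∑ p, ki j p * H.F (some i) (some p)) = -∑ l, ki i l * (4 * K (some i) (some l)) := by
      intro i
      rw [← Finset.sum_neg_distrib]
      have e4 : ∀ l, -(ki i l * (4 * K (some i) (some l)))
          = ∑ j, (ki i l * H.F (some j) (some l)) * ∑ p, ki j p * H.F (some i) (some p) := by
        intro l
        rw [H.K_symm (some i) (some l), ← H.hF l i, ← mul_neg, ← Finset.sum_neg_distrib,
          Finset.mul_sum]
        refine Finset.sum_congr rfl fun j _ => ?_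
        rw [Finset.mul_sum, ← Finset.sum_neg_distrib, Finset.mul_sum]
        refine Finset.sum_congr rfl fun p _ => ?_
        have e5 : H.F (some j) (some l) = -(B.D (some (Sum.inr (some l))) (η (some j))
          - B.D (some (Sum.inr (some j))) (η (some l))) := by unfold F; ring
        have e6 : H.F (some i) (some p) = B.D (some (Sum.inr (some i))) (η (some p))
          - B.D (some (Sum.inr (some p))) (η (some i)) := rfl
        rw [e5, e6]
        ring
      simp only [e4]
      rw [Finset.sum_comm]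
      refine Finset.sum_congr rfl fun j _ => ?_
      rw [Finset.sum_mul]
    simp only [e3]
    have e7 : ∀ i : κ, ∑ l, ki i l * (4 * K (some i) (some l)) = 4 := by
      intro i
      have := H.ki_inv i i
      rw [if_pos rfl] at this
      calc ∑ l, ki i l * (4 * K (some i) (some l)) = 4 * ∑ l, ki i l * K (some i) (some l) := by
            rw [Finset.mul_sum]; exact Finset.sum_congr rfl fun l _ => by ring
        _ = 4 := by rw [this, mul_one]
    simp only [e7, Finset.sum_neg_distrib, Finset.sum_const, Finset.card_univ, nsmul_eq_mul]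
    ring
  simp only [← Finset.smul_sum, ← Finset.mul_sum]
  rw [e2]
  rw [show a ^ 4 * bi ^ 4 * -(4 * (Fintype.card κ : A))
    = (4 : ℝ) • (-((Fintype.card κ : A) * (a ^ 4 * bi ^ 4))) by
      rw [show (4 : ℝ) = 2 * 2 by norm_num, mul_smul, two_smul, two_smul]; ring, smul_smul]
  norm_num

/-- the Ricci curvature in the direction of the circle -/
lemma R_θθ : B.R (some (Sum.inr none)) (some (Sum.inr none))
    = -B.D none (a * B.D none a) - B.σ * (a * B.D none a) + 2 * (B.D none a) ^ 2
      + (Fintype.card κ : A) * (a ^ 4 * bi ^ 4) := by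
  have hG0 : ∀ j : Option κ, B.G none (some (Sum.inr none)) (some (Sum.inr j))
      = -(a * B.D none a * η j) := by
    intro j
    rw [BData.G_tyy, H.Dh_half, H.η0, H.K0]
    ring
  have hG1 : ∀ j : Option κ, B.G (some (Sum.inr j)) (some (Sum.inr none)) none
      = if j = none then H.Xa else 0 := by
    intro j
    rw [BData.G_yyt, H.S_eq', H.η0]
    split_ifs <;> ring
  have sum_idx : ∀ F : Idx Empty (Option κ) → A, ∑ c, F c = F none + ∑ i, F (some (Sum.inr i)) := by
    intro F
    rw [Fintype.sum_option, Fintype.sum_sum_type]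
    simp
  have s1 : ∑ c, B.D c (B.G c (some (Sum.inr none)) (some (Sum.inr none)))
      = -B.D none (a * B.D none a) := by
    rw [sum_idx, hG0, H.η0, mul_one, map_neg]
    simp only [H.N_θ, map_zero, Finset.sum_const_zero, add_zero]
  have s2 : ∑ c, B.D (some (Sum.inr none)) (B.G c (some (Sum.inr none)) c) = 0 := by
    rw [← map_sum, sum_idx, H.tr_N, BData.G_tyt, add_zero, map_zero]
  have s3 : ∑ c, ∑ e, B.G c c e * B.G e (some (Sum.inr none)) (some (Sum.inr none))
      = -(B.σ * (a * B.D none a)) := by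
    have : ∀ c, ∑ e, B.G c c e * B.G e (some (Sum.inr none)) (some (Sum.inr none))
        = -(B.G c c none * (a * B.D none a)) := by
      intro c
      rw [sum_idx, hG0, H.η0, mul_one]
      simp only [H.N_θ, mul_zero, Finset.sum_const_zero, add_zero, mul_neg]
    simp only [this]
    rw [Finset.sum_neg_distrib, sum_idx, BData.G_ttt, ← Finset.sum_mul]
    simp only [BData.G_yyt]
    unfold BData.σ
    ring
  have s4 : ∑ c, ∑ e, B.G c (some (Sum.inr none)) e * B.G e (some (Sum.inr none)) c
      = -(2 * (B.D none a) ^ 2) - (Fintype.card κ : A) * (a ^ 4 * bi ^ 4) := by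
    rw [sum_idx]
    simp only [sum_idx, BData.G_tyt, hG0, hG1, Finset.sum_add_distrib, H.tr_NN]
    simp only [mul_zero, zero_add, Fintype.sum_option, if_true, reduceCtorEq, if_false, zero_mul,
      Finset.sum_const_zero, add_zero, H.η0, mul_one]
    unfold Xa
    linear_combination (-2 * (B.D none a) ^ 2) * H.aa
  unfold BData.R ric
  simp only [Finset.sum_sub_distrib]
  rw [s1, s2, s3, s4]
  ring

/-- **the equation in the direction of the circle** -/
lemma eq_θθ {lam : ℝ} (hS : B.Sol lam) : -B.D none (a * B.D none a) - B.σ * (a * B.D none a)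
      + 2 * (B.D none a) ^ 2 + (Fintype.card κ : A) * (a ^ 4 * bi ^ 4) + a * B.D none a * B.v
    = algebraMap ℝ A lam * a ^ 2 := by
  have h1 := hS (some (Sum.inr none)) (some (Sum.inr none))
  rw [H.R_θθ, BData.H_yy, H.Dh_half, BData.g, blk_yy, H.h_eq, H.η0, H.K0, Algebra.smul_def] at h1
  linear_combination h1

/-- the radial curvatures -/
lemma rm_ty (i j : Option κ) : rm (fun i => B.D i) B.G none (some (Sum.inr i)) none
      (some (Sum.inr j))
    = -(a * B.D none (B.D none a) * (η j * η i)) - b * B.D none (B.D none b) * K j i := by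
  have sum_idx : ∀ F : Idx Empty (Option κ) → A, ∑ c, F c = F none + ∑ i, F (some (Sum.inr i)) := by
    intro F
    rw [Fintype.sum_option, Fintype.sum_sum_type]
    simp
  unfold rm
  rw [sum_idx]
  simp only [BData.G_ttt, BData.G_tty, BData.G_tyy, BData.G_tyt, BData.G_ytt, BData.G_yty,
    H.Dh_half, map_zero, zero_mul, mul_zero, sub_zero, add_zero, zero_add, zero_sub]
  have e1 : B.D none (-(a * B.D none a * (η j * η i) + b * B.D none b * K j i))
      = -((B.D none a) ^ 2 + a * B.D none (B.D none a)) * (η j * η i)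
        - ((B.D none b) ^ 2 + b * B.D none (B.D none b)) * K j i := by
    rw [map_neg, map_add]
    simp only [Derivation.leibniz, H.tη, H.tK, smul_eq_mul, mul_zero, add_zero, zero_add]
    ring
  have e2 : ∑ m, -(-(a * B.D none a * (η j * η m) + b * B.D none b * K j m) * B.S m i)
      = (B.D none a) ^ 2 * (η j * η i) + (B.D none b) ^ 2 * K j i := by
    have e3 : ∀ m, -(-(a * B.D none a * (η j * η m) + b * B.D none b * K j m) * B.S m i)
        = (if m = i then (a * B.D none a * (η j * η m) + b * B.D none b * K j m) * H.Yb else 0)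
          + if m = none then (a * B.D none a * (η j * η m) + b * B.D none b * K j m)
            * ((H.Xa - H.Yb) * η i) else 0 := by
      intro m
      rw [H.S_eq']
      split_ifs <;> ring
    simp only [e3, Finset.sum_add_distrib, Finset.sum_ite_eq', Finset.mem_univ, if_true, H.η0,
      H.K0']
    unfold Xa Yb
    linear_combination ((B.D none a) ^ 2 * (η j * η i)) * H.aa + ((B.D none b) ^ 2 * K j i) * H.bb
  rw [e1, e2]
  ring

end HB

end

end RS61
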