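import Mathlib
import Pool.Agent.RS61.HRing
import Pool.Agent.RS61.HAll
import Pool.Agent.RS61.Cohom

/-!
# The metric `dt² + a(t)² (dθ + α)² + b(t)² k`
-/

open Finset Set Filter
open scoped ContDiff Topology

set_option linter.unusedSectionVars false

namespace RS61

noncomputable section

/-! ### Definitions -/

section defs

variable {κ : Type}

/-- The coefficients of the form `η = dθ + α` in the coordinates `θ = z none`, `y_i = z (some i)`. -/
def etaC (α : κ → Raw κ) : Option κ → Raw (Option κ)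
  | none => fun _ => 1
  | some i => fun z => α i fun l => z (some l)

/-- The coefficients of the metric `k` of the base in the coordinates `θ`, `y_i`. -/
def baseC (k : κ → κ → Raw κ) : Option κ → Option κ → Raw (Option κ)
  | some i, some j => fun z => k i j fun l => z (some l)
  | _, _ => fun _ => 0

/-- The family of metrics `a(t)² (dθ + α)² + b(t)² k` in the coordinates `θ`, `y_i`. -/
def hop (a b : ℝ → ℝ) (α : κ → Raw κ) (k : κ → κ → Raw κ) (t : ℝ) (i j : Option κ) :
    Raw (Option κ) :=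
  fun z => a t ^ 2 * (etaC α i z * etaC α j z) + b t ^ 2 * baseC k i j z

/-- The set of the points `(θ, y)` with `y ∈ V`. -/
def vop (V : Set (κ → ℝ)) : Set (Option κ → ℝ) := {z | (fun i => z (some i)) ∈ V}

end defs

section proj

variable {κ : Type} [Fintype κ] [DecidableEq κ]

/-- the projection to the base -/
def pro : (Option κ → ℝ) →L[ℝ] (κ → ℝ) :=
  ContinuousLinearMap.pi fun i => ContinuousLinearMap.proj (some i)

lemma pro_apply (z : Option κ → ℝ) : pro z = fun i => z (some i) := rfl

/-- partial derivatives of a function of some of the coordinates -/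
lemma pd_inj {ι ι' : Type} [Fintype ι] [Fintype ι'] [DecidableEq ι] [DecidableEq ι'] (e : ι → ι')
    (he : Function.Injective e) (i : ι) {F : Raw ι} {z : ι' → ℝ}
    (hF : DifferentiableAt ℝ F fun l => z (e l)) :
    pd (e i) (fun z : ι' → ℝ => F fun l => z (e l)) z = pd i F fun l => z (e l) := by
  set L : (ι' → ℝ) →L[ℝ] (ι → ℝ) :=
    ContinuousLinearMap.pi fun i => ContinuousLinearMap.proj (e i) with hL
  have h1 : HasFDerivAt (fun z : ι' → ℝ => F fun l => z (e l))
      ((fderiv ℝ F fun l => z (e l)).comp L) z := by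
    have h2 : HasFDerivAt F (fderiv ℝ F fun l => z (e l)) (L z) := hF.hasFDerivAt
    exact h2.comp z L.hasFDerivAt
  unfold pd
  rw [h1.fderiv]
  have h3 : L (Pi.single (e i) 1) = Pi.single i 1 := by
    funext j
    show (Pi.single (e i) (1 : ℝ) : ι' → ℝ) (e j) = _
    by_cases h : j = i
    · subst h; simp
    · rw [Pi.single_eq_of_ne h, Pi.single_eq_of_ne (fun h' => h (he h'))]
  show (fderiv ℝ F _) (L _) = _
  rw [h3]

end proj

/-- the hypotheses on the metric -/
structure HGeo {κ : Type} [Fintype κ] [DecidableEq κ] (T : ℝ) (V : Set (κ → ℝ)) (a b f : ℝ → ℝ)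
    (α : κ → Raw κ) (k : κ → κ → Raw κ) : Prop where
  a_smooth : ContDiff ℝ ∞ a
  b_smooth : ContDiff ℝ ∞ b
  f_smooth : ContDiff ℝ ∞ f
  a_pos : ∀ t ∈ Ioo 0 T, 0 < a t
  b_pos : ∀ t ∈ Ioo 0 T, 0 < b t
  k_riem : IsRiem V k
  α_smooth : ∀ i, ContDiffOn ℝ ∞ (α i) V
  hω : ∀ y ∈ V, ∀ i j, ∑ l, ∑ p, (pd i (α l) y - pd l (α i) y) * minv k l p y
    * (pd j (α p) y - pd p (α j) y) = 4 * k i j y

namespace HGeo

variable {κ : Type} [Fintype κ] [DecidableEq κ] {T : ℝ} {V : Set (κ → ℝ)} {a b f : ℝ → ℝ}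
    {α : κ → Raw κ} {k : κ → κ → Raw κ} (I : HGeo T V a b f α k)

include I

lemma vop_open : IsOpen (vop V) := by
  have h : vop V = pro ⁻¹' V := rfl
  rw [h]
  exact I.k_riem.isOpen.preimage pro.continuous

lemma sm_base {F : Raw κ} (hF : ContDiffOn ℝ ∞ F V) :
    ContDiffOn ℝ ∞ (fun z : Option κ → ℝ => F fun l => z (some l)) (vop V) :=
  hF.comp (pro (κ := κ)).contDiff.contDiffOn fun _ hz => hz

lemma sm_eta (i : Option κ) : ContDiffOn ℝ ∞ (etaC α i) (vop V) := by
  rcases i with _ | i
  · exact contDiffOn_const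
  · exact I.sm_base (I.α_smooth i)

lemma sm_baseC (i j : Option κ) : ContDiffOn ℝ ∞ (baseC k i j) (vop V) := by
  rcases i with _ | i
  · exact contDiffOn_const
  · rcases j with _ | j
    · exact contDiffOn_const
    · exact I.sm_base (I.k_riem.smooth i j)

lemma sm_hop (i j : Option κ) : ContDiffOn ℝ ∞
    (fun q : ℝ × (Option κ → ℝ) => hop a b α k q.1 i j q.2) (Ioo 0 T ×ˢ vop V) := by
  have h1 : ContDiffOn ℝ ∞ (fun q : ℝ × (Option κ → ℝ) => a q.1) (Ioo 0 T ×ˢ vop V) :=
    (I.a_smooth.comp contDiff_fst).contDiffOn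
  have h2 : ContDiffOn ℝ ∞ (fun q : ℝ × (Option κ → ℝ) => b q.1) (Ioo 0 T ×ˢ vop V) :=
    (I.b_smooth.comp contDiff_fst).contDiffOn
  have h3 : ∀ {F : Raw (Option κ)}, ContDiffOn ℝ ∞ F (vop V) →
      ContDiffOn ℝ ∞ (fun q : ℝ × (Option κ → ℝ) => F q.2) (Ioo 0 T ×ˢ vop V) :=
    fun hF => hF.comp contDiff_snd.contDiffOn fun q hq => hq.2
  exact ((h1.pow 2).mul ((h3 (I.sm_eta i)).mul (h3 (I.sm_eta j)))).add
    ((h2.pow 2).mul (h3 (I.sm_baseC i j)))

omit I in
lemma baseC_symm (hk : ∀ y ∈ V, (Matrix.of fun i j => k i j y).PosDef) {z : Option κ → ℝ}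
    (hz : z ∈ vop V) (i j : Option κ) : baseC k i j z = baseC k j i z := by
  rcases i with _ | i <;> rcases j with _ | j <;> try rfl
  exact IsBlock.symm_rel (hk _ hz) i j

lemma pd_hop {t : ℝ} (ht : t ∈ Ioo 0 T) {z : Option κ → ℝ} (hz : z ∈ vop V) :
    (Matrix.of fun i j => hop a b α k t i j z).PosDef := by
  have ha := I.a_pos t ht
  have hb := I.b_pos t ht
  have hk := I.k_riem.posDef _ hz
  refine Matrix.PosDef.of_dotProduct_mulVec_pos ?_ ?_
  · ext i j
    simp only [Matrix.conjTranspose_apply, Matrix.of_apply, star_trivial, hop]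
    rw [baseC_symm I.k_riem.posDef hz j i]
    ring
  · intro x hx
    have e1 : star x ⬝ᵥ Matrix.mulVec (Matrix.of fun i j => hop a b α k t i j z) x
        = a t ^ 2 * (∑ i, etaC α i z * x i) ^ 2
          + b t ^ 2 * ∑ i : κ, ∑ j : κ, x (some i) * (k i j fun l => z (some l)) * x (some j) := by
      have e2 : ∑ i : κ, ∑ j : κ, x (some i) * (k i j fun l => z (some l)) * x (some j)
          = ∑ i, ∑ j, x i * baseC k i j z * x j := by
        rw [Fintype.sum_option]
        simp only [Fintype.sum_option, baseC, mul_zero, zero_mul, Finset.sum_const_zero, zero_add]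
      rw [e2, sq (∑ i, etaC α i z * x i), Finset.sum_mul_sum, Finset.mul_sum, Finset.mul_sum,
        ← Finset.sum_add_distrib]
      simp only [dotProduct, Matrix.mulVec, Matrix.of_apply, Pi.star_apply, star_trivial, hop]
      refine Finset.sum_congr rfl fun i _ => ?_
      rw [Finset.mul_sum, Finset.mul_sum, Finset.mul_sum, ← Finset.sum_add_distrib]
      refine Finset.sum_congr rfl fun j _ => ?_
      ring
    have e3 : ∑ i : κ, ∑ j : κ, x (some i) * (k i j fun l => z (some l)) * x (some j)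
        = star (fun i => x (some i)) ⬝ᵥ Matrix.mulVec
          (Matrix.of fun i j => k i j fun l => z (some l)) (fun i => x (some i)) := by
      simp only [dotProduct, Matrix.mulVec, Matrix.of_apply, Pi.star_apply, star_trivial]
      refine Finset.sum_congr rfl fun i _ => ?_
      rw [Finset.mul_sum]
      refine Finset.sum_congr rfl fun j _ => ?_
      ring
    rw [e1, e3]
    by_cases h0 : (fun i : κ => x (some i)) = 0
    · have h1 : ∀ i : κ, x (some i) = 0 := fun i => congrFun h0 i
      have h2 : x none ≠ 0 := by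
        intro h
        apply hx
        funext i
        rcases i with _ | i
        · exact h
        · exact h1 i
      rw [h0, Fintype.sum_option]
      simp only [h1, mul_zero, Finset.sum_const_zero, add_zero, etaC, one_mul]
      have h3 : star (0 : κ → ℝ) ⬝ᵥ Matrix.mulVec
          (Matrix.of fun i j => k i j fun l => z (some l)) (0 : κ → ℝ) = 0 := by simp
      rw [h3]
      positivity
    · have h1 := hk.dotProduct_mulVec_pos h0
      positivity

lemma isBlock : IsBlock (κ₁ := Empty) T univ (vop V) (fun _ => 1) f k0 (hop a b α k) :=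
  isBlock0 I.f_smooth I.vop_open I.sm_hop (fun _ ht _ hz => I.pd_hop ht hz)

lemma sm_y {F : Raw (Option κ)} (hF : ContDiffOn ℝ ∞ F (vop V)) :
    ContDiffOn ℝ ∞ (fun z : Idx Empty (Option κ) → ℝ => F fun l => z (some (Sum.inr l)))
      (dom (κ₁ := Empty) T univ (vop V)) :=
  hF.comp (pry (κ₁ := Empty) (κ₂ := Option κ)).contDiff.contDiffOn fun _ hz => hz.2.2

lemma sm_ki (i j : κ) : ContDiffOn ℝ ∞ (fun z : Idx Empty (Option κ) → ℝ =>
    minv k i j fun l => z (some (Sum.inr (some l)))) (dom (κ₁ := Empty) T univ (vop V)) :=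
  I.sm_y (F := fun z => minv k i j fun l => z (some l)) (I.sm_base
    (contDiffOn_inv (M := fun y => Matrix.of fun i j => k i j y) (I.k_riem.smooth)
    (fun _ hy => (I.k_riem.posDef _ hy).det_pos.ne') i j))

lemma sm_inv {F : ℝ → ℝ} (hF : ContDiff ℝ ∞ F) (h0 : ∀ t ∈ Ioo 0 T, 0 < F t) :
    ContDiffOn ℝ ∞ (fun z : Idx Empty (Option κ) → ℝ => (F (z none))⁻¹)
      (dom (κ₁ := Empty) T univ (vop V)) :=
  (I.isBlock.sm_t hF).inv fun _ hz => (h0 _ hz.1).ne'

omit I in
lemma y_none (z : Idx Empty (Option κ) → ℝ) (s : ℝ) :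
    (fun l : Option κ => (z + s • (Pi.single none 1 : Idx Empty (Option κ) → ℝ)) (some (Sum.inr l)))
      = fun l => z (some (Sum.inr l)) := by
  funext l; simp

omit I in
lemma y_θ (z : Idx Empty (Option κ) → ℝ) (s : ℝ) (l : κ) :
    (z + s • (Pi.single (some (Sum.inr none)) 1 : Idx Empty (Option κ) → ℝ))
      (some (Sum.inr (some l))) = z (some (Sum.inr (some l))) := by
  simp

lemma ring_pd (i l : κ) (z : dom (κ₁ := Empty) T univ (vop V)) :
    evl z (I.isBlock.bdat.D (some (Sum.inr (some i))) (res (I.sm_y (I.sm_eta (some l)))))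
      = pd i (α l) fun m => z.1 (some (Sum.inr (some m))) := by
  show (smD I.isBlock.W_open (some (Sum.inr (some i))) (res (I.sm_y (I.sm_eta (some l))))).1 z = _
  rw [smD_apply, pd_congr I.isBlock.W_open _ (ext_res _) z.2]
  have hz : (fun m => z.1 (some (Sum.inr (some m)))) ∈ V := z.2.2.2
  exact pd_inj (fun m : κ => (some (Sum.inr (some m)) : Idx Empty (Option κ)))
    (fun x y h => by simpa using h) i
    (((I.α_smooth l).contDiffAt (I.k_riem.isOpen.mem_nhds hz)).differentiableAt (by simp))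

/-- the ring data -/
lemma hb : HB I.isBlock.bdat (res (I.isBlock.sm_t I.a_smooth)) (res (I.sm_inv I.a_smooth I.a_pos))
    (res (I.isBlock.sm_t I.b_smooth)) (res (I.sm_inv I.b_smooth I.b_pos))
    (fun i => res (I.sm_y (I.sm_eta i))) (fun i j => res (I.sm_y (I.sm_baseC i j)))
    (fun i j => res (I.sm_ki i j)) where
  aa := by
    apply Subtype.ext
    funext z
    exact inv_mul_cancel₀ (I.a_pos _ z.2.1).ne'
  bb := by
    apply Subtype.ext
    funext z
    exact inv_mul_cancel₀ (I.b_pos _ z.2.1).ne'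
  h_eq i j := by
    refine SmF.ext_iff' fun z => ?_
    rw [map_add, map_mul, map_mul, map_mul, map_pow, map_pow]
    rfl
  η0 := rfl
  K0 j := rfl
  K_symm i j := by
    apply Subtype.ext
    funext z
    exact baseC_symm I.k_riem.posDef z.2.2.2 i j
  tη i := IsBlock.smD_zero I.isBlock.W_open _ _ fun z s => by rw [y_none]
  tK i j := IsBlock.smD_zero I.isBlock.W_open _ _ fun z s => by rw [y_none]
  ya i := IsBlock.smD_zero I.isBlock.W_open _ _ fun z s => by rw [IsBlock.none_x]
  yb i := IsBlock.smD_zero I.isBlock.W_open _ _ fun z s => by rw [IsBlock.none_x]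
  θη i := IsBlock.smD_zero I.isBlock.W_open _ _ fun z s => by
    rcases i with _ | i
    · rfl
    · simp only [etaC, y_θ]
  θK i j := IsBlock.smD_zero I.isBlock.W_open _ _ fun z s => by
    rcases i with _ | i
    · rfl
    · rcases j with _ | j
      · rfl
      · simp only [baseC, y_θ]
  ki_symm i j := by
    apply Subtype.ext
    funext z
    have hk := I.k_riem.posDef _ z.2.2.2
    exact IsBlock.symm_rel hk.inv i j
  ki_inv i j := by
    refine SmF.ext_iff' fun z => ?_
    have h1 := IsBlock.inv_rel (I.k_riem.posDef _ z.2.2.2) i j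
    rw [map_sum, apply_ite (evl z), map_one, map_zero, ← h1]
    exact Finset.sum_congr rfl fun l _ => by rw [map_mul]; rfl
  hF i j := by
    refine SmF.ext_iff' fun z => ?_
    simp only [map_sum, map_mul, map_sub, I.ring_pd, map_ofNat]
    exact I.hω _ z.2.2.2 i j

end HGeo

end

end RS61
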