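import Mathlib
import Pool.Agent.RS61.HGeo

/-!
# From the soliton equation to the ordinary differential equations
-/

open Finset Set Filter
open scoped ContDiff Topology

set_option linter.unusedSectionVars false

namespace RS61

noncomputable section

namespace HGeo

variable {κ : Type} [Fintype κ] [DecidableEq κ] {T : ℝ} {V : Set (κ → ℝ)} {a b f : ℝ → ℝ}
    {α : κ → Raw κ} {k : κ → κ → Raw κ} (I : HGeo T V a b f α k)

/-- the point of the empty factor -/
def x0 : Empty → ℝ := fun i => i.elim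

/-- a point over `y` -/
def yo (y : κ → ℝ) : Option κ → ℝ
  | none => 0
  | some i => y i

lemma yo_mem {y : κ → ℝ} (hy : y ∈ V) : yo y ∈ vop V := hy

lemma x0_mem : x0 ∈ (univ : Set (Empty → ℝ)) := trivial

/-- the dimension of the base is even -/
lemma card_even (hω : ∀ y ∈ V, ∀ i j, ∑ l, ∑ p, (pd i (α l) y - pd l (α i) y) * minv k l p y
    * (pd j (α p) y - pd p (α j) y) = 4 * k i j y)
    (hk : ∀ y ∈ V, (Matrix.of fun i j => k i j y).PosDef) {y : κ → ℝ} (hy : y ∈ V) :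
    Even (Fintype.card κ) := by
  set F : Matrix κ κ ℝ := Matrix.of fun i l => pd i (α l) y - pd l (α i) y with hF
  set K : Matrix κ κ ℝ := Matrix.of fun i j => k i j y with hK
  have hdK : K.det ≠ 0 := (hk y hy).det_pos.ne'
  have h1 : F * K⁻¹ * F.transpose = (4 : ℝ) • K := by
    ext i j
    rw [Matrix.smul_apply, Matrix.mul_apply, smul_eq_mul]
    have h2 := hω y hy i j
    rw [show (4 : ℝ) * K i j = 4 * k i j y from rfl, ← h2, Finset.sum_comm]
    refine Finset.sum_congr rfl fun p _ => ?_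
    rw [Matrix.mul_apply, Finset.sum_mul]
    refine Finset.sum_congr rfl fun l _ => ?_
    rfl
  have h2 : F.transpose = -F := by
    ext i j
    simp only [hF, Matrix.transpose_apply, Matrix.of_apply, Matrix.neg_apply]
    ring
  have h3 := congrArg Matrix.det h1
  rw [Matrix.det_mul, Matrix.det_mul, Matrix.det_smul, Matrix.det_transpose] at h3
  have h4 : F.det ≠ 0 := by
    intro h
    rw [h, zero_mul, zero_mul] at h3
    exact mul_ne_zero (pow_ne_zero _ (by norm_num)) hdK h3.symm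
  have h5 : F.det = (-1) ^ Fintype.card κ * F.det := by
    conv_lhs => rw [← Matrix.det_transpose, h2, Matrix.det_neg]
  have h6 : ((-1 : ℝ)) ^ Fintype.card κ = 1 := by
    have : (1 - (-1 : ℝ) ^ Fintype.card κ) * F.det = 0 := by linear_combination h5
    have := (mul_eq_zero.1 this).resolve_right h4
    linarith
  by_contra hc
  rw [Nat.not_even_iff_odd] at hc
  rw [hc.neg_one_pow] at h6
  norm_num at h6

include I

section line

variable {y : κ → ℝ} (hy : y ∈ V)

/-- the ring element of a function of `t` -/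
def rt (I : HGeo T V a b f α k) {F : ℝ → ℝ} (hF : ContDiff ℝ ∞ F) :
    SmF (dom (κ₁ := Empty) T univ (vop V)) := res (I.isBlock.sm_t hF)

include hy in
lemma ev_rt {F : ℝ → ℝ} (hF : ContDiff ℝ ∞ F) {t : ℝ} (ht : t ∈ Ioo 0 T) :
    IsBlock.lin x0 (yo y) (I.rt hF) t = F t := by
  rw [IsBlock.lin_eq x0_mem (yo_mem hy) _ ht]; rfl

include hy in
lemma ev_rt1 {F : ℝ → ℝ} (hF : ContDiff ℝ ∞ F) : ∀ t ∈ Ioo 0 T,
    IsBlock.lin x0 (yo y) (I.isBlock.bdat.D none (I.rt hF)) t = deriv F t :=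
  I.isBlock.lin_of_eq (fun _ ht => I.ev_rt hy hF ht) x0_mem (yo_mem hy)

include hy in
lemma ev_rt2 {F : ℝ → ℝ} (hF : ContDiff ℝ ∞ F) : ∀ t ∈ Ioo 0 T,
    IsBlock.lin x0 (yo y) (I.isBlock.bdat.D none (I.isBlock.bdat.D none (I.rt hF))) t
      = deriv (deriv F) t :=
  I.isBlock.lin_of_eq (I.ev_rt1 hy hF) x0_mem (yo_mem hy)

include hy in
lemma ev_σ : ∀ t ∈ Ioo 0 T, IsBlock.lin x0 (yo y) I.isBlock.bdat.σ t
    = deriv a t / a t + Fintype.card κ * (deriv b t / b t) := by
  intro t ht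
  have e1 := I.ev_rt1 hy I.a_smooth t ht
  have e2 := I.ev_rt1 hy I.b_smooth t ht
  rw [IsBlock.lin_eq x0_mem (yo_mem hy) _ ht] at e1 e2 ⊢
  rw [I.hb.σ_eq]
  unfold HB.Xa HB.Yb
  rw [map_add, map_mul, map_mul, map_mul, map_natCast]
  have e3 : evl (IsBlock.pw x0_mem (yo_mem hy) ht) (res (I.sm_inv I.a_smooth I.a_pos)) = (a t)⁻¹ :=
    rfl
  have e4 : evl (IsBlock.pw x0_mem (yo_mem hy) ht) (res (I.sm_inv I.b_smooth I.b_pos)) = (b t)⁻¹ :=
    rfl
  have e5 : evl (IsBlock.pw x0_mem (yo_mem hy) ht)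
    (I.isBlock.bdat.D none (res (I.isBlock.sm_t I.a_smooth))) = deriv a t := e1
  have e6 : evl (IsBlock.pw x0_mem (yo_mem hy) ht)
    (I.isBlock.bdat.D none (res (I.isBlock.sm_t I.b_smooth))) = deriv b t := e2
  rw [e3, e4, e5, e6]
  ring

include hy in
lemma ev_τ : ∀ t ∈ Ioo 0 T, IsBlock.lin x0 (yo y) I.isBlock.bdat.τ t
    = (deriv a t / a t) ^ 2 + Fintype.card κ * (deriv b t / b t) ^ 2 := by
  intro t ht
  have e1 := I.ev_rt1 hy I.a_smooth t ht
  have e2 := I.ev_rt1 hy I.b_smooth t ht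
  rw [IsBlock.lin_eq x0_mem (yo_mem hy) _ ht] at e1 e2 ⊢
  rw [I.hb.τ_eq]
  unfold HB.Xa HB.Yb
  rw [map_add, map_mul, map_pow, map_pow, map_mul, map_mul, map_natCast]
  have e3 : evl (IsBlock.pw x0_mem (yo_mem hy) ht) (res (I.sm_inv I.a_smooth I.a_pos)) = (a t)⁻¹ :=
    rfl
  have e4 : evl (IsBlock.pw x0_mem (yo_mem hy) ht) (res (I.sm_inv I.b_smooth I.b_pos)) = (b t)⁻¹ :=
    rfl
  have e5 : evl (IsBlock.pw x0_mem (yo_mem hy) ht)
    (I.isBlock.bdat.D none (res (I.isBlock.sm_t I.a_smooth))) = deriv a t := e1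
  have e6 : evl (IsBlock.pw x0_mem (yo_mem hy) ht)
    (I.isBlock.bdat.D none (res (I.isBlock.sm_t I.b_smooth))) = deriv b t := e2
  rw [e3, e4, e5, e6]
  ring

include hy in
lemma ev_s : ∀ t ∈ Ioo 0 T, IsBlock.lin x0 (yo y) I.isBlock.bdat.s t
    = deriv a t / a t + Fintype.card κ * (deriv b t / b t) := by
  intro t ht
  rw [I.isBlock.lin_s x0_mem (yo_mem hy) t ht, I.ev_σ hy t ht]
  simp

include hy in
lemma ev_ds : ∀ t ∈ Ioo 0 T, IsBlock.lin x0 (yo y) (I.isBlock.bdat.D none I.isBlock.bdat.s) t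
    = deriv (deriv a) t / a t - (deriv a t / a t) ^ 2
      + Fintype.card κ * (deriv (deriv b) t / b t - (deriv b t / b t) ^ 2) := by
  intro t ht
  rw [I.isBlock.lin_of_eq (I.ev_s hy) x0_mem (yo_mem hy) t ht]
  have ha := ((contDiff_infty_iff_deriv.1 I.a_smooth).1 t).hasDerivAt
  have ha1 := ((contDiff_infty_iff_deriv.1 (contDiff_infty_iff_deriv.1 I.a_smooth).2).1 t).hasDerivAt
  have hb := ((contDiff_infty_iff_deriv.1 I.b_smooth).1 t).hasDerivAt
  have hb1 := ((contDiff_infty_iff_deriv.1 (contDiff_infty_iff_deriv.1 I.b_smooth).2).1 t).hasDerivAt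
  have ha0 := (I.a_pos t ht).ne'
  have hb0 := (I.b_pos t ht).ne'
  have h := (ha1.div ha ha0).add ((hb1.div hb hb0).const_mul (Fintype.card κ : ℝ))
  refine (h.congr_deriv ?_).deriv
  field_simp

end line

/-- **the equations of the soliton** -/
theorem hdata {lam : ℝ} (hT : 0 < T) (hlam : 0 < lam) {y : κ → ℝ} (hy : y ∈ V)
    (hq : 2 ≤ Fintype.card κ)
    (hS : IsSoliton (cdom T (vop V)) (cmet (hop a b α k)) (fun z => f (z none)) lam) :
    HData T lam (Fintype.card κ) a b f := by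
  have hS' := sol_tr hS
  refine ⟨hT, hlam, hq, I.a_smooth, I.b_smooth, I.f_smooth, I.a_pos, I.b_pos, ?_, ?_, ?_⟩
  · -- tt
    intro t ht
    have h1 := congrArg (fun q => IsBlock.lin x0 (yo y) q t) (I.isBlock.sol hS').tt
    have e1 := I.isBlock.lin_v1 x0_mem (yo_mem hy) t ht
    have e2 := I.ev_ds hy t ht
    have e3 := I.ev_τ hy t ht
    rw [e1] at h1
    rw [h1]
    simp only [IsBlock.lin_eq x0_mem (yo_mem hy) _ ht, BData.p] at e2 e3 ⊢
    simp only [map_add, map_mul, map_pow, map_natCast, AlgHom.commutes, e2, e3]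
    simp only [Fintype.card_eq_zero, Nat.cast_zero, zero_mul, zero_add, Algebra.algebraMap_self,
      RingHom.id_apply]
    ring
  · -- θθ
    intro t ht
    have h1 := congrArg (fun q => IsBlock.lin x0 (yo y) q t) (I.hb.eq_θθ (I.isBlock.sol hS'))
    have e1 := I.ev_rt hy I.a_smooth ht
    have e2 := I.ev_rt1 hy I.a_smooth t ht
    have e3 := I.ev_rt2 hy I.a_smooth t ht
    have e4 := I.isBlock.lin_v x0_mem (yo_mem hy) t ht
    have e5 := I.ev_σ hy t ht
    simp only [IsBlock.lin_eq x0_mem (yo_mem hy) _ ht, rt] at e1 e2 e3 e4 e5 h1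
    simp only [map_add, map_sub, map_neg, map_mul, map_pow, map_natCast, AlgHom.commutes,
      Derivation.leibniz, smul_eq_mul, e1, e2, e3, e4, e5, map_ofNat] at h1
    have e6 : evl (IsBlock.pw x0_mem (yo_mem hy) ht) (res (I.sm_inv I.b_smooth I.b_pos))
      = (b t)⁻¹ := rfl
    rw [e6] at h1
    have ha0 := (I.a_pos t ht).ne'
    have hb0 := (I.b_pos t ht).ne'
    have h2 : (algebraMap ℝ ℝ) lam = lam := rfl
    rw [h2] at h1
    have h3 : a t * (deriv (deriv a) t - (Fintype.card κ * a t ^ 3 / b t ^ 4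
      - Fintype.card κ * deriv a t * deriv b t / b t + deriv a t * deriv f t - lam * a t)) = 0 := by
      field_simp
      field_simp at h1
      linear_combination (-1 : ℝ) * h1
    have h4 := (mul_eq_zero.1 h3).resolve_left ha0
    linarith
  · -- bi
    intro t ht
    have h1 := congrArg (fun q => IsBlock.lin x0 (yo y) q t) (I.isBlock.sol hS').bianchi
    have h1' := congrArg (fun q => IsBlock.lin x0 (yo y) q t) (I.isBlock.sol hS').tt
    have e0 : IsBlock.lin x0 (yo y) (0 : SmF (dom T univ (vop V))) t = 0 := by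
      rw [IsBlock.lin_eq x0_mem (yo_mem hy) _ ht, map_zero]
    rw [e0] at h1
    have e1 := I.isBlock.lin_v x0_mem (yo_mem hy) t ht
    have e2 := I.isBlock.lin_v1 x0_mem (yo_mem hy) t ht
    have e3 := I.isBlock.lin_v2 x0_mem (yo_mem hy) t ht
    have e4 := I.ev_s hy t ht
    have e5 := I.ev_ds hy t ht
    have e6 := I.ev_τ hy t ht
    simp only [IsBlock.lin_eq x0_mem (yo_mem hy) _ ht, BData.p] at h1 h1' e1 e2 e3 e4 e5 e6
    simp only [map_add, map_sub, map_mul, map_pow, map_natCast, map_ofNat, AlgHom.commutes,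
      e1, e2, e3, e4, e5, e6] at h1 h1'
    simp only [Fintype.card_eq_zero, Nat.cast_zero, zero_mul, zero_add, Algebra.algebraMap_self,
      RingHom.id_apply] at h1 h1'
    linear_combination h1 - deriv f t * h1'

end HGeo

end

end RS61
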