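import Mathlib
import Pool.Agent.RS61.HLink

/-!
# The radial curvatures of `dt² + a(t)² (dθ + α)² + b(t)² k`
-/

open Finset Set Filter
open scoped ContDiff Topology

set_option linter.unusedSectionVars false

namespace RS61

noncomputable section

section transport

variable {ι ι' : Type} [Fintype ι] [Fintype ι'] [DecidableEq ι] [DecidableEq ι'] (e : ι ≃ ι')
  {Γ : ι → ι → ι → Raw ι} {Γ' : ι' → ι' → ι' → Raw ι'} {g : ι → ι → Raw ι} {g' : ι' → ι' → Raw ι'}

lemma rm_tr (hΓ : ∀ c a b, Γ' (e c) (e a) (e b) = tr e (Γ c a b)) (l k i j : ι) :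
    rm pd Γ' (e l) (e k) (e i) (e j) = tr e (rm pd Γ l k i j) := by
  unfold rm
  rw [tr_add, tr_sub, tr_sum, ← Equiv.sum_comp e, hΓ, hΓ, pd_tr, pd_tr]
  congr 1
  refine Finset.sum_congr rfl fun m _ => ?_
  rw [hΓ, hΓ, hΓ, hΓ, ← tr_mul, ← tr_mul, ← tr_sub]

lemma secNum_tr (hg : ∀ i j, g' (e i) (e j) = tr e (g i j)) (z u v : ι' → ℝ) :
    secNum g' z u v = secNum g (fun i => z (e i)) (fun i => u (e i)) (fun i => v (e i)) := by
  have hΓ : ∀ c a b, chr pd g' (minv g') (e c) (e a) (e b) = tr e (chr pd g (minv g) c a b) :=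
    chr_tr e hg (minv_tr e hg)
  unfold secNum
  rw [← Equiv.sum_comp e]
  refine Finset.sum_congr rfl fun l _ => ?_
  rw [← Equiv.sum_comp e]
  refine Finset.sum_congr rfl fun m _ => ?_
  rw [← Equiv.sum_comp e]
  refine Finset.sum_congr rfl fun k _ => ?_
  rw [← Equiv.sum_comp e]
  refine Finset.sum_congr rfl fun i _ => ?_
  rw [← Equiv.sum_comp e]
  refine Finset.sum_congr rfl fun j _ => ?_
  rw [rm_tr e hΓ, hg]
  rfl

end transport

/-- the curvatures of the planes containing `∂_t` -/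
lemma secNum_t {κ₁ κ₂ : Type} [Fintype κ₁] [Fintype κ₂] [DecidableEq κ₁] [DecidableEq κ₂]
    (a : ℝ → ℝ) (k : κ₁ → κ₁ → Raw κ₁) (h : ℝ → κ₂ → κ₂ → Raw κ₂) (z v : Idx κ₁ κ₂ → ℝ) :
    secNum (wmet a k h) z (Pi.single none 1) v
      = ∑ m, ∑ j, rm pd (chr pd (wmet a k h) (minv (wmet a k h))) none m none j z * v j * v m := by
  unfold secNum
  rw [Fintype.sum_option]
  have e1 : wmet a k h none none z = 1 := rfl
  have e2 : ∀ l : κ₁ ⊕ κ₂, wmet a k h (some l) none z = 0 := by
    rintro (l | l) <;> rfl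
  have e3 : ∀ l : κ₁ ⊕ κ₂, ∑ m, ∑ k', ∑ i, ∑ j, wmet a k h (some l) m z
      * (Pi.single none 1 : Idx κ₁ κ₂ → ℝ) m
      * rm pd (chr pd (wmet a k h) (minv (wmet a k h))) (some l) k' i j z
      * (Pi.single none 1 : Idx κ₁ κ₂ → ℝ) i * v j * v k' = 0 := by
    intro l
    refine Finset.sum_eq_zero fun m _ => ?_
    rcases eq_or_ne m none with h | h
    · subst h
      simp [e2]
    · simp [Pi.single_eq_of_ne h]
  simp only [e3, Finset.sum_const_zero, add_zero]
  rw [Finset.sum_eq_single none]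
  · refine Finset.sum_congr rfl fun m _ => ?_
    rw [Finset.sum_eq_single none]
    · refine Finset.sum_congr rfl fun j _ => ?_
      simp [e1]
    · intro b _ hb; simp [Pi.single_eq_of_ne hb]
    · intro hb; exact absurd (Finset.mem_univ _) hb
  · intro b _ hb; simp [Pi.single_eq_of_ne hb]
  · intro hb; exact absurd (Finset.mem_univ _) hb

namespace HGeo

variable {κ : Type} [Fintype κ] [DecidableEq κ] {T : ℝ} {V : Set (κ → ℝ)} {a b f : ℝ → ℝ}
    {α : κ → Raw κ} {k : κ → κ → Raw κ} (I : HGeo T V a b f α k)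

/-- the point `(t, 0, y)` -/
def po (t : ℝ) (y : κ → ℝ) : Option (Option κ) → ℝ
  | none => t
  | some i => yo y i

include I

lemma po_mem {t : ℝ} (ht : t ∈ Ioo 0 T) {y : κ → ℝ} (hy : y ∈ V) : po t y ∈ cdom T (vop V) :=
  ⟨ht, yo_mem hy⟩

/-- the radial curvatures -/
lemma secNum_eq {t : ℝ} (ht : t ∈ Ioo 0 T) {y : κ → ℝ} (hy : y ∈ V) {v : Option (Option κ) → ℝ}
    (hv : v none = 0) : secNum (cmet (hop a b α k)) (po t y) (Pi.single none 1) v
      = -(a t * deriv (deriv a) t * (∑ i, etaC α i (yo y) * v (some i)) ^ 2)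
        - b t * deriv (deriv b) t * ∑ i, ∑ j, baseC k i j (yo y) * v (some i) * v (some j) := by
  rw [secNum_tr (ie (Option κ)) (cmet_tr (hop a b α k))]
  have e1 : (fun i => (Pi.single none 1 : Option (Option κ) → ℝ) (ie (Option κ) i))
      = (Pi.single none 1 : Idx Empty (Option κ) → ℝ) := by
    funext i
    rcases i with _ | i | i
    · rfl
    · exact i.elim
    · show (Pi.single none 1 : Option (Option κ) → ℝ) (some i) = _
      rw [Pi.single_eq_of_ne (by simp), Pi.single_eq_of_ne (by simp)]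
  have e2 : (fun i => po t y (ie (Option κ) i)) = pt t x0 (yo y) := by
    funext i
    rcases i with _ | i | i
    · rfl
    · exact i.elim
    · rfl
  rw [e1, e2, secNum_t]
  set z := IsBlock.pw x0_mem (yo_mem hy) ht with hz
  have e3 : pt t x0 (yo y) = z.1 := rfl
  rw [e3]
  simp only [I.isBlock.rm_eq]
  simp only [Fintype.sum_option (α := Empty ⊕ Option κ), Fintype.sum_sum_type,
    Finset.univ_eq_empty, Finset.sum_empty, zero_add]
  have e4 : v ((ie (Option κ)) none) = 0 := hv
  simp only [e4, mul_zero, zero_add, Finset.sum_const_zero]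
  have e5 : ∀ i, v ((ie (Option κ)) (some (Sum.inr i))) = v (some i) := fun _ => rfl
  simp only [e5, I.hb.rm_ty]
  have e6 := I.ev_rt2 hy I.a_smooth t ht
  have e7 := I.ev_rt2 hy I.b_smooth t ht
  simp only [IsBlock.lin_eq x0_mem (yo_mem hy) _ ht, rt] at e6 e7
  simp only [map_sub, map_neg, map_mul]
  rw [← hz] at e6 e7
  rw [e6, e7]
  have e8 : evl z (res (I.isBlock.sm_t I.a_smooth)) = a t := rfl
  have e9 : evl z (res (I.isBlock.sm_t I.b_smooth)) = b t := rfl
  have e10 : ∀ i, evl z (res (I.sm_y (I.sm_eta i))) = etaC α i (yo y) := fun _ => rfl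
  have e11 : ∀ i j, evl z (res (I.sm_y (I.sm_baseC i j))) = baseC k i j (yo y) := fun _ _ => rfl
  simp only [e8, e9, e10, e11, zero_mul, zero_add]
  rw [sq, Finset.sum_mul_sum, Finset.mul_sum, Finset.mul_sum, ← Finset.sum_neg_distrib,
    ← Finset.sum_sub_distrib]
  refine Finset.sum_congr rfl fun i _ => ?_
  rw [Finset.mul_sum, Finset.mul_sum, ← Finset.sum_neg_distrib, ← Finset.sum_sub_distrib]
  refine Finset.sum_congr rfl fun j _ => ?_
  rw [baseC_symm I.k_riem.posDef (yo_mem hy) i j]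
  ring

/-- `b'' < 0` -/
lemma b2_neg {y : κ → ℝ} (hy : y ∈ V) (i : κ)
    (hsec : ∀ z ∈ cdom T (vop V), ∀ v : Option (Option κ) → ℝ, v ≠ 0 → v none = 0 →
      ∑ i, etaC α i (fun l => z (some l)) * v (some i) = 0 →
      0 < secNum (cmet (hop a b α k)) z (Pi.single none 1) v) :
    ∀ t ∈ Ioo 0 T, deriv (deriv b) t < 0 := by
  intro t ht
  set v : Option (Option κ) → ℝ := fun m => match m with
    | none => 0
    | some none => -α i y
    | some (some j) => if j = i then 1 else 0 with hv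
  have h1 : ∑ m, etaC α m (yo y) * v (some m) = 0 := by
    rw [Fintype.sum_option]
    simp only [hv, etaC, one_mul, mul_ite, mul_one, mul_zero, Finset.sum_ite_eq', Finset.mem_univ,
      if_true]
    have : (fun l => yo y (some l)) = y := rfl
    rw [this]
    ring
  have h2 := hsec (po t y) (I.po_mem ht hy) v (by
    intro h
    have := congrFun h (some (some i))
    simp [hv] at this) rfl h1
  rw [I.secNum_eq ht hy rfl, h1] at h2
  have h3 : ∑ p, ∑ q, baseC k p q (yo y) * v (some p) * v (some q) = k i i y := by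
    rw [Fintype.sum_option]
    simp only [Fintype.sum_option, baseC, hv, zero_mul, Finset.sum_const_zero, zero_add, mul_ite,
      mul_one, mul_zero, ite_self, Finset.sum_ite_eq', Finset.mem_univ, if_true]
    rfl
  rw [h3] at h2
  have hk : 0 < k i i y := (I.k_riem.posDef y hy).diag_pos (i := i)
  have hb := I.b_pos t ht
  by_contra hc
  have h4 : 0 ≤ b t * deriv (deriv b) t * k i i y :=
    mul_nonneg (mul_nonneg hb.le (not_lt.1 hc)) hk.le
  nlinarith

end HGeo

end

end RS61
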